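import Mathlib

/-! The problem, word for word as in the frozen statement S02449, and codes of finite-dimensional
algebras. -/

set_option autoImplicit false

namespace Pool.Agent.TH477.NA.Q

/-- The text of the frozen statement S02449: the isomorphism problem for finitely presented
nonassociative algebras over the rationals is decidable. -/
def IsoProblem : Prop :=
  ∀ (mon : ∀ n : ℕ, List ℕ → MonoidAlgebra ℚ (FreeMagma (Fin n))),
    mon = (fun (n : ℕ) (w : List ℕ) =>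
      (List.foldl (fun (s : List (MonoidAlgebra ℚ (FreeMagma (Fin n)))) (t : ℕ) =>
        if t = 0 then (s.tail.headD 0 * s.headD 0) :: s.tail.tail
        else (if h : t - 1 < n then MonoidAlgebra.single (FreeMagma.of (⟨t - 1, h⟩ : Fin n)) (1 : ℚ) else 0) :: s)
        ([] : List (MonoidAlgebra ℚ (FreeMagma (Fin n)))) w).headD 0) →
  ∀ (I : ∀ p : ℕ × List (List ((ℕ × ℕ) × List ℕ)), Submodule ℚ (MonoidAlgebra ℚ (FreeMagma (Fin p.1)))),
    I = (fun (p : ℕ × List (List ((ℕ × ℕ) × List ℕ))) =>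
      sInf {S : Submodule ℚ (MonoidAlgebra ℚ (FreeMagma (Fin p.1))) |
        (∀ r ∈ p.2, (List.map (fun (c : (ℕ × ℕ) × List ℕ) =>
            (((c.1.1 : ℚ) - (c.1.2 : ℚ)) • mon p.1 c.2)) r).sum ∈ S) ∧
        ∀ a x : MonoidAlgebra ℚ (FreeMagma (Fin p.1)), x ∈ S → a * x ∈ S ∧ x * a ∈ S}) →
  ComputablePred (fun (pq : (ℕ × List (List ((ℕ × ℕ) × List ℕ))) × (ℕ × List (List ((ℕ × ℕ) × List ℕ)))) =>
    ∃ e : (MonoidAlgebra ℚ (FreeMagma (Fin pq.1.1)) ⧸ I pq.1) ≃ₗ[ℚ] (MonoidAlgebra ℚ (FreeMagma (Fin pq.2.1)) ⧸ I pq.2),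
      ∀ (x y : MonoidAlgebra ℚ (FreeMagma (Fin pq.1.1))) (u v : MonoidAlgebra ℚ (FreeMagma (Fin pq.2.1))),
        e (Submodule.Quotient.mk x) = Submodule.Quotient.mk u →
        e (Submodule.Quotient.mk y) = Submodule.Quotient.mk v →
        e (Submodule.Quotient.mk (x * y)) = Submodule.Quotient.mk (u * v))

/-- The predicate inside of S02449: the algebras presented by `p` and by `q` are isomorphic. -/
def PresIso (p q : ℕ × List (List ((ℕ × ℕ) × List ℕ))) : Prop :=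
  ∀ (mon : ∀ n : ℕ, List ℕ → MonoidAlgebra ℚ (FreeMagma (Fin n))),
    mon = (fun (n : ℕ) (w : List ℕ) =>
      (List.foldl (fun (s : List (MonoidAlgebra ℚ (FreeMagma (Fin n)))) (t : ℕ) =>
        if t = 0 then (s.tail.headD 0 * s.headD 0) :: s.tail.tail
        else (if h : t - 1 < n then MonoidAlgebra.single (FreeMagma.of (⟨t - 1, h⟩ : Fin n)) (1 : ℚ) else 0) :: s)
        ([] : List (MonoidAlgebra ℚ (FreeMagma (Fin n)))) w).headD 0) →
  ∀ (I : ∀ p : ℕ × List (List ((ℕ × ℕ) × List ℕ)), Submodule ℚ (MonoidAlgebra ℚ (FreeMagma (Fin p.1)))),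
    I = (fun (p : ℕ × List (List ((ℕ × ℕ) × List ℕ))) =>
      sInf {S : Submodule ℚ (MonoidAlgebra ℚ (FreeMagma (Fin p.1))) |
        (∀ r ∈ p.2, (List.map (fun (c : (ℕ × ℕ) × List ℕ) =>
            (((c.1.1 : ℚ) - (c.1.2 : ℚ)) • mon p.1 c.2)) r).sum ∈ S) ∧
        ∀ a x : MonoidAlgebra ℚ (FreeMagma (Fin p.1)), x ∈ S → a * x ∈ S ∧ x * a ∈ S}) →
  ∃ e : (MonoidAlgebra ℚ (FreeMagma (Fin p.1)) ⧸ I p) ≃ₗ[ℚ]
      (MonoidAlgebra ℚ (FreeMagma (Fin q.1)) ⧸ I q),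
    ∀ (x y : MonoidAlgebra ℚ (FreeMagma (Fin p.1))) (u v : MonoidAlgebra ℚ (FreeMagma (Fin q.1))),
      e (Submodule.Quotient.mk x) = Submodule.Quotient.mk u →
      e (Submodule.Quotient.mk y) = Submodule.Quotient.mk v →
      e (Submodule.Quotient.mk (x * y)) = Submodule.Quotient.mk (u * v)

/-- Codes `(n, (d, T))` of structure constants. -/
abbrev FCode := ℕ × (ℕ × List (List (List (ℕ × ℕ))))

/-- The entry `(a, b)` of `T` with indices `i, j, k`; it is `(0, 0)` if there is none. -/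
def entry (a : FCode) (i j k : ℕ) : ℕ × ℕ := ((a.2.2.getD i []).getD j []).getD k (0, 0)

/-- The structure constant `(a - b) / (d + 1)`. -/
def sc (a : FCode) (i j k : ℕ) : ℚ :=
  (((entry a i j k).1 : ℚ) - ((entry a i j k).2 : ℚ)) / ((a.2.1 : ℚ) + 1)

/-- The bilinear multiplication on `ℚⁿ` with `e_i e_j = ∑ sc_ijk e_k`. -/
def fmul (a : FCode) (x y : Fin a.1 → ℚ) : Fin a.1 → ℚ :=
  fun k => ∑ i : Fin a.1, ∑ j : Fin a.1, sc a i j k * (x i * y j)

/-- The algebras with structure constants `a` and `b` are isomorphic. -/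
def FDIso (a b : FCode) : Prop :=
  ∃ g : (Fin a.1 → ℚ) ≃ₗ[ℚ] (Fin b.1 → ℚ), ∀ x y, g (fmul a x y) = fmul b (g x) (g y)

end Pool.Agent.TH477.NA.Q
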