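import Pool.Agent.TH477.NA.GD3

/-! A computable complete invariant of finite presentations. -/

set_option autoImplicit false

namespace Pool.Agent.TH477.NA

open Primrec

lemma pr_prg : Primrec₂ prg := by
  have h : Primrec₂ fun (x : Po × List ((ℕ × ℕ) × List ℕ)) (q : Co × (Co × List ℕ)) =>
      cadd q.1 (cmul q.2.1 (coef (toPo x.2) q.2.2)) :=
    pr_cadd.comp (fst.comp snd) (pr_cmul.comp (fst.comp (snd.comp snd))
      (pr_coef.comp (pr_toPo.comp (snd.comp fst)) (snd.comp (snd.comp snd))))
  exact (list_foldl fst (const czero) h).of_eq fun x => rfl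

/-- shortcut -/
instance iCLP : Primcodable (PCode × List Po) := inferInstance

lemma pr_indB : Primrec₂ indB := by
  have hn : Primrec fun x : PCode × List Po => List.range x.1.2.length :=
    list_range.comp (list_length.comp (snd.comp fst))
  have hz : Primrec fun y : ((PCode × List Po) × ℕ) × ℕ => y.1.1.2.getD y.1.2 [] :=
    (list_getD ([] : Po)).comp (snd.comp (fst.comp fst)) (snd.comp fst)
  have hr : Primrec fun y : ((PCode × List Po) × ℕ) × ℕ => y.1.1.1.2.getD y.2 [] :=
    (list_getD ([] : List ((ℕ × ℕ) × List ℕ))).comp (snd.comp (fst.comp (fst.comp fst))) snd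
  have hd : Primrec fun y : ((PCode × List Po) × ℕ) × ℕ =>
      (if y.1.2 = y.2 then cone else czero) :=
    Primrec.ite (Primrec.eq.comp (snd.comp fst) snd) (const cone) (const czero)
  have h1 : Primrec₂ fun (y : (PCode × List Po) × ℕ) (l : ℕ) =>
      ceq (prg (y.1.2.getD y.2 []) (y.1.1.2.getD l [])) (if y.2 = l then cone else czero) := by
    have h0 := pr_ceq.comp (pr_prg.comp hz hr) hd
    exact h0
  have h2 : Primrec₂ fun (x : PCode × List Po) (k : ℕ) =>
      (List.range x.1.2.length).all fun l =>
        ceq (prg (x.2.getD k []) (x.1.2.getD l [])) (if k = l then cone else czero) := by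
    have h0 := pr_all (hn.comp (fst (α := PCode × List Po) (β := ℕ))) h1
    exact h0
  have h0 := pr_all hn h2
  exact h0

/-- search for a witness that is known to exist -/
lemma exists_search {α β : Type*} [Primcodable α] [Primcodable β] [Inhabited β] {f : α × β → Bool}
    (hf : Computable f) (h : ∀ a, ∃ b, f (a, b) = true) :
    ∃ g : α → β, Computable g ∧ ∀ a, f (a, g a) = true := by
  let P : α → ℕ → Bool := fun a n => ((Encodable.decode (α := β) n).map fun b => f (a, b)).getD false
  have hP : Computable₂ P := by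
    have h1 : Computable fun x : α × ℕ => (Encodable.decode (α := β) x.2) :=
      Computable.decode.comp Computable.snd
    have h2 : Computable₂ fun (x : α × ℕ) (b : β) => f (x.1, b) :=
      hf.comp ((Computable.fst.comp Computable.fst).pair Computable.snd)
    exact (Computable.option_getD (Computable.option_map h1 h2) (Computable.const false)).of_eq
      fun x => rfl
  have h3 : Partrec fun a => Nat.rfind fun n => (Part.some (P a n) : Part Bool) :=
    Partrec.rfind hP.partrec₂
  have htot : ∀ a, (Nat.rfind fun n => (Part.some (P a n) : Part Bool)).Dom := by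
    intro a
    obtain ⟨b, hb⟩ := h a
    refine Nat.rfind_dom.2 ⟨Encodable.encode b, ?_, fun _ => trivial⟩
    simp [P, hb]
  let N : α → ℕ := fun a => (Nat.rfind fun n => (Part.some (P a n) : Part Bool)).get (htot a)
  have hN : Computable N := h3.of_eq_tot fun a => Part.get_mem (htot a)
  have hPN : ∀ a, P a (N a) = true := by
    intro a
    have h4 := Nat.rfind_spec (Part.get_mem (htot a))
    simpa using h4
  refine ⟨fun a => (Encodable.decode (α := β) (N a)).getD default, ?_, ?_⟩
  · exact Computable.option_getD (Computable.decode.comp hN) (Computable.const default)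
  · intro a
    have h4 := hPN a
    cases hd : Encodable.decode (α := β) (N a) with
    | none => simp [P, hd] at h4
    | some b =>
      simp [P, hd] at h4
      change f (a, (Encodable.decode (α := β) (N a)).getD default) = true
      rw [hd]
      exact h4

/-- the certificates of the search -/
abbrev Wit := PCode × (CCert × (List Po × ICert))

/-- shortcut -/
instance iW1 : Primcodable (List Po × ICert) := inferInstance
/-- shortcut -/
instance iW2 : Primcodable (CCert × (List Po × ICert)) := inferInstance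
/-- shortcut -/
instance iW3 : Primcodable Wit := inferInstance

/-- presentations are computably brought to independent core form -/
theorem exists_computable_core : ∃ γ : Pres → PCode, Computable γ ∧
    ∀ p, CoreForm (γ p) ∧ Indep (γ p) ∧ Iso p (toPres (γ p)) := by
  have h1 : Primrec fun x : Pres × Wit => (coreB x.2.1 x.2.2.1 && indB x.2.1 x.2.2.2.1) &&
      isoc x.1 (toPres x.2.1) x.2.2.2.2 := by
    have hc : Primrec fun x : Pres × Wit => x.2.1 := fst.comp snd
    have hz : Primrec fun x : Pres × Wit => x.2.2.1 := fst.comp (snd.comp snd)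
    have hi : Primrec fun x : Pres × Wit => x.2.2.2.1 := fst.comp (snd.comp (snd.comp snd))
    have hy : Primrec fun x : Pres × Wit => x.2.2.2.2 := snd.comp (snd.comp (snd.comp snd))
    have hp : Primrec fun x : Pres × Wit => x.1 := fst
    have e1 : Primrec fun x : Pres × Wit => coreB x.2.1 x.2.2.1 := pr_coreB.comp hc hz
    have e2 : Primrec fun x : Pres × Wit => indB x.2.1 x.2.2.2.1 := pr_indB.comp hc hi
    have e3 : Primrec fun x : Pres × Wit => isoc x.1 (toPres x.2.1) x.2.2.2.2 := by
      have h0 := pr_isoc.comp ((hp.pair (pr_toPres.comp hc)).pair hy)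
      exact h0
    exact Primrec.and.comp (Primrec.and.comp e1 e2) e3
  obtain ⟨g, hg, hg'⟩ := exists_search (f := fun x : Pres × Wit =>
    (coreB x.2.1 x.2.2.1 && indB x.2.1 x.2.2.2.1) && isoc x.1 (toPres x.2.1) x.2.2.2.2)
    h1.to_comp (by
      intro p
      obtain ⟨c, hc, hi, hp⟩ := exists_indep_coreForm p
      obtain ⟨z, hz⟩ := exists_core_cert hc
      obtain ⟨y, hy⟩ := exists_indB hi
      obtain ⟨w, hw⟩ := (iso_iff_cert _ _).1 hp
      refine ⟨(c, (z, (y, w))), ?_⟩
      simp only [Bool.and_eq_true]
      exact ⟨⟨hz, hy⟩, hw⟩)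
  refine ⟨fun p => (g p).1, Computable.fst.comp hg, fun p => ?_⟩
  have h2 := hg' p
  simp only [Bool.and_eq_true] at h2
  obtain ⟨⟨hz, hy⟩, hw⟩ := h2
  have hc := coreForm_of_cert hz
  exact ⟨hc, indep_of_cert hc.1 hy, iso_of_cert hw⟩

/-- a computable complete invariant with values in finite-dimensional algebras -/
theorem exists_invariant : ∃ G : Pres → FCode, Computable G ∧
    ∀ p q, Iso p q ↔ FDIso (G p) (G q) := by
  obtain ⟨γ, hγ, h⟩ := exists_computable_core
  refine ⟨fun p => ecode (γ p) ((γ p).2.length + (γ p).1.2), ?_, ?_⟩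
  · have h1 : Primrec fun c : PCode => c.2.length + c.1.2 :=
      nat_add.comp (list_length.comp snd) (snd.comp fst)
    have h2 : Primrec fun c : PCode => ecode c (c.2.length + c.1.2) := by
      have h0 := pr_ecode.comp (Primrec.id.pair h1)
      exact h0
    exact h2.to_comp.comp hγ
  · intro p q
    obtain ⟨hc, hi, hp⟩ := h p
    obtain ⟨hc', hi', hq⟩ := h q
    rw [inv_iff hc hc' hi hi', ← iso_iff_linEq hc hc']
    exact ⟨fun e => hp.symm.trans (e.trans hq), fun e => hp.trans (e.trans hq.symm)⟩

/-- the predicate of the frozen statement S02449: the algebras presented by `p` and `q` are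
isomorphic -/
def PresIso (p q : ℕ × List (List ((ℕ × ℕ) × List ℕ))) : Prop :=
  ∀ (mon : ∀ n : ℕ, List ℕ → MonoidAlgebra ℚ (FreeMagma (Fin n))),
    mon = (fun (n : ℕ) (w : List ℕ) =>
      (List.foldl (fun (s : List (MonoidAlgebra ℚ (FreeMagma (Fin n)))) (t : ℕ) =>
        if t = 0 then (s.tail.headD 0 * s.headD 0) :: s.tail.tail
        else (if h : t - 1 < n then MonoidAlgebra.single (FreeMagma.of (⟨t - 1, h⟩ : Fin n)) (1 : ℚ) else 0) :: s)
        ([] : List (MonoidAlgebra ℚ (FreeMagma (Fin n)))) w).headD 0) →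
  ∀ (I : ∀ p : ℕ × List (List ((ℕ × ℕ) × List ℕ)), Submodule ℚ (MonoidAlgebra ℚ (FreeMagma (Fin p.1)))),
    I = (fun (p : ℕ × List (List ((ℕ × ℕ) × List ℕ))) =>
      sInf {S : Submodule ℚ (MonoidAlgebra ℚ (FreeMagma (Fin p.1))) |
        (∀ r ∈ p.2, (List.map (fun (c : (ℕ × ℕ) × List ℕ) =>
            (((c.1.1 : ℚ) - (c.1.2 : ℚ)) • mon p.1 c.2)) r).sum ∈ S) ∧
        ∀ a x : MonoidAlgebra ℚ (FreeMagma (Fin p.1)), x ∈ S → a * x ∈ S ∧ x * a ∈ S}) →
  ∃ e : (MonoidAlgebra ℚ (FreeMagma (Fin p.1)) ⧸ I p) ≃ₗ[ℚ]
      (MonoidAlgebra ℚ (FreeMagma (Fin q.1)) ⧸ I q),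
    ∀ (x y : MonoidAlgebra ℚ (FreeMagma (Fin p.1))) (u v : MonoidAlgebra ℚ (FreeMagma (Fin q.1))),
      e (Submodule.Quotient.mk x) = Submodule.Quotient.mk u →
      e (Submodule.Quotient.mk y) = Submodule.Quotient.mk v →
      e (Submodule.Quotient.mk (x * y)) = Submodule.Quotient.mk (u * v)

theorem presIso_iff (p q : Pres) : PresIso p q ↔ Iso p q := by
  have hmon : (fun (n : ℕ) (w : List ℕ) =>
      (List.foldl (fun (s : List (MonoidAlgebra ℚ (FreeMagma (Fin n)))) (t : ℕ) =>
        if t = 0 then (s.tail.headD 0 * s.headD 0) :: s.tail.tail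
        else (if h : t - 1 < n then MonoidAlgebra.single (FreeMagma.of (⟨t - 1, h⟩ : Fin n)) (1 : ℚ) else 0) :: s)
        ([] : List (MonoidAlgebra ℚ (FreeMagma (Fin n)))) w).headD 0) = mon := rfl
  rw [iso_iff_quot]
  constructor
  · intro h
    exact h mon hmon.symm (fun p => idealOf (rvals p)) (funext fun p => (ideal_eq p).symm)
  · intro h m hm I hI
    have hm' : m = mon := hm.trans hmon
    subst hm'
    have hI' : I = fun p => idealOf (rvals p) := hI.trans (funext fun p => ideal_eq p)
    subst hI'
    exact h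

end Pool.Agent.TH477.NA
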