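import Pool.Agent.TH477.NA.Elem

/-! The statements of the classification. -/

set_option autoImplicit false

open TensorProduct

namespace Pool.Agent.TH477.NA

universe u v w

/-- `A` and `B` are isomorphic as `F`-algebras. -/
def AlgIso (F : Type u) [Field F] (A : Type v) [NonUnitalNonAssocRing A] [Module F A]
    (B : Type w) [NonUnitalNonAssocRing B] [Module F B] : Prop :=
  ∃ e : A ≃ₗ[F] B, ∀ a b, e (a * b) = e a * e b

/-- `W₀ = V`, `W_{k+1} = W_k ∩ span (factors W_k)` -/
def descend (F : Type u) [Field F] {A : Type v} [NonUnitalNonAssocRing A] [Module F A]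
    (V : Submodule F A) : ℕ → Submodule F A
  | 0 => V
  | k + 1 => descend F V k ⊓ Submodule.span F (factors F (descend F V k))

/-- The span of the monomials in `S`. -/
noncomputable def monomials (F : Type u) [Field F] {n : ℕ} (S : Set (FreeMagma (Fin n))) :
    Submodule F (MonoidAlgebra F (FreeMagma (Fin n))) :=
  Submodule.span F {x | ∃ w ∈ S, x = MonoidAlgebra.single w 1}

section

variable {F : Type u} [Field F]
variable {A : Type v} [NonUnitalNonAssocRing A] [Module F A] [IsScalarTower F A A]
  [SMulCommClass F A A]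

lemma monomials_eq {n : ℕ} (S : Set (FreeMagma (Fin n))) : monomials F S = PS F S := by
  rw [monomials, PS]
  congr 1
  ext x
  constructor
  · rintro ⟨w, hw, rfl⟩
    exact ⟨w, hw, mb_apply w⟩
  · rintro ⟨w, hw, rfl⟩
    exact ⟨w, hw, mb_apply w⟩

lemma descend_eq (V : Submodule F A) (k : ℕ) : descend F V k = desc V k := by
  induction k with
  | zero => rfl
  | succ k ih => rw [descend, desc, ih, span_factors]

lemma map_pre (V : Submodule F A) : (pre V).map (mu F A) = V ⊓ prods F A := by
  rw [prods_eq]
  apply le_antisymm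
  · rintro _ ⟨t, ht, rfl⟩
    exact ⟨ht, ⟨t, rfl⟩⟩
  · rintro _ ⟨hv, ⟨t, rfl⟩⟩
    exact ⟨t, hv, rfl⟩

end

/-- The invariants are finite. -/
def Finiteness (F : Type u) [Field F] : Prop :=
  ∀ (A : Type v) [NonUnitalNonAssocRing A] [Module F A] [IsScalarTower F A A]
    [SMulCommClass F A A], FinPres F A →
      FiniteDimensional F (Core F A) ∧ FiniteDimensional F (A ⧸ (Core F A ⊔ prods F A))

/-- The invariants are complete. -/
def Classification (F : Type u) [Field F] : Prop :=
  ∀ (A : Type v) [NonUnitalNonAssocRing A] [Module F A] [IsScalarTower F A A]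
    [SMulCommClass F A A] (B : Type w) [NonUnitalNonAssocRing B] [Module F B]
    [IsScalarTower F B B] [SMulCommClass F B B], FinPres F A → FinPres F B →
      (AlgIso F A B ↔ Rank F A = Rank F B ∧ SameCore F A B)

/-- Computation of the invariants from a finite-dimensional subspace `V`. -/
def ComputedBy (F : Type u) [Field F] (A : Type v) [NonUnitalNonAssocRing A] [Module F A]
    (V : Submodule F A) : Prop :=
  Core F A = descend F V (Module.finrank F V) ∧
    Rank F A + Module.finrank F (Core F A ⊔ (V ⊓ prods F A) : Submodule F A) =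
      Module.finrank F V

/-- `S` is a finite set of monomials, closed under subterms, which contains the generators and
all monomials occurring in the relations `R`. -/
def TermSet {F : Type u} [Field F] {n : ℕ} (R : Finset (MonoidAlgebra F (FreeMagma (Fin n))))
    (S : Set (FreeMagma (Fin n))) : Prop :=
  S.Finite ∧ (∀ x, FreeMagma.of x ∈ S) ∧ (∀ a c, a * c ∈ S → a ∈ S ∧ c ∈ S) ∧
    ∀ p ∈ R, p ∈ monomials F S

/-- The invariants can be computed from a presentation by finite-dimensional linear algebra. -/
def InvComputed (F : Type u) [Field F] : Prop :=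
  ∀ (A : Type v) [NonUnitalNonAssocRing A] [Module F A] [IsScalarTower F A A]
    [SMulCommClass F A A] (n : ℕ) (R : Finset (MonoidAlgebra F (FreeMagma (Fin n))))
    (π : MonoidAlgebra F (FreeMagma (Fin n)) →ₗ[F] A), Function.Surjective π →
    (∀ a b, π (a * b) = π a * π b) →
    LinearMap.ker π = idealOf (R : Set (MonoidAlgebra F (FreeMagma (Fin n)))) →
    ∀ S, TermSet R S → ComputedBy F A ((monomials F S).map π)

theorem finiteness (F : Type u) [Field F] : Finiteness.{u, v} F := by
  intro A _ _ _ _ hA
  obtain ⟨V, hV⟩ := hA.exists_presenting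
  rw [Core_eq, prods_eq]
  exact ⟨hA.core_finite, hV.quot_finite⟩

theorem classification (F : Type u) [Field F] : Classification.{u, v, w} F := by
  intro A _ _ _ _ B _ _ _ _ hA hB
  rw [Rank_eq, Rank_eq, sameCore_iff]
  exact hA.iso_iff hB

theorem computation (F : Type u) [Field F] : InvComputed.{u, v} F := by
  intro A _ _ _ _ n R π hsurj hmul hker S hS
  have hV := presenting_map (R : Set (MonoidAlgebra F (FreeMagma (Fin n)))) π hsurj hmul hker S
    hS.1 hS.2.1 hS.2.2.1 (fun p hp => by rw [← monomials_eq]; exact hS.2.2.2 p hp)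
  rw [monomials_eq]
  refine ⟨?_, ?_⟩
  · rw [Core_eq, descend_eq]
    exact hV.core_eq_desc
  · rw [Rank_eq, Core_eq, ← map_pre]
    exact hV.rk_eq

end Pool.Agent.TH477.NA
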