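import Pool.Agent.TH477.NA.Cert

/-! Core forms: codes of reduced partial algebras over the rationals. -/

set_option autoImplicit false

open TensorProduct

namespace Pool.Agent.TH477.NA

/-! ### matrices and tensors -/

section Tens

variable {t : ℕ}

/-- matrix of a tensor -/
noncomputable def thL (t : ℕ) : (Fin t → ℚ) ⊗[ℚ] (Fin t → ℚ) →ₗ[ℚ] Matrix (Fin t) (Fin t) ℚ where
  toFun s := Matrix.of fun i j => (ls (LinearMap.proj i) s) j
  map_add' x y := by ext i j; simp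
  map_smul' c x := by ext i j; simp

/-- tensor of a matrix -/
noncomputable def tau (t : ℕ) : Matrix (Fin t) (Fin t) ℚ →ₗ[ℚ] (Fin t → ℚ) ⊗[ℚ] (Fin t → ℚ) where
  toFun M := ∑ i, ∑ j, M i j • ((Pi.single i 1 : Fin t → ℚ) ⊗ₜ[ℚ] (Pi.single j 1 : Fin t → ℚ))
  map_add' x y := by simp [add_smul, Finset.sum_add_distrib]
  map_smul' c x := by simp [mul_smul, Finset.smul_sum]

lemma thL_tmul (a b : Fin t → ℚ) (i j : Fin t) : thL t (a ⊗ₜ[ℚ] b) i j = a i * b j := by
  simp [thL]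

lemma tau_thL (s : (Fin t → ℚ) ⊗[ℚ] (Fin t → ℚ)) : tau t (thL t s) = s := by
  induction s using TensorProduct.induction_on with
  | zero => simp
  | add x y hx hy => rw [map_add, map_add, hx, hy]
  | tmul a b =>
    change ∑ i, ∑ j, (thL t (a ⊗ₜ[ℚ] b)) i j •
      ((Pi.single i 1 : Fin t → ℚ) ⊗ₜ[ℚ] (Pi.single j 1 : Fin t → ℚ)) = _
    have ha : a = ∑ i, a i • (Pi.single i 1 : Fin t → ℚ) := by
      ext k; simp [Finset.sum_apply, Pi.single_apply]
    have hb : b = ∑ j, b j • (Pi.single j 1 : Fin t → ℚ) := by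
      ext k; simp [Finset.sum_apply, Pi.single_apply]
    conv_rhs => rw [ha, hb]
    rw [TensorProduct.sum_tmul]
    refine Finset.sum_congr rfl fun i _ => ?_
    rw [TensorProduct.tmul_sum]
    refine Finset.sum_congr rfl fun j _ => ?_
    rw [thL_tmul, TensorProduct.smul_tmul_smul]

lemma thL_tau (M : Matrix (Fin t) (Fin t) ℚ) : thL t (tau t M) = M := by
  ext i j
  change thL t (∑ i, ∑ j, M i j •
      ((Pi.single i 1 : Fin t → ℚ) ⊗ₜ[ℚ] (Pi.single j 1 : Fin t → ℚ))) i j = M i j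
  simp only [map_sum, map_smul, Matrix.sum_apply, Matrix.smul_apply, thL_tmul, smul_eq_mul]
  rw [Finset.sum_eq_single i, Finset.sum_eq_single j]
  · simp
  · intro b _ hb
    simp [Ne.symm hb]
  · simp
  · intro a _ ha
    simp [Pi.single_apply, Ne.symm ha]
  · simp

lemma thL_map {t' : ℕ} (g : (Fin t → ℚ) →ₗ[ℚ] (Fin t' → ℚ)) (s : (Fin t → ℚ) ⊗[ℚ] (Fin t → ℚ)) :
    thL t' (TensorProduct.map g g s) =
      LinearMap.toMatrix' g * thL t s * (LinearMap.toMatrix' g).transpose := by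
  induction s using TensorProduct.induction_on with
  | zero => simp
  | add x y hx hy => simp only [map_add, hx, hy, Matrix.mul_add, Matrix.add_mul]
  | tmul a b =>
    ext i j
    rw [TensorProduct.map_tmul, thL_tmul]
    have h1 : thL t (a ⊗ₜ[ℚ] b) = Matrix.vecMulVec a b := by
      ext i j; rw [thL_tmul, Matrix.vecMulVec_apply]
    rw [h1, Matrix.mul_vecMulVec, Matrix.vecMulVec_mul, Matrix.vecMulVec_apply,
      Matrix.vecMul_transpose, LinearMap.toMatrix'_mulVec, LinearMap.toMatrix'_mulVec]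

end Tens

/-! ### codes -/

/-- codes `((t, r), relations)` -/
abbrev PCode := (ℕ × ℕ) × List (List ((ℕ × ℕ) × List ℕ))

/-- the presentation on `t + r` generators with these relations -/
def toPres (c : PCode) : Pres := (c.1.1 + c.1.2, c.2)

/-- coefficient of a word in a relation -/
def cf (r : List ((ℕ × ℕ) × List ℕ)) (w : List ℕ) : ℚ :=
  (r.map fun u => if u.2 = w then (u.1.1 : ℚ) - (u.1.2 : ℚ) else 0).sum

/-- quadratic part -/
def quad (t : ℕ) (r : List ((ℕ × ℕ) × List ℕ)) : Matrix (Fin t) (Fin t) ℚ :=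
  Matrix.of fun i j => cf r [(i : ℕ) + 1, (j : ℕ) + 1, 0]

/-- linear part -/
def line (t : ℕ) (r : List ((ℕ × ℕ) × List ℕ)) : Fin t → ℚ := fun i => cf r [(i : ℕ) + 1]

/-- span of the relations -/
def relSpan (c : PCode) : Submodule ℚ (Matrix (Fin c.1.1) (Fin c.1.1) ℚ × (Fin c.1.1 → ℚ)) :=
  Submodule.span ℚ {x | ∃ r ∈ c.2, x = (quad c.1.1 r, line c.1.1 r)}

/-- A core form: relations `∑ M_ij x_i x_j + ∑ v_i x_i` in the first `t` generators only, such that
no nonzero linear form is a combination of relations and such that no nonzero vector is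
annihilated from both sides by all quadratic parts. -/
def CoreForm (c : PCode) : Prop :=
  (∀ r ∈ c.2, ∀ u ∈ r, (∃ i < c.1.1, u.2 = [i + 1]) ∨
    ∃ i < c.1.1, ∃ j < c.1.1, u.2 = [i + 1, j + 1, 0]) ∧
  (∀ v, ((0 : Matrix (Fin c.1.1) (Fin c.1.1) ℚ), v) ∈ relSpan c → v = 0) ∧
  (∀ f : Fin c.1.1 → ℚ, (∀ r ∈ c.2, Matrix.vecMul f (quad c.1.1 r) = 0 ∧
    (quad c.1.1 r).mulVec f = 0) → f = 0)

/-- Equivalence: equal `r`, and an invertible matrix `g` carries the relation spaces into each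
other by `(M, v) ↦ (g M gᵀ, g v)`. -/
def LinEq (c c' : PCode) : Prop :=
  c.1.2 = c'.1.2 ∧ ∃ (g : Matrix (Fin c'.1.1) (Fin c.1.1) ℚ) (g' : Matrix (Fin c.1.1) (Fin c'.1.1) ℚ),
    g * g' = 1 ∧ g' * g = 1 ∧
    ∀ M v, (M, v) ∈ relSpan c ↔ (g * M * g.transpose, g.mulVec v) ∈ relSpan c'

/-- the core of `A` is given by the relation space `G` -/
def HasG (A : Type*) [NonUnitalNonAssocRing A] [Module ℚ A] [IsScalarTower ℚ A A]
    [SMulCommClass ℚ A A] {t : ℕ}
    (G : Submodule ℚ (Matrix (Fin t) (Fin t) ℚ × (Fin t → ℚ))) : Prop :=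
  ∃ κ : (Fin t → ℚ) ≃ₗ[ℚ] core ℚ A, ∀ (s : (Fin t → ℚ) ⊗[ℚ] (Fin t → ℚ)) (c : Fin t → ℚ),
    mu ℚ A (TensorProduct.map (core ℚ A).subtype (core ℚ A).subtype
      (TensorProduct.map κ.toLinearMap κ.toLinearMap s)) = κ c ↔ (thL t s, -c) ∈ G

section Eq

variable {A : Type*} [NonUnitalNonAssocRing A] [Module ℚ A] [IsScalarTower ℚ A A]
  [SMulCommClass ℚ A A]
variable {B : Type*} [NonUnitalNonAssocRing B] [Module ℚ B] [IsScalarTower ℚ B B]
  [SMulCommClass ℚ B B]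

lemma coreIso_iff_of_hasG {t t' : ℕ}
    {G : Submodule ℚ (Matrix (Fin t) (Fin t) ℚ × (Fin t → ℚ))}
    {G' : Submodule ℚ (Matrix (Fin t') (Fin t') ℚ × (Fin t' → ℚ))}
    (hA : HasG A G) (hB : HasG B G') :
    (∃ ε : core ℚ A ≃ₗ[ℚ] core ℚ B, CoreIso ε) ↔
      ∃ (g : Matrix (Fin t') (Fin t) ℚ) (g' : Matrix (Fin t) (Fin t') ℚ),
        g * g' = 1 ∧ g' * g = 1 ∧
        ∀ M v, (M, v) ∈ G ↔ (g * M * g.transpose, g.mulVec v) ∈ G' := by
  obtain ⟨κ, hκ⟩ := hA
  obtain ⟨κ', hκ'⟩ := hB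
  have key : ∀ γ : (Fin t → ℚ) ≃ₗ[ℚ] (Fin t' → ℚ),
      CoreIso (κ.symm ≪≫ₗ γ ≪≫ₗ κ') ↔ ∀ M v, (M, v) ∈ G ↔
        (LinearMap.toMatrix' γ.toLinearMap * M * (LinearMap.toMatrix' γ.toLinearMap).transpose,
          (LinearMap.toMatrix' γ.toLinearMap).mulVec v) ∈ G' := by
    intro γ
    have h1 : ∀ s : (Fin t → ℚ) ⊗[ℚ] (Fin t → ℚ),
        TensorProduct.map (κ.symm ≪≫ₗ γ ≪≫ₗ κ').toLinearMap (κ.symm ≪≫ₗ γ ≪≫ₗ κ').toLinearMap
          (TensorProduct.map κ.toLinearMap κ.toLinearMap s) =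
        TensorProduct.map κ'.toLinearMap κ'.toLinearMap
          (TensorProduct.map γ.toLinearMap γ.toLinearMap s) := by
      intro s
      rw [← LinearMap.comp_apply, ← TensorProduct.map_comp, ← LinearMap.comp_apply,
        ← TensorProduct.map_comp]
      congr 2 <;> ext x <;> simp
    constructor
    · intro h M v
      have h2 := h (TensorProduct.map κ.toLinearMap κ.toLinearMap (tau t M)) (κ (-v))
      rw [hκ, h1] at h2
      have h3 : (κ.symm ≪≫ₗ γ ≪≫ₗ κ') (κ (-v)) = κ' (γ (-v)) := by simp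
      rw [h3, hκ', thL_tau, thL_map, thL_tau, neg_neg, map_neg, neg_neg] at h2
      rw [h2]
      rw [LinearMap.toMatrix'_mulVec]
      rfl
    · intro h s c
      have h2 := h (thL t (TensorProduct.map κ.symm.toLinearMap κ.symm.toLinearMap s))
        (-(κ.symm c))
      have h3 : TensorProduct.map κ.toLinearMap κ.toLinearMap
          (TensorProduct.map κ.symm.toLinearMap κ.symm.toLinearMap s) = s := by
        rw [← LinearMap.comp_apply, ← TensorProduct.map_comp]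
        simp
      have h4 := hκ (TensorProduct.map κ.symm.toLinearMap κ.symm.toLinearMap s) (κ.symm c)
      rw [h3, LinearEquiv.apply_symm_apply] at h4
      rw [h4, h2, ← thL_map, LinearMap.toMatrix'_mulVec]
      have h5 := h1 (TensorProduct.map κ.symm.toLinearMap κ.symm.toLinearMap s)
      rw [h3] at h5
      rw [h5]
      have h6 := hκ' (TensorProduct.map γ.toLinearMap γ.toLinearMap
        (TensorProduct.map κ.symm.toLinearMap κ.symm.toLinearMap s)) (γ (κ.symm c))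
      have h7 : (κ.symm ≪≫ₗ γ ≪≫ₗ κ') c = κ' (γ (κ.symm c)) := rfl
      rw [h7, h6]
      have h8 : γ.toLinearMap (-(κ.symm c)) = -(γ (κ.symm c)) := by
        rw [map_neg]; rfl
      rw [h8]
  constructor
  · rintro ⟨ε, hε⟩
    let γ : (Fin t → ℚ) ≃ₗ[ℚ] (Fin t' → ℚ) := κ ≪≫ₗ ε ≪≫ₗ κ'.symm
    have h1 : κ.symm ≪≫ₗ γ ≪≫ₗ κ' = ε := by
      ext x; simp [γ]
    refine ⟨LinearMap.toMatrix' γ.toLinearMap, LinearMap.toMatrix' γ.symm.toLinearMap, ?_, ?_,
      (key γ).1 (by rw [h1]; exact hε)⟩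
    · rw [← LinearMap.toMatrix'_comp]
      have : γ.toLinearMap ∘ₗ γ.symm.toLinearMap = LinearMap.id := by ext x; simp
      rw [this, LinearMap.toMatrix'_id]
    · rw [← LinearMap.toMatrix'_comp]
      have : γ.symm.toLinearMap ∘ₗ γ.toLinearMap = LinearMap.id := by ext x; simp
      rw [this, LinearMap.toMatrix'_id]
  · rintro ⟨g, g', h1, h2, h3⟩
    let γ : (Fin t → ℚ) ≃ₗ[ℚ] (Fin t' → ℚ) := LinearEquiv.ofLinearMap (Matrix.toLin' g)
      (Matrix.toLin' g')
      (by rw [← Matrix.toLin'_mul, h1, Matrix.toLin'_one])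
      (by rw [← Matrix.toLin'_mul, h2, Matrix.toLin'_one])
    refine ⟨κ.symm ≪≫ₗ γ ≪≫ₗ κ', (key γ).2 ?_⟩
    have h4 : LinearMap.toMatrix' γ.toLinearMap = g := LinearMap.toMatrix'_toLin' g
    rw [h4]
    exact h3

end Eq

end Pool.Agent.TH477.NA
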