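import Pool.Agent.TH477.NA.CF

/-! The algebra presented by a core form. -/

set_option autoImplicit false

open TensorProduct

namespace Pool.Agent.TH477.NA

lemma cf_cons (u : (ℕ × ℕ) × List ℕ) (r : List ((ℕ × ℕ) × List ℕ)) (w : List ℕ) :
    cf (u :: r) w = (if u.2 = w then (u.1.1 : ℚ) - (u.1.2 : ℚ) else 0) + cf r w := by
  simp [cf]

lemma quad_nil (t : ℕ) : quad t [] = 0 := by ext i j; simp [quad, cf]
lemma line_nil (t : ℕ) : line t [] = 0 := by ext i; simp [line, cf]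

lemma quad_cons_quad {t : ℕ} (a b : ℕ) (i j : Fin t) (r : List ((ℕ × ℕ) × List ℕ)) :
    quad t (((a, b), [(i : ℕ) + 1, (j : ℕ) + 1, 0]) :: r)
      = ((a : ℚ) - b) • Matrix.vecMulVec (Pi.single i 1) (Pi.single j 1) + quad t r := by
  ext k l
  simp only [quad, Matrix.of_apply, cf_cons, Matrix.add_apply, Matrix.smul_apply,
    Matrix.vecMulVec_apply, smul_eq_mul]
  congr 1
  by_cases h1 : i = k
  · subst h1
    by_cases h2 : j = l
    · subst h2; simp
    · have : (j : ℕ) ≠ l := fun h => h2 (Fin.ext h)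
      simp [this, Ne.symm h2]
  · have : (i : ℕ) ≠ k := fun h => h1 (Fin.ext h)
    simp [this, Ne.symm h1]

lemma line_cons_quad {t : ℕ} (a b : ℕ) (i j : ℕ) (r : List ((ℕ × ℕ) × List ℕ)) :
    line t (((a, b), [i + 1, j + 1, 0]) :: r) = line t r := by
  ext k
  simp [line, cf_cons]

lemma quad_cons_lin {t : ℕ} (a b : ℕ) (i : ℕ) (r : List ((ℕ × ℕ) × List ℕ)) :
    quad t (((a, b), [i + 1]) :: r) = quad t r := by
  ext k l
  simp [quad, cf_cons]

lemma line_cons_lin {t : ℕ} (a b : ℕ) (i : Fin t) (r : List ((ℕ × ℕ) × List ℕ)) :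
    line t (((a, b), [(i : ℕ) + 1]) :: r) = ((a : ℚ) - b) • Pi.single i 1 + line t r := by
  ext k
  simp only [line, cf_cons, Pi.add_apply, Pi.smul_apply, smul_eq_mul]
  congr 1
  by_cases h1 : i = k
  · subst h1; simp
  · have : (i : ℕ) ≠ k := fun h => h1 (Fin.ext h)
    simp [this, Ne.symm h1]

lemma inc_single (t r : ℕ) (i : Fin t) :
    inc ℚ t r (Pi.single i 1) = Pi.single (Fin.castAdd r i) 1 := by
  ext k
  refine Fin.addCases (fun j => ?_) (fun j => ?_) k
  · simp [inc, Pi.single_apply]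
  · have h : Fin.natAdd t j ≠ Fin.castAdd r i := by
      intro h
      have := congrArg Fin.val h
      simp at this
      omega
    simp [inc, Pi.single_eq_of_ne h]

lemma lin_single {X : Type*} [Fintype X] [DecidableEq X] (x : X) :
    lin ℚ X (Pi.single x 1) = mb ℚ X (FreeMagma.of x) := by
  rw [lin_apply, Finset.sum_eq_single x]
  · simp
  · intro y _ hy
    rw [Pi.single_eq_of_ne hy, zero_smul]
  · simp

lemma mon_gen {t r : ℕ} (i : Fin t) :
    mon (t + r) [(i : ℕ) + 1] = lin ℚ (Fin (t + r)) (inc ℚ t r (Pi.single i 1)) := by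
  rw [inc_single, lin_single, ← mon_enc]
  rfl

lemma mon_quad {t r : ℕ} (i j : Fin t) :
    mon (t + r) [(i : ℕ) + 1, (j : ℕ) + 1, 0] =
      mu ℚ _ (TensorProduct.map (lin ℚ (Fin (t + r)) ∘ₗ inc ℚ t r) (lin ℚ (Fin (t + r)) ∘ₗ inc ℚ t r)
        ((Pi.single i 1 : Fin t → ℚ) ⊗ₜ[ℚ] (Pi.single j 1 : Fin t → ℚ))) := by
  rw [TensorProduct.map_tmul, mu_tmul, LinearMap.comp_apply, LinearMap.comp_apply, inc_single,
    inc_single, lin_single, lin_single, mb_mul, ← mon_enc]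
  rfl

lemma tau_vecMulVec {t : ℕ} (a b : Fin t → ℚ) :
    tau t (Matrix.vecMulVec a b) = a ⊗ₜ[ℚ] b := by
  have : Matrix.vecMulVec a b = thL t (a ⊗ₜ[ℚ] b) := by
    ext i j
    rw [thL_tmul, Matrix.vecMulVec_apply]
  rw [this, tau_thL]

/-- the value of a relation of a core form -/
lemma val_rel {t r : ℕ} (R : List ((ℕ × ℕ) × List ℕ))
    (hR : ∀ u ∈ R, (∃ i < t, u.2 = [i + 1]) ∨ ∃ i < t, ∃ j < t, u.2 = [i + 1, j + 1, 0]) :
    val (t + r) (toPo R) =
      mu ℚ _ (TensorProduct.map (lin ℚ (Fin (t + r)) ∘ₗ inc ℚ t r) (lin ℚ (Fin (t + r)) ∘ₗ inc ℚ t r)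
        (tau t (quad t R))) + lin ℚ (Fin (t + r)) (inc ℚ t r (line t R)) := by
  induction R with
  | nil =>
    rw [quad_nil, line_nil, map_zero, map_zero, map_zero, map_zero, map_zero, add_zero]
    rfl
  | cons u R ih =>
    have h1 : toPo (u :: R) = ((u.1, 0), u.2) :: toPo R := rfl
    have h2 : cv ((u.1, 0) : Co) = (u.1.1 : ℚ) - u.1.2 := by simp [cv]
    rw [h1, val_cons, ih fun v hv => hR v (List.mem_cons_of_mem _ hv), h2]
    obtain ⟨⟨a, b⟩, w⟩ := u
    rcases hR _ List.mem_cons_self with ⟨i, hi, hw⟩ | ⟨i, hi, j, hj, hw⟩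
    · simp only at hw
      subst hw
      rw [quad_cons_lin]
      have h3 := line_cons_lin a b ⟨i, hi⟩ R
      have h4 := mon_gen (r := r) ⟨i, hi⟩
      simp only at h3 h4
      rw [h3, h4, map_add, map_add, map_smul, map_smul]
      abel
    · simp only at hw
      subst hw
      rw [line_cons_quad]
      have h3 := quad_cons_quad a b ⟨i, hi⟩ ⟨j, hj⟩ R
      have h4 := mon_quad (r := r) ⟨i, hi⟩ ⟨j, hj⟩
      simp only at h3 h4
      rw [h3, h4, map_add, map_add, map_add, map_smul, map_smul, map_smul, tau_vecMulVec]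
      abel

/-- a linear map with prescribed graph -/
lemma exists_nu {c : PCode} (h : ∀ v, ((0 : Matrix (Fin c.1.1) (Fin c.1.1) ℚ), v) ∈ relSpan c → v = 0) :
    ∃ n0 : Matrix (Fin c.1.1) (Fin c.1.1) ℚ →ₗ[ℚ] (Fin c.1.1 → ℚ),
      ∀ M v, (M, v) ∈ relSpan c → n0 M = -v := by
  have hker : LinearMap.ker (LinearMap.fst ℚ _ _ ∘ₗ (relSpan c).subtype) = ⊥ := by
    rw [LinearMap.ker_eq_bot']
    rintro ⟨⟨M, v⟩, hMv⟩ h0
    have h0' : M = 0 := h0
    subst h0'
    have := h v hMv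
    subst this
    rfl
  obtain ⟨ρ, hρ⟩ := LinearMap.exists_leftInverse_of_injective _ hker
  refine ⟨-(LinearMap.snd ℚ _ _ ∘ₗ (relSpan c).subtype ∘ₗ ρ), ?_⟩
  intro M v hMv
  have h1 : ρ M = ⟨(M, v), hMv⟩ := congrArg (fun g => g ⟨(M, v), hMv⟩) hρ
  rw [LinearMap.neg_apply, LinearMap.comp_apply, LinearMap.comp_apply, h1]
  rfl

/-- the quadratic parts as tensors -/
noncomputable def qD (c : PCode) : Submodule ℚ ((Fin c.1.1 → ℚ) ⊗[ℚ] (Fin c.1.1 → ℚ)) :=
  (relSpan c).map (tau c.1.1 ∘ₗ LinearMap.fst ℚ _ _)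

lemma ls_tau {t : ℕ} (g : Module.Dual ℚ (Fin t → ℚ)) (M : Matrix (Fin t) (Fin t) ℚ) :
    ls g (tau t M) = Matrix.vecMul (fun i => g (Pi.single i 1)) M := by
  ext k
  change (ls g (∑ i, ∑ j, M i j •
      ((Pi.single i 1 : Fin t → ℚ) ⊗ₜ[ℚ] (Pi.single j 1 : Fin t → ℚ)))) k = _
  simp only [map_sum, map_smul, ls_tmul, Finset.sum_apply, Pi.smul_apply, smul_eq_mul,
    Matrix.vecMul, dotProduct]
  refine Finset.sum_congr rfl fun i _ => ?_
  rw [Finset.sum_eq_single k]
  · simp [mul_comm]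
  · intro b _ hb
    simp [Ne.symm hb]
  · simp

lemma rs_tau {t : ℕ} (g : Module.Dual ℚ (Fin t → ℚ)) (M : Matrix (Fin t) (Fin t) ℚ) :
    rs g (tau t M) = M.mulVec (fun i => g (Pi.single i 1)) := by
  ext k
  change (rs g (∑ i, ∑ j, M i j •
      ((Pi.single i 1 : Fin t → ℚ) ⊗ₜ[ℚ] (Pi.single j 1 : Fin t → ℚ)))) k = _
  simp only [map_sum, map_smul, rs_tmul, Finset.sum_apply, Pi.smul_apply, smul_eq_mul,
    Matrix.mulVec, dotProduct]
  rw [Finset.sum_eq_single k]
  · refine Finset.sum_congr rfl fun j _ => ?_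
    simp
  · intro b _ hb
    simp [Ne.symm hb]
  · simp

lemma dual_eq_zero {t : ℕ} (g : Module.Dual ℚ (Fin t → ℚ)) (h : ∀ i, g (Pi.single i 1) = 0) :
    g = 0 := by
  apply LinearMap.pi_ext'
  intro i
  ext
  simpa using h i

/-- nondegeneracy means full support -/
lemma supp_qD_iff (c : PCode) : supp (qD c) = ⊤ ↔
    ∀ f : Fin c.1.1 → ℚ, (∀ r ∈ c.2, Matrix.vecMul f (quad c.1.1 r) = 0 ∧
      (quad c.1.1 r).mulVec f = 0) → f = 0 := by
  have hall : ∀ f : Fin c.1.1 → ℚ, (∀ r ∈ c.2, Matrix.vecMul f (quad c.1.1 r) = 0 ∧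
      (quad c.1.1 r).mulVec f = 0) → ∀ x ∈ relSpan c, Matrix.vecMul f x.1 = 0 ∧
        x.1.mulVec f = 0 := by
    intro f hf x hx
    induction hx using Submodule.span_induction with
    | mem x hx =>
      obtain ⟨r, hr, rfl⟩ := hx
      exact hf r hr
    | zero => simp
    | add x y _ _ hx hy =>
      simp only [Prod.fst_add, Matrix.vecMul_add, Matrix.add_mulVec, hx.1, hx.2, hy.1, hy.2,
        add_zero, and_self]
    | smul a x _ hx =>
      simp only [Prod.smul_fst, Matrix.vecMul_smul, Matrix.smul_mulVec, hx.1, hx.2, smul_zero,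
        and_self]
  constructor
  · intro h f hf
    let g : Module.Dual ℚ (Fin c.1.1 → ℚ) := ∑ i, f i • LinearMap.proj i
    have hg : ∀ i, g (Pi.single i 1) = f i := by
      intro i
      simp [g, LinearMap.sum_apply, Pi.single_apply]
    have hg' : (fun i => g (Pi.single i 1)) = f := funext hg
    have hle : supp (qD c) ≤ LinearMap.ker g := by
      apply Submodule.span_le.2
      rintro a ⟨_, ⟨x, hx, rfl⟩, φ, rfl | rfl⟩
      · rw [SetLike.mem_coe, LinearMap.mem_ker, ← slice_comm, LinearMap.comp_apply,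
          LinearMap.fst_apply, rs_tau, hg', (hall f hf x hx).2, map_zero]
      · rw [SetLike.mem_coe, LinearMap.mem_ker, slice_comm, LinearMap.comp_apply,
          LinearMap.fst_apply, ls_tau, hg', (hall f hf x hx).1, map_zero]
    rw [h, top_le_iff, LinearMap.ker_eq_top] at hle
    funext i
    rw [← hg i, hle]
    rfl
  · intro h
    by_contra hne
    obtain ⟨g, hg0, hg⟩ := Submodule.exists_le_ker_of_lt_top _ (lt_top_iff_ne_top.2 hne)
    apply hg0
    have hf := h (fun i => g (Pi.single i 1)) (by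
      intro r hr
      have hmem : tau c.1.1 (quad c.1.1 r) ∈ qD c :=
        ⟨_, Submodule.subset_span ⟨r, hr, rfl⟩, rfl⟩
      rw [← ls_tau, ← rs_tau]
      constructor
      · ext k
        have h1 : (LinearMap.proj k : Module.Dual ℚ (Fin c.1.1 → ℚ))
            (ls g (tau c.1.1 (quad c.1.1 r))) = 0 := by
          rw [← slice_comm]
          exact hg (Submodule.subset_span ⟨_, hmem, _, Or.inr rfl⟩)
        exact h1
      · ext k
        have h1 : (LinearMap.proj k : Module.Dual ℚ (Fin c.1.1 → ℚ))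
            (rs g (tau c.1.1 (quad c.1.1 r))) = 0 := by
          rw [slice_comm]
          exact hg (Submodule.subset_span ⟨_, hmem, _, Or.inl rfl⟩)
        exact h1)
    exact dual_eq_zero g fun i => congrFun hf i

/-- the core of the algebra presented by a core form -/
theorem CoreForm.hasG {c : PCode} (hc : CoreForm c) :
    rk ℚ (PA (toPres c)) = c.1.2 ∧ HasG (PA (toPres c)) (relSpan c) := by
  obtain ⟨hshape, hgraph, hnd⟩ := hc
  obtain ⟨n0, hn0⟩ := exists_nu hgraph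
  let ν : (Fin c.1.1 → ℚ) ⊗[ℚ] (Fin c.1.1 → ℚ) →ₗ[ℚ] (Fin c.1.1 → ℚ) := n0 ∘ₗ thL c.1.1
  have hD : supp (qD c) = ⊤ := (supp_qD_iff c).2 hnd
  have hrel : ∀ r ∈ c.2, val (c.1.1 + c.1.2) (toPo r) = lqr (exν ν c.1.2)
      (TensorProduct.map (inc ℚ c.1.1 c.1.2) (inc ℚ c.1.1 c.1.2) (tau c.1.1 (quad c.1.1 r))) := by
    intro r hr
    rw [val_rel r (hshape r hr), lqr, LinearMap.sub_apply, LinearMap.comp_apply,
      LinearMap.comp_apply, exν_map]
    have h1 : ν (tau c.1.1 (quad c.1.1 r)) = -(line c.1.1 r) := by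
      change n0 (thL c.1.1 (tau c.1.1 (quad c.1.1 r))) = _
      rw [thL_tau]
      exact hn0 _ _ (Submodule.subset_span ⟨r, hr, rfl⟩)
    rw [h1, map_neg, map_neg, sub_neg_eq_add,
      ← LinearMap.comp_apply (TensorProduct.map (lin ℚ _) (lin ℚ _)), ← TensorProduct.map_comp]
  have hR : (rvals (toPres c) : Set (MonoidAlgebra ℚ (FreeMagma (Fin (c.1.1 + c.1.2))))) ⊆
      ((exD (qD c) c.1.2).map (lqr (exν ν c.1.2)) :
        Set (MonoidAlgebra ℚ (FreeMagma (Fin (c.1.1 + c.1.2))))) := by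
    rintro _ ⟨r, hr, rfl⟩
    refine ⟨_, ⟨tau c.1.1 (quad c.1.1 r), ⟨_, Submodule.subset_span ⟨r, hr, rfl⟩, rfl⟩, rfl⟩, ?_⟩
    exact (hrel r hr).symm
  have hR' : ∀ d ∈ exD (qD c) c.1.2, lqr (exν ν c.1.2) d ∈ idealOf (rvals (toPres c)) := by
    rintro _ ⟨_, ⟨x, hx, rfl⟩, rfl⟩
    induction hx using Submodule.span_induction with
    | mem x hx =>
      obtain ⟨r, hr, rfl⟩ := hx
      have h1 := hrel r hr
      rw [LinearMap.comp_apply, LinearMap.fst_apply, ← h1]
      exact subset_idealOf _ ⟨r, hr, rfl⟩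
    | zero => rw [map_zero, map_zero, map_zero]; exact Submodule.zero_mem _
    | add x y _ _ hx hy => rw [map_add, map_add, map_add]; exact Submodule.add_mem _ hx hy
    | smul a x _ hx => rw [map_smul, map_smul, map_smul]; exact Submodule.smul_mem _ _ hx
  obtain ⟨h1, κ, hκ⟩ := realise (r := c.1.2) (qD c) ν hD hR hR'
  refine ⟨h1, κ, ?_⟩
  intro s v
  refine (hκ s v).trans ?_
  constructor
  · rintro ⟨⟨⟨M, w⟩, hx, hs⟩, hv⟩
    have hs' : tau c.1.1 M = s := hs
    subst hs'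
    rw [thL_tau]
    have h2 : ν (tau c.1.1 M) = n0 M := by
      change n0 (thL c.1.1 (tau c.1.1 M)) = _
      rw [thL_tau]
    rw [h2, hn0 M w hx] at hv
    rw [← hv, neg_neg]
    exact hx
  · intro h
    refine ⟨⟨_, h, ?_⟩, ?_⟩
    · rw [LinearMap.comp_apply, LinearMap.fst_apply, tau_thL]
    · change n0 (thL c.1.1 s) = v
      rw [hn0 _ _ h, neg_neg]

lemma finPres_PA (p : Pres) : FinPres ℚ (PA p) := by
  have hfin : (rvals p).Finite := by
    have : rvals p = (fun r => val p.1 (toPo r)) '' {r | r ∈ p.2} := by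
      ext x
      constructor
      · rintro ⟨r, hr, rfl⟩
        exact ⟨r, hr, rfl⟩
      · rintro ⟨r, hr, rfl⟩
        exact ⟨r, hr, rfl⟩
    rw [this]
    exact (List.finite_toSet p.2).image _
  refine ⟨p.1, hfin.toFinset, qpr (rvals p), qpr_surjective _, qpr_mul _, ?_⟩
  rw [qpr_ker, hfin.coe_toFinset]

/-- for core forms, isomorphism of the algebras is equivalence of the codes -/
theorem iso_iff_linEq {c c' : PCode} (hc : CoreForm c) (hc' : CoreForm c') :
    Iso (toPres c) (toPres c') ↔ LinEq c c' := by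
  obtain ⟨h1, h2⟩ := hc.hasG
  obtain ⟨h3, h4⟩ := hc'.hasG
  have h5 := (finPres_PA (toPres c)).iso_iff (finPres_PA (toPres c'))
  rw [Iso, AlgIso, h5, h1, h3, coreIso_iff_of_hasG h2 h4]
  rfl

end Pool.Agent.TH477.NA
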