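import Pool.Agent.TH477.NA.CF2

/-! Every presentation is equivalent to a core form. -/

set_option autoImplicit false

open TensorProduct

namespace Pool.Agent.TH477.NA

/-- words allowed in a core form -/
def Shape (t : ℕ) (R : List ((ℕ × ℕ) × List ℕ)) : Prop :=
  ∀ u ∈ R, (∃ i < t, u.2 = [i + 1]) ∨ ∃ i < t, ∃ j < t, u.2 = [i + 1, j + 1, 0]

/-- scaling by `a - b` -/
def scl (k : ℕ × ℕ) (R : List ((ℕ × ℕ) × List ℕ)) : List ((ℕ × ℕ) × List ℕ) :=
  R.map fun u => ((k.1 * u.1.1 + k.2 * u.1.2, k.1 * u.1.2 + k.2 * u.1.1), u.2)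

lemma cf_scl (k : ℕ × ℕ) (R : List ((ℕ × ℕ) × List ℕ)) (w : List ℕ) :
    cf (scl k R) w = ((k.1 : ℚ) - k.2) * cf R w := by
  induction R with
  | nil => simp [scl, cf]
  | cons u R ih =>
    have h1 : scl k (u :: R) =
      ((k.1 * u.1.1 + k.2 * u.1.2, k.1 * u.1.2 + k.2 * u.1.1), u.2) :: scl k R := rfl
    rw [h1, cf_cons, cf_cons, ih, mul_add]
    congr 1
    by_cases h : u.2 = w
    · rw [if_pos h, if_pos h]
      push_cast
      ring
    · rw [if_neg h, if_neg h, mul_zero]

lemma cf_append (R R' : List ((ℕ × ℕ) × List ℕ)) (w : List ℕ) :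
    cf (R ++ R') w = cf R w + cf R' w := by
  simp [cf]

lemma Shape.scl {t : ℕ} {R : List ((ℕ × ℕ) × List ℕ)} (h : Shape t R) (k : ℕ × ℕ) :
    Shape t (scl k R) := by
  intro u hu
  obtain ⟨v, hv, rfl⟩ := List.mem_map.1 hu
  exact h v hv

lemma Shape.append {t : ℕ} {R R' : List ((ℕ × ℕ) × List ℕ)} (h : Shape t R) (h' : Shape t R') :
    Shape t (R ++ R') := by
  intro u hu
  rcases List.mem_append.1 hu with h1 | h1
  · exact h u h1
  · exact h' u h1

lemma exists_rel {t : ℕ} (x : Matrix (Fin t) (Fin t) ℚ × (Fin t → ℚ)) :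
    ∃ (N : ℕ) (R : List ((ℕ × ℕ) × List ℕ)), 0 < N ∧ Shape t R ∧
      (quad t R, line t R) = (N : ℚ) • x := by
  let S : Submodule ℚ (Matrix (Fin t) (Fin t) ℚ × (Fin t → ℚ)) :=
    { carrier := {x | ∃ (N : ℕ) (R : List ((ℕ × ℕ) × List ℕ)), 0 < N ∧ Shape t R ∧
        (quad t R, line t R) = (N : ℚ) • x}
      add_mem' := by
        rintro x y ⟨N, R, hN, hR, hx⟩ ⟨N', R', hN', hR', hy⟩
        refine ⟨N * N', scl (N', 0) R ++ scl (N, 0) R', Nat.mul_pos hN hN',
          (hR.scl _).append (hR'.scl _), ?_⟩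
        have hx1 := congrArg Prod.fst hx
        have hx2 := congrArg Prod.snd hx
        have hy1 := congrArg Prod.fst hy
        have hy2 := congrArg Prod.snd hy
        simp only [Prod.smul_fst, Prod.smul_snd] at hx1 hx2 hy1 hy2
        apply Prod.ext
        · ext i j
          have h1 := congrFun (congrFun hx1 i) j
          have h2 := congrFun (congrFun hy1 i) j
          simp only [quad, Matrix.of_apply, Matrix.smul_apply, smul_eq_mul] at h1 h2
          simp only [quad, Matrix.of_apply, cf_append, cf_scl, h1, h2, Prod.smul_fst,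
            Prod.fst_add, Matrix.smul_apply, Matrix.add_apply, smul_eq_mul]
          push_cast
          ring
        · ext i
          have h1 := congrFun hx2 i
          have h2 := congrFun hy2 i
          simp only [line, Pi.smul_apply, smul_eq_mul] at h1 h2
          simp only [line, cf_append, cf_scl, h1, h2, Prod.smul_snd,
            Prod.snd_add, Pi.smul_apply, Pi.add_apply, smul_eq_mul]
          push_cast
          ring
      zero_mem' := ⟨1, [], one_pos, fun u hu => by simp at hu, by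
        rw [quad_nil, line_nil, smul_zero]; rfl⟩
      smul_mem' := by
        rintro q x ⟨N, R, hN, hR, hx⟩
        obtain ⟨⟨⟨a, b⟩, d⟩, rfl⟩ := exists_cv q
        refine ⟨N * (d + 1), scl (a, b) R, Nat.mul_pos hN (Nat.succ_pos d), hR.scl _, ?_⟩
        have hd : ((d : ℚ) + 1) ≠ 0 := by positivity
        have hx1 := congrArg Prod.fst hx
        have hx2 := congrArg Prod.snd hx
        simp only [Prod.smul_fst, Prod.smul_snd] at hx1 hx2
        apply Prod.ext
        · ext i j
          have h1 := congrFun (congrFun hx1 i) j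
          simp only [quad, Matrix.of_apply, Matrix.smul_apply, smul_eq_mul] at h1
          simp only [quad, Matrix.of_apply, cf_scl, h1, Prod.smul_fst, Matrix.smul_apply,
            smul_eq_mul, cv]
          push_cast
          field_simp
        · ext i
          have h1 := congrFun hx2 i
          simp only [line, Pi.smul_apply, smul_eq_mul] at h1
          simp only [line, cf_scl, h1, Prod.smul_snd, Pi.smul_apply, smul_eq_mul, cv]
          push_cast
          field_simp }
  have hM : ∀ i j : Fin t, ((Matrix.vecMulVec (Pi.single i 1) (Pi.single j 1) :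
      Matrix (Fin t) (Fin t) ℚ), (0 : Fin t → ℚ)) ∈ S := by
    intro i j
    refine ⟨1, [((1, 0), [(i : ℕ) + 1, (j : ℕ) + 1, 0])], one_pos, ?_, ?_⟩
    · intro u hu
      rw [List.mem_singleton] at hu
      subst hu
      exact Or.inr ⟨i, i.2, j, j.2, rfl⟩
    · rw [quad_cons_quad, line_cons_quad, quad_nil, line_nil]
      simp
  have hv : ∀ i : Fin t, ((0 : Matrix (Fin t) (Fin t) ℚ), (Pi.single i 1 : Fin t → ℚ)) ∈ S := by
    intro i
    refine ⟨1, [((1, 0), [(i : ℕ) + 1])], one_pos, ?_, ?_⟩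
    · intro u hu
      rw [List.mem_singleton] at hu
      subst hu
      exact Or.inl ⟨i, i.2, rfl⟩
    · rw [quad_cons_lin, line_cons_lin, quad_nil, line_nil]
      simp
  have hdec : x = ∑ i, ∑ j, x.1 i j • ((Matrix.vecMulVec (Pi.single i 1) (Pi.single j 1) :
      Matrix (Fin t) (Fin t) ℚ), (0 : Fin t → ℚ)) +
      ∑ i, x.2 i • ((0 : Matrix (Fin t) (Fin t) ℚ), (Pi.single i 1 : Fin t → ℚ)) := by
    have h1 : (LinearMap.inl ℚ (Matrix (Fin t) (Fin t) ℚ) (Fin t → ℚ)) x.1 =
        ∑ i, ∑ j, x.1 i j • ((Matrix.vecMulVec (Pi.single i 1) (Pi.single j 1) :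
        Matrix (Fin t) (Fin t) ℚ), (0 : Fin t → ℚ)) := by
      have h2 : x.1 = ∑ i, ∑ j, x.1 i j • (Matrix.vecMulVec (Pi.single i 1) (Pi.single j 1) :
          Matrix (Fin t) (Fin t) ℚ) := by
        conv_lhs => rw [← thL_tau x.1]
        change thL t (∑ i, ∑ j, x.1 i j •
          ((Pi.single i 1 : Fin t → ℚ) ⊗ₜ[ℚ] (Pi.single j 1 : Fin t → ℚ))) = _
        simp only [map_sum, map_smul]
        refine Finset.sum_congr rfl fun i _ => Finset.sum_congr rfl fun j _ => ?_
        congr 1
      conv_lhs => rw [h2]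
      simp only [map_sum, map_smul]
      rfl
    have h3 : (LinearMap.inr ℚ (Matrix (Fin t) (Fin t) ℚ) (Fin t → ℚ)) x.2 =
        ∑ i, x.2 i • ((0 : Matrix (Fin t) (Fin t) ℚ), (Pi.single i 1 : Fin t → ℚ)) := by
      have h4 : x.2 = ∑ i, x.2 i • (Pi.single i 1 : Fin t → ℚ) := by
        ext k; simp [Finset.sum_apply, Pi.single_apply]
      conv_lhs => rw [h4]
      simp only [map_sum, map_smul]
      rfl
    rw [← h1, ← h3]
    apply Prod.ext <;> simp
  have : x ∈ S := by
    rw [hdec]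
    exact S.add_mem (S.sum_mem fun i _ => S.sum_mem fun j _ => S.smul_mem _ (hM i j))
      (S.sum_mem fun i _ => S.smul_mem _ (hv i))
  exact this

/-- every relation space has a code -/
lemma exists_rels {t : ℕ} (G : Submodule ℚ (Matrix (Fin t) (Fin t) ℚ × (Fin t → ℚ))) :
    ∃ L : List (List ((ℕ × ℕ) × List ℕ)), (∀ R ∈ L, Shape t R) ∧
      Submodule.span ℚ {x | ∃ R ∈ L, x = (quad t R, line t R)} = G := by
  classical
  obtain ⟨s, hs⟩ := (Submodule.fg_iff_finiteDimensional G).2 inferInstance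
  choose N R hN hR hx using fun x : Matrix (Fin t) (Fin t) ℚ × (Fin t → ℚ) => exists_rel x
  refine ⟨s.toList.map R, ?_, ?_⟩
  · intro R' hR'
    obtain ⟨x, _, rfl⟩ := List.mem_map.1 hR'
    exact hR x
  · apply le_antisymm
    · apply Submodule.span_le.2
      rintro _ ⟨R', hR', rfl⟩
      obtain ⟨x, hxs, rfl⟩ := List.mem_map.1 hR'
      rw [hx x]
      apply G.smul_mem
      rw [← hs]
      exact Submodule.subset_span (Finset.mem_toList.1 hxs)
    · rw [← hs]
      apply Submodule.span_le.2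
      intro x hxs
      have h1 : ((N x : ℚ) • x) ∈ Submodule.span ℚ {x | ∃ R' ∈ s.toList.map R,
          x = (quad t R', line t R')} := by
        rw [← hx x]
        exact Submodule.subset_span ⟨R x, List.mem_map.2 ⟨x, Finset.mem_toList.2 hxs, rfl⟩, rfl⟩
      have h2 := Submodule.smul_mem _ ((N x : ℚ)⁻¹) h1
      have h3 : (N x : ℚ) ≠ 0 := by exact_mod_cast (hN x).ne'
      rwa [smul_smul, inv_mul_cancel₀ h3, one_smul] at h2

/-- every finitely presented algebra has a core form -/
theorem exists_coreForm (p : Pres) : ∃ c : PCode, CoreForm c ∧ Iso p (toPres c) := by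
  have hA := finPres_PA p
  have hfd : FiniteDimensional ℚ (core ℚ (PA p)) := hA.core_finite
  let t := Module.finrank ℚ (core ℚ (PA p))
  let κ : (Fin t → ℚ) ≃ₗ[ℚ] core ℚ (PA p) := (Module.finBasis ℚ (core ℚ (PA p))).equivFun.symm
  let j : (Fin t → ℚ) →ₗ[ℚ] PA p := (core ℚ (PA p)).subtype ∘ₗ κ.toLinearMap
  have hj : Function.Injective j := Subtype.val_injective.comp κ.injective
  let Θ : Matrix (Fin t) (Fin t) ℚ × (Fin t → ℚ) →ₗ[ℚ] PA p :=
    (mu ℚ (PA p) ∘ₗ TensorProduct.map j j ∘ₗ tau t) ∘ₗ LinearMap.fst ℚ _ _ +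
      j ∘ₗ LinearMap.snd ℚ _ _
  have hΘ : ∀ M v, (M, v) ∈ LinearMap.ker Θ ↔
      mu ℚ (PA p) (TensorProduct.map j j (tau t M)) = j (-v) := by
    intro M v
    rw [LinearMap.mem_ker]
    change mu ℚ (PA p) (TensorProduct.map j j (tau t M)) + j v = 0 ↔ _
    rw [map_neg, ← eq_neg_iff_add_eq_zero]
  obtain ⟨L, hL, hG⟩ := exists_rels (LinearMap.ker Θ)
  let c : PCode := ((t, rk ℚ (PA p)), L)
  have hrel : relSpan c = LinearMap.ker Θ := hG
  have hgraph : ∀ v, ((0 : Matrix (Fin c.1.1) (Fin c.1.1) ℚ), v) ∈ relSpan c → v = 0 := by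
    intro v hv
    have hv' : ((0 : Matrix (Fin t) (Fin t) ℚ), v) ∈ LinearMap.ker Θ := by
      rw [← hrel]; exact hv
    rw [hΘ, map_zero, map_zero, map_zero] at hv'
    have h1 : j (-v) = j 0 := by rw [← hv', map_zero]
    have h2 := hj h1
    exact neg_eq_zero.1 h2
  have hsup : supp (qD c) = ⊤ := by
    obtain ⟨V, hV⟩ := hA.exists_presenting
    have hcs := hV.core_selfSupp.2
    obtain ⟨W, _, hW, _⟩ := hV.exists_terminal
    have hpre : pre (core ℚ (PA p)) ≤ (qD c).map (TensorProduct.map j j) := by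
      intro x hx
      have h1 : x ∈ sq (core ℚ (PA p)) := by
        have h2 : x ∈ pre W := by rw [← hW.pre_core]; exact hx
        rw [hW.core_eq]
        exact le_sq_supp _ h2
      obtain ⟨y, rfl⟩ := h1
      let s := TensorProduct.map κ.symm.toLinearMap κ.symm.toLinearMap y
      have h3 : TensorProduct.map j j s
          = TensorProduct.map (core ℚ (PA p)).subtype (core ℚ (PA p)).subtype y := by
        simp only [s, j]
        rw [← LinearMap.comp_apply, ← TensorProduct.map_comp]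
        congr 2 <;> ext a <;> simp
      refine ⟨s, ⟨(thL t s, -(κ.symm ⟨_, hx⟩)), ?_, ?_⟩, h3⟩
      · have : (thL t s, -(κ.symm ⟨_, hx⟩)) ∈ LinearMap.ker Θ := by
          rw [hΘ, tau_thL, h3, neg_neg]
          simp [j]
        rw [← hrel] at this
        exact this
      · exact tau_thL s
    have h4 : core ℚ (PA p) ≤ (supp (qD c)).map j := by
      rw [← supp_map j hj]
      exact hcs.trans (supp_mono hpre)
    rw [eq_top_iff]
    intro v _
    obtain ⟨w, hw, hwv⟩ := h4 (κ v).2
    have : w = v := hj (by rw [hwv]; rfl)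
    rw [← this]
    exact hw
  have hc : CoreForm c := ⟨hL, hgraph, (supp_qD_iff c).1 hsup⟩
  refine ⟨c, hc, ?_⟩
  obtain ⟨h1, h2⟩ := hc.hasG
  have h3 : HasG (PA p) (relSpan c) := by
    refine ⟨κ, ?_⟩
    intro s v
    have h4 : (thL t s, -v) ∈ LinearMap.ker Θ ↔ _ := hΘ (thL t s) (-v)
    rw [tau_thL, neg_neg] at h4
    rw [hrel]
    refine Iff.trans ?_ h4.symm
    have h5 : TensorProduct.map (core ℚ (PA p)).subtype (core ℚ (PA p)).subtype
        (TensorProduct.map κ.toLinearMap κ.toLinearMap s) = TensorProduct.map j j s := by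
      rw [← LinearMap.comp_apply, ← TensorProduct.map_comp]
    rw [h5]
    rfl
  have h6 := hA.iso_iff (finPres_PA (toPres c))
  rw [Iso, AlgIso, h6]
  refine ⟨h1.symm, (coreIso_iff_of_hasG h3 h2).2 ⟨1, 1, by simp, by simp, ?_⟩⟩
  intro M v
  simp

end Pool.Agent.TH477.NA
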