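import Pool.Agent.TH477.NA.CF3

/-! Certificates for core forms. -/

set_option autoImplicit false

namespace Pool.Agent.TH477.NA

/-- shape test of a word -/
def shapeW (t : ℕ) (w : List ℕ) : Bool :=
  (decide (w = [w.getD 0 0]) && (decide (0 < w.getD 0 0) && decide (w.getD 0 0 ≤ t))) ||
    (decide (w = [w.getD 0 0, w.getD 1 0, 0]) &&
      ((decide (0 < w.getD 0 0) && decide (w.getD 0 0 ≤ t)) &&
        (decide (0 < w.getD 1 0) && decide (w.getD 1 0 ≤ t))))

lemma shapeW_iff (t : ℕ) (w : List ℕ) : shapeW t w = true ↔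
    (∃ i < t, w = [i + 1]) ∨ ∃ i < t, ∃ j < t, w = [i + 1, j + 1, 0] := by
  simp only [shapeW, Bool.or_eq_true, Bool.and_eq_true, decide_eq_true_eq]
  constructor
  · rintro (⟨h1, h2, h3⟩ | ⟨h1, ⟨h2, h3⟩, h4, h5⟩)
    · left
      refine ⟨w.getD 0 0 - 1, by omega, ?_⟩
      rw [Nat.sub_add_cancel h2]
      exact h1
    · right
      refine ⟨w.getD 0 0 - 1, by omega, w.getD 1 0 - 1, by omega, ?_⟩
      rw [Nat.sub_add_cancel h2, Nat.sub_add_cancel h4]
      exact h1
  · rintro (⟨i, hi, rfl⟩ | ⟨i, hi, j, hj, rfl⟩)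
    · left
      simp
      omega
    · right
      simp
      omega

/-- shape test of a relation -/
def shapeR (t : ℕ) (R : List ((ℕ × ℕ) × List ℕ)) : Bool := R.all fun u => shapeW t u.2

lemma shapeR_iff (t : ℕ) (R : List ((ℕ × ℕ) × List ℕ)) : shapeR t R = true ↔ Shape t R := by
  rw [shapeR, List.all_eq_true]
  constructor
  · intro h u hu
    exact (shapeW_iff t u.2).1 (h u hu)
  · intro h u hu
    exact (shapeW_iff t u.2).2 (h u hu)

/-- value of a linear word -/
def phi (t : ℕ) (w : List ℕ) : Fin t → ℚ := fun i => if w = [(i : ℕ) + 1] then 1 else 0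

/-- value of a linear code -/
def vv (t : ℕ) (P : Po) : Fin t → ℚ := (P.map fun u => cv u.1 • phi t u.2).sum

lemma vv_nil (t : ℕ) : vv t [] = 0 := rfl

lemma vv_cons (t : ℕ) (u : Co × List ℕ) (P : Po) : vv t (u :: P) = cv u.1 • phi t u.2 + vv t P := by
  simp [vv]

lemma vv_append (t : ℕ) (P Q : Po) : vv t (P ++ Q) = vv t P + vv t Q := by
  simp [vv]

lemma vv_pscal (t : ℕ) (c : Co) (P : Po) : vv t (pscal c P) = cv c • vv t P := by
  induction P with
  | nil => simp [pscal, vv]
  | cons u P ih =>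
    have h1 : pscal c (u :: P) = (cmul c u.1, u.2) :: pscal c P := rfl
    rw [h1, vv_cons, vv_cons, ih, cv_mul, smul_add, mul_smul]

lemma vv_apply (t : ℕ) (P : Po) (i : Fin t) : vv t P i = cv (coef P [(i : ℕ) + 1]) := by
  rw [cv_coef]
  induction P with
  | nil => simp [vv]
  | cons u P ih =>
    rw [vv_cons, List.map_cons, List.sum_cons, Pi.add_apply, ih, Pi.smul_apply, phi]
    congr 1
    by_cases h : u.2 = [(i : ℕ) + 1]
    · rw [if_pos h, if_pos h, smul_eq_mul, mul_one]
    · rw [if_neg h, if_neg h, smul_zero]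

/-- only linear words -/
def Linp (t : ℕ) (P : Po) : Prop := ∀ u ∈ P, ∃ i < t, u.2 = [i + 1]

lemma feq_of_vv {t : ℕ} {P Q : Po} (hP : Linp t P) (hQ : Linp t Q) (h : vv t P = vv t Q) :
    feq P Q = true := by
  rw [feq_iff]
  intro w
  by_cases hw : ∃ i < t, w = [i + 1]
  · obtain ⟨i, hi, rfl⟩ := hw
    have h1 := vv_apply t P ⟨i, hi⟩
    have h2 := vv_apply t Q ⟨i, hi⟩
    simp only at h1 h2
    rw [← h1, ← h2, h]
  · push Not at hw
    rw [coef_eq_zero, coef_eq_zero]
    · intro u hu h'
      obtain ⟨i, hi, hm⟩ := hQ u hu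
      exact hw i hi (by rw [← h', hm])
    · intro u hu h'
      obtain ⟨i, hi, hm⟩ := hP u hu
      exact hw i hi (by rw [← h', hm])

lemma vv_of_feq {t : ℕ} {P Q : Po} (h : feq P Q = true) : vv t P = vv t Q :=
  feq_eval (phi t) h

lemma exists_lin {t : ℕ} (v : Fin t → ℚ) : ∃ P : Po, Linp t P ∧ vv t P = v := by
  choose c hc using fun i => exists_cv (v i)
  refine ⟨(List.finRange t).map fun i => (c i, [(i : ℕ) + 1]), ?_, ?_⟩
  · intro u hu
    obtain ⟨i, _, rfl⟩ := List.mem_map.1 hu
    exact ⟨i, i.2, rfl⟩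
  · ext k
    rw [vv, List.map_map]
    have h1 : ((List.finRange t).map ((fun u : Co × List ℕ => cv u.1 • phi t u.2) ∘
        fun i : Fin t => (c i, [(i : ℕ) + 1]))).sum = ∑ i, v i • phi t [(i : ℕ) + 1] := by
      rw [← List.sum_ofFn, ← List.ofFn_eq_map.symm]
      congr 1
      simp [Function.comp_def, hc]
    rw [h1, Finset.sum_apply, Finset.sum_eq_single k]
    · simp [phi]
    · intro b _ hb
      have : (b : ℕ) ≠ k := fun h => hb (Fin.ext h)
      simp [phi, this]
    · simp

/-- entry of a table -/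
def tab (N : List (List Po)) (a b : ℕ) : Po := (N.getD a []).getD b []

/-- replace quadratic words by the entries of a table -/
def subN (N : List (List Po)) (P : Po) : Po :=
  P.flatMap fun u => if u.2.length = 3 then pscal u.1 (tab N (u.2.getD 0 0 - 1) (u.2.getD 1 0 - 1))
    else [u]

/-- the multiplication given by a table -/
noncomputable def tabL (t : ℕ) (N : List (List Po)) :
    Matrix (Fin t) (Fin t) ℚ →ₗ[ℚ] (Fin t → ℚ) where
  toFun M := ∑ i, ∑ j, M i j • vv t (tab N i j)
  map_add' x y := by simp [add_smul, Finset.sum_add_distrib]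
  map_smul' c x := by simp [mul_smul, Finset.smul_sum]

lemma tabL_single {t : ℕ} (N : List (List Po)) (i j : Fin t) :
    tabL t N (Matrix.vecMulVec (Pi.single i 1) (Pi.single j 1)) = vv t (tab N i j) := by
  change ∑ k, ∑ l, (Matrix.vecMulVec (Pi.single i 1) (Pi.single j 1) :
    Matrix (Fin t) (Fin t) ℚ) k l • vv t (tab N k l) = _
  rw [Finset.sum_eq_single i, Finset.sum_eq_single j]
  · simp [Matrix.vecMulVec_apply]
  · intro b _ hb
    simp [Matrix.vecMulVec_apply, hb]
  · simp
  · intro a _ ha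
    simp [Matrix.vecMulVec_apply, ha]
  · simp

lemma phi_single {t : ℕ} (i : Fin t) : phi t [(i : ℕ) + 1] = Pi.single i 1 := by
  ext k
  by_cases h : i = k
  · subst h; simp [phi]
  · have : (i : ℕ) ≠ k := fun h' => h (Fin.ext h')
    simp [phi, this, Pi.single_apply, Ne.symm h]

lemma vv_subN {t : ℕ} (N : List (List Po)) (R : List ((ℕ × ℕ) × List ℕ)) (hR : Shape t R) :
    vv t (subN N (toPo R)) = tabL t N (quad t R) + line t R := by
  induction R with
  | nil => rw [quad_nil, line_nil, map_zero, add_zero]; rfl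
  | cons u R ih =>
    have hR' : Shape t R := fun v hv => hR v (List.mem_cons_of_mem _ hv)
    have h2 : cv ((u.1, 0) : Co) = (u.1.1 : ℚ) - u.1.2 := by simp [cv]
    have h3 : subN N (toPo (u :: R)) = (if u.2.length = 3 then
        pscal (u.1, 0) (tab N (u.2.getD 0 0 - 1) (u.2.getD 1 0 - 1)) else [((u.1, 0), u.2)]) ++
        subN N (toPo R) := by
      simp [subN, toPo]
    rw [h3, vv_append, ih hR']
    obtain ⟨⟨a, b⟩, w⟩ := u
    rcases hR _ List.mem_cons_self with ⟨i, hi, hw⟩ | ⟨i, hi, j, hj, hw⟩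
    · simp only at hw
      subst hw
      rw [if_neg (by simp), quad_cons_lin]
      have h4 := line_cons_lin a b ⟨i, hi⟩ R
      have h5 := phi_single (⟨i, hi⟩ : Fin t)
      simp only at h4 h5
      rw [h4, vv_cons, vv_nil, h2, h5]
      abel
    · simp only at hw
      subst hw
      rw [if_pos (by simp), line_cons_quad]
      have h4 := quad_cons_quad a b ⟨i, hi⟩ ⟨j, hj⟩ R
      simp only at h4
      rw [h4, map_add, map_smul, tabL_single, vv_pscal, h2]
      simp only [List.getD_cons_zero, List.getD_cons_succ, Nat.add_sub_cancel]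
      abel

/-- slice of a code: coefficients of `x_i y` (`b = true`) or of `y x_i` (`b = false`) -/
def sl (b : Bool) (i : ℕ) (P : Po) : Po :=
  P.flatMap fun u => if u.2.length = 3 ∧ (bif b then u.2.getD 0 0 else u.2.getD 1 0) = i + 1 then
    [(u.1, [bif b then u.2.getD 1 0 else u.2.getD 0 0])] else []

lemma sl_cons (b : Bool) (i : ℕ) (u : Co × List ℕ) (P : Po) : sl b i (u :: P) =
    (if u.2.length = 3 ∧ (bif b then u.2.getD 0 0 else u.2.getD 1 0) = i + 1 then
    [(u.1, [bif b then u.2.getD 1 0 else u.2.getD 0 0])] else []) ++ sl b i P := by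
  simp [sl]

lemma linp_sl {t : ℕ} (b : Bool) (i : ℕ) (R : List ((ℕ × ℕ) × List ℕ)) (hR : Shape t R) :
    Linp t (sl b i (toPo R)) := by
  intro v hv
  obtain ⟨u, hu, hv⟩ := List.mem_flatMap.1 hv
  obtain ⟨u', hu', rfl⟩ := List.mem_map.1 hu
  by_cases hc : u'.2.length = 3 ∧ (bif b then u'.2.getD 0 0 else u'.2.getD 1 0) = i + 1
  · simp only at hv
    rw [if_pos hc, List.mem_singleton] at hv
    subst hv
    rcases hR u' hu' with ⟨k, hk, hw⟩ | ⟨k, hk, l, hl, hw⟩
    · rw [hw] at hc
      simp at hc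
    · simp only [hw]
      cases b with
      | true => exact ⟨l, hl, rfl⟩
      | false => exact ⟨k, hk, rfl⟩
  · simp only at hv
    rw [if_neg hc] at hv
    simp at hv

lemma vv_sl_true {t : ℕ} (i : Fin t) (R : List ((ℕ × ℕ) × List ℕ)) (hR : Shape t R) :
    vv t (sl true i (toPo R)) = fun j => quad t R i j := by
  induction R with
  | nil => rw [quad_nil]; rfl
  | cons u R ih =>
    have hR' : Shape t R := fun v hv => hR v (List.mem_cons_of_mem _ hv)
    have h2 : cv ((u.1, 0) : Co) = (u.1.1 : ℚ) - u.1.2 := by simp [cv]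
    have h1 : toPo (u :: R) = ((u.1, 0), u.2) :: toPo R := rfl
    rw [h1, sl_cons, vv_append, ih hR']
    obtain ⟨⟨a, b⟩, w⟩ := u
    rcases hR _ List.mem_cons_self with ⟨k, hk, hw⟩ | ⟨k, hk, l, hl, hw⟩
    · simp only at hw
      subst hw
      rw [quad_cons_lin, if_neg (by simp), vv_nil, zero_add]
    · simp only at hw
      subst hw
      have h4 := quad_cons_quad a b ⟨k, hk⟩ ⟨l, hl⟩ R
      simp only at h4
      rw [h4]
      have h5 := phi_single (⟨l, hl⟩ : Fin t)
      simp only at h5
      ext j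
      by_cases hki : k = i
      · subst hki
        rw [if_pos (by simp), vv_cons, vv_nil, add_zero]
        simp only [cond_true, List.getD_cons_zero, List.getD_cons_succ]
        rw [h5, h2]
        simp [Matrix.vecMulVec_apply]
      · rw [if_neg (by simp [hki]), vv_nil, zero_add]
        have : (⟨k, hk⟩ : Fin t) ≠ i := fun h => hki (by rw [← h])
        simp [Matrix.vecMulVec_apply, this.symm]

lemma vv_sl_false {t : ℕ} (i : Fin t) (R : List ((ℕ × ℕ) × List ℕ)) (hR : Shape t R) :
    vv t (sl false i (toPo R)) = fun j => quad t R j i := by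
  induction R with
  | nil => rw [quad_nil]; rfl
  | cons u R ih =>
    have hR' : Shape t R := fun v hv => hR v (List.mem_cons_of_mem _ hv)
    have h2 : cv ((u.1, 0) : Co) = (u.1.1 : ℚ) - u.1.2 := by simp [cv]
    have h1 : toPo (u :: R) = ((u.1, 0), u.2) :: toPo R := rfl
    rw [h1, sl_cons, vv_append, ih hR']
    obtain ⟨⟨a, b⟩, w⟩ := u
    rcases hR _ List.mem_cons_self with ⟨k, hk, hw⟩ | ⟨k, hk, l, hl, hw⟩
    · simp only at hw
      subst hw
      rw [quad_cons_lin, if_neg (by simp), vv_nil, zero_add]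
    · simp only at hw
      subst hw
      have h4 := quad_cons_quad a b ⟨k, hk⟩ ⟨l, hl⟩ R
      simp only at h4
      rw [h4]
      have h5 := phi_single (⟨k, hk⟩ : Fin t)
      simp only at h5
      ext j
      by_cases hli : l = i
      · subst hli
        rw [if_pos (by simp), vv_cons, vv_nil, add_zero]
        simp only [cond_false, List.getD_cons_zero, List.getD_cons_succ]
        rw [h5, h2]
        simp [Matrix.vecMulVec_apply]
      · rw [if_neg (by simp [hli]), vv_nil, zero_add]
        have : (⟨l, hl⟩ : Fin t) ≠ i := fun h => hli (by rw [← h])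
        simp [Matrix.vecMulVec_apply, this.symm]

lemma vv_sl_large {t : ℕ} (b : Bool) {i : ℕ} (hi : t ≤ i) (R : List ((ℕ × ℕ) × List ℕ))
    (hR : Shape t R) : vv t (sl b i (toPo R)) = 0 := by
  have : sl b i (toPo R) = [] := by
    rw [sl, List.flatMap_eq_nil_iff]
    intro u hu
    obtain ⟨u', hu', rfl⟩ := List.mem_map.1 hu
    rw [if_neg]
    rintro ⟨h1, h2⟩
    rcases hR u' hu' with ⟨k, hk, hw⟩ | ⟨k, hk, l, hl, hw⟩
    · rw [hw] at h1
      simp at h1
    · rw [hw] at h2
      cases b with
      | true => simp at h2; omega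
      | false => simp at h2; omega
  rw [this, vv_nil]

/-- a combination of slices -/
abbrev SCert := List (Co × (Bool × (ℕ × ℕ)))

/-- its value -/
def slices (c : PCode) (S : SCert) : Po :=
  S.flatMap fun e => pscal e.1 (sl e.2.1 e.2.2.1 (toPo (c.2.getD e.2.2.2 [])))

lemma slices_cons (c : PCode) (e : Co × (Bool × (ℕ × ℕ))) (S : SCert) : slices c (e :: S) =
    pscal e.1 (sl e.2.1 e.2.2.1 (toPo (c.2.getD e.2.2.2 []))) ++ slices c S := by
  simp [slices]

/-- certificate check for core forms -/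
def coreB (c : PCode) (z : List (List Po) × List SCert) : Bool :=
  (c.2.all fun R => shapeR c.1.1 R) && ((c.2.all fun R => feq (subN z.1 (toPo R)) []) &&
    ((List.range c.1.1).all fun j => feq (slices c (z.2.getD j [])) [(cone, [j + 1])]))

lemma shape_getD {c : PCode} (h : ∀ R ∈ c.2, Shape c.1.1 R) (k : ℕ) :
    Shape c.1.1 (c.2.getD k []) := by
  by_cases hk : k < c.2.length
  · rw [List.getD_eq_getElem _ _ hk]
    exact h _ (List.getElem_mem hk)
  · rw [List.getD_eq_default _ _ (not_lt.1 hk)]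
    intro u hu
    simp at hu

theorem coreForm_of_cert {c : PCode} {z : List (List Po) × List SCert} (h : coreB c z = true) :
    CoreForm c := by
  simp only [coreB, Bool.and_eq_true] at h
  obtain ⟨h1, h2, h3⟩ := h
  have hshape : ∀ R ∈ c.2, Shape c.1.1 R := fun R hR =>
    (shapeR_iff _ _).1 (List.all_eq_true.1 h1 R hR)
  refine ⟨hshape, ?_, ?_⟩
  · have key : ∀ x ∈ relSpan c, tabL c.1.1 z.1 x.1 + x.2 = 0 := by
      intro x hx
      induction hx using Submodule.span_induction with
      | mem x hx =>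
        obtain ⟨R, hR, rfl⟩ := hx
        have h4 := vv_of_feq (t := c.1.1) (List.all_eq_true.1 h2 R hR)
        rw [vv_subN z.1 R (hshape R hR), vv_nil] at h4
        exact h4
      | zero => simp
      | add x y _ _ hx hy =>
        rw [Prod.fst_add, Prod.snd_add, map_add, add_add_add_comm, hx, hy, add_zero]
      | smul a x _ hx => rw [Prod.smul_fst, Prod.smul_snd, map_smul, ← smul_add, hx, smul_zero]
    intro v hv
    have h4 := key _ hv
    simpa using h4
  · intro f hf
    have hsl : ∀ (b : Bool) (i k : ℕ),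
        dotProduct f (vv c.1.1 (sl b i (toPo (c.2.getD k [])))) = 0 := by
      intro b i k
      have hs := shape_getD hshape k
      have hq : Matrix.vecMul f (quad c.1.1 (c.2.getD k [])) = 0 ∧
          (quad c.1.1 (c.2.getD k [])).mulVec f = 0 := by
        by_cases hk : k < c.2.length
        · rw [List.getD_eq_getElem _ _ hk]
          exact hf _ (List.getElem_mem hk)
        · rw [List.getD_eq_default _ _ (not_lt.1 hk), quad_nil]
          simp
      by_cases hi : i < c.1.1
      · cases b with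
        | true =>
          have h5 := vv_sl_true ⟨i, hi⟩ _ hs
          simp only at h5
          rw [h5, dotProduct_comm]
          exact congrFun hq.2 ⟨i, hi⟩
        | false =>
          have h5 := vv_sl_false ⟨i, hi⟩ _ hs
          simp only at h5
          rw [h5]
          exact congrFun hq.1 ⟨i, hi⟩
      · rw [vv_sl_large b (not_lt.1 hi) _ hs, dotProduct_zero]
    have hall : ∀ S : SCert, dotProduct f (vv c.1.1 (slices c S)) = 0 := by
      intro S
      induction S with
      | nil => exact dotProduct_zero f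
      | cons e S ih =>
        rw [slices_cons, vv_append, vv_pscal, dotProduct_add, dotProduct_smul, hsl, ih, smul_zero,
          add_zero]
    funext j
    have h4 := vv_of_feq (t := c.1.1) (List.all_eq_true.1 h3 j (List.mem_range.2 j.2))
    have h5 := hall (z.2.getD j [])
    rw [h4, vv_cons, vv_nil, cv_one, one_smul, add_zero, phi_single] at h5
    simpa using h5

theorem exists_core_cert {c : PCode} (hc : CoreForm c) :
    ∃ z : List (List Po) × List SCert, coreB c z = true := by
  obtain ⟨hshape, hgraph, hnd⟩ := hc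
  obtain ⟨n0, hn0⟩ := exists_nu hgraph
  -- the table
  obtain ⟨N, hN⟩ : ∃ N : List (List Po), ∀ i j : Fin c.1.1, Linp c.1.1 (tab N i j) ∧
      vv c.1.1 (tab N i j) = n0 (Matrix.vecMulVec (Pi.single i 1) (Pi.single j 1)) := by
    obtain ⟨N, hN⟩ := exists_list_getD ([] : List Po) c.1.1
      (fun i L => ∀ hi : i < c.1.1, ∀ j : Fin c.1.1, Linp c.1.1 (L.getD j []) ∧
        vv c.1.1 (L.getD j []) = n0 (Matrix.vecMulVec (Pi.single ⟨i, hi⟩ 1) (Pi.single j 1))) (by
      intro i hi
      obtain ⟨L, hL⟩ := exists_list_getD ([] : Po) c.1.1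
        (fun j P => ∀ hj : j < c.1.1, Linp c.1.1 P ∧
          vv c.1.1 P = n0 (Matrix.vecMulVec (Pi.single ⟨i, hi⟩ 1) (Pi.single ⟨j, hj⟩ 1))) (by
        intro j hj
        obtain ⟨P, hP, hP'⟩ := exists_lin
          (n0 (Matrix.vecMulVec (Pi.single ⟨i, hi⟩ 1) (Pi.single ⟨j, hj⟩ 1)))
        exact ⟨P, fun _ => ⟨hP, hP'⟩⟩)
      exact ⟨L, fun _ j => hL j j.2 j.2⟩)
    exact ⟨N, fun i j => hN i i.2 i.2 j⟩
  have htab : tabL c.1.1 N = n0 := by
    apply LinearMap.ext
    intro M
    have hM : M = ∑ i, ∑ j, M i j • (Matrix.vecMulVec (Pi.single i 1) (Pi.single j 1) :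
        Matrix (Fin c.1.1) (Fin c.1.1) ℚ) := by
      ext k l
      simp only [Matrix.sum_apply, Matrix.smul_apply, Matrix.vecMulVec_apply, smul_eq_mul]
      rw [Finset.sum_eq_single k, Finset.sum_eq_single l]
      · simp
      · intro b _ hb
        simp [hb.symm]
      · simp
      · intro b _ hb
        simp [hb.symm]
      · simp
    rw [hM]
    simp only [map_sum, map_smul, tabL_single, (hN _ _).2]
  -- the slices
  let W : Submodule ℚ (Fin c.1.1 → ℚ) :=
    { carrier := {v | ∃ S : SCert, vv c.1.1 (slices c S) = v}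
      add_mem' := by
        rintro x y ⟨S, rfl⟩ ⟨S', rfl⟩
        refine ⟨S ++ S', ?_⟩
        rw [← vv_append]
        simp [slices]
      zero_mem' := ⟨[], rfl⟩
      smul_mem' := by
        rintro a x ⟨S, rfl⟩
        obtain ⟨k, rfl⟩ := exists_cv a
        refine ⟨S.map fun e => (cmul k e.1, e.2), ?_⟩
        induction S with
        | nil => simp [slices, vv_nil]
        | cons e S ih =>
          rw [List.map_cons, slices_cons, slices_cons, vv_append, vv_append, ih, vv_pscal, vv_pscal,
            smul_add, smul_smul, cv_mul] }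
  have hslW : ∀ (b : Bool) (i k : ℕ), vv c.1.1 (sl b i (toPo (c.2.getD k []))) ∈ W := by
    intro b i k
    refine ⟨[(cone, (b, (i, k)))], ?_⟩
    rw [slices_cons, vv_append, vv_pscal, cv_one, one_smul]
    have : slices c [] = [] := rfl
    rw [this, vv_nil, add_zero]
  have hW : W = ⊤ := by
    by_contra hne
    obtain ⟨g, hg0, hg⟩ := Submodule.exists_le_ker_of_lt_top _ (lt_top_iff_ne_top.2 hne)
    apply hg0
    have hgv : ∀ v : Fin c.1.1 → ℚ, g v = ∑ j, v j * g (Pi.single j 1) := by
      intro v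
      have hv : v = ∑ j, v j • (Pi.single j 1 : Fin c.1.1 → ℚ) := by
        ext k; simp [Finset.sum_apply, Pi.single_apply]
      conv_lhs => rw [hv]
      simp only [map_sum, map_smul, smul_eq_mul]
    have hf := hnd (fun i => g (Pi.single i 1)) (by
      intro R hR
      obtain ⟨k, hk, rfl⟩ := List.getElem_of_mem hR
      have hs := hshape _ hR
      have hk' : c.2.getD k [] = c.2[k] := List.getD_eq_getElem _ _ hk
      constructor
      · funext i
        have h1 := hg (hslW false i k)
        rw [hk', vv_sl_false i _ hs, LinearMap.mem_ker, hgv] at h1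
        simp only [Matrix.vecMul, dotProduct, Pi.zero_apply]
        rw [← h1]
        exact Finset.sum_congr rfl fun j _ => mul_comm _ _
      · funext i
        have h1 := hg (hslW true i k)
        rw [hk', vv_sl_true i _ hs, LinearMap.mem_ker, hgv] at h1
        simp only [Matrix.mulVec, dotProduct, Pi.zero_apply]
        exact h1)
    exact dual_eq_zero g fun i => congrFun hf i
  obtain ⟨S, hS⟩ := exists_list_getD ([] : SCert) c.1.1
    (fun j S => feq (slices c S) [(cone, [j + 1])] = true) (by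
    intro j hj
    have h1 : (Pi.single ⟨j, hj⟩ 1 : Fin c.1.1 → ℚ) ∈ W := by rw [hW]; trivial
    obtain ⟨S, hS⟩ := h1
    refine ⟨S, feq_of_vv (t := c.1.1) ?_ ?_ ?_⟩
    · intro u hu
      obtain ⟨e, _, hu⟩ := List.mem_flatMap.1 hu
      obtain ⟨v, hv, rfl⟩ := List.mem_map.1 hu
      exact linp_sl e.2.1 e.2.2.1 _ (shape_getD hshape e.2.2.2) v hv
    · intro u hu
      rw [List.mem_singleton] at hu
      subst hu
      exact ⟨j, hj, rfl⟩
    · have h2 := phi_single (⟨j, hj⟩ : Fin c.1.1)
      simp only at h2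
      rw [hS, vv_cons, vv_nil, cv_one, one_smul, add_zero, h2])
  refine ⟨(N, S), ?_⟩
  simp only [coreB, Bool.and_eq_true]
  refine ⟨?_, ?_, ?_⟩
  · exact List.all_eq_true.2 fun R hR => (shapeR_iff _ _).2 (hshape R hR)
  · refine List.all_eq_true.2 fun R hR => ?_
    apply feq_of_vv (t := c.1.1)
    · intro v hv
      obtain ⟨u, hu, hv⟩ := List.mem_flatMap.1 hv
      obtain ⟨u', hu', rfl⟩ := List.mem_map.1 hu
      rcases hshape R hR u' hu' with ⟨k, hk, hw⟩ | ⟨k, hk, l, hl, hw⟩
      · simp only at hv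
        rw [hw, if_neg (by simp), List.mem_singleton] at hv
        subst hv
        exact ⟨k, hk, rfl⟩
      · simp only at hv
        rw [hw, if_pos (by simp)] at hv
        obtain ⟨v', hv', rfl⟩ := List.mem_map.1 hv
        simp only [List.getD_cons_zero, List.getD_cons_succ, Nat.add_sub_cancel] at hv'
        exact (hN ⟨k, hk⟩ ⟨l, hl⟩).1 v' hv'
    · intro u hu
      simp at hu
    · rw [vv_subN N R (hshape R hR), htab, vv_nil,
        hn0 _ _ (Submodule.subset_span ⟨R, hR, rfl⟩), neg_add_cancel]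
  · exact List.all_eq_true.2 fun j hj => hS j (List.mem_range.1 hj)

end Pool.Agent.TH477.NA
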