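import Pool.Agent.TH477.NA.Code

/-! Certificates for membership in ideals and for isomorphism of presented algebras. -/

set_option autoImplicit false

open TensorProduct

namespace Pool.Agent.TH477.NA

/-- codes of finite presentations: `(n, relations)`, a relation being a list of
`((a,b),w)`, which stands for the sum of the `(a-b) w` -/
abbrev Pres := ℕ × List (List ((ℕ × ℕ) × List ℕ))

/-- a relation as a code -/
def toPo (r : List ((ℕ × ℕ) × List ℕ)) : Po := r.map (fun c => ((c.1, 0), c.2))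

/-- the relations -/
def rvals (p : Pres) : Set (MonoidAlgebra ℚ (FreeMagma (Fin p.1))) :=
  {x | ∃ r ∈ p.2, x = val p.1 (toPo r)}

/-- the presented algebra -/
abbrev PA (p : Pres) : Type := QA (rvals p)

/-- the presented algebras are isomorphic -/
def Iso (p q : Pres) : Prop := AlgIso ℚ (PA p) (PA q)

/-- normalised relations -/
def rl (p : Pres) : List Po := p.2.map (fun r => nrm p.1 (toPo r))

lemma nrm_nil (n : ℕ) : nrm n [] = [] := rfl

lemma getD_map {α β : Type*} (g : α → β) (l : List α) (d : α) (d' : β) (hd : g d = d') (k : ℕ) :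
    (l.map g).getD k d' = g (l.getD k d) := by
  subst hd
  induction l generalizing k with
  | nil => simp
  | cons a l ih =>
    cases k with
    | zero => simp
    | succ k => simp

lemma rl_getD (p : Pres) (k : ℕ) :
    (rl p).getD k [] = nrm p.1 (toPo (p.2.getD k [])) :=
  getD_map (fun r => nrm p.1 (toPo r)) p.2 [] [] rfl k

lemma rl_spec (p : Pres) (k : ℕ) : Canp p.1 ((rl p).getD k []) ∧
    val p.1 ((rl p).getD k []) = val p.1 (toPo (p.2.getD k [])) := by
  rw [rl_getD]
  exact nrm_spec _ _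

lemma rl_mem (p : Pres) (k : ℕ) : val p.1 ((rl p).getD k []) ∈ idealOf (rvals p) := by
  rw [(rl_spec p k).2]
  by_cases h : k < p.2.length
  · apply subset_idealOf
    refine ⟨p.2.getD k [], ?_, rfl⟩
    rw [List.getD_eq_getElem _ _ h]
    exact List.getElem_mem h
  · rw [List.getD_eq_default _ _ (not_lt.1 h)]
    exact Submodule.zero_mem _

/-- multiplication step -/
def stp (n : ℕ) (P : Po) (s : Bool × Po) : Po :=
  bif s.1 then pmul (nrm n s.2) P else pmul P (nrm n s.2)

/-- iterated multiplication -/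
def ctx (n : ℕ) (P : Po) (l : List (Bool × Po)) : Po := l.foldl (stp n) P

/-- certificates -/
abbrev Cert := List (Co × (List (Bool × Po) × ℕ))

/-- the element of the ideal given by a certificate -/
def idl (p : Pres) (C : Cert) : Po :=
  C.flatMap (fun c => pscal c.1 (ctx p.1 ((rl p).getD c.2.2 []) c.2.1))

lemma ctx_spec {n : ℕ} {R : Set (MonoidAlgebra ℚ (FreeMagma (Fin n)))} (l : List (Bool × Po)) :
    ∀ P : Po, Canp n P → val n P ∈ idealOf R →
      Canp n (ctx n P l) ∧ val n (ctx n P l) ∈ idealOf R := by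
  induction l with
  | nil => intro P h1 h2; exact ⟨h1, h2⟩
  | cons s l ih =>
    intro P h1 h2
    obtain ⟨h3, h4⟩ := nrm_spec n s.2
    apply ih
    · cases hs : s.1 with
      | true => simp only [stp, hs, cond_true]; exact h3.pmul h1
      | false => simp only [stp, hs, cond_false]; exact h1.pmul h3
    · cases hs : s.1 with
      | true =>
        simp only [stp, hs, cond_true]
        rw [val_pmul h3 h1]
        exact (idealOf_mul h2 _).1
      | false =>
        simp only [stp, hs, cond_false]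
        rw [val_pmul h1 h3]
        exact (idealOf_mul h2 _).2

lemma idl_spec (p : Pres) (C : Cert) :
    Canp p.1 (idl p C) ∧ val p.1 (idl p C) ∈ idealOf (rvals p) := by
  induction C with
  | nil => exact ⟨Canp.nil _, Submodule.zero_mem _⟩
  | cons c C ih =>
    have h1 : idl p (c :: C) = pscal c.1 (ctx p.1 ((rl p).getD c.2.2 []) c.2.1) ++ idl p C := by
      simp [idl]
    obtain ⟨h2, h3⟩ := ctx_spec (R := rvals p) c.2.1 _ (rl_spec p c.2.2).1 (rl_mem p c.2.2)
    rw [h1, val_append, val_pscal]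
    exact ⟨(h2.pscal _).append ih.1, Submodule.add_mem _ (Submodule.smul_mem _ _ h3) ih.2⟩

lemma idl_append (p : Pres) (C C' : Cert) : idl p (C ++ C') = idl p C ++ idl p C' := by
  simp [idl]

lemma ctx_append (n : ℕ) (P : Po) (l l' : List (Bool × Po)) :
    ctx n P (l ++ l') = ctx n (ctx n P l) l' := by
  simp [ctx]

/-- all elements of the ideal have certificates -/
lemma idl_complete (p : Pres) {x : MonoidAlgebra ℚ (FreeMagma (Fin p.1))}
    (hx : x ∈ idealOf (rvals p)) : ∃ C : Cert, val p.1 (idl p C) = x := by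
  let J : Submodule ℚ (MonoidAlgebra ℚ (FreeMagma (Fin p.1))) :=
    { carrier := {x | ∃ C : Cert, val p.1 (idl p C) = x}
      add_mem' := by
        rintro x y ⟨C, rfl⟩ ⟨C', rfl⟩
        exact ⟨C ++ C', by rw [idl_append, val_append]⟩
      zero_mem' := ⟨[], rfl⟩
      smul_mem' := by
        rintro a x ⟨C, rfl⟩
        obtain ⟨c, rfl⟩ := exists_cv a
        refine ⟨C.map (fun d => (cmul c d.1, d.2)), ?_⟩
        induction C with
        | nil => simp [idl]
        | cons d C ih =>
          have h1 : ∀ (d : Co × (List (Bool × Po) × ℕ)) (C : Cert), idl p (d :: C)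
              = pscal d.1 (ctx p.1 ((rl p).getD d.2.2 []) d.2.1) ++ idl p C := by
            intro d C
            simp [idl]
          rw [List.map_cons, h1, h1, val_append, val_append, ih, val_pscal, val_pscal, smul_add,
            smul_smul, cv_mul] }
  have hle : idealOf (rvals p) ≤ J := by
    apply sInf_le
    refine ⟨?_, ?_⟩
    · rintro _ ⟨r, hr, rfl⟩
      obtain ⟨k, hk, rfl⟩ := List.getElem_of_mem hr
      refine ⟨[(cone, ([], k))], ?_⟩
      have h1 : idl p [(cone, ([], k))] = pscal cone ((rl p).getD k []) ++ [] := by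
        simp [idl, ctx]
      rw [h1, val_append, val_pscal, val_nil, cv_one, one_smul, add_zero, (rl_spec p k).2,
        List.getD_eq_getElem _ _ hk]
    · rintro a x ⟨C, rfl⟩
      obtain ⟨Pa, hPa, rfl⟩ := exists_code a
      have h1 : ∀ (d : Co × (List (Bool × Po) × ℕ)) (C : Cert), idl p (d :: C)
          = pscal d.1 (ctx p.1 ((rl p).getD d.2.2 []) d.2.1) ++ idl p C := by
        intro d C
        simp [idl]
      obtain ⟨h2, h3⟩ := nrm_spec p.1 Pa
      constructor
      · refine ⟨C.map (fun d => (d.1, (d.2.1 ++ [(true, Pa)], d.2.2))), ?_⟩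
        induction C with
        | nil => simp [idl]
        | cons d C ih =>
          obtain ⟨h4, _⟩ := ctx_spec (R := rvals p) d.2.1 _ (rl_spec p d.2.2).1 (rl_mem p d.2.2)
          rw [List.map_cons, h1, h1, val_append, val_append, ih, val_pscal, val_pscal, mul_add,
            ctx_append]
          have h5 : ctx p.1 (ctx p.1 ((rl p).getD d.2.2 []) d.2.1) [(true, Pa)]
              = pmul (nrm p.1 Pa) (ctx p.1 ((rl p).getD d.2.2 []) d.2.1) := rfl
          rw [h5, val_pmul h2 h4, h3, mul_smul_comm]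
      · refine ⟨C.map (fun d => (d.1, (d.2.1 ++ [(false, Pa)], d.2.2))), ?_⟩
        induction C with
        | nil => simp [idl]
        | cons d C ih =>
          obtain ⟨h4, _⟩ := ctx_spec (R := rvals p) d.2.1 _ (rl_spec p d.2.2).1 (rl_mem p d.2.2)
          rw [List.map_cons, h1, h1, val_append, val_append, ih, val_pscal, val_pscal, add_mul,
            ctx_append]
          have h5 : ctx p.1 (ctx p.1 ((rl p).getD d.2.2 []) d.2.1) [(false, Pa)]
              = pmul (ctx p.1 ((rl p).getD d.2.2 []) d.2.1) (nrm p.1 Pa) := rfl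
          rw [h5, val_pmul h4 h2, h3, smul_mul_assoc]
  exact hle hx

/-- certificate check: `f` defines a homomorphism -/
def homc (p q : Pres) (f : List Po) (C : List Cert) : Bool :=
  (List.range p.2.length).all (fun k =>
    feq (sub p.1 (f.map (nrm q.1)) ((rl p).getD k [])) (idl q (C.getD k [])))

/-- certificate check: `g ∘ f` is the identity -/
def invc (p q : Pres) (f g : List Po) (C : List Cert) : Bool :=
  (List.range p.1).all (fun i =>
    feq (sub q.1 (g.map (nrm p.1)) ((f.map (nrm q.1)).getD i []))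
      ((cone, [i + 1]) :: idl p (C.getD i [])))

/-- isomorphism certificates -/
abbrev ICert := (List Po × List Po) × ((List Cert × List Cert) × (List Cert × List Cert))

/-- certificate check: isomorphism -/
def isoc (p q : Pres) (z : ICert) : Bool :=
  (homc p q z.1.1 z.2.1.1 && homc q p z.1.2 z.2.1.2) &&
    (invc p q z.1.1 z.1.2 z.2.2.1 && invc q p z.1.2 z.1.1 z.2.2.2)

lemma canp_map_nrm (n : ℕ) (f : List Po) (i : ℕ) : Canp n ((f.map (nrm n)).getD i []) := by
  rw [getD_map (nrm n) f [] [] (nrm_nil n) i]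
  exact (nrm_spec n _).1

lemma val_map_nrm (n : ℕ) (f : List Po) (i : ℕ) :
    val n ((f.map (nrm n)).getD i []) = val n (f.getD i []) := by
  rw [getD_map (nrm n) f [] [] (nrm_nil n) i]
  exact (nrm_spec n _).2

lemma free_induct {n : ℕ} {M : Type*} [NonUnitalNonAssocRing M] [Module ℚ M]
    {h1 h2 : MonoidAlgebra ℚ (FreeMagma (Fin n)) →ₗ[ℚ] M} (m1 : ∀ a b, h1 (a * b) = h1 a * h1 b)
    (m2 : ∀ a b, h2 (a * b) = h2 a * h2 b)
    (h : ∀ i : Fin n, h1 (mb ℚ (Fin n) (FreeMagma.of i)) = h2 (mb ℚ (Fin n) (FreeMagma.of i))) :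
    h1 = h2 := by
  apply (mb ℚ (Fin n)).ext
  intro w
  induction w using FreeMagma.rec with
  | of i => exact h i
  | mul a b iha ihb =>
    change h1 (mb ℚ (Fin n) (a * b)) = h2 (mb ℚ (Fin n) (a * b))
    rw [← mb_mul, m1, m2, iha, ihb]

/-- the homomorphism of a list of codes as a linear map -/
noncomputable def homL (n n' : ℕ) (f : List Po) :
    MonoidAlgebra ℚ (FreeMagma (Fin n)) →ₗ[ℚ] MonoidAlgebra ℚ (FreeMagma (Fin n')) where
  toFun := hom n n' f
  map_add' := map_add _
  map_smul' := map_smul _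

lemma homL_mul (n n' : ℕ) (f : List Po) (a b : MonoidAlgebra ℚ (FreeMagma (Fin n))) :
    homL n n' f (a * b) = homL n n' f a * homL n n' f b := map_mul (hom n n' f) a b

lemma homL_gen (n n' : ℕ) (f : List Po) (i : Fin n) :
    homL n n' f (mb ℚ (Fin n) (FreeMagma.of i)) = val n' (f.getD i []) := by
  rw [mb_apply]
  exact FreeNonUnitalNonAssocAlgebra.lift_of_apply ℚ (fun i : Fin n => val n' (f.getD i [])) i

lemma exists_map_of_homc {p q : Pres} {f : List Po} {C : List Cert} (h : homc p q f C = true) :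
    ∃ Φ : PA p →ₗ[ℚ] PA q, (∀ a b, Φ (a * b) = Φ a * Φ b) ∧
      ∀ x, Φ (qpr (rvals p) x) = qpr (rvals q) (homL p.1 q.1 (f.map (nrm q.1)) x) := by
  let f' := f.map (nrm q.1)
  let v : Fin p.1 → PA q := fun i => qpr (rvals q) (val q.1 (f'.getD i []))
  have hL : ∀ x, FreeNonUnitalNonAssocAlgebra.lift ℚ v x
      = qpr (rvals q) (homL p.1 q.1 f' x) := by
    let Lv : MonoidAlgebra ℚ (FreeMagma (Fin p.1)) →ₗ[ℚ] PA q :=
      { toFun := FreeNonUnitalNonAssocAlgebra.lift ℚ v
        map_add' := map_add _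
        map_smul' := map_smul _ }
    have h1 : Lv = qpr (rvals q) ∘ₗ homL p.1 q.1 f' := by
      apply free_induct
      · intro a b
        exact map_mul (FreeNonUnitalNonAssocAlgebra.lift ℚ v) a b
      · intro a b
        rw [LinearMap.comp_apply, homL_mul, qpr_mul]
        rfl
      · intro i
        rw [LinearMap.comp_apply, homL_gen, mb_apply]
        exact FreeNonUnitalNonAssocAlgebra.lift_of_apply ℚ v i
    intro x
    exact congrArg (fun g => g x) h1
  obtain ⟨Φ, h1, h2⟩ := exists_lift (rvals p) v (by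
    rintro _ ⟨r, hr, rfl⟩
    obtain ⟨k, hk, rfl⟩ := List.getElem_of_mem hr
    rw [hL, qpr_eq_zero]
    have h3 := (List.all_eq_true.1 h) k (List.mem_range.2 hk)
    have h4 := feq_val (n := q.1) h3
    have h5 := (sub_spec (n := p.1) (canp_map_nrm q.1 f) ((rl p).getD k [])).2
    have h6 : homL p.1 q.1 f' (val p.1 (toPo p.2[k])) = val q.1 (idl q (C.getD k [])) := by
      rw [← h4, h5, (rl_spec p k).2, List.getD_eq_getElem _ _ hk]
      rfl
    rw [h6]
    exact (idl_spec q _).2)
  exact ⟨Φ, h1, fun x => by rw [h2, hL]⟩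

lemma comp_eq_id {p q : Pres} {f g : List Po} {C : List Cert} (h : invc p q f g C = true)
    {Φ : PA p →ₗ[ℚ] PA q} (hΦ : ∀ a b, Φ (a * b) = Φ a * Φ b)
    (hΦ' : ∀ x, Φ (qpr (rvals p) x) = qpr (rvals q) (homL p.1 q.1 (f.map (nrm q.1)) x))
    {Ψ : PA q →ₗ[ℚ] PA p} (hΨ : ∀ a b, Ψ (a * b) = Ψ a * Ψ b)
    (hΨ' : ∀ x, Ψ (qpr (rvals q) x) = qpr (rvals p) (homL q.1 p.1 (g.map (nrm p.1)) x)) :
    Ψ ∘ₗ Φ = LinearMap.id := by
  have h1 : (Ψ ∘ₗ Φ) ∘ₗ qpr (rvals p) = qpr (rvals p) := by
    apply free_induct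
    · intro a b
      simp only [LinearMap.comp_apply, qpr_mul, hΦ, hΨ]
    · intro a b
      exact qpr_mul _ a b
    · intro i
      rw [LinearMap.comp_apply, LinearMap.comp_apply, hΦ', hΨ', homL_gen]
      have h3 := (List.all_eq_true.1 h) i (List.mem_range.2 i.2)
      have h4 := feq_val (n := p.1) h3
      have h5 := (sub_spec (n := q.1) (canp_map_nrm p.1 g)
        ((f.map (nrm q.1)).getD (i : ℕ) [])).2
      have h6 : homL q.1 p.1 (g.map (nrm p.1)) (val q.1 ((f.map (nrm q.1)).getD (i : ℕ) []))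
          = mb ℚ (Fin p.1) (FreeMagma.of i) + val p.1 (idl p (C.getD i [])) := by
        have h7 : val p.1 ((cone, [(i : ℕ) + 1]) :: idl p (C.getD i []))
            = mb ℚ (Fin p.1) (FreeMagma.of i) + val p.1 (idl p (C.getD i [])) := by
          have := val_append p.1 [(cone, [(i : ℕ) + 1])] (idl p (C.getD i []))
          rw [val_gen i.2] at this
          exact this
        rw [← h7, ← h4, h5]
        rfl
      rw [h6, map_add, (qpr_eq_zero (rvals p)).2 (idl_spec p _).2, add_zero]
  apply LinearMap.ext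
  intro a
  obtain ⟨x, rfl⟩ := qpr_surjective (rvals p) a
  exact congrArg (fun g => g x) h1

lemma exists_list_getD {α : Type*} (d : α) (n : ℕ) (P : ℕ → α → Prop) (h : ∀ k < n, ∃ a, P k a) :
    ∃ L : List α, ∀ k < n, P k (L.getD k d) := by
  classical
  have : Nonempty α := ⟨d⟩
  choose! c hc using h
  refine ⟨(List.range n).map c, fun k hk => ?_⟩
  rw [List.getD_eq_getElem _ _ (by simpa using hk)]
  simpa using hc k hk

theorem iso_of_cert {p q : Pres} {z : ICert} (h : isoc p q z = true) : Iso p q := by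
  simp only [isoc, Bool.and_eq_true] at h
  obtain ⟨⟨h1, h2⟩, h3, h4⟩ := h
  obtain ⟨Φ, hΦ, hΦ'⟩ := exists_map_of_homc h1
  obtain ⟨Ψ, hΨ, hΨ'⟩ := exists_map_of_homc h2
  have h5 := comp_eq_id h3 hΦ hΦ' hΨ hΨ'
  have h6 := comp_eq_id h4 hΨ hΨ' hΦ hΦ'
  exact ⟨LinearEquiv.ofLinearMap Φ Ψ h6 h5, fun a b => hΦ a b⟩

/-- codes for a homomorphism -/
lemma exists_codes {p q : Pres} (e : PA p →ₗ[ℚ] PA q) (he : ∀ a b, e (a * b) = e a * e b) :
    ∃ f : List Po, ∀ x, e (qpr (rvals p) x)
      = qpr (rvals q) (homL p.1 q.1 (f.map (nrm q.1)) x) := by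
  obtain ⟨f, hf⟩ := exists_list_getD ([] : Po) p.1
    (fun k c => ∀ hk : k < p.1, qpr (rvals q) (val q.1 c)
      = e (qpr (rvals p) (mb ℚ (Fin p.1) (FreeMagma.of ⟨k, hk⟩)))) (by
    intro k hk
    obtain ⟨y, hy⟩ := qpr_surjective (rvals q)
      (e (qpr (rvals p) (mb ℚ (Fin p.1) (FreeMagma.of ⟨k, hk⟩))))
    obtain ⟨c, -, rfl⟩ := exists_code y
    exact ⟨c, fun _ => hy⟩)
  refine ⟨f, ?_⟩
  have h1 : e ∘ₗ qpr (rvals p) = qpr (rvals q) ∘ₗ homL p.1 q.1 (f.map (nrm q.1)) := by
    apply free_induct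
    · intro a b
      rw [LinearMap.comp_apply, qpr_mul, he]
      rfl
    · intro a b
      rw [LinearMap.comp_apply, homL_mul, qpr_mul]
      rfl
    · intro i
      rw [LinearMap.comp_apply, LinearMap.comp_apply, homL_gen, val_map_nrm, hf i i.2 i.2]
  intro x
  exact congrArg (fun g => g x) h1

lemma exists_homc {p q : Pres} (e : PA p →ₗ[ℚ] PA q) {f : List Po}
    (hf : ∀ x, e (qpr (rvals p) x) = qpr (rvals q) (homL p.1 q.1 (f.map (nrm q.1)) x)) :
    ∃ C : List Cert, homc p q f C = true := by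
  obtain ⟨C, hC⟩ := exists_list_getD ([] : Cert) p.2.length
    (fun k c => feq (sub p.1 (f.map (nrm q.1)) ((rl p).getD k [])) (idl q c) = true) (by
    intro k hk
    have h1 := sub_spec (n := p.1) (canp_map_nrm q.1 f) ((rl p).getD k [])
    have h2 : val q.1 (sub p.1 (f.map (nrm q.1)) ((rl p).getD k [])) ∈ idealOf (rvals q) := by
      rw [← qpr_eq_zero, h1.2]
      have h3 := hf (val p.1 ((rl p).getD k []))
      rw [(qpr_eq_zero (rvals p)).2 (rl_mem p k), map_zero] at h3
      exact h3.symm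
    obtain ⟨c, hc⟩ := idl_complete q h2
    exact ⟨c, feq_of_val h1.1 (idl_spec q c).1 hc.symm⟩)
  exact ⟨C, List.all_eq_true.2 fun k hk => hC k (List.mem_range.1 hk)⟩

lemma exists_invc {p q : Pres} (e : PA p →ₗ[ℚ] PA q) (e' : PA q →ₗ[ℚ] PA p)
    (hee : ∀ x, e' (e x) = x) {f g : List Po}
    (hf : ∀ x, e (qpr (rvals p) x) = qpr (rvals q) (homL p.1 q.1 (f.map (nrm q.1)) x))
    (hg : ∀ x, e' (qpr (rvals q) x) = qpr (rvals p) (homL q.1 p.1 (g.map (nrm p.1)) x)) :
    ∃ C : List Cert, invc p q f g C = true := by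
  obtain ⟨C, hC⟩ := exists_list_getD ([] : Cert) p.1
    (fun i c => feq (sub q.1 (g.map (nrm p.1)) ((f.map (nrm q.1)).getD i []))
      ((cone, [i + 1]) :: idl p c) = true) (by
    intro i hi
    have h1 := sub_spec (n := q.1) (canp_map_nrm p.1 g) ((f.map (nrm q.1)).getD i [])
    have h2 : val p.1 (sub q.1 (g.map (nrm p.1)) ((f.map (nrm q.1)).getD i []))
        - mb ℚ (Fin p.1) (FreeMagma.of ⟨i, hi⟩) ∈ idealOf (rvals p) := by
      rw [← qpr_eq_zero, map_sub, h1.2, sub_eq_zero]
      have h3 := hf (mb ℚ (Fin p.1) (FreeMagma.of ⟨i, hi⟩))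
      rw [homL_gen] at h3
      have h4 := congrArg e' h3
      rw [hee, hg] at h4
      exact h4.symm
    obtain ⟨c, hc⟩ := idl_complete p h2
    refine ⟨c, feq_of_val h1.1 ?_ ?_⟩
    · exact (canp_gen hi).append (idl_spec p c).1
    · have h5 := val_append p.1 [(cone, [i + 1])] (idl p c)
      rw [val_gen hi, hc, add_sub_cancel] at h5
      exact h5.symm)
  exact ⟨C, List.all_eq_true.2 fun k hk => hC k (List.mem_range.1 hk)⟩

theorem iso_iff_cert (p q : Pres) : Iso p q ↔ ∃ z : ICert, isoc p q z = true := by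
  constructor
  · rintro ⟨e, he⟩
    have he' : ∀ a b, e.symm (a * b) = e.symm a * e.symm b := by
      intro a b
      apply e.injective
      rw [he, e.apply_symm_apply, e.apply_symm_apply, e.apply_symm_apply]
    obtain ⟨f, hf⟩ := exists_codes e.toLinearMap he
    obtain ⟨g, hg⟩ := exists_codes e.symm.toLinearMap he'
    obtain ⟨C1, h1⟩ := exists_homc e.toLinearMap hf
    obtain ⟨C2, h2⟩ := exists_homc e.symm.toLinearMap hg
    obtain ⟨C3, h3⟩ := exists_invc e.toLinearMap e.symm.toLinearMap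
      (fun x => e.symm_apply_apply x) hf hg
    obtain ⟨C4, h4⟩ := exists_invc e.symm.toLinearMap e.toLinearMap
      (fun x => e.apply_symm_apply x) hg hf
    refine ⟨((f, g), ((C1, C2), (C3, C4))), ?_⟩
    simp only [isoc, Bool.and_eq_true]
    exact ⟨⟨h1, h2⟩, h3, h4⟩
  · rintro ⟨z, hz⟩
    exact iso_of_cert hz

end Pool.Agent.TH477.NA
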