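import Pool.Agent.TH477.NA.Univ

/-! Classification of algebras having a presenting subspace by their cores. -/

set_option autoImplicit false

open TensorProduct

namespace Pool.Agent.TH477.NA

variable {F : Type*} [Field F]
variable {A : Type*} [NonUnitalNonAssocRing A] [Module F A] [IsScalarTower F A A]
  [SMulCommClass F A A]
variable {B : Type*} [NonUnitalNonAssocRing B] [Module F B] [IsScalarTower F B B]
  [SMulCommClass F B B]

/-- An isomorphism of the cores as partial algebras: it carries the equation `m(s) = c`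
(`s ∈ T ⊗ T`, `c ∈ T`) to the same equation. -/
def CoreIso (ε : core F A ≃ₗ[F] core F B) : Prop :=
  ∀ (s : core F A ⊗[F] core F A) (c : core F A),
    mu F A (TensorProduct.map (core F A).subtype (core F A).subtype s) = c ↔
    mu F B (TensorProduct.map (core F B).subtype (core F B).subtype
      (TensorProduct.map ε.toLinearMap ε.toLinearMap s)) = ε c

lemma CoreIso.symm {ε : core F A ≃ₗ[F] core F B} (h : CoreIso ε) : CoreIso ε.symm := by
  intro s c
  have h1 := h (TensorProduct.map ε.symm.toLinearMap ε.symm.toLinearMap s) (ε.symm c)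
  have h2 : TensorProduct.map ε.toLinearMap ε.toLinearMap
      (TensorProduct.map ε.symm.toLinearMap ε.symm.toLinearMap s) = s := by
    rw [← LinearMap.comp_apply, ← TensorProduct.map_comp]
    simp
  rw [h2, LinearEquiv.apply_symm_apply] at h1
  exact h1.symm

lemma map_mem_sq {C : Type*} [AddCommGroup C] [Module F C] {D : Type*} [AddCommGroup D]
    [Module F D] (f : C →ₗ[F] D) {W : Submodule F C} {x : C ⊗[F] C} (hx : x ∈ sq W) :
    TensorProduct.map f f x ∈ sq (W.map f) := by
  have : sq W ≤ (sq (W.map f)).comap (TensorProduct.map f f) := by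
    apply sq_le_iff.2
    intro a ha b hb
    rw [Submodule.mem_comap, TensorProduct.map_tmul]
    exact tmul_mem_sq ⟨a, ha, rfl⟩ ⟨b, hb, rfl⟩
  exact this hx

lemma SelfSupp.map (e : A ≃ₗ[F] B) (he : ∀ a b, e (a * b) = e a * e b) {T : Submodule F A}
    (hT : SelfSupp T) : SelfSupp (T.map e.toLinearMap) := by
  have hfd := hT.1
  refine ⟨inferInstance, ?_⟩
  have key : T ≤ (supp (pre (T.map e.toLinearMap))).comap e.toLinearMap := by
    refine hT.2.trans (supp_le_iff.2 ?_)
    intro t ht
    have h1 : TensorProduct.map e.toLinearMap e.toLinearMap t ∈ pre (T.map e.toLinearMap) := by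
      rw [mem_pre, ← mu_natural e.toLinearMap he]
      exact ⟨_, ht, rfl⟩
    have h2 := map_mem_sq e.symm.toLinearMap (le_sq_supp _ h1)
    have h3 : TensorProduct.map e.symm.toLinearMap e.symm.toLinearMap
        (TensorProduct.map e.toLinearMap e.toLinearMap t) = t := by
      rw [← LinearMap.comp_apply, ← TensorProduct.map_comp]
      simp
    rw [h3] at h2
    refine sq_mono ?_ h2
    rintro _ ⟨b, hb, rfl⟩
    rw [Submodule.mem_comap]
    simpa using hb
  rintro _ ⟨a, ha, rfl⟩
  exact key ha

lemma map_core_le (e : A ≃ₗ[F] B) (he : ∀ a b, e (a * b) = e a * e b) :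
    (core F A).map e.toLinearMap ≤ core F B := by
  rw [core, Submodule.map_le_iff_le_comap]
  apply sSup_le
  intro T hT
  rw [← Submodule.map_le_iff_le_comap]
  exact le_sSup (SelfSupp.map e he hT)

lemma map_core (e : A ≃ₗ[F] B) (he : ∀ a b, e (a * b) = e a * e b) :
    (core F A).map e.toLinearMap = core F B := by
  apply le_antisymm (map_core_le e he)
  have he' : ∀ a b, e.symm (a * b) = e.symm a * e.symm b := by
    intro a b
    apply e.injective
    rw [he, e.apply_symm_apply, e.apply_symm_apply, e.apply_symm_apply]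
  intro b hb
  have := map_core_le e.symm he' ⟨b, hb, rfl⟩
  exact ⟨_, this, by simp⟩

/-- number of free generators -/
noncomputable def rk (F : Type*) [Field F] (A : Type*) [NonUnitalNonAssocRing A] [Module F A]
    [IsScalarTower F A A] [SMulCommClass F A A] : ℕ :=
  Module.finrank F (A ⧸ (core F A ⊔ LinearMap.range (mu F A)))

theorem core_iso_of_iso (e : A ≃ₗ[F] B) (he : ∀ a b, e (a * b) = e a * e b) :
    rk F A = rk F B ∧ ∃ ε : core F A ≃ₗ[F] core F B, CoreIso ε := by
  have hc := map_core e he
  constructor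
  · have hr : (LinearMap.range (mu F A)).map e.toLinearMap = LinearMap.range (mu F B) := by
      apply le_antisymm
      · rintro _ ⟨_, ⟨t, rfl⟩, rfl⟩
        exact ⟨_, (mu_natural e.toLinearMap he t).symm⟩
      · rintro _ ⟨t, rfl⟩
        refine ⟨_, ⟨TensorProduct.map e.symm.toLinearMap e.symm.toLinearMap t, rfl⟩, ?_⟩
        rw [mu_natural e.toLinearMap he]
        rw [← LinearMap.comp_apply (TensorProduct.map _ _), ← TensorProduct.map_comp]
        simp
    have h2 : (core F A ⊔ LinearMap.range (mu F A)).map e.toLinearMap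
        = core F B ⊔ LinearMap.range (mu F B) := by
      rw [Submodule.map_sup, hc, hr]
    exact (Submodule.Quotient.equiv _ _ e h2).finrank_eq
  · refine ⟨LinearEquiv.ofSubmodules e _ _ hc, ?_⟩
    intro s c
    have h1 : TensorProduct.map (core F B).subtype (core F B).subtype
        (TensorProduct.map (LinearEquiv.ofSubmodules e _ _ hc).toLinearMap
          (LinearEquiv.ofSubmodules e _ _ hc).toLinearMap s)
        = TensorProduct.map e.toLinearMap e.toLinearMap
          (TensorProduct.map (core F A).subtype (core F A).subtype s) := by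
      rw [← LinearMap.comp_apply (TensorProduct.map (core F B).subtype _),
        ← TensorProduct.map_comp, ← LinearMap.comp_apply (TensorProduct.map e.toLinearMap _),
        ← TensorProduct.map_comp]
      rfl
    rw [h1, ← mu_natural e.toLinearMap he]
    have h2 : ((LinearEquiv.ofSubmodules e _ _ hc c : core F B) : B) = e c := rfl
    rw [h2]
    exact e.injective.eq_iff.symm

/-- extending an equivalence of subspaces -/
lemma exists_ext_equiv {V W : Type*} [AddCommGroup V] [Module F V] [AddCommGroup W] [Module F W]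
    [FiniteDimensional F V] [FiniteDimensional F W] (T : Submodule F V) (S : Submodule F W)
    (ε : T ≃ₗ[F] S) (h : Module.finrank F (V ⧸ T) = Module.finrank F (W ⧸ S)) :
    ∃ e : V ≃ₗ[F] W, ∀ t : T, e t = ε t := by
  obtain ⟨U, hU⟩ := Submodule.exists_isCompl T
  obtain ⟨U', hU'⟩ := Submodule.exists_isCompl S
  have h1 : Module.finrank F U = Module.finrank F U' := by
    rw [← (Submodule.quotientEquivOfIsCompl T U hU).finrank_eq,
      ← (Submodule.quotientEquivOfIsCompl S U' hU').finrank_eq, h]
  let κ : U ≃ₗ[F] U' := LinearEquiv.ofFinrankEq _ _ h1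
  refine ⟨(T.prodEquivOfIsCompl U hU).symm ≪≫ₗ (ε.prodCongr κ) ≪≫ₗ
    (S.prodEquivOfIsCompl U' hU'), ?_⟩
  intro t
  simp only [LinearEquiv.trans_apply, Submodule.prodEquivOfIsCompl_symm_apply_left]
  simp

lemma Terminal.finrank_quot {V : Submodule F A} (hV : Terminal V) :
    Module.finrank F (V ⧸ (core F A).comap V.subtype) = rk F A := by
  have hc : core F A = supp (pre V) := hV.core_eq
  let q : V →ₗ[F] A ⧸ (core F A ⊔ LinearMap.range (mu F A)) :=
    (Submodule.mkQ _) ∘ₗ V.subtype
  have hsurj : Function.Surjective q := by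
    intro x
    obtain ⟨a, rfl⟩ := Submodule.mkQ_surjective _ x
    have ha : a ∈ V ⊔ LinearMap.range (mu F A) := by rw [hV.1.sup_range]; trivial
    obtain ⟨v, hv, w, hw, rfl⟩ := Submodule.mem_sup.1 ha
    refine ⟨⟨v, hv⟩, ?_⟩
    change Submodule.mkQ _ v = Submodule.mkQ _ (v + w)
    rw [map_add]
    have : Submodule.mkQ (core F A ⊔ LinearMap.range (mu F A)) w = 0 := by
      rw [Submodule.mkQ_apply, Submodule.Quotient.mk_eq_zero]
      exact Submodule.mem_sup_right hw
    rw [this, add_zero]
  have hker : LinearMap.ker q = (core F A).comap V.subtype := by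
    ext v
    rw [LinearMap.mem_ker]
    change Submodule.mkQ _ (v : A) = 0 ↔ (v : A) ∈ core F A
    rw [Submodule.mkQ_apply, Submodule.Quotient.mk_eq_zero]
    constructor
    · intro h
      obtain ⟨c, hc', w, hw, hcw⟩ := Submodule.mem_sup.1 h
      have hcV : c ∈ V := hV.1.core_le hc'
      have hwV : w ∈ V := by
        have : w = (v : A) - c := by rw [← hcw]; abel
        rw [this]; exact V.sub_mem v.2 hcV
      have hwc : w ∈ core F A := by rw [hc]; exact hV.2 ⟨hwV, hw⟩
      rw [← hcw]
      exact (core F A).add_mem hc' hwc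
    · intro h
      exact Submodule.mem_sup_left h
  rw [← hker]
  exact (q.quotKerEquivOfSurjective hsurj).finrank_eq

lemma hom_of_coreIso {V : Submodule F A} {W : Submodule F B} (hV : Terminal V)
    (ε : core F A ≃ₗ[F] core F B) (hε : CoreIso ε) (e : V ≃ₗ[F] W)
    (he : ∀ (c : core F A) (hc : (c : A) ∈ V), ((e ⟨c, hc⟩ : W) : B) = ε c) :
    ∃ Φ : A →ₗ[F] B, (∀ a b, Φ (a * b) = Φ a * Φ b) ∧ ∀ v : V, Φ v = e v := by
  have hcV : core F A ≤ V := hV.1.core_le
  let φ : V →ₗ[F] B := W.subtype ∘ₗ e.toLinearMap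
  obtain ⟨Φ, h1, h2⟩ := hV.1.exists_hom φ (by
    intro s hs
    have ht : TensorProduct.map V.subtype V.subtype s ∈ pre V := hs
    rw [← hV.pre_core] at ht
    have ht2 : TensorProduct.map V.subtype V.subtype s ∈ sq (core F A) := by
      rw [hV.core_eq]
      rw [hV.pre_core] at ht
      exact le_sq_supp _ ht
    obtain ⟨s', hs'⟩ := ht2
    let ι : core F A →ₗ[F] V := Submodule.inclusion hcV
    have hs1 : s = TensorProduct.map ι ι s' := by
      have hinj : Function.Injective (TensorProduct.map V.subtype V.subtype) := by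
        obtain ⟨ρ, hρ⟩ := LinearMap.exists_leftInverse_of_injective V.subtype (by simp)
        have : Function.LeftInverse (TensorProduct.map ρ ρ)
            (TensorProduct.map V.subtype V.subtype) := by
          intro z
          rw [← LinearMap.comp_apply, ← TensorProduct.map_comp, hρ]
          simp
        exact this.injective
      apply hinj
      rw [← hs', ← LinearMap.comp_apply (TensorProduct.map V.subtype V.subtype),
        ← TensorProduct.map_comp]
      rfl
    have hc : mu F A (TensorProduct.map V.subtype V.subtype s) ∈ core F A := ht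
    have h3 := (hε s' ⟨_, hc⟩).1 (by rw [hs'])
    have h4 : TensorProduct.map φ φ s = TensorProduct.map (core F B).subtype (core F B).subtype
        (TensorProduct.map ε.toLinearMap ε.toLinearMap s') := by
      rw [hs1, ← LinearMap.comp_apply, ← TensorProduct.map_comp, ← LinearMap.comp_apply,
        ← TensorProduct.map_comp]
      have : φ ∘ₗ ι = (core F B).subtype ∘ₗ ε.toLinearMap := by
        ext c
        exact he c (hcV c.2)
      rw [this]
    rw [h4, h3]
    exact he ⟨_, hc⟩ hs)
  exact ⟨Φ, h1, fun v => h2 v⟩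

theorem iso_of_core_iso (hA : ∃ V : Submodule F A, Presenting V)
    (hB : ∃ V : Submodule F B, Presenting V) (hrk : rk F A = rk F B)
    (ε : core F A ≃ₗ[F] core F B) (hε : CoreIso ε) :
    ∃ e : A ≃ₗ[F] B, ∀ a b, e (a * b) = e a * e b := by
  obtain ⟨V0, hV0⟩ := hA
  obtain ⟨W0, hW0⟩ := hB
  obtain ⟨V, -, hV, -⟩ := hV0.exists_terminal
  obtain ⟨W, -, hW, -⟩ := hW0.exists_terminal
  have hfV : FiniteDimensional F V := hV.1.fin
  have hfW : FiniteDimensional F W := hW.1.fin
  have hcV : core F A ≤ V := hV.1.core_le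
  have hcW : core F B ≤ W := hW.1.core_le
  let ε' : (core F A).comap V.subtype ≃ₗ[F] (core F B).comap W.subtype :=
    (Submodule.comapSubtypeEquivOfLe hcV) ≪≫ₗ ε ≪≫ₗ (Submodule.comapSubtypeEquivOfLe hcW).symm
  obtain ⟨e, he⟩ := exists_ext_equiv _ _ ε' (by
    rw [hV.finrank_quot, hW.finrank_quot, hrk])
  have hε' : ∀ x, (((ε' x : (core F B).comap W.subtype) : W) : B)
      = ε (Submodule.comapSubtypeEquivOfLe hcV x) := by
    intro x
    change ((((Submodule.comapSubtypeEquivOfLe hcW).symm
      (ε (Submodule.comapSubtypeEquivOfLe hcV x)) : (core F B).comap W.subtype) : W) : B) = _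
    rfl
  have he1 : ∀ (c : core F A) (hc : (c : A) ∈ V), ((e ⟨c, hc⟩ : W) : B) = ε c := by
    intro c hc
    have h1 := he ⟨⟨c, hc⟩, c.2⟩
    have h2 := congrArg (fun w : W => (w : B)) h1
    simp only at h2
    rw [h2, hε']
    rfl
  have he2 : ∀ (c : core F B) (hc : (c : B) ∈ W), ((e.symm ⟨c, hc⟩ : V) : A) = ε.symm c := by
    intro c hc
    have h1 := he1 (ε.symm c) (hcV (ε.symm c).2)
    rw [LinearEquiv.apply_symm_apply] at h1
    have h2 : e ⟨(ε.symm c : core F A), hcV (ε.symm c).2⟩ = ⟨c, hc⟩ := Subtype.ext h1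
    rw [← h2, LinearEquiv.symm_apply_apply]
  obtain ⟨Φ, hΦ, hΦV⟩ := hom_of_coreIso hV ε hε e he1
  obtain ⟨Ψ, hΨ, hΨW⟩ := hom_of_coreIso hW ε.symm hε.symm e.symm he2
  have h1 : Ψ ∘ₗ Φ = LinearMap.id := by
    apply hV.1.hom_ext (B := A)
    · intro a b
      simp [hΦ, hΨ]
    · intro a b
      rfl
    · intro v hv
      have := hΦV ⟨v, hv⟩
      simp only at this
      rw [LinearMap.comp_apply, this, hΨW]
      simp
  have h2 : Φ ∘ₗ Ψ = LinearMap.id := by
    apply hW.1.hom_ext (B := B)
    · intro a b
      simp [hΦ, hΨ]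
    · intro a b
      rfl
    · intro v hv
      have := hΨW ⟨v, hv⟩
      simp only at this
      rw [LinearMap.comp_apply, this, hΦV]
      simp
  exact ⟨LinearEquiv.ofLinearMap Φ Ψ h2 h1, fun a b => hΦ a b⟩

theorem iso_iff (hA : ∃ V : Submodule F A, Presenting V)
    (hB : ∃ V : Submodule F B, Presenting V) :
    (∃ e : A ≃ₗ[F] B, ∀ a b, e (a * b) = e a * e b) ↔
      rk F A = rk F B ∧ ∃ ε : core F A ≃ₗ[F] core F B, CoreIso ε := by
  constructor
  · rintro ⟨e, he⟩
    exact core_iso_of_iso e he
  · rintro ⟨h, ε, hε⟩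
    exact iso_of_core_iso hA hB h ε hε

end Pool.Agent.TH477.NA
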