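import Pool.Agent.TH477.NA.Stmt

/-! Codes for rational coefficients, nonassociative polynomials and substitutions. -/

set_option autoImplicit false

open TensorProduct

namespace Pool.Agent.TH477.NA

/-! ### rational coefficients -/

/-- `((a,b),d)` stands for `(a-b)/(d+1)` -/
abbrev Co := (ℕ × ℕ) × ℕ

/-- formal linear combinations of words -/
abbrev Po := List (Co × List ℕ)

/-- value -/
def cv (c : Co) : ℚ := ((c.1.1 : ℚ) - (c.1.2 : ℚ)) / ((c.2 : ℚ) + 1)

/-- product -/
def cmul (c d : Co) : Co :=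
  ((c.1.1 * d.1.1 + c.1.2 * d.1.2, c.1.1 * d.1.2 + c.1.2 * d.1.1), c.2 * d.2 + c.2 + d.2)

/-- sum -/
def cadd (c d : Co) : Co :=
  ((c.1.1 * (d.2 + 1) + d.1.1 * (c.2 + 1), c.1.2 * (d.2 + 1) + d.1.2 * (c.2 + 1)),
    c.2 * d.2 + c.2 + d.2)

/-- equality test -/
def ceq (c d : Co) : Bool :=
  decide (c.1.1 * (d.2 + 1) + d.1.2 * (c.2 + 1) = d.1.1 * (c.2 + 1) + c.1.2 * (d.2 + 1))

/-- zero and one -/
def czero : Co := ((0, 0), 0)
/-- one -/
def cone : Co := ((1, 0), 0)

@[simp] lemma cv_zero : cv czero = 0 := by simp [cv, czero]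
@[simp] lemma cv_one : cv cone = 1 := by simp [cv, cone]

lemma cv_mul (c d : Co) : cv (cmul c d) = cv c * cv d := by
  have h1 : ((c.2 : ℚ) + 1) ≠ 0 := by positivity
  have h2 : ((d.2 : ℚ) + 1) ≠ 0 := by positivity
  have h3 : ((c.2 : ℚ) * d.2 + c.2 + d.2 + 1) ≠ 0 := by positivity
  simp only [cv, cmul]
  push_cast
  rw [div_mul_div_comm, div_eq_div_iff h3 (mul_ne_zero h1 h2)]
  ring

lemma cv_add (c d : Co) : cv (cadd c d) = cv c + cv d := by
  have h1 : ((c.2 : ℚ) + 1) ≠ 0 := by positivity
  have h2 : ((d.2 : ℚ) + 1) ≠ 0 := by positivity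
  have h3 : ((c.2 : ℚ) * d.2 + c.2 + d.2 + 1) ≠ 0 := by positivity
  simp only [cv, cadd]
  push_cast
  rw [div_add_div _ _ h1 h2, div_eq_div_iff h3 (mul_ne_zero h1 h2)]
  ring

lemma ceq_iff (c d : Co) : ceq c d = true ↔ cv c = cv d := by
  have h1 : ((c.2 : ℚ) + 1) ≠ 0 := by positivity
  have h2 : ((d.2 : ℚ) + 1) ≠ 0 := by positivity
  simp only [ceq, decide_eq_true_eq, cv]
  rw [div_eq_div_iff h1 h2]
  constructor
  · intro h
    have : ((c.1.1 * (d.2 + 1) + d.1.2 * (c.2 + 1) : ℕ) : ℚ)
        = ((d.1.1 * (c.2 + 1) + c.1.2 * (d.2 + 1) : ℕ) : ℚ) := by rw [h]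
    push_cast at this
    linarith
  · intro h
    have : ((c.1.1 * (d.2 + 1) + d.1.2 * (c.2 + 1) : ℕ) : ℚ)
        = ((d.1.1 * (c.2 + 1) + c.1.2 * (d.2 + 1) : ℕ) : ℚ) := by
      push_cast
      linarith
    exact_mod_cast this

lemma exists_cv (q : ℚ) : ∃ c : Co, cv c = q := by
  refine ⟨((q.num.toNat, (-q.num).toNat), q.den - 1), ?_⟩
  have h1 : ((q.den - 1 : ℕ) : ℚ) + 1 = q.den := by
    have : 1 ≤ q.den := q.den_pos
    push_cast [Nat.cast_sub this]
    ring
  have h2 : ((q.num.toNat : ℚ)) - ((-q.num).toNat : ℚ) = q.num := by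
    have : ((q.num.toNat : ℤ)) - ((-q.num).toNat : ℤ) = q.num := by omega
    exact_mod_cast this
  simp only [cv]
  rw [h1, h2]
  exact Rat.num_div_den q

/-! ### the stack machine -/

/-- evaluation of a word in reverse Polish notation on a stack -/
def run {β : Type*} (mul : β → β → β) (z : β) (g : ℕ → β) (w : List ℕ) (s : List β) : List β :=
  w.foldl (fun s t => if t = 0 then mul (s.tail.headD z) (s.headD z) :: s.tail.tail
    else g (t - 1) :: s) s

lemma run_append {β : Type*} (mul : β → β → β) (z : β) (g : ℕ → β) (w w' : List ℕ) (s : List β) :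
    run mul z g (w ++ w') s = run mul z g w' (run mul z g w s) := by
  simp [run, List.foldl_append]

lemma forall₂_headD {β γ : Type*} {ρ : β → γ → Prop} {z : β} {z' : γ} (h0 : ρ z z')
    {s : List β} {s' : List γ} (h : List.Forall₂ ρ s s') : ρ (s.headD z) (s'.headD z') := by
  cases h with
  | nil => exact h0
  | cons h _ => exact h

lemma forall₂_tail {β γ : Type*} {ρ : β → γ → Prop}
    {s : List β} {s' : List γ} (h : List.Forall₂ ρ s s') : List.Forall₂ ρ s.tail s'.tail := by
  cases h with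
  | nil => exact List.Forall₂.nil
  | cons _ h => exact h

lemma run_rel {β γ : Type*} {ρ : β → γ → Prop} {mul : β → β → β} {z : β} {g : ℕ → β}
    {mul' : γ → γ → γ} {z' : γ} {g' : ℕ → γ} (h0 : ρ z z')
    (hm : ∀ a a' b b', ρ a a' → ρ b b' → ρ (mul a b) (mul' a' b')) (hg : ∀ i, ρ (g i) (g' i))
    (w : List ℕ) : ∀ (s : List β) (s' : List γ), List.Forall₂ ρ s s' →
      List.Forall₂ ρ (run mul z g w s) (run mul' z' g' w s') := by
  induction w with
  | nil => intro s s' h; exact h
  | cons t w ih =>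
    intro s s' h
    simp only [run, List.foldl_cons]
    apply ih
    by_cases ht : t = 0
    · rw [if_pos ht, if_pos ht]
      exact List.Forall₂.cons (hm _ _ _ _ (forall₂_headD h0 (forall₂_tail h)) (forall₂_headD h0 h))
        (forall₂_tail (forall₂_tail h))
    · rw [if_neg ht, if_neg ht]
      exact List.Forall₂.cons (hg _) h

/-- values of the generators -/
noncomputable def genv (n i : ℕ) : MonoidAlgebra ℚ (FreeMagma (Fin n)) :=
  if h : i < n then MonoidAlgebra.single (FreeMagma.of (⟨i, h⟩ : Fin n)) (1 : ℚ) else 0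

/-- the nonassociative monomial given by a word in reverse Polish notation -/
noncomputable def mon (n : ℕ) (w : List ℕ) : MonoidAlgebra ℚ (FreeMagma (Fin n)) :=
  (run (fun a b => a * b) 0 (genv n) w []).headD 0

/-- canonical word of a monomial -/
def enc {n : ℕ} : FreeMagma (Fin n) → List ℕ
  | .of i => [(i : ℕ) + 1]
  | .mul a b => enc a ++ enc b ++ [0]

lemma run_enc {n : ℕ} (m : FreeMagma (Fin n)) : ∀ s : List (MonoidAlgebra ℚ (FreeMagma (Fin n))),
    run (fun a b => a * b) 0 (genv n) (enc m) s = mb ℚ (Fin n) m :: s := by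
  induction m using FreeMagma.rec with
  | of i =>
    intro s
    simp [run, enc, genv, mb_apply]
  | mul a b iha ihb =>
    intro s
    change run (fun a b => a * b) 0 (genv n) (enc a ++ enc b ++ [0]) s = _
    rw [run_append, run_append, iha, ihb]
    simp only [run, List.foldl_cons, List.foldl_nil, if_true, List.tail_cons, List.headD_cons]
    rw [mb_mul]
    rfl

lemma mon_enc {n : ℕ} (m : FreeMagma (Fin n)) : mon n (enc m) = mb ℚ (Fin n) m := by
  rw [mon, run_enc]
  rfl

lemma enc_injective {n : ℕ} : Function.Injective (enc (n := n)) := by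
  intro a b h
  have : mb ℚ (Fin n) a = mb ℚ (Fin n) b := by rw [← mon_enc, ← mon_enc, h]
  exact (mb ℚ (Fin n)).injective this

/-- all words are canonical -/
def Canp (n : ℕ) (p : Po) : Prop := ∀ u ∈ p, ∃ m : FreeMagma (Fin n), u.2 = enc m

/-- the value of a code -/
noncomputable def val (n : ℕ) (p : Po) : MonoidAlgebra ℚ (FreeMagma (Fin n)) :=
  (p.map (fun u => cv u.1 • mon n u.2)).sum

@[simp] lemma val_nil (n : ℕ) : val n [] = 0 := rfl

lemma val_cons (n : ℕ) (u : Co × List ℕ) (p : Po) : val n (u :: p) = cv u.1 • mon n u.2 + val n p := by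
  simp [val]

lemma val_append (n : ℕ) (p q : Po) : val n (p ++ q) = val n p + val n q := by
  simp [val]

lemma Canp.nil (n : ℕ) : Canp n [] := fun u hu => by simp at hu

lemma Canp.append {n : ℕ} {p q : Po} (hp : Canp n p) (hq : Canp n q) : Canp n (p ++ q) := by
  intro u hu
  rcases List.mem_append.1 hu with h | h
  · exact hp u h
  · exact hq u h

/-- scalar multiple -/
def pscal (c : Co) (p : Po) : Po := p.map (fun v => (cmul c v.1, v.2))

lemma val_pscal (n : ℕ) (c : Co) (p : Po) : val n (pscal c p) = cv c • val n p := by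
  induction p with
  | nil => simp [pscal]
  | cons u p ih =>
    have : pscal c (u :: p) = (cmul c u.1, u.2) :: pscal c p := rfl
    rw [this, val_cons, val_cons, ih, cv_mul, smul_add, mul_smul]

lemma Canp.pscal {n : ℕ} {p : Po} (hp : Canp n p) (c : Co) : Canp n (pscal c p) := by
  intro u hu
  obtain ⟨v, hv, rfl⟩ := List.mem_map.1 hu
  exact hp v hv

/-- product -/
def pmul (p q : Po) : Po :=
  p.flatMap (fun u => q.map (fun v => (cmul u.1 v.1, u.2 ++ v.2 ++ [0])))

lemma mon_mul {n : ℕ} (m m' : FreeMagma (Fin n)) :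
    mon n (enc m ++ enc m' ++ [0]) = mon n (enc m) * mon n (enc m') := by
  have : enc m ++ enc m' ++ [0] = enc (m * m') := rfl
  rw [this, mon_enc, mon_enc, mon_enc, mb_mul]

lemma val_pmul {n : ℕ} {p q : Po} (hp : Canp n p) (hq : Canp n q) :
    val n (pmul p q) = val n p * val n q := by
  induction p with
  | nil => simp [pmul]
  | cons u p ih =>
    have h1 : pmul (u :: p) q
        = q.map (fun v => (cmul u.1 v.1, u.2 ++ v.2 ++ [0])) ++ pmul p q := by
      simp [pmul]
    have hp' : Canp n p := fun v hv => hp v (List.mem_cons_of_mem _ hv)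
    obtain ⟨m, hm⟩ := hp u List.mem_cons_self
    have h2 : ∀ q : Po, Canp n q → val n (q.map (fun v => (cmul u.1 v.1, u.2 ++ v.2 ++ [0])))
        = (cv u.1 • mon n u.2) * val n q := by
      intro q hq
      induction q with
      | nil => simp
      | cons v q ihq =>
        obtain ⟨m', hm'⟩ := hq v List.mem_cons_self
        rw [List.map_cons, val_cons, val_cons, ihq fun v hv => hq v (List.mem_cons_of_mem _ hv)]
        simp only
        rw [hm, hm', mon_mul, cv_mul, mul_add]
        congr 1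
        rw [smul_mul_assoc, mul_smul_comm, smul_smul]
    rw [h1, val_append, val_cons, ih hp', add_mul, h2 q hq]

lemma Canp.pmul {n : ℕ} {p q : Po} (hp : Canp n p) (hq : Canp n q) : Canp n (pmul p q) := by
  intro u hu
  obtain ⟨a, ha, hu⟩ := List.mem_flatMap.1 hu
  obtain ⟨b, hb, rfl⟩ := List.mem_map.1 hu
  obtain ⟨m, hm⟩ := hp a ha
  obtain ⟨m', hm'⟩ := hq b hb
  exact ⟨m * m', by rw [hm, hm']; rfl⟩

/-! ### substitution -/

/-- substitution of codes into a word -/
def ev (n : ℕ) (f : List Po) (w : List ℕ) : Po :=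
  (run pmul [] (fun i => if i < n then f.getD i [] else []) w []).headD []

/-- substitution of codes into a code -/
def sub (n : ℕ) (f : List Po) (p : Po) : Po := p.flatMap (fun u => pscal u.1 (ev n f u.2))

/-- the homomorphism given by a list of codes -/
noncomputable def hom (n n' : ℕ) (f : List Po) :
    FreeNonUnitalNonAssocAlgebra ℚ (Fin n) →ₙₐ[ℚ] MonoidAlgebra ℚ (FreeMagma (Fin n')) :=
  FreeNonUnitalNonAssocAlgebra.lift ℚ (fun i : Fin n => val n' (f.getD i []))

lemma hom_genv (n n' : ℕ) (f : List Po) (i : ℕ) :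
    hom n n' f (genv n i) = if i < n then val n' (f.getD i []) else 0 := by
  by_cases h : i < n
  · rw [genv, dif_pos h, if_pos h]
    exact FreeNonUnitalNonAssocAlgebra.lift_of_apply ℚ
      (fun i : Fin n => val n' (f.getD i [])) ⟨i, h⟩
  · rw [genv, dif_neg h, if_neg h, map_zero]

lemma ev_spec {n n' : ℕ} {f : List Po} (hf : ∀ i, Canp n' (f.getD i [])) (w : List ℕ) :
    Canp n' (ev n f w) ∧ val n' (ev n f w) = hom n n' f (mon n w) := by
  let ρ : Po → MonoidAlgebra ℚ (FreeMagma (Fin n)) → Prop :=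
    fun p x => Canp n' p ∧ val n' p = hom n n' f x
  have h0 : ρ [] 0 := ⟨Canp.nil n', by rw [map_zero, val_nil]⟩
  have hm : ∀ a a' b b', ρ a a' → ρ b b' → ρ (pmul a b) (a' * b') := by
    rintro a a' b b' ⟨h1, h2⟩ ⟨h3, h4⟩
    exact ⟨h1.pmul h3, by rw [val_pmul h1 h3, h2, h4, map_mul]⟩
  have hg : ∀ i, ρ (if i < n then f.getD i [] else []) (genv n i) := by
    intro i
    refine ⟨?_, ?_⟩
    · by_cases h : i < n
      · rw [if_pos h]; exact hf i
      · rw [if_neg h]; exact Canp.nil n'
    · rw [hom_genv]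
      by_cases h : i < n
      · rw [if_pos h, if_pos h]
      · rw [if_neg h, if_neg h, val_nil]
  exact forall₂_headD h0 (run_rel h0 hm hg w [] [] List.Forall₂.nil)

lemma sub_spec {n n' : ℕ} {f : List Po} (hf : ∀ i, Canp n' (f.getD i [])) (p : Po) :
    Canp n' (sub n f p) ∧ val n' (sub n f p) = hom n n' f (val n p) := by
  induction p with
  | nil => exact ⟨Canp.nil n', by rw [val_nil, map_zero]; rfl⟩
  | cons u p ih =>
    have h1 : sub n f (u :: p) = pscal u.1 (ev n f u.2) ++ sub n f p := by simp [sub]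
    obtain ⟨h2, h3⟩ := ev_spec hf u.2
    rw [h1, val_append, val_pscal, h3, ih.2, val_cons, map_add, map_smul]
    exact ⟨(h2.pscal u.1).append ih.1, rfl⟩

/-- codes of the generators -/
def gens (n : ℕ) : List Po := (List.range n).map (fun i => [(cone, [i + 1])])

lemma gens_getD (n i : ℕ) : (gens n).getD i [] = if i < n then [(cone, [i + 1])] else [] := by
  by_cases h : i < n
  · rw [if_pos h]
    simp [gens, List.getD, h]
  · rw [if_neg h]
    simp [gens, List.getD, h]

lemma canp_gen {n i : ℕ} (h : i < n) : Canp n [(cone, [i + 1])] := by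
  intro u hu
  rw [List.mem_singleton] at hu
  subst hu
  exact ⟨FreeMagma.of ⟨i, h⟩, rfl⟩

lemma val_gen {n i : ℕ} (h : i < n) :
    val n [(cone, [i + 1])] = mb ℚ (Fin n) (FreeMagma.of ⟨i, h⟩) := by
  have h2 := mon_enc (n := n) (FreeMagma.of ⟨i, h⟩)
  rw [val_cons, val_nil, cv_one, one_smul, add_zero]
  exact h2

/-- normalisation -/
def nrm (n : ℕ) (p : Po) : Po := sub n (gens n) p

lemma canp_gens (n : ℕ) : ∀ i, Canp n ((gens n).getD i []) := by
  intro i
  rw [gens_getD]
  by_cases h : i < n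
  · rw [if_pos h]; exact canp_gen h
  · rw [if_neg h]; exact Canp.nil n

lemma hom_gens (n : ℕ) (x : MonoidAlgebra ℚ (FreeMagma (Fin n))) : hom n n (gens n) x = x := by
  have h1 : hom n n (gens n) = NonUnitalAlgHom.id ℚ _ := by
    apply FreeNonUnitalNonAssocAlgebra.hom_ext
    intro i
    change hom n n (gens n) (FreeNonUnitalNonAssocAlgebra.of ℚ i)
      = FreeNonUnitalNonAssocAlgebra.of ℚ i
    have h2 : hom n n (gens n) (FreeNonUnitalNonAssocAlgebra.of ℚ i)
        = val n ((gens n).getD i []) := FreeNonUnitalNonAssocAlgebra.lift_of_apply ℚ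
          (fun i : Fin n => val n ((gens n).getD i [])) i
    rw [h2, gens_getD, if_pos i.2, val_gen i.2, mb_apply]
    rfl
  rw [h1]
  rfl

lemma nrm_spec (n : ℕ) (p : Po) : Canp n (nrm n p) ∧ val n (nrm n p) = val n p := by
  obtain ⟨h1, h2⟩ := sub_spec (canp_gens n) p
  exact ⟨h1, by rw [nrm, h2, hom_gens]⟩

/-! ### equality test -/

/-- coefficient of a word -/
def coef (p : Po) (w : List ℕ) : Co :=
  p.foldl (fun acc u => if u.2 = w then cadd acc u.1 else acc) czero

lemma coef_aux (p : Po) (w : List ℕ) : ∀ acc : Co,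
    cv (p.foldl (fun acc u => if u.2 = w then cadd acc u.1 else acc) acc)
      = cv acc + (p.map (fun u => if u.2 = w then cv u.1 else 0)).sum := by
  induction p with
  | nil => intro acc; simp
  | cons u p ih =>
    intro acc
    rw [List.foldl_cons, ih, List.map_cons, List.sum_cons]
    by_cases h : u.2 = w
    · rw [if_pos h, if_pos h, cv_add]; ring
    · rw [if_neg h, if_neg h]; ring

lemma cv_coef (p : Po) (w : List ℕ) :
    cv (coef p w) = (p.map (fun u => if u.2 = w then cv u.1 else 0)).sum := by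
  rw [coef, coef_aux, cv_zero, zero_add]

/-- test for equality -/
def feq (p q : Po) : Bool := (p ++ q).all (fun u => ceq (coef p u.2) (coef q u.2))

lemma coef_eq_zero {p : Po} {w : List ℕ} (h : ∀ u ∈ p, u.2 ≠ w) : cv (coef p w) = 0 := by
  rw [cv_coef]
  apply List.sum_eq_zero
  intro x hx
  obtain ⟨u, hu, rfl⟩ := List.mem_map.1 hx
  rw [if_neg (h u hu)]

lemma feq_iff (p q : Po) : feq p q = true ↔ ∀ w, cv (coef p w) = cv (coef q w) := by
  rw [feq, List.all_eq_true]
  constructor
  · intro h w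
    by_cases hw : ∃ u ∈ p ++ q, u.2 = w
    · obtain ⟨u, hu, rfl⟩ := hw
      exact (ceq_iff _ _).1 (h u hu)
    · push Not at hw
      rw [coef_eq_zero fun u hu => hw u (List.mem_append_left _ hu),
        coef_eq_zero fun u hu => hw u (List.mem_append_right _ hu)]
  · intro h u _
    exact (ceq_iff _ _).2 (h _)

/-- any additive evaluation of words respects formal equality -/
lemma feq_eval {M : Type*} [AddCommGroup M] [Module ℚ M] (φ : List ℕ → M) {p q : Po}
    (h : feq p q = true) :
    (p.map (fun u => cv u.1 • φ u.2)).sum = (q.map (fun u => cv u.1 • φ u.2)).sum := by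
  classical
  rw [feq_iff] at h
  have key : ∀ (r : Po) (S : Finset (List ℕ)), (∀ u ∈ r, u.2 ∈ S) →
      (r.map (fun u => cv u.1 • φ u.2)).sum = ∑ w ∈ S, cv (coef r w) • φ w := by
    intro r S
    induction r with
    | nil =>
      intro _
      simp [cv_coef]
    | cons u r ih =>
      intro hS
      rw [List.map_cons, List.sum_cons, ih fun v hv => hS v (List.mem_cons_of_mem _ hv)]
      have h1 : ∀ w, cv (coef (u :: r) w) = (if u.2 = w then cv u.1 else 0) + cv (coef r w) := by
        intro w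
        rw [cv_coef, cv_coef, List.map_cons, List.sum_cons]
      simp only [h1, add_smul, Finset.sum_add_distrib]
      congr 1
      rw [Finset.sum_eq_single u.2]
      · rw [if_pos rfl]
      · intro w _ hw
        rw [if_neg (Ne.symm hw), zero_smul]
      · intro h'
        exact absurd (hS u List.mem_cons_self) h'
  let S : Finset (List ℕ) := ((p ++ q).map Prod.snd).toFinset
  have hSp : ∀ u ∈ p, u.2 ∈ S := fun u hu => List.mem_toFinset.2
    (List.mem_map.2 ⟨u, List.mem_append_left _ hu, rfl⟩)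
  have hSq : ∀ u ∈ q, u.2 ∈ S := fun u hu => List.mem_toFinset.2
    (List.mem_map.2 ⟨u, List.mem_append_right _ hu, rfl⟩)
  rw [key p S hSp, key q S hSq]
  exact Finset.sum_congr rfl fun w _ => by rw [h w]

lemma feq_val {n : ℕ} {p q : Po} (h : feq p q = true) : val n p = val n q :=
  feq_eval (mon n) h

lemma repr_val {n : ℕ} {p : Po} (hp : Canp n p) (m : FreeMagma (Fin n)) :
    (mb ℚ (Fin n)).repr (val n p) m = cv (coef p (enc m)) := by
  rw [cv_coef]
  induction p with
  | nil => simp
  | cons u p ih =>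
    obtain ⟨m', hm'⟩ := hp u List.mem_cons_self
    rw [val_cons, map_add, Finsupp.add_apply, ih fun v hv => hp v (List.mem_cons_of_mem _ hv),
      List.map_cons, List.sum_cons, hm', mon_enc, map_smul, Finsupp.smul_apply,
      Module.Basis.repr_self, Finsupp.single_apply]
    congr 1
    by_cases h : m' = m
    · rw [if_pos h, if_pos (by rw [h]), smul_eq_mul, mul_one]
    · rw [if_neg h, if_neg (fun h' => h (enc_injective h')), smul_zero]

lemma feq_of_val {n : ℕ} {p q : Po} (hp : Canp n p) (hq : Canp n q) (h : val n p = val n q) :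
    feq p q = true := by
  rw [feq_iff]
  intro w
  by_cases hw : ∃ m : FreeMagma (Fin n), w = enc m
  · obtain ⟨m, rfl⟩ := hw
    rw [← repr_val hp, ← repr_val hq, h]
  · push Not at hw
    rw [coef_eq_zero, coef_eq_zero]
    · intro u hu h'
      obtain ⟨m, hm⟩ := hq u hu
      exact hw m (by rw [← h', hm])
    · intro u hu h'
      obtain ⟨m, hm⟩ := hp u hu
      exact hw m (by rw [← h', hm])

/-- every element has a canonical code -/
lemma exists_code {n : ℕ} (x : MonoidAlgebra ℚ (FreeMagma (Fin n))) :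
    ∃ p : Po, Canp n p ∧ val n p = x := by
  have h : x ∈ Submodule.span ℚ (Set.range (mb ℚ (Fin n))) := by
    rw [(mb ℚ (Fin n)).span_eq]; trivial
  induction h using Submodule.span_induction with
  | mem x hx =>
    obtain ⟨m, rfl⟩ := hx
    refine ⟨[(cone, enc m)], ?_, ?_⟩
    · intro u hu
      rw [List.mem_singleton] at hu
      subst hu
      exact ⟨m, rfl⟩
    · rw [val_cons, val_nil, cv_one, one_smul, add_zero, mon_enc]
  | zero => exact ⟨[], Canp.nil n, rfl⟩
  | add x y _ _ hx hy =>
    obtain ⟨p, hp, rfl⟩ := hx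
    obtain ⟨q, hq, rfl⟩ := hy
    exact ⟨p ++ q, hp.append hq, val_append n p q⟩
  | smul a x _ hx =>
    obtain ⟨p, hp, rfl⟩ := hx
    obtain ⟨c, rfl⟩ := exists_cv a
    exact ⟨pscal c p, hp.pscal c, val_pscal n c p⟩

end Pool.Agent.TH477.NA
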