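import Pool.Agent.TH477.NA.Cert

/-! The certificate checks are primitive recursive. -/

set_option autoImplicit false

namespace Pool.Agent.TH477.NA

open Primrec

/-- shortcut instances -/
instance iWord : Primcodable (List ℕ) := inferInstance
/-- shortcut -/
instance iCo : Primcodable Co := inferInstance
/-- shortcut -/
instance iTerm : Primcodable (Co × List ℕ) := inferInstance
/-- shortcut -/
instance iPo : Primcodable Po := inferInstance
/-- shortcut -/
instance iLPo : Primcodable (List Po) := inferInstance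
/-- shortcut -/
instance iStep : Primcodable (List (Bool × Po)) := inferInstance
/-- shortcut -/
instance iCE : Primcodable (Co × (List (Bool × Po) × ℕ)) := inferInstance
/-- shortcut -/
instance iCert : Primcodable Cert := inferInstance
/-- shortcut -/
instance iLCert : Primcodable (List Cert) := inferInstance
/-- shortcut -/
instance iPres : Primcodable Pres := inferInstance
/-- shortcut -/
instance iPP : Primcodable (Pres × Pres) := inferInstance
/-- shortcut -/
instance iICert : Primcodable ICert := inferInstance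

lemma pr_cmul : Primrec₂ cmul := by
  have a1 : Primrec fun x : Co × Co => x.1.1.1 := fst.comp (fst.comp fst)
  have a2 : Primrec fun x : Co × Co => x.1.1.2 := snd.comp (fst.comp fst)
  have a3 : Primrec fun x : Co × Co => x.1.2 := snd.comp fst
  have b1 : Primrec fun x : Co × Co => x.2.1.1 := fst.comp (fst.comp snd)
  have b2 : Primrec fun x : Co × Co => x.2.1.2 := snd.comp (fst.comp snd)
  have b3 : Primrec fun x : Co × Co => x.2.2 := snd.comp snd
  exact (((nat_add.comp (nat_mul.comp a1 b1) (nat_mul.comp a2 b2)).pair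
    (nat_add.comp (nat_mul.comp a1 b2) (nat_mul.comp a2 b1))).pair
    (nat_add.comp (nat_add.comp (nat_mul.comp a3 b3) a3) b3)).of_eq fun x => rfl

lemma pr_cadd : Primrec₂ cadd := by
  have a1 : Primrec fun x : Co × Co => x.1.1.1 := fst.comp (fst.comp fst)
  have a2 : Primrec fun x : Co × Co => x.1.1.2 := snd.comp (fst.comp fst)
  have a3 : Primrec fun x : Co × Co => x.1.2 := snd.comp fst
  have b1 : Primrec fun x : Co × Co => x.2.1.1 := fst.comp (fst.comp snd)
  have b2 : Primrec fun x : Co × Co => x.2.1.2 := snd.comp (fst.comp snd)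
  have b3 : Primrec fun x : Co × Co => x.2.2 := snd.comp snd
  exact (((nat_add.comp (nat_mul.comp a1 (succ.comp b3)) (nat_mul.comp b1 (succ.comp a3))).pair
    (nat_add.comp (nat_mul.comp a2 (succ.comp b3)) (nat_mul.comp b2 (succ.comp a3)))).pair
    (nat_add.comp (nat_add.comp (nat_mul.comp a3 b3) a3) b3)).of_eq fun x => rfl

lemma pr_ceq : Primrec₂ ceq := by
  have a1 : Primrec fun x : Co × Co => x.1.1.1 := fst.comp (fst.comp fst)
  have a2 : Primrec fun x : Co × Co => x.1.1.2 := snd.comp (fst.comp fst)
  have a3 : Primrec fun x : Co × Co => x.1.2 := snd.comp fst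
  have b1 : Primrec fun x : Co × Co => x.2.1.1 := fst.comp (fst.comp snd)
  have b2 : Primrec fun x : Co × Co => x.2.1.2 := snd.comp (fst.comp snd)
  have b3 : Primrec fun x : Co × Co => x.2.2 := snd.comp snd
  have h := (Primrec.eq (α := ℕ)).comp
    (nat_add.comp (nat_mul.comp a1 (succ.comp b3)) (nat_mul.comp b2 (succ.comp a3)))
    (nat_add.comp (nat_mul.comp b1 (succ.comp a3)) (nat_mul.comp a2 (succ.comp b3)))
  exact h.decide.of_eq fun x => rfl

lemma pr_pscal : Primrec₂ pscal := by
  have h : Primrec₂ fun (x : Co × Po) (v : Co × List ℕ) => ((cmul x.1 v.1, v.2) : Co × List ℕ) :=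
    (pr_cmul.comp (fst.comp fst) (fst.comp snd)).pair (snd.comp snd)
  exact (list_map snd h).of_eq fun x => rfl

lemma pr_pmul : Primrec₂ pmul := by
  have h1 : Primrec₂ fun (y : (Po × Po) × (Co × List ℕ)) (v : Co × List ℕ) =>
      ((cmul y.2.1 v.1, y.2.2 ++ v.2 ++ [0]) : Co × List ℕ) :=
    (pr_cmul.comp (fst.comp (snd.comp fst)) (fst.comp snd)).pair
      (list_append.comp (list_append.comp (snd.comp (snd.comp fst)) (snd.comp snd)) (const [0]))
  have h2 : Primrec₂ fun (x : Po × Po) (u : Co × List ℕ) =>
      x.2.map (fun v => ((cmul u.1 v.1, u.2 ++ v.2 ++ [0]) : Co × List ℕ)) :=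
    (list_map (snd.comp fst) h1).of_eq fun x => rfl
  exact (list_flatMap fst h2).of_eq fun x => rfl

lemma headD_eq {α : Type*} (l : List α) (d : α) : l.headD d = l.getD 0 d := by
  cases l <;> rfl

lemma pr_headD : Primrec fun s : List Po => s.headD [] :=
  ((list_getD ([] : Po)).comp Primrec.id (const 0)).of_eq fun s => (headD_eq s []).symm

lemma pr_ev : Primrec fun x : (ℕ × List Po) × List ℕ => ev x.1.1 x.1.2 x.2 := by
  have hs : Primrec fun y : ((ℕ × List Po) × List ℕ) × (List Po × ℕ) => y.2.1 := fst.comp snd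
  have ht : Primrec fun y : ((ℕ × List Po) × List ℕ) × (List Po × ℕ) => y.2.2 := snd.comp snd
  have hn : Primrec fun y : ((ℕ × List Po) × List ℕ) × (List Po × ℕ) => y.1.1.1 :=
    fst.comp (fst.comp fst)
  have hf : Primrec fun y : ((ℕ × List Po) × List ℕ) × (List Po × ℕ) => y.1.1.2 :=
    snd.comp (fst.comp fst)
  have hpred : Primrec fun y : ((ℕ × List Po) × List ℕ) × (List Po × ℕ) => y.2.2 - 1 :=
    nat_sub.comp ht (const 1)
  have hstep : Primrec₂ fun (x : (ℕ × List Po) × List ℕ) (q : List Po × ℕ) =>
      (if q.2 = 0 then pmul (q.1.tail.headD []) (q.1.headD []) :: q.1.tail.tail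
        else (if q.2 - 1 < x.1.1 then x.1.2.getD (q.2 - 1) [] else []) :: q.1) := by
    refine Primrec.ite (Primrec.eq.comp ht (const 0)) ?_ ?_
    · exact list_cons.comp (pr_pmul.comp (pr_headD.comp (list_tail.comp hs)) (pr_headD.comp hs))
        (list_tail.comp (list_tail.comp hs))
    · exact list_cons.comp (Primrec.ite (nat_lt.comp hpred hn)
        ((list_getD ([] : Po)).comp hf hpred) (const [])) hs
  exact (pr_headD.comp (list_foldl snd (const []) hstep)).of_eq fun x => rfl

lemma pr_sub : Primrec fun x : (ℕ × List Po) × Po => sub x.1.1 x.1.2 x.2 := by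
  have h : Primrec₂ fun (x : (ℕ × List Po) × Po) (u : Co × List ℕ) =>
      pscal u.1 (ev x.1.1 x.1.2 u.2) :=
    pr_pscal.comp (fst.comp snd) (pr_ev.comp ((fst.comp fst).pair (snd.comp snd)))
  exact (list_flatMap snd h).of_eq fun x => rfl

lemma pr_gens : Primrec gens := by
  have h : Primrec₂ fun (_ : ℕ) (i : ℕ) => ([(cone, [i + 1])] : Po) :=
    list_cons.comp ((const cone).pair (list_cons.comp (succ.comp snd) (const []))) (const [])
  exact (list_map list_range h).of_eq fun x => rfl

lemma pr_nrm : Primrec₂ nrm :=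
  (pr_sub.comp ((fst.pair (pr_gens.comp fst)).pair snd)).of_eq fun x => rfl

lemma pr_toPo : Primrec toPo := by
  have h : Primrec₂ fun (_ : List ((ℕ × ℕ) × List ℕ)) (c : (ℕ × ℕ) × List ℕ) =>
      (((c.1, 0), c.2) : Co × List ℕ) :=
    ((fst.comp snd).pair (const 0)).pair (snd.comp snd)
  exact (list_map Primrec.id h).of_eq fun x => rfl

lemma pr_rl : Primrec rl := by
  have h : Primrec₂ fun (p : Pres) (r : List ((ℕ × ℕ) × List ℕ)) => nrm p.1 (toPo r) :=
    pr_nrm.comp (fst.comp fst) (pr_toPo.comp snd)
  exact (list_map snd h).of_eq fun x => rfl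

lemma pr_stp : Primrec fun x : ℕ × (Po × (Bool × Po)) => stp x.1 x.2.1 x.2.2 := by
  have hP : Primrec fun x : ℕ × (Po × (Bool × Po)) => x.2.1 := fst.comp snd
  have hb : Primrec fun x : ℕ × (Po × (Bool × Po)) => x.2.2.1 := fst.comp (snd.comp snd)
  have hn : Primrec fun x : ℕ × (Po × (Bool × Po)) => nrm x.1 x.2.2.2 :=
    pr_nrm.comp fst (snd.comp (snd.comp snd))
  exact (Primrec.cond hb (pr_pmul.comp hn hP) (pr_pmul.comp hP hn)).of_eq fun x => rfl

lemma pr_ctx : Primrec fun x : ℕ × (Po × List (Bool × Po)) => ctx x.1 x.2.1 x.2.2 := by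
  have h : Primrec₂ fun (x : ℕ × (Po × List (Bool × Po))) (q : Po × (Bool × Po)) =>
      stp x.1 q.1 q.2 :=
    pr_stp.comp ((fst.comp fst).pair snd)
  exact (list_foldl (snd.comp snd) (fst.comp snd) h).of_eq fun x => rfl

lemma pr_idl : Primrec₂ idl := by
  have h : Primrec₂ fun (x : Pres × Cert) (c : Co × (List (Bool × Po) × ℕ)) =>
      pscal c.1 (ctx x.1.1 ((rl x.1).getD c.2.2 []) c.2.1) :=
    pr_pscal.comp (fst.comp snd) (pr_ctx.comp ((fst.comp (fst.comp fst)).pair
      (((list_getD ([] : Po)).comp (pr_rl.comp (fst.comp fst)) (snd.comp (snd.comp snd))).pair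
        (fst.comp (snd.comp snd)))))
  exact (list_flatMap snd h).of_eq fun x => rfl

lemma pr_coef : Primrec₂ coef := by
  have h : Primrec₂ fun (x : Po × List ℕ) (q : Co × (Co × List ℕ)) =>
      (if q.2.2 = x.2 then cadd q.1 q.2.1 else q.1) := by
    refine Primrec.ite (Primrec.eq.comp (snd.comp (snd.comp snd)) (snd.comp fst)) ?_
      (fst.comp snd)
    exact pr_cadd.comp (fst.comp snd) (fst.comp (snd.comp snd))
  exact (list_foldl fst (const czero) h).of_eq fun x => rfl

lemma all_eq_foldl {α : Type*} (l : List α) (f : α → Bool) :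
    l.all f = l.foldl (fun acc a => acc && f a) true := by
  have : ∀ (l : List α) (b : Bool), (b && l.all f) = l.foldl (fun acc a => acc && f a) b := by
    intro l
    induction l with
    | nil => intro b; simp
    | cons a l ih => intro b; rw [List.foldl_cons, ← ih, List.all_cons, Bool.and_assoc]
  rw [← this l true, Bool.true_and]

lemma pr_all {α β : Type*} [Primcodable α] [Primcodable β] {f : α → List β} {g : α → β → Bool}
    (hf : Primrec f) (hg : Primrec₂ g) : Primrec fun a => (f a).all (g a) := by
  have h : Primrec₂ fun (a : α) (q : Bool × β) => (q.1 && g a q.2) :=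
    Primrec.and.comp (fst.comp snd) (hg.comp fst (snd.comp snd))
  exact (list_foldl hf (const true) h).of_eq fun a => (all_eq_foldl _ _).symm

lemma pr_feq : Primrec₂ feq := by
  have h : Primrec₂ fun (x : Po × Po) (u : Co × List ℕ) =>
      ceq (coef x.1 u.2) (coef x.2 u.2) :=
    pr_ceq.comp (pr_coef.comp (fst.comp fst) (snd.comp snd))
      (pr_coef.comp (snd.comp fst) (snd.comp snd))
  exact (pr_all (list_append.comp fst snd) h).of_eq fun x => rfl

lemma pr_mapnrm : Primrec₂ fun (n : ℕ) (f : List Po) => f.map (nrm n) :=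
  (list_map (f := fun x : ℕ × List Po => x.2) (g := fun x P => nrm x.1 P) snd
    (pr_nrm.comp (fst.comp fst) snd)).of_eq fun x => rfl

lemma pr_homc : Primrec fun x : (Pres × Pres) × (List Po × List Cert) =>
    homc x.1.1 x.1.2 x.2.1 x.2.2 := by
  have h : Primrec₂ fun (x : (Pres × Pres) × (List Po × List Cert)) (k : ℕ) =>
      feq (sub x.1.1.1 (x.2.1.map (nrm x.1.2.1)) ((rl x.1.1).getD k []))
        (idl x.1.2 (x.2.2.getD k [])) := by
    refine pr_feq.comp (pr_sub.comp (((fst.comp (fst.comp (fst.comp fst))).pair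
      (pr_mapnrm.comp (fst.comp (snd.comp (fst.comp fst))) (fst.comp (snd.comp fst)))).pair
      ((list_getD ([] : Po)).comp (pr_rl.comp (fst.comp (fst.comp fst))) snd)))
      (pr_idl.comp (snd.comp (fst.comp fst)) ((list_getD ([] : Cert)).comp
        (snd.comp (snd.comp fst)) snd))
  exact (pr_all (list_range.comp (list_length.comp (snd.comp (fst.comp fst)))) h).of_eq
    fun x => rfl

lemma pr_invc : Primrec fun x : (Pres × Pres) × ((List Po × List Po) × List Cert) =>
    invc x.1.1 x.1.2 x.2.1.1 x.2.1.2 x.2.2 := by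
  have h : Primrec₂ fun (x : (Pres × Pres) × ((List Po × List Po) × List Cert)) (i : ℕ) =>
      feq (sub x.1.2.1 (x.2.1.2.map (nrm x.1.1.1)) ((x.2.1.1.map (nrm x.1.2.1)).getD i []))
        ((cone, [i + 1]) :: idl x.1.1 (x.2.2.getD i [])) := by
    have hq1 : Primrec fun y : ((Pres × Pres) × ((List Po × List Po) × List Cert)) × ℕ =>
        y.1.1.2.1 := fst.comp (snd.comp (fst.comp fst))
    have hp1 : Primrec fun y : ((Pres × Pres) × ((List Po × List Po) × List Cert)) × ℕ =>
        y.1.1.1.1 := fst.comp (fst.comp (fst.comp fst))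
    have hp : Primrec fun y : ((Pres × Pres) × ((List Po × List Po) × List Cert)) × ℕ =>
        y.1.1.1 := fst.comp (fst.comp fst)
    have hf : Primrec fun y : ((Pres × Pres) × ((List Po × List Po) × List Cert)) × ℕ =>
        y.1.2.1.1 := fst.comp (fst.comp (snd.comp fst))
    have hg : Primrec fun y : ((Pres × Pres) × ((List Po × List Po) × List Cert)) × ℕ =>
        y.1.2.1.2 := snd.comp (fst.comp (snd.comp fst))
    have hC : Primrec fun y : ((Pres × Pres) × ((List Po × List Po) × List Cert)) × ℕ =>
        y.1.2.2 := snd.comp (snd.comp fst)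
    refine pr_feq.comp (pr_sub.comp ((hq1.pair (pr_mapnrm.comp hp1 hg)).pair
      ((list_getD ([] : Po)).comp (pr_mapnrm.comp hq1 hf) snd))) ?_
    exact list_cons.comp ((const cone).pair (list_cons.comp (succ.comp snd) (const [])))
      (pr_idl.comp hp ((list_getD ([] : Cert)).comp hC snd))
  exact (pr_all (list_range.comp (fst.comp (fst.comp fst))) h).of_eq fun x => rfl

lemma pr_isoc : Primrec fun x : (Pres × Pres) × ICert => isoc x.1.1 x.1.2 x.2 := by
  have hp : Primrec fun x : (Pres × Pres) × ICert => x.1.1 := fst.comp fst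
  have hq : Primrec fun x : (Pres × Pres) × ICert => x.1.2 := snd.comp fst
  have hf : Primrec fun x : (Pres × Pres) × ICert => x.2.1.1 := fst.comp (fst.comp snd)
  have hg : Primrec fun x : (Pres × Pres) × ICert => x.2.1.2 := snd.comp (fst.comp snd)
  have h1 : Primrec fun x : (Pres × Pres) × ICert => x.2.2.1.1 :=
    fst.comp (fst.comp (snd.comp snd))
  have h2 : Primrec fun x : (Pres × Pres) × ICert => x.2.2.1.2 :=
    snd.comp (fst.comp (snd.comp snd))
  have h3 : Primrec fun x : (Pres × Pres) × ICert => x.2.2.2.1 :=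
    fst.comp (snd.comp (snd.comp snd))
  have h4 : Primrec fun x : (Pres × Pres) × ICert => x.2.2.2.2 :=
    snd.comp (snd.comp (snd.comp snd))
  exact (Primrec.and.comp
    (Primrec.and.comp (pr_homc.comp ((hp.pair hq).pair (hf.pair h1)))
      (pr_homc.comp ((hq.pair hp).pair (hg.pair h2))))
    (Primrec.and.comp (pr_invc.comp ((hp.pair hq).pair ((hf.pair hg).pair h3)))
      (pr_invc.comp ((hq.pair hp).pair ((hg.pair hf).pair h4))))).of_eq fun x => rfl

/-- a projection of a computable predicate is recursively enumerable -/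
lemma re_of_exists {α β : Type*} [Primcodable α] [Primcodable β] {f : α × β → Bool}
    (hf : Computable f) : REPred fun a => ∃ b, f (a, b) = true := by
  let g : α → ℕ → Bool := fun a n => ((Encodable.decode (α := β) n).map fun b => f (a, b)).getD false
  have hg : Computable₂ g := by
    have h1 : Computable fun x : α × ℕ => (Encodable.decode (α := β) x.2) :=
      Computable.decode.comp Computable.snd
    have h2 : Computable₂ fun (x : α × ℕ) (b : β) => f (x.1, b) :=
      hf.comp ((Computable.fst.comp Computable.fst).pair Computable.snd)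
    exact (Computable.option_getD (Computable.option_map h1 h2) (Computable.const false)).of_eq
      fun x => rfl
  have h3 : Partrec fun a => Nat.rfind fun n => (Part.some (g a n) : Part Bool) :=
    Partrec.rfind hg.partrec₂
  refine h3.dom_re.of_eq fun a => (Nat.rfind_dom).trans ?_
  constructor
  · rintro ⟨n, hn, -⟩
    have h4 : g a n = true := by simpa using hn
    cases hd : Encodable.decode (α := β) n with
    | none => simp [g, hd] at h4
    | some b =>
      simp [g, hd] at h4
      exact ⟨b, h4⟩
  · rintro ⟨b, hb⟩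
    refine ⟨Encodable.encode b, ?_, fun _ => trivial⟩
    simp [g, hb]

end Pool.Agent.TH477.NA
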