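import Mathlib

/-!
Subspaces of a nonassociative algebra: squares of subspaces, slices,
self-supported subspaces, presenting subspaces.
-/

set_option autoImplicit false

open TensorProduct

namespace Pool.Agent.TH477.NA

section Slices

variable {F : Type*} [Field F] {A : Type*} [AddCommGroup A] [Module F A]

/-- contraction of the left factor with a functional -/
noncomputable def ls (f : Module.Dual F A) : A ⊗[F] A →ₗ[F] A :=
  (TensorProduct.lid F A).toLinearMap ∘ₗ (LinearMap.rTensor A f)

/-- contraction of the right factor with a functional -/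
noncomputable def rs (f : Module.Dual F A) : A ⊗[F] A →ₗ[F] A :=
  (TensorProduct.rid F A).toLinearMap ∘ₗ (LinearMap.lTensor A f)

@[simp] lemma ls_tmul (f : Module.Dual F A) (a b : A) : ls f (a ⊗ₜ[F] b) = f a • b := by
  simp [ls]

@[simp] lemma rs_tmul (f : Module.Dual F A) (a b : A) : rs f (a ⊗ₜ[F] b) = f b • a := by
  simp [rs]

/-- the subspace `W ⊗ W` of `A ⊗ A` -/
def sq (W : Submodule F A) : Submodule F (A ⊗[F] A) :=
  LinearMap.range (TensorProduct.map W.subtype W.subtype)

lemma tmul_mem_sq {W : Submodule F A} {a b : A} (ha : a ∈ W) (hb : b ∈ W) :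
    a ⊗ₜ[F] b ∈ sq W := ⟨(⟨a, ha⟩ : W) ⊗ₜ[F] (⟨b, hb⟩ : W), by simp⟩

lemma sq_le_iff {W : Submodule F A} {K : Submodule F (A ⊗[F] A)} :
    sq W ≤ K ↔ ∀ a ∈ W, ∀ b ∈ W, a ⊗ₜ[F] b ∈ K := by
  constructor
  · intro h a ha b hb
    exact h (tmul_mem_sq ha hb)
  · rintro h _ ⟨x, rfl⟩
    induction x using TensorProduct.induction_on with
    | zero => simp
    | tmul a b => simpa using h a a.2 b b.2
    | add x y hx hy => rw [map_add]; exact K.add_mem hx hy

lemma sq_mono {W W' : Submodule F A} (h : W ≤ W') : sq W ≤ sq W' :=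
  sq_le_iff.2 fun _ ha _ hb => tmul_mem_sq (h ha) (h hb)

lemma ls_inj {x y : A ⊗[F] A} (h : ∀ f : Module.Dual F A, ls f x = ls f y) : x = y := by
  classical
  let b := Module.Basis.ofVectorSpace F A
  apply (TensorProduct.equivFinsuppOfBasisLeft b).injective
  ext i
  rw [TensorProduct.equivFinsuppOfBasisLeft_apply, TensorProduct.equivFinsuppOfBasisLeft_apply]
  exact h (b.coord i)

lemma rs_comm (f : Module.Dual F A) (x : A ⊗[F] A) :
    rs f x = ls f (TensorProduct.comm F A A x) := by
  induction x using TensorProduct.induction_on with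
  | zero => simp
  | tmul a b => simp
  | add x y hx hy => simp [hx, hy]

lemma rs_inj {x y : A ⊗[F] A} (h : ∀ f : Module.Dual F A, rs f x = rs f y) : x = y := by
  apply (TensorProduct.comm F A A).injective
  apply ls_inj
  intro f
  rw [← rs_comm, ← rs_comm]
  exact h f

lemma mem_sq_iff {W : Submodule F A} {x : A ⊗[F] A} :
    x ∈ sq W ↔ ∀ f : Module.Dual F A, ls f x ∈ W ∧ rs f x ∈ W := by
  constructor
  · rintro ⟨y, rfl⟩ f
    induction y using TensorProduct.induction_on with
    | zero => simp
    | tmul a b =>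
      simp only [TensorProduct.map_tmul, Submodule.subtype_apply, ls_tmul, rs_tmul]
      exact ⟨W.smul_mem _ b.2, W.smul_mem _ a.2⟩
    | add x y hx hy =>
      simp only [map_add]
      exact ⟨W.add_mem hx.1 hy.1, W.add_mem hx.2 hy.2⟩
  · intro h
    obtain ⟨π, hπ⟩ := LinearMap.exists_leftInverse_of_injective W.subtype (by simp)
    have hfix : ∀ w ∈ W, W.subtype (π w) = w := by
      intro w hw
      have := congrArg (fun g => g (⟨w, hw⟩ : W)) hπ
      simp only [LinearMap.comp_apply, Submodule.subtype_apply, LinearMap.id_apply] at this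
      rw [this]; rfl
    let p : A →ₗ[F] A := W.subtype ∘ₗ π
    have h1 : TensorProduct.map LinearMap.id p x = x := by
      apply ls_inj
      intro f
      have : ∀ z : A ⊗[F] A, ls f (TensorProduct.map LinearMap.id p z) = p (ls f z) := by
        intro z
        induction z using TensorProduct.induction_on with
        | zero => simp
        | tmul a b => simp
        | add x y hx hy => simp only [map_add, hx, hy]
      rw [this]
      exact hfix _ (h f).1
    have h2 : TensorProduct.map p LinearMap.id x = x := by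
      apply rs_inj
      intro f
      have : ∀ z : A ⊗[F] A, rs f (TensorProduct.map p LinearMap.id z) = p (rs f z) := by
        intro z
        induction z using TensorProduct.induction_on with
        | zero => simp
        | tmul a b => simp
        | add x y hx hy => simp only [map_add, hx, hy]
      rw [this]
      exact hfix _ (h f).2
    refine ⟨TensorProduct.map π π x, ?_⟩
    have h3 : TensorProduct.map W.subtype W.subtype (TensorProduct.map π π x)
        = TensorProduct.map p LinearMap.id (TensorProduct.map LinearMap.id p x) := by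
      rw [← LinearMap.comp_apply, ← TensorProduct.map_comp, ← LinearMap.comp_apply,
        ← TensorProduct.map_comp]
      rfl
    rw [h3, h1, h2]

lemma sq_inf {W W' : Submodule F A} : sq W ⊓ sq W' ≤ sq (W ⊓ W') := by
  rintro x ⟨h, h'⟩
  have h1 := mem_sq_iff.1 h
  have h2 := mem_sq_iff.1 h'
  exact mem_sq_iff.2 fun f => ⟨⟨(h1 f).1, (h2 f).1⟩, ⟨(h1 f).2, (h2 f).2⟩⟩

/-- the support of a subspace of `A ⊗ A`: spanned by all slices -/
def supp (K : Submodule F (A ⊗[F] A)) : Submodule F A :=
  Submodule.span F {a | ∃ x ∈ K, ∃ f : Module.Dual F A, a = ls f x ∨ a = rs f x}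

lemma supp_le_iff {K : Submodule F (A ⊗[F] A)} {W : Submodule F A} :
    supp K ≤ W ↔ K ≤ sq W := by
  constructor
  · intro h x hx
    exact mem_sq_iff.2 fun f => ⟨h (Submodule.subset_span ⟨x, hx, f, Or.inl rfl⟩),
      h (Submodule.subset_span ⟨x, hx, f, Or.inr rfl⟩)⟩
  · intro h
    apply Submodule.span_le.2
    rintro a ⟨x, hx, f, rfl | rfl⟩
    · exact (mem_sq_iff.1 (h hx) f).1
    · exact (mem_sq_iff.1 (h hx) f).2

lemma le_sq_supp (K : Submodule F (A ⊗[F] A)) : K ≤ sq (supp K) := supp_le_iff.1 le_rfl

lemma supp_mono {K K' : Submodule F (A ⊗[F] A)} (h : K ≤ K') : supp K ≤ supp K' :=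
  supp_le_iff.2 (h.trans (le_sq_supp K'))

end Slices

section Algebra

variable {F : Type*} [Field F]
variable {A : Type*} [NonUnitalNonAssocRing A] [Module F A] [IsScalarTower F A A]
  [SMulCommClass F A A]

variable (F) in
/-- the multiplication map `A ⊗ A → A` -/
noncomputable def mu (A : Type*) [NonUnitalNonAssocRing A] [Module F A] [IsScalarTower F A A]
    [SMulCommClass F A A] : A ⊗[F] A →ₗ[F] A := LinearMap.mul' F A

@[simp] lemma mu_tmul (a b : A) : mu F A (a ⊗ₜ[F] b) = a * b := by
  simp [mu]

/-- `pre W = m⁻¹(W)`, the tensors whose product lies in `W` -/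
noncomputable def pre (W : Submodule F A) : Submodule F (A ⊗[F] A) := W.comap (mu F A)

lemma mem_pre {W : Submodule F A} {t : A ⊗[F] A} : t ∈ pre W ↔ mu F A t ∈ W := Iff.rfl

lemma pre_mono {W W' : Submodule F A} (h : W ≤ W') : pre W ≤ pre W' := fun _ ht => h ht

/-- A subspace is *self-supported* if it is finite-dimensional and contained in the support of
the set of tensors whose product lies in it. -/
def SelfSupp (T : Submodule F A) : Prop := FiniteDimensional F T ∧ T ≤ supp (pre T)

/-- The core: the sum of all self-supported subspaces. -/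
def core (F : Type*) [Field F] (A : Type*) [NonUnitalNonAssocRing A] [Module F A]
    [IsScalarTower F A A] [SMulCommClass F A A] : Submodule F A :=
  sSup {T | SelfSupp T}

/-- presenting subspaces -/
structure Presenting (V : Submodule F A) : Prop where
  fin : FiniteDimensional F V
  pre_le : pre V ≤ sq V
  gen : ∀ S : Submodule F A, V ≤ S → (∀ a ∈ S, ∀ b ∈ S, a * b ∈ S) → S = ⊤

/-- the filtration generated by `V` -/
noncomputable def fil (V : Submodule F A) : ℕ → Submodule F A
  | 0 => V
  | n + 1 => V ⊔ (sq (fil V n)).map (mu F A)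

lemma le_fil (V : Submodule F A) (n : ℕ) : V ≤ fil V n := by
  cases n with
  | zero => exact le_rfl
  | succ n => exact le_sup_left

lemma fil_succ_le (V : Submodule F A) (n : ℕ) : fil V n ≤ fil V (n + 1) := by
  induction n with
  | zero => exact le_sup_left
  | succ n ih =>
    change V ⊔ (sq (fil V n)).map (mu F A) ≤ V ⊔ (sq (fil V (n + 1))).map (mu F A)
    exact sup_le_sup_left (Submodule.map_mono (sq_mono ih)) V

lemma fil_mono (V : Submodule F A) : Monotone (fil V) := monotone_nat_of_le_succ (fil_succ_le V)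

lemma mul_mem_fil {V : Submodule F A} {n : ℕ} {a b : A} (ha : a ∈ fil V n) (hb : b ∈ fil V n) :
    a * b ∈ fil V (n + 1) := by
  refine Submodule.mem_sup_right ⟨a ⊗ₜ[F] b, tmul_mem_sq ha hb, by simp⟩

lemma Presenting.exhaust {V : Submodule F A} (hV : Presenting V) (a : A) : ∃ n, a ∈ fil V n := by
  have h := hV.gen (⨆ n, fil V n) (le_iSup (fil V) 0) (by
    intro a ha b hb
    rw [Submodule.mem_iSup_of_directed _ (fil_mono V).directed_le] at ha hb ⊢
    obtain ⟨n, hn⟩ := ha
    obtain ⟨k, hk⟩ := hb
    exact ⟨max n k + 1, mul_mem_fil (fil_mono V (le_max_left n k) hn)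
      (fil_mono V (le_max_right n k) hk)⟩)
  have : a ∈ ⨆ n, fil V n := by rw [h]; trivial
  rwa [Submodule.mem_iSup_of_directed _ (fil_mono V).directed_le] at this

lemma Presenting.pre_fil {V : Submodule F A} (hV : Presenting V) (n : ℕ) :
    pre (fil V (n + 1)) ≤ sq (fil V n) := by
  intro t ht
  have ht' : mu F A t ∈ V ⊔ (sq (fil V n)).map (mu F A) := ht
  obtain ⟨v, hv, w, ⟨s, hs, rfl⟩, hvw⟩ := Submodule.mem_sup.1 ht'
  have h1 : t - s ∈ pre V := by
    rw [mem_pre, map_sub, ← hvw]
    simpa using hv
  have h2 : t - s ∈ sq (fil V n) := sq_mono (le_fil V n) (hV.pre_le h1)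
  have := (sq (fil V n)).add_mem h2 hs
  simpa using this

/-- finite-dimensional subspaces lie in a level of the filtration -/
lemma Presenting.le_fil_of_fd {V : Submodule F A} (hV : Presenting V) (T : Submodule F A)
    (hT : FiniteDimensional F T) : ∃ n, T ≤ fil V n := by
  have hfg : T.FG := (Submodule.fg_iff_finiteDimensional T).2 hT
  obtain ⟨s, hs⟩ := hfg
  choose N hN using hV.exhaust
  refine ⟨s.sup N, ?_⟩
  rw [← hs]
  apply Submodule.span_le.2
  intro a ha
  exact fil_mono V (Finset.le_sup (f := N) ha) (hN a)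

lemma Presenting.selfSupp_le {V : Submodule F A} (hV : Presenting V) {T : Submodule F A}
    (hT : SelfSupp T) : T ≤ V := by
  obtain ⟨n, hn⟩ := hV.le_fil_of_fd T hT.1
  induction n with
  | zero => exact hn
  | succ n ih =>
    apply ih
    refine hT.2.trans (supp_le_iff.2 ?_)
    exact (pre_mono hn).trans (hV.pre_fil n)

lemma Presenting.core_le {V : Submodule F A} (hV : Presenting V) : core F A ≤ V :=
  sSup_le fun _ hT => hV.selfSupp_le hT

/-- a presenting subspace is terminal if `V ∩ A² ⊆ supp (pre V)`. -/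
def Terminal (V : Submodule F A) : Prop :=
  Presenting V ∧ V ⊓ LinearMap.range (mu F A) ≤ supp (pre V)

lemma Presenting.supp_le {V : Submodule F A} (hV : Presenting V) : supp (pre V) ≤ V :=
  supp_le_iff.2 hV.pre_le

lemma Terminal.pre_supp {V : Submodule F A} (hV : Terminal V) :
    pre (supp (pre V)) = pre V := by
  apply le_antisymm (pre_mono hV.1.supp_le)
  intro t ht
  rw [mem_pre]
  exact hV.2 ⟨ht, ⟨t, rfl⟩⟩

lemma Terminal.core_eq {V : Submodule F A} (hV : Terminal V) :
    core F A = supp (pre V) := by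
  have hfd : FiniteDimensional F V := hV.1.fin
  apply le_antisymm
  · apply sSup_le
    intro T hT
    exact hT.2.trans (supp_mono (pre_mono (hV.1.selfSupp_le hT)))
  · apply le_sSup
    refine ⟨Submodule.finiteDimensional_of_le hV.1.supp_le, ?_⟩
    rw [hV.pre_supp]

lemma Terminal.pre_core {V : Submodule F A} (hV : Terminal V) : pre (core F A) = pre V := by
  rw [hV.core_eq, hV.pre_supp]

lemma Presenting.sup_range {V : Submodule F A} (hV : Presenting V) :
    V ⊔ LinearMap.range (mu F A) = ⊤ := by
  apply hV.gen _ le_sup_left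
  intro a _ b _
  exact Submodule.mem_sup_right ⟨a ⊗ₜ[F] b, by simp⟩

/-- one reduction step -/
lemma Presenting.reduce {V : Submodule F A} (hV : Presenting V) (hT : ¬ Terminal V) :
    ∃ H : Submodule F A, H < V ∧ Presenting H ∧ V ≤ fil H 1 := by
  have hT' : ¬ (V ⊓ LinearMap.range (mu F A) ≤ supp (pre V)) := fun h => hT ⟨hV, h⟩
  obtain ⟨v, ⟨hvV, ⟨d, hd⟩⟩, hvS⟩ := SetLike.not_le_iff_exists.1 hT'
  -- a functional vanishing on the support and not at `v`
  obtain ⟨f, hfv, hfS⟩ : ∃ f : Module.Dual F A, f v ≠ 0 ∧ supp (pre V) ≤ LinearMap.ker f := by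
    obtain ⟨f, h1, h2⟩ := Submodule.exists_le_ker_of_notMem hvS
    exact ⟨f, h1, h2⟩
  have hfd : FiniteDimensional F V := hV.fin
  have hSV := hV.supp_le
  let H : Submodule F A := V ⊓ LinearMap.ker f
  have hHV : H ≤ V := inf_le_left
  have hSH : supp (pre V) ≤ H := le_inf hSV hfS
  have hlt : H < V := by
    refine lt_of_le_of_ne hHV ?_
    intro h
    have : v ∈ H := by rw [h]; exact hvV
    exact hfv this.2
  have hdH : d ∈ sq H := by
    have : d ∈ pre V := by rw [mem_pre, hd]; exact hvV
    exact supp_le_iff.1 hSH this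
  -- every element of V is in H + F v
  have hdec : ∀ x ∈ V, x - (f x / f v) • v ∈ H := by
    intro x hx
    refine ⟨V.sub_mem hx (V.smul_mem _ hvV), ?_⟩
    change f (x - (f x / f v) • v) = 0
    rw [map_sub, map_smul, smul_eq_mul, div_mul_cancel₀ _ hfv, sub_self]
  refine ⟨H, hlt, ⟨Submodule.finiteDimensional_of_le hHV, ?_, ?_⟩, ?_⟩
  · exact (pre_mono hHV).trans (supp_le_iff.1 hSH)
  · intro S hHS hmul
    apply hV.gen S _ hmul
    have hsq : sq H ≤ S.comap (mu F A) := by
      apply sq_le_iff.2
      intro a ha b hb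
      rw [Submodule.mem_comap, mu_tmul]
      exact hmul a (hHS ha) b (hHS hb)
    have hvS' : v ∈ S := by
      have := hsq hdH
      rwa [Submodule.mem_comap, hd] at this
    intro x hx
    have := S.add_mem (hHS (hdec x hx)) (S.smul_mem (f x / f v) hvS')
    simpa using this
  · intro x hx
    have h1 : x - (f x / f v) • v ∈ fil H 1 := le_fil H 1 (hdec x hx)
    have h2 : v ∈ fil H 1 := Submodule.mem_sup_right ⟨d, hdH, hd⟩
    have := (fil H 1).add_mem h1 ((fil H 1).smul_mem (f x / f v) h2)
    simpa using this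

lemma fil_le_of_le {V W : Submodule F A} {k : ℕ} (h : V ≤ fil W k) (n : ℕ) :
    fil V n ≤ fil W (k + n) := by
  induction n with
  | zero => exact h
  | succ n ih =>
    refine sup_le (h.trans (fil_mono W (by omega))) ?_
    rw [Submodule.map_le_iff_le_comap]
    apply sq_le_iff.2
    intro a ha b hb
    rw [Submodule.mem_comap, mu_tmul]
    exact mul_mem_fil (ih ha) (ih hb)

/-- every presenting subspace contains a terminal one -/
lemma Presenting.exists_terminal {V : Submodule F A} (hV : Presenting V) :
    ∃ W : Submodule F A, W ≤ V ∧ Terminal W ∧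
      V ≤ fil W (Module.finrank F V - Module.finrank F W) := by
  classical
  induction hn : Module.finrank F V using Nat.strong_induction_on generalizing V with
  | _ n ih =>
    by_cases hT : Terminal V
    · exact ⟨V, le_rfl, hT, le_fil V _⟩
    · obtain ⟨H, hlt, hH, hVH⟩ := hV.reduce hT
      have hfd : FiniteDimensional F V := hV.fin
      have hdim : Module.finrank F H < Module.finrank F V := Submodule.finrank_lt_finrank_of_lt hlt
      obtain ⟨W, hWH, hW, hWf⟩ := ih _ (by rw [← hn]; exact hdim) hH rfl
      refine ⟨W, hWH.trans hlt.le, hW, ?_⟩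
      have hfdH : FiniteDimensional F H := hH.fin
      have hWH' : Module.finrank F W ≤ Module.finrank F H := Submodule.finrank_mono hWH
      refine hVH.trans ((fil_le_of_le hWf 1).trans (fil_mono W ?_))
      omega

end Algebra

end Pool.Agent.TH477.NA
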