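import Pool.Agent.TH477.NA.Real2

/-! Elementary (tensor-free) form of the invariants. -/

set_option autoImplicit false

open TensorProduct

namespace Pool.Agent.TH477.NA

universe u v w

section

variable {F : Type u} [Field F]
variable {A : Type v} [NonUnitalNonAssocRing A] [Module F A] [IsScalarTower F A A]
  [SMulCommClass F A A]
variable {B : Type w} [NonUnitalNonAssocRing B] [Module F B] [IsScalarTower F B B]
  [SMulCommClass F B B]

/-- The factors of `T`: all elements occurring in sums `a₁b₁ + ⋯ + a_k b_k ∈ T` with linearly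
independent `a₁, …, a_k` and linearly independent `b₁, …, b_k`. -/
def factors (F : Type u) [Field F] {A : Type v} [NonUnitalNonAssocRing A] [Module F A]
    (T : Submodule F A) : Set A :=
  {x | ∃ (k : ℕ) (a b : Fin k → A), LinearIndependent F a ∧ LinearIndependent F b ∧
    ∑ i, a i * b i ∈ T ∧ ∃ i, x = a i ∨ x = b i}

/-- The core: the sum of all finite-dimensional subspaces `T` contained in the span of their
factors. -/
def Core (F : Type u) [Field F] (A : Type v) [NonUnitalNonAssocRing A] [Module F A] :
    Submodule F A :=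
  sSup {T | FiniteDimensional F T ∧ T ≤ Submodule.span F (factors F T)}

/-- Isomorphism of the cores as partial algebras: linear maps `f`, `g` which restrict to mutually
inverse bijections between the cores, such that for factors in the core a sum of products equals
an element `c` of the core if and only if this is so for the images. -/
def SameCore (F : Type u) [Field F] (A : Type v) [NonUnitalNonAssocRing A] [Module F A]
    (B : Type w) [NonUnitalNonAssocRing B] [Module F B] : Prop :=
  ∃ (f : A →ₗ[F] B) (g : B →ₗ[F] A),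
    (∀ x ∈ Core F A, f x ∈ Core F B ∧ g (f x) = x) ∧
    (∀ y ∈ Core F B, g y ∈ Core F A ∧ f (g y) = y) ∧
    ∀ l : List (A × A), (∀ p ∈ l, p.1 ∈ Core F A ∧ p.2 ∈ Core F A) → ∀ c ∈ Core F A,
      ((l.map fun p => p.1 * p.2).sum = c ↔ (l.map fun p => f p.1 * f p.2).sum = f c)

/-- the products -/
def prods (F : Type u) [Field F] (A : Type v) [NonUnitalNonAssocRing A] [Module F A] :
    Submodule F A :=
  Submodule.span F {x | ∃ a b : A, x = a * b}

/-- The rank: the codimension of `Core + A²`. -/
noncomputable def Rank (F : Type u) [Field F] (A : Type v) [NonUnitalNonAssocRing A]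
    [Module F A] : ℕ :=
  Module.finrank F (A ⧸ (Core F A ⊔ prods F A))

/-- left slices as a linear map in the functional -/
noncomputable def lsl (t : A ⊗[F] A) : Module.Dual F A →ₗ[F] A where
  toFun f := ls f t
  map_add' f g := by simp [ls, LinearMap.rTensor_add]
  map_smul' c f := by simp [ls, LinearMap.rTensor_smul]

omit [IsScalarTower F A A] [SMulCommClass F A A] in
lemma exists_fd_sq (t : A ⊗[F] A) : ∃ W : Submodule F A, FiniteDimensional F W ∧ t ∈ sq W := by
  induction t using TensorProduct.induction_on with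
  | zero => exact ⟨⊥, inferInstance, Submodule.zero_mem _⟩
  | tmul a b =>
    refine ⟨Submodule.span F {a, b}, ?_, tmul_mem_sq (Submodule.subset_span (by simp))
      (Submodule.subset_span (by simp))⟩
    exact FiniteDimensional.span_of_finite F (by simp)
  | add x y hx hy =>
    obtain ⟨W, hW, hx⟩ := hx
    obtain ⟨W', hW', hy⟩ := hy
    exact ⟨W ⊔ W', inferInstance, Submodule.add_mem _ (sq_mono le_sup_left hx)
      (sq_mono le_sup_right hy)⟩

omit [IsScalarTower F A A] [SMulCommClass F A A] in
lemma slice_comm (f g : Module.Dual F A) (t : A ⊗[F] A) : f (rs g t) = g (ls f t) := by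
  induction t using TensorProduct.induction_on with
  | zero => simp
  | tmul a b => simp [mul_comm]
  | add x y hx hy => simp only [map_add, hx, hy]

/-- every tensor has a representation with independent factors -/
lemma exists_indep (t : A ⊗[F] A) : ∃ (k : ℕ) (a b : Fin k → A), LinearIndependent F a ∧
    LinearIndependent F b ∧ t = ∑ i, a i ⊗ₜ[F] b i := by
  classical
  let W : Submodule F A := LinearMap.range (lsl t)
  have hfd : FiniteDimensional F W := by
    obtain ⟨W', hW', ht⟩ := exists_fd_sq t
    have : W ≤ W' := by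
      rintro _ ⟨f, rfl⟩
      exact (mem_sq_iff.1 ht f).1
    exact Submodule.finiteDimensional_of_le this
  obtain ⟨π, hπ⟩ := LinearMap.exists_leftInverse_of_injective W.subtype (by simp)
  have hπ' : ∀ w : W, π (w : A) = w := fun w => congrArg (fun g => g w) hπ
  let β := Module.finBasis F W
  let k := Module.finrank F W
  let b : Fin k → A := fun i => (β i : A)
  let a : Fin k → A := fun i => rs (β.coord i ∘ₗ π) t
  have hb : LinearIndependent F b := β.linearIndependent.map' W.subtype (by simp)
  have ht : t = ∑ i, a i ⊗ₜ[F] b i := by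
    apply ls_inj
    intro f
    rw [map_sum]
    have h1 : ∀ i, ls f (a i ⊗ₜ[F] b i) = ((β.repr (π (ls f t)) i • β i : W) : A) := by
      intro i
      rw [ls_tmul]
      simp only [a, b, slice_comm]
      rfl
    rw [Finset.sum_congr rfl fun i _ => h1 i, ← Submodule.coe_sum, β.sum_repr]
    have h2 : ls f t ∈ W := ⟨f, rfl⟩
    have h3 := hπ' ⟨ls f t, h2⟩
    simp only at h3
    rw [h3]
  refine ⟨k, a, b, ?_, hb, ht⟩
  rw [Fintype.linearIndependent_iff]
  intro c hc j
  -- a functional whose slice is `b j`
  obtain ⟨f, hf⟩ : ∃ f : Module.Dual F A, ls f t = b j := by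
    obtain ⟨f, hf⟩ := (β j).2
    exact ⟨f, hf⟩
  have h4 : ∑ i, f (a i) • b i = b j := by
    rw [← hf]
    conv_rhs => rw [ht]
    rw [map_sum]
    exact Finset.sum_congr rfl fun i _ => (ls_tmul f (a i) (b i)).symm
  have h5 : ∀ i, f (a i) = if i = j then 1 else 0 := by
    have h6 : ∑ i, (f (a i) - if i = j then 1 else 0) • b i = 0 := by
      simp only [sub_smul, Finset.sum_sub_distrib, h4, ite_smul, one_smul, zero_smul,
        Finset.sum_ite_eq', Finset.mem_univ, if_true, sub_self]
    intro i
    exact sub_eq_zero.1 (Fintype.linearIndependent_iff.1 hb _ h6 i)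
  have h7 := congrArg f hc
  rw [map_sum, map_zero] at h7
  simpa [map_smul, h5] using h7

omit [IsScalarTower F A A] [SMulCommClass F A A] in
lemma exists_dual {k : ℕ} {b : Fin k → A} (hb : LinearIndependent F b) (i : Fin k) :
    ∃ f : Module.Dual F A, ∀ j, f (b j) = if j = i then 1 else 0 := by
  classical
  let B' := Module.Basis.extend (K := F) (s := Set.range b) (hb.linearIndepOn_id)
  obtain ⟨f, hf⟩ := LinearMap.exists_extend
    ((Finsupp.lapply i : (Fin k →₀ F) →ₗ[F] F) ∘ₗ hb.repr)
  refine ⟨f, fun j => ?_⟩
  have h1 : b j ∈ Submodule.span F (Set.range b) := Submodule.subset_span ⟨j, rfl⟩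
  have h2 := congrArg (fun g => g ⟨b j, h1⟩) hf
  simp only [LinearMap.comp_apply, Submodule.subtype_apply] at h2
  rw [h2, hb.repr_eq_single j _ rfl, Finsupp.lapply_apply, Finsupp.single_apply]

lemma span_factors (T : Submodule F A) : Submodule.span F (factors F T) = supp (pre T) := by
  apply le_antisymm
  · apply Submodule.span_le.2
    rintro x ⟨k, a, b, ha, hb, hT, i, hi⟩
    have hmem : (∑ i, a i ⊗ₜ[F] b i) ∈ pre T := by
      rw [mem_pre, map_sum]
      simpa using hT
    rcases hi with rfl | rfl
    · obtain ⟨f, hf⟩ := exists_dual hb i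
      refine Submodule.subset_span ⟨_, hmem, f, Or.inr ?_⟩
      rw [map_sum]
      simp [hf]
    · obtain ⟨f, hf⟩ := exists_dual ha i
      refine Submodule.subset_span ⟨_, hmem, f, Or.inl ?_⟩
      rw [map_sum]
      simp [hf]
  · rw [supp_le_iff]
    intro t ht
    obtain ⟨k, a, b, ha, hb, rfl⟩ := exists_indep t
    have hT : ∑ i, a i * b i ∈ T := by
      rw [mem_pre, map_sum] at ht
      simpa using ht
    apply Submodule.sum_mem
    intro i _
    exact tmul_mem_sq (Submodule.subset_span ⟨k, a, b, ha, hb, hT, i, Or.inl rfl⟩)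
      (Submodule.subset_span ⟨k, a, b, ha, hb, hT, i, Or.inr rfl⟩)

lemma Core_eq : Core F A = core F A := by
  rw [Core, core]
  congr 1
  ext T
  rw [Set.mem_ofPred_eq, Set.mem_ofPred_eq, SelfSupp, span_factors]

lemma prods_eq : prods F A = LinearMap.range (mu F A) := by
  apply le_antisymm
  · apply Submodule.span_le.2
    rintro _ ⟨a, b, rfl⟩
    exact ⟨a ⊗ₜ[F] b, by simp⟩
  · rintro _ ⟨t, rfl⟩
    induction t using TensorProduct.induction_on with
    | zero => simp
    | tmul a b => exact Submodule.subset_span ⟨a, b, by simp⟩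
    | add x y hx hy => rw [map_add]; exact Submodule.add_mem _ hx hy

lemma Rank_eq : Rank F A = rk F A := by
  rw [Rank, rk, Core_eq, prods_eq]

lemma exists_list {C : Type*} [AddCommGroup C] [Module F C] (s : C ⊗[F] C) :
    ∃ l : List (C × C), s = (l.map fun p => p.1 ⊗ₜ[F] p.2).sum := by
  induction s using TensorProduct.induction_on with
  | zero => exact ⟨[], by simp⟩
  | tmul a b => exact ⟨[(a, b)], by simp⟩
  | add x y hx hy =>
    obtain ⟨l, rfl⟩ := hx
    obtain ⟨l', rfl⟩ := hy
    exact ⟨l ++ l', by simp⟩

lemma mu_list {C : Type*} [AddCommGroup C] [Module F C] (f : C →ₗ[F] A) (l : List (C × C)) :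
    mu F A (TensorProduct.map f f (l.map fun p => p.1 ⊗ₜ[F] p.2).sum)
      = (l.map fun p => f p.1 * f p.2).sum := by
  induction l with
  | nil => simp
  | cons p l ih => simp only [List.map_cons, List.sum_cons, map_add, ih, TensorProduct.map_tmul,
      mu_tmul]

lemma sameCore_iff : SameCore F A B ↔ ∃ ε : core F A ≃ₗ[F] core F B, CoreIso ε := by
  have key : ∀ (S : Submodule F A) (S' : Submodule F B) (ε : S ≃ₗ[F] S'),
      (∀ (l : List (S × S)) (c : S), (l.map fun p => (p.1 : A) * (p.2 : A)).sum = c ↔
        (l.map fun p => (ε p.1 : B) * (ε p.2 : B)).sum = ε c) ↔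
      (∀ (s : S ⊗[F] S) (c : S), mu F A (TensorProduct.map S.subtype S.subtype s) = c ↔
        mu F B (TensorProduct.map S'.subtype S'.subtype
          (TensorProduct.map ε.toLinearMap ε.toLinearMap s)) = ε c) := by
    intro S S' ε
    have h2 : ∀ s : S ⊗[F] S, TensorProduct.map S'.subtype S'.subtype
          (TensorProduct.map ε.toLinearMap ε.toLinearMap s)
        = TensorProduct.map (S'.subtype ∘ₗ ε.toLinearMap) (S'.subtype ∘ₗ ε.toLinearMap) s := by
      intro s
      rw [← LinearMap.comp_apply, ← TensorProduct.map_comp]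
    constructor
    · intro h s c
      obtain ⟨l, rfl⟩ := exists_list s
      rw [h2, mu_list, mu_list]
      exact h l c
    · intro h l c
      have h3 := h (l.map fun p => p.1 ⊗ₜ[F] p.2).sum c
      rw [h2, mu_list, mu_list] at h3
      exact h3
  have gn : ∀ (S : Submodule F A) (S' : Submodule F B), core F A = S → core F B = S' →
      ((∃ (f : A →ₗ[F] B) (g : B →ₗ[F] A), (∀ x ∈ S, f x ∈ S' ∧ g (f x) = x) ∧
        (∀ y ∈ S', g y ∈ S ∧ f (g y) = y) ∧
        ∀ l : List (A × A), (∀ p ∈ l, p.1 ∈ S ∧ p.2 ∈ S) → ∀ c ∈ S,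
          ((l.map fun p => p.1 * p.2).sum = c ↔ (l.map fun p => f p.1 * f p.2).sum = f c)) ↔
      ∃ ε : core F A ≃ₗ[F] core F B, CoreIso ε) := by
    rintro S S' rfl rfl
    constructor
    · rintro ⟨f, g, hf, hg, h⟩
      let ε : core F A ≃ₗ[F] core F B := LinearEquiv.ofLinearMap
        (f.restrict fun x hx => (hf x hx).1) (g.restrict fun y hy => (hg y hy).1)
        (LinearMap.ext fun y => Subtype.ext (hg y y.2).2)
        (LinearMap.ext fun x => Subtype.ext (hf x x.2).2)
      have hε : ∀ x, ((ε x : core F B) : B) = f x := fun x => rfl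
      refine ⟨ε, (key _ _ ε).1 ?_⟩
      intro l c
      have h1 := h (l.map fun p => ((p.1 : A), (p.2 : A))) (by
        intro p hp
        obtain ⟨q, _, rfl⟩ := List.mem_map.1 hp
        exact ⟨q.1.2, q.2.2⟩) c c.2
      rw [List.map_map, List.map_map] at h1
      exact h1
    · rintro ⟨ε, hε⟩
      obtain ⟨f, hf⟩ := LinearMap.exists_extend ((core F B).subtype ∘ₗ ε.toLinearMap)
      obtain ⟨g, hg⟩ := LinearMap.exists_extend ((core F A).subtype ∘ₗ ε.symm.toLinearMap)
      have hf' : ∀ x : core F A, f x = ε x := fun x => congrArg (fun φ => φ x) hf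
      have hg' : ∀ y : core F B, g y = ε.symm y := fun y => congrArg (fun φ => φ y) hg
      refine ⟨f, g, ?_, ?_, ?_⟩
      · intro x hx
        have h1 := hf' ⟨x, hx⟩
        simp only at h1
        refine ⟨by rw [h1]; exact (ε _).2, ?_⟩
        rw [h1, hg', ε.symm_apply_apply]
      · intro y hy
        have h1 := hg' ⟨y, hy⟩
        simp only at h1
        refine ⟨by rw [h1]; exact (ε.symm _).2, ?_⟩
        rw [h1, hf', ε.apply_symm_apply]
      · intro l hl c hc
        obtain ⟨l', rfl⟩ : ∃ l' : List (core F A × core F A),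
            l = l'.map fun p => ((p.1 : A), (p.2 : A)) := by
          induction l with
          | nil => exact ⟨[], rfl⟩
          | cons p l ih =>
            obtain ⟨l', rfl⟩ := ih fun q hq => hl q (List.mem_cons_of_mem _ hq)
            obtain ⟨h1, h2⟩ := hl p List.mem_cons_self
            exact ⟨(⟨p.1, h1⟩, ⟨p.2, h2⟩) :: l', rfl⟩
        have h1 := (key _ _ ε).2 hε l' ⟨c, hc⟩
        rw [List.map_map, List.map_map]
        have h2 : ((fun p : A × A => f p.1 * f p.2) ∘ fun p : core F A × core F A =>
            ((p.1 : A), (p.2 : A))) = fun p => (ε p.1 : B) * (ε p.2 : B) := by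
          funext p
          simp only [Function.comp_apply, hf']
        rw [h2]
        have h3 := hf' ⟨c, hc⟩
        simp only at h3
        rw [h3]
        exact h1
  exact gn _ _ Core_eq.symm Core_eq.symm

end

end Pool.Agent.TH477.NA
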