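import Mathlib

/-! Finite-dimensional algebras built from spaces of pairs (matrix, vector). -/

set_option autoImplicit false

namespace Pool.Agent.TH477.NA

/-- two linear maps with the same range differ by an automorphism of the source -/
lemma exists_auto {E U : Type*} [AddCommGroup E] [Module ℚ E] [FiniteDimensional ℚ E]
    [AddCommGroup U] [Module ℚ U] (P Q : E →ₗ[ℚ] U)
    (h : LinearMap.range P = LinearMap.range Q) :
    ∃ ζ : E ≃ₗ[ℚ] E, ∀ x, P (ζ x) = Q x := by
  have hr : Module.finrank ℚ (LinearMap.ker Q) = Module.finrank ℚ (LinearMap.ker P) := by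
    have h1 := LinearMap.finrank_range_add_finrank_ker P
    have h2 := LinearMap.finrank_range_add_finrank_ker Q
    rw [h] at h1
    omega
  let κ : LinearMap.ker Q ≃ₗ[ℚ] LinearMap.ker P := LinearEquiv.ofFinrankEq _ _ hr
  obtain ⟨sP, hsP⟩ := P.rangeRestrict.exists_rightInverse_of_surjective
    (LinearMap.range_eq_top.2 P.surjective_rangeRestrict)
  obtain ⟨sQ, hsQ⟩ := Q.rangeRestrict.exists_rightInverse_of_surjective
    (LinearMap.range_eq_top.2 Q.surjective_rangeRestrict)
  have hP : ∀ u : LinearMap.range P, P (sP u) = u := fun u =>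
    congrArg Subtype.val (LinearMap.congr_fun hsP u)
  have hQ : ∀ u : LinearMap.range Q, Q (sQ u) = u := fun u =>
    congrArg Subtype.val (LinearMap.congr_fun hsQ u)
  let δ : E →ₗ[ℚ] LinearMap.ker Q := LinearMap.codRestrict (LinearMap.ker Q)
    (LinearMap.id - sQ ∘ₗ Q.rangeRestrict) (fun x => by
      rw [LinearMap.mem_ker]
      simp only [LinearMap.sub_apply, LinearMap.id_apply, LinearMap.comp_apply, map_sub]
      rw [hQ]
      exact sub_self (Q x))
  let ρ : E →ₗ[ℚ] LinearMap.range P := LinearMap.codRestrict (LinearMap.range P) Q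
    (fun x => by rw [h]; exact ⟨x, rfl⟩)
  let z : E →ₗ[ℚ] E := (LinearMap.ker P).subtype ∘ₗ κ.toLinearMap ∘ₗ δ + sP ∘ₗ ρ
  have hz : ∀ x, P (z x) = Q x := by
    intro x
    have h1 : P ((κ (δ x) : LinearMap.ker P) : E) = 0 := (κ (δ x)).2
    have h2 : P (sP (ρ x)) = Q x := hP (ρ x)
    change P (((κ (δ x) : LinearMap.ker P) : E) + sP (ρ x)) = Q x
    rw [map_add, h1, h2, zero_add]
  have hinj : Function.Injective z := by
    rw [← LinearMap.ker_eq_bot, LinearMap.ker_eq_bot']
    intro x hx
    have h1 : Q x = 0 := by rw [← hz, hx, map_zero]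
    have h2 : ρ x = 0 := Subtype.ext h1
    have h3 : ((κ (δ x) : LinearMap.ker P) : E) + sP (ρ x) = 0 := hx
    rw [h2, map_zero, add_zero] at h3
    have h4 : κ (δ x) = 0 := Subtype.ext h3
    have h5 : δ x = 0 := κ.map_eq_zero_iff.1 h4
    have h6 : x - sQ (Q.rangeRestrict x) = 0 := congrArg Subtype.val h5
    have h7 : Q.rangeRestrict x = 0 := Subtype.ext h1
    rwa [h7, map_zero, sub_zero] at h6
  exact ⟨LinearEquiv.ofInjectiveEndo z hinj, fun x => hz x⟩

/-- multiplication on `ℚ e ⊕ V ⊕ Y` -/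
def emul {t m : ℕ} (M : Fin m → Matrix (Fin t) (Fin t) ℚ) (v : Fin m → Fin t → ℚ)
    (x y : ℚ × (Fin t → ℚ) × (Fin m → ℚ)) : ℚ × (Fin t → ℚ) × (Fin m → ℚ) :=
  (x.1 * y.1, 0, fun k => x.1 * dotProduct (v k) y.2.1 + dotProduct x.2.1 ((M k).mulVec y.2.1))

/-- nondegeneracy -/
def ND {t m : ℕ} (M : Fin m → Matrix (Fin t) (Fin t) ℚ) : Prop :=
  ∀ f : Fin t → ℚ, (∀ k, Matrix.vecMul f (M k) = 0 ∧ (M k).mulVec f = 0) → f = 0

section

variable {t t' m : ℕ} {M : Fin m → Matrix (Fin t) (Fin t) ℚ} {v : Fin m → Fin t → ℚ}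
variable {M' : Fin m → Matrix (Fin t') (Fin t') ℚ} {v' : Fin m → Fin t' → ℚ}

lemma emul_zero_left (y : ℚ × (Fin t → ℚ) × (Fin m → ℚ)) : emul M v 0 y = 0 := by
  simp only [emul, Prod.fst_zero, Prod.snd_zero, zero_mul, zero_dotProduct, add_zero]
  rfl

/-- the induced map -/
def gam (Φ : (ℚ × (Fin t → ℚ) × (Fin m → ℚ)) ≃ₗ[ℚ] (ℚ × (Fin t' → ℚ) × (Fin m → ℚ))) :
    (Fin t → ℚ) →ₗ[ℚ] (Fin t' → ℚ) where
  toFun w := (Φ (0, w, 0)).2.1
  map_add' x y := by
    have : ((0, x + y, 0) : ℚ × (Fin t → ℚ) × (Fin m → ℚ)) = (0, x, 0) + (0, y, 0) := by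
      simp
    rw [this, map_add]
    rfl
  map_smul' c x := by
    have : ((0, c • x, 0) : ℚ × (Fin t → ℚ) × (Fin m → ℚ)) = c • (0, x, 0) := by
      simp
    rw [this, map_smul]
    rfl

variable (Φ : (ℚ × (Fin t → ℚ) × (Fin m → ℚ)) ≃ₗ[ℚ] (ℚ × (Fin t' → ℚ) × (Fin m → ℚ)))
  (hΦ : ∀ x y, Φ (emul M v x y) = emul M' v' (Φ x) (Φ y))

include hΦ

lemma symm_mul (x y : ℚ × (Fin t' → ℚ) × (Fin m → ℚ)) :
    Φ.symm (emul M' v' x y) = emul M v (Φ.symm x) (Φ.symm y) := by
  apply Φ.injective
  rw [hΦ, Φ.apply_symm_apply, Φ.apply_symm_apply, Φ.apply_symm_apply]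

lemma map_N (w : Fin t → ℚ) (y : Fin m → ℚ) : (Φ (0, w, y)).1 = 0 := by
  have h1 : emul M v (emul M v (0, w, y) (0, w, y)) (emul M v (0, w, y) (0, w, y)) = 0 := by
    simp only [emul, zero_mul, zero_dotProduct, add_zero]
    rfl
  have h2 := congrArg Φ h1
  rw [hΦ, hΦ, map_zero] at h2
  have h3 := congrArg Prod.fst h2
  simp only [emul, Prod.fst_zero] at h3
  simpa using h3

lemma map_e : Φ (1, 0, 0) = (1, 0, 0) := by
  have h1 : emul M v (1, 0, 0) (1, 0, 0) = (1, 0, 0) := by
    simp only [emul, mul_one, dotProduct_zero, zero_dotProduct, add_zero, mul_zero]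
    rfl
  have h2 := congrArg Φ h1
  rw [hΦ] at h2
  have h3 := congrArg Prod.fst h2
  have h4 := congrArg (fun z => z.2.1) h2
  have h5 := congrArg (fun z => z.2.2) h2
  simp only [emul] at h3 h4 h5
  rw [← h4] at h5
  simp only [dotProduct_zero, zero_dotProduct, add_zero, mul_zero] at h5
  have h6 : (Φ (1, 0, 0)).1 ≠ 0 := by
    intro h0
    have h7 : Φ (1, 0, 0) = 0 := Prod.ext h0 (Prod.ext h4.symm h5.symm)
    have h8 : ((1, 0, 0) : ℚ × (Fin t → ℚ) × (Fin m → ℚ)) = 0 := Φ.map_eq_zero_iff.1 h7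
    exact one_ne_zero (congrArg Prod.fst h8)
  have h9 : (Φ (1, 0, 0)).1 = 1 := mul_right_cancel₀ h6 (by rw [h3, one_mul])
  exact Prod.ext h9 (Prod.ext h4.symm h5.symm)

lemma map_Y (hnd : ND M') (y : Fin m → ℚ) : (Φ (0, 0, y)).2.1 = 0 := by
  have key : ∀ w : Fin t' → ℚ, emul M' v' (Φ (0, 0, y)) (0, w, 0) = 0 ∧
      emul M' v' (0, w, 0) (Φ (0, 0, y)) = 0 := by
    intro w
    have h0 : (Φ.symm (0, w, 0)).1 = 0 := map_N Φ.symm (symm_mul Φ hΦ) w 0
    have h1 : Φ.symm (0, w, 0) = (0, (Φ.symm (0, w, 0)).2.1, (Φ.symm (0, w, 0)).2.2) :=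
      Prod.ext h0 rfl
    have h2 : Φ (0, (Φ.symm (0, w, 0)).2.1, (Φ.symm (0, w, 0)).2.2) = (0, w, 0) := by
      rw [← h1, Φ.apply_symm_apply]
    constructor
    · rw [← h2, ← hΦ]
      have : emul M v (0, 0, y) (0, (Φ.symm (0, w, 0)).2.1, (Φ.symm (0, w, 0)).2.2) = 0 := by
        simp only [emul, zero_mul, zero_dotProduct, add_zero]
        rfl
      rw [this, map_zero]
    · rw [← h2, ← hΦ]
      have : emul M v (0, (Φ.symm (0, w, 0)).2.1, (Φ.symm (0, w, 0)).2.2) (0, 0, y) = 0 := by
        simp only [emul, zero_mul, Matrix.mulVec_zero, dotProduct_zero, add_zero]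
        rfl
      rw [this, map_zero]
  have h0 : (Φ (0, 0, y)).1 = 0 := map_N Φ hΦ 0 y
  apply hnd
  intro k
  constructor
  · funext j
    have h1 := congrFun (congrArg (fun z => z.2.2) (key (Pi.single j 1)).1) k
    simp only [emul, h0, zero_mul, zero_add] at h1
    rw [Matrix.dotProduct_mulVec, dotProduct_single, mul_one] at h1
    exact h1
  · funext j
    have h1 := congrFun (congrArg (fun z => z.2.2) (key (Pi.single j 1)).2) k
    simp only [emul, zero_mul, zero_add] at h1
    rw [single_dotProduct, one_mul] at h1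
    exact h1

lemma gam_spec (w : Fin t → ℚ) : Φ (0, w, 0) = (0, gam Φ w, (Φ (0, w, 0)).2.2) :=
  Prod.ext (map_N Φ hΦ w 0) rfl

lemma eta_spec (hnd : ND M') (y : Fin m → ℚ) : Φ (0, 0, y) = (0, 0, (Φ (0, 0, y)).2.2) :=
  Prod.ext (map_N Φ hΦ 0 y) (Prod.ext (map_Y Φ hΦ hnd y) rfl)

lemma gam_symm (hnd : ND M) (w : Fin t → ℚ) : gam Φ.symm (gam Φ w) = w := by
  have h1 : ((0, gam Φ w, 0) : ℚ × (Fin t' → ℚ) × (Fin m → ℚ)) =
      Φ (0, w, 0) - (0, 0, (Φ (0, w, 0)).2.2) := by
    conv_rhs => rw [gam_spec Φ hΦ w]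
    simp
  have h2 : gam Φ.symm (gam Φ w) = (Φ.symm (0, gam Φ w, 0)).2.1 := rfl
  rw [h2, h1, map_sub, Φ.symm_apply_apply]
  have h3 := map_Y Φ.symm (symm_mul Φ hΦ) hnd (Φ (0, w, 0)).2.2
  rw [Prod.snd_sub, Prod.fst_sub, h3, sub_zero]

lemma eta_sum (y : Fin m → ℚ) (k' : Fin m) :
    (Φ (0, 0, y)).2.2 k' = ∑ k, (Φ (0, 0, Pi.single k 1)).2.2 k' * y k := by
  let f : (Fin m → ℚ) →ₗ[ℚ] ℚ :=
    { toFun := fun y => (Φ (0, 0, y)).2.2 k'
      map_add' := fun x y => by
        have : ((0, 0, x + y) : ℚ × (Fin t → ℚ) × (Fin m → ℚ)) = (0, 0, x) + (0, 0, y) := by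
          simp
        rw [this, map_add]
        rfl
      map_smul' := fun c x => by
        have : ((0, 0, c • x) : ℚ × (Fin t → ℚ) × (Fin m → ℚ)) = c • (0, 0, x) := by
          simp
        rw [this, map_smul]
        rfl }
  have hy : y = ∑ k, y k • (Pi.single k 1 : Fin m → ℚ) := by
    ext j; simp [Finset.sum_apply, Pi.single_apply]
  change f y = ∑ k, f (Pi.single k 1) * y k
  conv_lhs => rw [hy]
  simp only [map_sum, map_smul, smul_eq_mul]
  exact Finset.sum_congr rfl fun k _ => mul_comm _ _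

/-- relations are carried to relations -/
lemma rel_back (hnd : ND M') (N : Matrix (Fin t') (Fin t') ℚ) (u : Fin t' → ℚ)
    (h : (N, u) ∈ Submodule.span ℚ (Set.range fun k => (M' k, v' k))) :
    ((LinearMap.toMatrix' (gam Φ)).transpose * N * LinearMap.toMatrix' (gam Φ),
      (LinearMap.toMatrix' (gam Φ)).transpose.mulVec u) ∈
      Submodule.span ℚ (Set.range fun k => (M k, v k)) := by
  set Γ := LinearMap.toMatrix' (gam Φ) with hΓ
  have hΓv : ∀ w, gam Φ w = Γ.mulVec w := fun w => by rw [hΓ, LinearMap.toMatrix'_mulVec]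
  let T : Matrix (Fin t') (Fin t') ℚ × (Fin t' → ℚ) →ₗ[ℚ]
      Matrix (Fin t) (Fin t) ℚ × (Fin t → ℚ) :=
    { toFun := fun z => (Γ.transpose * z.1 * Γ, Γ.transpose.mulVec z.2)
      map_add' := fun x y => by
        simp [Matrix.mul_add, Matrix.add_mul, Matrix.mulVec_add]
      map_smul' := fun c x => by
        simp [Matrix.mulVec_smul] }
  have hT : Submodule.span ℚ (Set.range fun k => (M' k, v' k)) ≤
      (Submodule.span ℚ (Set.range fun k => (M k, v k))).comap T := by
    rw [Submodule.span_le]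
    rintro _ ⟨k', rfl⟩
    rw [SetLike.mem_coe, Submodule.mem_comap]
    have h1 : T (M' k', v' k') = ∑ k, (Φ (0, 0, Pi.single k 1)).2.2 k' • (M k, v k) := by
      apply Prod.ext
      · rw [Prod.fst_sum]
        ext i j
        change (Γ.transpose * M' k' * Γ) i j = _
        have h2 := hΦ (0, Pi.single i 1, 0) (0, Pi.single j 1, 0)
        rw [gam_spec Φ hΦ (Pi.single i 1), gam_spec Φ hΦ (Pi.single j 1)] at h2
        have h3 := congrFun (congrArg (fun z => z.2.2) h2) k'
        simp only [emul, zero_mul, zero_add] at h3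
        rw [eta_sum Φ hΦ, hΓv, hΓv] at h3
        rw [Matrix.sum_apply]
        have h4 : (Γ.transpose * M' k' * Γ) i j =
            dotProduct (Γ.mulVec (Pi.single i 1)) ((M' k').mulVec (Γ.mulVec (Pi.single j 1))) := by
          rw [Matrix.mulVec_mulVec, Matrix.dotProduct_mulVec, ← Matrix.dotProduct_mulVec,
            Matrix.mulVec_single_one, Matrix.mulVec_single_one, Matrix.mul_assoc, Matrix.mul_apply]
          rfl
        rw [h4, ← h3]
        refine Finset.sum_congr rfl fun k _ => ?_
        rw [Prod.smul_fst, Matrix.smul_apply, smul_eq_mul, single_dotProduct, one_mul,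
          Matrix.mulVec_single_one]
        rfl
      · rw [Prod.snd_sum]
        ext j
        change (Γ.transpose.mulVec (v' k')) j = _
        have h2 := hΦ (1, 0, 0) (0, Pi.single j 1, 0)
        rw [gam_spec Φ hΦ (Pi.single j 1), map_e Φ hΦ] at h2
        have h3 := congrFun (congrArg (fun z => z.2.2) h2) k'
        simp only [emul, mul_zero, one_mul, zero_dotProduct, add_zero] at h3
        rw [eta_sum Φ hΦ, hΓv] at h3
        rw [Finset.sum_apply]
        have h4 : (Γ.transpose.mulVec (v' k')) j =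
            dotProduct (v' k') (Γ.mulVec (Pi.single j 1)) := by
          rw [Matrix.mulVec_single_one, dotProduct_comm]
          rfl
        rw [h4, ← h3]
        refine Finset.sum_congr rfl fun k _ => ?_
        rw [Prod.smul_snd, Pi.smul_apply, smul_eq_mul, dotProduct_single, mul_one]
    rw [h1]
    exact Submodule.sum_mem _ fun k _ => Submodule.smul_mem _ _ (Submodule.subset_span ⟨k, rfl⟩)
  exact hT h

end

theorem emul_iso_iff {t t' m : ℕ} {M : Fin m → Matrix (Fin t) (Fin t) ℚ} {v : Fin m → Fin t → ℚ}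
    {M' : Fin m → Matrix (Fin t') (Fin t') ℚ} {v' : Fin m → Fin t' → ℚ}
    (hnd : ND M) (hnd' : ND M') :
    (∃ Φ : (ℚ × (Fin t → ℚ) × (Fin m → ℚ)) ≃ₗ[ℚ] (ℚ × (Fin t' → ℚ) × (Fin m → ℚ)),
      ∀ x y, Φ (emul M v x y) = emul M' v' (Φ x) (Φ y)) ↔
    ∃ (g : Matrix (Fin t') (Fin t) ℚ) (g' : Matrix (Fin t) (Fin t') ℚ),
      g * g' = 1 ∧ g' * g = 1 ∧ ∀ N u,
        (N, u) ∈ Submodule.span ℚ (Set.range fun k => (M k, v k)) ↔
        (g * N * g.transpose, g.mulVec u) ∈ Submodule.span ℚ (Set.range fun k => (M' k, v' k)) := by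
  constructor
  · rintro ⟨Φ, hΦ⟩
    have h1 : LinearMap.toMatrix' (gam Φ.symm) * LinearMap.toMatrix' (gam Φ) = 1 := by
      rw [← LinearMap.toMatrix'_comp, ← LinearMap.toMatrix'_id]
      congr 1
      apply LinearMap.ext
      intro w
      exact gam_symm Φ hΦ hnd w
    have h2 : LinearMap.toMatrix' (gam Φ) * LinearMap.toMatrix' (gam Φ.symm) = 1 := by
      rw [← LinearMap.toMatrix'_comp, ← LinearMap.toMatrix'_id]
      congr 1
      apply LinearMap.ext
      intro w
      exact gam_symm Φ.symm (symm_mul Φ hΦ) hnd' w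
    refine ⟨(LinearMap.toMatrix' (gam Φ.symm)).transpose,
      (LinearMap.toMatrix' (gam Φ)).transpose, ?_, ?_, ?_⟩
    · rw [← Matrix.transpose_mul, h2, Matrix.transpose_one]
    · rw [← Matrix.transpose_mul, h1, Matrix.transpose_one]
    · intro N u
      rw [Matrix.transpose_transpose]
      constructor
      · intro h
        exact rel_back Φ.symm (symm_mul Φ hΦ) hnd N u h
      · intro h
        have h3 := rel_back Φ hΦ hnd' _ _ h
        have h4 : (LinearMap.toMatrix' (gam Φ)).transpose *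
            (LinearMap.toMatrix' (gam Φ.symm)).transpose = 1 := by
          rw [← Matrix.transpose_mul, h1, Matrix.transpose_one]
        have h5 : (LinearMap.toMatrix' (gam Φ)).transpose *
            ((LinearMap.toMatrix' (gam Φ.symm)).transpose * N *
              LinearMap.toMatrix' (gam Φ.symm)) * LinearMap.toMatrix' (gam Φ) = N := by
          rw [Matrix.mul_assoc, Matrix.mul_assoc, Matrix.mul_assoc, h1, Matrix.mul_one,
            ← Matrix.mul_assoc, h4, Matrix.one_mul]
        rw [h5, Matrix.mulVec_mulVec, h4, Matrix.one_mulVec] at h3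
        exact h3
  · rintro ⟨g, g', h1, h2, h3⟩
    let T : Matrix (Fin t) (Fin t) ℚ × (Fin t → ℚ) →ₗ[ℚ]
        Matrix (Fin t') (Fin t') ℚ × (Fin t' → ℚ) :=
      { toFun := fun z => (g * z.1 * g.transpose, g.mulVec z.2)
        map_add' := fun x y => by
          simp [Matrix.mul_add, Matrix.add_mul, Matrix.mulVec_add]
        map_smul' := fun c x => by
          simp [Matrix.mulVec_smul] }
    let P := Fintype.linearCombination ℚ fun k => T (M k, v k)
    let Q := Fintype.linearCombination ℚ fun k => (M' k, v' k)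
    have hPQ : LinearMap.range P = LinearMap.range Q := by
      rw [Fintype.range_linearCombination, Fintype.range_linearCombination]
      apply le_antisymm
      · rw [Submodule.span_le]
        rintro _ ⟨k, rfl⟩
        exact (h3 _ _).1 (Submodule.subset_span ⟨k, rfl⟩)
      · rw [Submodule.span_le]
        rintro _ ⟨k, rfl⟩
        have h4 : T (g' * M' k * g'.transpose, g'.mulVec (v' k)) = (M' k, v' k) := by
          apply Prod.ext
          · change g * (g' * M' k * g'.transpose) * g.transpose = M' k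
            rw [Matrix.mul_assoc, Matrix.mul_assoc, ← Matrix.transpose_mul, h1,
              Matrix.transpose_one, Matrix.mul_one, ← Matrix.mul_assoc, h1, Matrix.one_mul]
          · change g.mulVec (g'.mulVec (v' k)) = v' k
            rw [Matrix.mulVec_mulVec, h1, Matrix.one_mulVec]
        have h5 : (g' * M' k * g'.transpose, g'.mulVec (v' k)) ∈
            Submodule.span ℚ (Set.range fun k => (M k, v k)) := by
          rw [h3]
          have h6 : (g * (g' * M' k * g'.transpose) * g.transpose, g.mulVec (g'.mulVec (v' k))) =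
            (M' k, v' k) := h4
          rw [h6]
          exact Submodule.subset_span ⟨k, rfl⟩
        change (M' k, v' k) ∈ Submodule.span ℚ (Set.range fun k => T (M k, v k))
        rw [← h4]
        have h7 : Submodule.span ℚ (Set.range fun k => (M k, v k)) ≤
            (Submodule.span ℚ (Set.range fun k => T (M k, v k))).comap T := by
          rw [Submodule.span_le]
          rintro _ ⟨k, rfl⟩
          exact Submodule.subset_span ⟨k, rfl⟩
        exact h7 h5
    obtain ⟨ζ, hζ⟩ := exists_auto P Q hPQ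
    let Z := LinearMap.toMatrix' ζ.toLinearMap
    let Z' := LinearMap.toMatrix' ζ.symm.toLinearMap
    have hZ1 : Z * Z' = 1 := by
      rw [← LinearMap.toMatrix'_comp, ← LinearMap.toMatrix'_id]
      congr 1
      apply LinearMap.ext
      intro w
      exact ζ.apply_symm_apply w
    have hZ2 : Z' * Z = 1 := by
      rw [← LinearMap.toMatrix'_comp, ← LinearMap.toMatrix'_id]
      congr 1
      apply LinearMap.ext
      intro w
      exact ζ.symm_apply_apply w
    have hrel : ∀ k', (M' k', v' k') = ∑ k, Z k k' • T (M k, v k) := by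
      intro k'
      have h4 := hζ (Pi.single k' 1)
      have h5 : Q (Pi.single k' 1) = (M' k', v' k') := by
        change Fintype.linearCombination ℚ (fun k => (M' k, v' k)) (Pi.single k' 1) = _
        rw [Fintype.linearCombination_apply_single, one_smul]
      rw [h5] at h4
      rw [← h4]
      change Fintype.linearCombination ℚ (fun k => T (M k, v k)) _ = _
      rw [Fintype.linearCombination_apply]
      refine Finset.sum_congr rfl fun k _ => ?_
      have hZk : Z k k' = ζ (Pi.single k' 1) k := by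
        change LinearMap.toMatrix' ζ.toLinearMap k k' = _
        rw [LinearMap.toMatrix'_apply]
        congr 2
      rw [hZk]
    have hM' : ∀ k', M' k' = ∑ k, Z k k' • (g * M k * g.transpose) := by
      intro k'
      have := congrArg Prod.fst (hrel k')
      rw [Prod.fst_sum] at this
      exact this
    have hv' : ∀ k', v' k' = ∑ k, Z k k' • (g.mulVec (v k)) := by
      intro k'
      have := congrArg Prod.snd (hrel k')
      rw [Prod.snd_sum] at this
      exact this
    have hgg : ∀ a b : Fin t → ℚ, dotProduct (g'.transpose.mulVec a) (g.mulVec b) =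
        dotProduct a b := by
      intro a b
      rw [Matrix.dotProduct_mulVec, ← Matrix.mulVec_transpose, Matrix.mulVec_mulVec,
        ← Matrix.transpose_mul, h2, Matrix.transpose_one, Matrix.one_mulVec]
    refine ⟨{ toFun := fun x => (x.1, g'.transpose.mulVec x.2.1, Z.transpose.mulVec x.2.2)
              invFun := fun x => (x.1, g.transpose.mulVec x.2.1, Z'.transpose.mulVec x.2.2)
              map_add' := fun x y => by simp [Matrix.mulVec_add]
              map_smul' := fun c x => by simp [Matrix.mulVec_smul]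
              left_inv := fun x => ?_
              right_inv := fun x => ?_ }, ?_⟩
    · simp only [Matrix.mulVec_mulVec, ← Matrix.transpose_mul, h2, hZ1, Matrix.transpose_one,
        Matrix.one_mulVec]
    · simp only [Matrix.mulVec_mulVec, ← Matrix.transpose_mul, h1, hZ2, Matrix.transpose_one,
        Matrix.one_mulVec]
    · intro x y
      change (x.1 * y.1, g'.transpose.mulVec 0, Z.transpose.mulVec (fun k =>
          x.1 * dotProduct (v k) y.2.1 + dotProduct x.2.1 ((M k).mulVec y.2.1))) =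
        (x.1 * y.1, 0, fun k' => x.1 * dotProduct (v' k') (g'.transpose.mulVec y.2.1) +
          dotProduct (g'.transpose.mulVec x.2.1) ((M' k').mulVec (g'.transpose.mulVec y.2.1)))
      rw [Matrix.mulVec_zero]
      refine Prod.ext rfl (Prod.ext rfl ?_)
      funext k'
      change ∑ k, Z k k' * (x.1 * dotProduct (v k) y.2.1 +
        dotProduct x.2.1 ((M k).mulVec y.2.1)) =
        x.1 * dotProduct (v' k') (g'.transpose.mulVec y.2.1) +
          dotProduct (g'.transpose.mulVec x.2.1) ((M' k').mulVec (g'.transpose.mulVec y.2.1))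
      have e1 : dotProduct (v' k') (g'.transpose.mulVec y.2.1) =
          ∑ k, Z k k' * dotProduct (v k) y.2.1 := by
        rw [hv', sum_dotProduct]
        refine Finset.sum_congr rfl fun k _ => ?_
        rw [smul_dotProduct, smul_eq_mul, dotProduct_comm, hgg, dotProduct_comm]
      have e2 : dotProduct (g'.transpose.mulVec x.2.1)
          ((M' k').mulVec (g'.transpose.mulVec y.2.1)) =
          ∑ k, Z k k' * dotProduct x.2.1 ((M k).mulVec y.2.1) := by
        rw [hM', Matrix.sum_mulVec, dotProduct_sum]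
        refine Finset.sum_congr rfl fun k _ => ?_
        rw [Matrix.smul_mulVec, dotProduct_smul, smul_eq_mul]
        congr 1
        have e3 : (g * M k * g.transpose).mulVec (g'.transpose.mulVec y.2.1) =
            g.mulVec ((M k).mulVec y.2.1) := by
          rw [Matrix.mulVec_mulVec, Matrix.mul_assoc, ← Matrix.transpose_mul, h2,
            Matrix.transpose_one, Matrix.mul_one, Matrix.mulVec_mulVec]
        rw [e3, hgg]
      rw [e1, e2, Finset.mul_sum, ← Finset.sum_add_distrib]
      refine Finset.sum_congr rfl fun k _ => ?_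
      ring

end Pool.Agent.TH477.NA
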