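import Pool.Agent.TH477.NA.Fr
import Pool.Agent.TH477.NA.FD1

/-! Codes of finite-dimensional algebras. -/

set_option autoImplicit false

namespace Pool.Agent.TH477.NA

/-- structure constants `(n, (d, T))` -/
abbrev FCode := ℕ × (ℕ × List (List (List (ℕ × ℕ))))

/-- the entry `(a, b)` of `T` with indices `i, j, k`, which is `(0, 0)` outside of `T` -/
def tent (a : FCode) (i j k : ℕ) : ℕ × ℕ := ((a.2.2.getD i []).getD j []).getD k (0, 0)

/-- the structure constant `(a - b) / (d + 1)` -/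
def sc (a : FCode) (i j k : ℕ) : ℚ :=
  (((tent a i j k).1 : ℚ) - ((tent a i j k).2 : ℚ)) / ((a.2.1 : ℚ) + 1)

/-- multiplication on `ℚⁿ` with these structure constants -/
def fmul (a : FCode) (x y : Fin a.1 → ℚ) : Fin a.1 → ℚ :=
  fun k => ∑ i : Fin a.1, ∑ j : Fin a.1, sc a i j k * (x i * y j)

/-- isomorphism of the algebras with these structure constants -/
def FDIso (a b : FCode) : Prop :=
  ∃ g : (Fin a.1 → ℚ) ≃ₗ[ℚ] (Fin b.1 → ℚ), ∀ x y, g (fmul a x y) = fmul b (g x) (g y)

/-- coefficient -/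
def cfN (R : List ((ℕ × ℕ) × List ℕ)) (w : List ℕ) : ℕ × ℕ :=
  R.foldl (fun acc u => if u.2 = w then (acc.1 + u.1.1, acc.2 + u.1.2) else acc) (0, 0)

lemma cfN_aux (R : List ((ℕ × ℕ) × List ℕ)) (w : List ℕ) : ∀ acc : ℕ × ℕ,
    ((R.foldl (fun acc u => if u.2 = w then (acc.1 + u.1.1, acc.2 + u.1.2) else acc) acc).1 : ℚ) -
      ((R.foldl (fun acc u => if u.2 = w then (acc.1 + u.1.1, acc.2 + u.1.2) else acc) acc).2 : ℚ)
      = ((acc.1 : ℚ) - acc.2) + cf R w := by
  induction R with
  | nil => intro acc; simp [cf]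
  | cons u R ih =>
    intro acc
    rw [List.foldl_cons, ih, cf_cons]
    by_cases h : u.2 = w
    · rw [if_pos h, if_pos h]
      push_cast
      ring
    · rw [if_neg h, if_neg h]
      ring

lemma cfN_spec (R : List ((ℕ × ℕ) × List ℕ)) (w : List ℕ) :
    ((cfN R w).1 : ℚ) - (cfN R w).2 = cf R w := by
  have := cfN_aux R w (0, 0)
  simpa [cfN] using this

lemma cf_eq_zero {t : ℕ} {R : List ((ℕ × ℕ) × List ℕ)} (h : Shape t R) {w : List ℕ}
    (h1 : ∀ i < t, w ≠ [i + 1]) (h2 : ∀ i < t, ∀ j < t, w ≠ [i + 1, j + 1, 0]) : cf R w = 0 := by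
  induction R with
  | nil => simp [cf]
  | cons u R ih =>
    have hR : Shape t R := fun v hv => h v (List.mem_cons_of_mem _ hv)
    rw [cf_cons, ih hR, if_neg, zero_add]
    intro hw
    rcases h u List.mem_cons_self with ⟨i, hi, hu⟩ | ⟨i, hi, j, hj, hu⟩
    · exact h1 i hi (by rw [← hw, hu])
    · exact h2 i hi j hj (by rw [← hw, hu])

/-- entries of the table of the algebra of a core form -/
def ent (c : PCode) (i j k : ℕ) : ℕ × ℕ :=
  if k = 0 then (if i = 0 ∧ j = 0 then (1, 0) else (0, 0))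
  else if k ≤ c.1.1 then (0, 0)
  else cfN (c.2.getD (k - (1 + c.1.1)) []) (if i = 0 then [j] else [i, j, 0])

/-- the algebra of a core form -/
def ecode (c : PCode) (m : ℕ) : FCode :=
  (1 + c.1.1 + m, (0, (List.range (1 + c.1.1 + m)).map fun i =>
    (List.range (1 + c.1.1 + m)).map fun j => (List.range (1 + c.1.1 + m)).map fun k =>
      ent c i j k))

lemma getD_range {β : Type*} (n i : ℕ) (hi : i < n) (f : ℕ → β) (d : β) :
    ((List.range n).map f).getD i d = f i := by
  rw [List.getD_eq_getElem _ _ (by simpa using hi)]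
  simp

lemma sc_ecode (c : PCode) (m : ℕ) {i j k : ℕ} (hi : i < 1 + c.1.1 + m) (hj : j < 1 + c.1.1 + m)
    (hk : k < 1 + c.1.1 + m) :
    sc (ecode c m) i j k = ((ent c i j k).1 : ℚ) - (ent c i j k).2 := by
  have h : tent (ecode c m) i j k = ent c i j k := by
    rw [tent, ecode]
    simp only
    rw [getD_range _ _ hi, getD_range _ _ hj, getD_range _ _ hk]
  rw [sc, h]
  simp [ecode]

/-- coordinates -/
def theta (t m : ℕ) : (Fin (1 + t + m) → ℚ) ≃ₗ[ℚ] ℚ × (Fin t → ℚ) × (Fin m → ℚ) where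
  toFun x := (x (Fin.castAdd m (Fin.castAdd t 0)), fun i => x (Fin.castAdd m (Fin.natAdd 1 i)),
    fun k => x (Fin.natAdd (1 + t) k))
  invFun z := Fin.append (Fin.append (fun _ => z.1) z.2.1) z.2.2
  map_add' _ _ := rfl
  map_smul' _ _ := rfl
  left_inv x := by
    funext i
    change Fin.append (Fin.append (fun _ => x (Fin.castAdd m (Fin.castAdd t 0)))
      (fun i => x (Fin.castAdd m (Fin.natAdd 1 i)))) (fun k => x (Fin.natAdd (1 + t) k)) i = x i
    refine Fin.addCases (fun i => ?_) (fun k => ?_) i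
    · refine Fin.addCases (fun i => ?_) (fun i => ?_) i
      · rw [Fin.append_left, Fin.append_left, Subsingleton.elim i 0]
      · rw [Fin.append_left, Fin.append_right]
    · rw [Fin.append_right]
  right_inv z := by
    refine Prod.ext ?_ (Prod.ext ?_ ?_)
    · simp only [Fin.append_left]
    · funext i
      simp only [Fin.append_left, Fin.append_right]
    · funext i
      simp only [Fin.append_right]

lemma sum3 (t m : ℕ) (f : Fin (1 + t + m) → ℚ) : ∑ i, f i =
    f (Fin.castAdd m (Fin.castAdd t 0)) + ∑ i : Fin t, f (Fin.castAdd m (Fin.natAdd 1 i)) +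
      ∑ k : Fin m, f (Fin.natAdd (1 + t) k) := by
  rw [Fin.sum_univ_add, Fin.sum_univ_add, Fin.sum_univ_one]

/-- entries as rational numbers -/
def entq (c : PCode) (i j k : ℕ) : ℚ := ((ent c i j k).1 : ℚ) - (ent c i j k).2

lemma entq_zero (c : PCode) (i j : ℕ) : entq c i j 0 = if i = 0 ∧ j = 0 then 1 else 0 := by
  rw [entq, ent, if_pos rfl]
  split_ifs <;> simp

lemma entq_mid (c : PCode) (i j : ℕ) {k : ℕ} (h0 : k ≠ 0) (hk : k ≤ c.1.1) :
    entq c i j k = 0 := by
  rw [entq, ent, if_neg h0, if_pos hk]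
  simp

lemma entq_top (c : PCode) (i j k : ℕ) :
    entq c i j (1 + c.1.1 + k) = cf (c.2.getD k []) (if i = 0 then [j] else [i, j, 0]) := by
  rw [entq, ent, if_neg (by omega), if_neg (by omega), cfN_spec]
  congr 2
  omega

lemma theta_mul {c : PCode} (hc : ∀ R ∈ c.2, Shape c.1.1 R) (m : ℕ)
    (x y : Fin (1 + c.1.1 + m) → ℚ) :
    theta c.1.1 m (fmul (ecode c m) x y) =
      emul (fun k : Fin m => quad c.1.1 (c.2.getD k [])) (fun k => line c.1.1 (c.2.getD k []))
        (theta c.1.1 m x) (theta c.1.1 m y) := by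
  have hf : ∀ k : Fin (1 + c.1.1 + m), fmul (ecode c m) x y k =
      ∑ i : Fin (1 + c.1.1 + m), ∑ j : Fin (1 + c.1.1 + m), entq c i j k * (x i * y j) := by
    intro k
    change ∑ i : Fin (1 + c.1.1 + m), ∑ j : Fin (1 + c.1.1 + m),
      sc (ecode c m) i j k * (x i * y j) = _
    refine Finset.sum_congr rfl fun i _ => Finset.sum_congr rfl fun j _ => ?_
    rw [sc_ecode c m i.2 j.2 k.2]
    rfl
  refine Prod.ext ?_ (Prod.ext ?_ ?_)
  · change fmul (ecode c m) x y (Fin.castAdd m (Fin.castAdd c.1.1 0)) =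
      x (Fin.castAdd m (Fin.castAdd c.1.1 0)) * y (Fin.castAdd m (Fin.castAdd c.1.1 0))
    rw [hf]
    have h0 : ((Fin.castAdd m (Fin.castAdd c.1.1 0) : Fin (1 + c.1.1 + m)) : ℕ) = 0 := by simp
    rw [h0, Finset.sum_eq_single (Fin.castAdd m (Fin.castAdd c.1.1 0)),
      Finset.sum_eq_single (Fin.castAdd m (Fin.castAdd c.1.1 0))]
    · rw [h0, entq_zero, if_pos ⟨rfl, rfl⟩, one_mul]
    · intro j _ hj
      rw [entq_zero, if_neg, zero_mul]
      rintro ⟨-, h⟩
      exact hj (Fin.ext (by rw [h, h0]))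
    · simp
    · intro i _ hi
      refine Finset.sum_eq_zero fun j _ => ?_
      rw [entq_zero, if_neg, zero_mul]
      rintro ⟨h, -⟩
      exact hi (Fin.ext (by rw [h, h0]))
    · simp
  · funext l
    change fmul (ecode c m) x y (Fin.castAdd m (Fin.natAdd 1 l)) = 0
    rw [hf]
    refine Finset.sum_eq_zero fun i _ => Finset.sum_eq_zero fun j _ => ?_
    rw [entq_mid, zero_mul]
    · simp
    · simp
      omega
  · funext k
    have hs := shape_getD hc k
    change fmul (ecode c m) x y (Fin.natAdd (1 + c.1.1) k) =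
      x (Fin.castAdd m (Fin.castAdd c.1.1 0)) *
        dotProduct (line c.1.1 (c.2.getD k [])) (fun i => y (Fin.castAdd m (Fin.natAdd 1 i))) +
      dotProduct (fun i => x (Fin.castAdd m (Fin.natAdd 1 i)))
        ((quad c.1.1 (c.2.getD k [])).mulVec (fun i => y (Fin.castAdd m (Fin.natAdd 1 i))))
    rw [hf]
    have hk : ((Fin.natAdd (1 + c.1.1) k : Fin (1 + c.1.1 + m)) : ℕ) = 1 + c.1.1 + k := by simp
    simp only [hk, entq_top]
    rw [sum3]
    have e0 : ∑ j : Fin (1 + c.1.1 + m), cf (c.2.getD k [])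
        (if ((Fin.castAdd m (Fin.castAdd c.1.1 0) : Fin (1 + c.1.1 + m)) : ℕ) = 0 then [(j : ℕ)]
          else [((Fin.castAdd m (Fin.castAdd c.1.1 0) : Fin (1 + c.1.1 + m)) : ℕ), (j : ℕ), 0]) *
          (x (Fin.castAdd m (Fin.castAdd c.1.1 0)) * y j) =
        x (Fin.castAdd m (Fin.castAdd c.1.1 0)) *
        dotProduct (line c.1.1 (c.2.getD k [])) (fun i => y (Fin.castAdd m (Fin.natAdd 1 i))) := by
      rw [sum3, if_pos (by simp), cf_eq_zero hs (by simp) (by simp), zero_mul, zero_add]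
      rw [Finset.sum_eq_zero (s := (Finset.univ : Finset (Fin m))), add_zero, dotProduct,
        Finset.mul_sum]
      · refine Finset.sum_congr rfl fun j _ => ?_
        rw [if_pos (by simp)]
        have : ((Fin.castAdd m (Fin.natAdd 1 j) : Fin (1 + c.1.1 + m)) : ℕ) = (j : ℕ) + 1 := by
          simp [add_comm]
        rw [this]
        change line c.1.1 (c.2.getD k []) j * _ = _
        ring
      · intro j _
        rw [if_pos (by simp), cf_eq_zero hs, zero_mul]
        · intro i hi h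
          simp at h
          omega
        · intro i hi j hj h
          simp at h
    have e1 : ∀ i : Fin c.1.1, ∑ j : Fin (1 + c.1.1 + m), cf (c.2.getD k [])
        (if ((Fin.castAdd m (Fin.natAdd 1 i) : Fin (1 + c.1.1 + m)) : ℕ) = 0 then [(j : ℕ)]
          else [((Fin.castAdd m (Fin.natAdd 1 i) : Fin (1 + c.1.1 + m)) : ℕ), (j : ℕ), 0]) *
          (x (Fin.castAdd m (Fin.natAdd 1 i)) * y j) =
        x (Fin.castAdd m (Fin.natAdd 1 i)) *
        ((quad c.1.1 (c.2.getD k [])).mulVec (fun i => y (Fin.castAdd m (Fin.natAdd 1 i)))) i := by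
      intro i
      have hi1 : ((Fin.castAdd m (Fin.natAdd 1 i) : Fin (1 + c.1.1 + m)) : ℕ) = (i : ℕ) + 1 := by
        simp [add_comm]
      simp only [hi1]
      rw [sum3, if_neg (by omega), cf_eq_zero hs (by simp) (by simp), zero_mul, zero_add]
      rw [Finset.sum_eq_zero (s := (Finset.univ : Finset (Fin m))), add_zero, Matrix.mulVec,
        dotProduct, Finset.mul_sum]
      · refine Finset.sum_congr rfl fun j _ => ?_
        rw [if_neg (by omega)]
        have : ((Fin.castAdd m (Fin.natAdd 1 j) : Fin (1 + c.1.1 + m)) : ℕ) = (j : ℕ) + 1 := by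
          simp [add_comm]
        rw [this]
        change quad c.1.1 (c.2.getD k []) i j * _ = _
        ring
      · intro j _
        rw [if_neg (by omega), cf_eq_zero hs, zero_mul]
        · intro i hi h
          simp at h
        · intro i hi j hj h
          simp at h
          omega
    have e2 : ∀ i : Fin m, ∑ j : Fin (1 + c.1.1 + m), cf (c.2.getD k [])
        (if ((Fin.natAdd (1 + c.1.1) i : Fin (1 + c.1.1 + m)) : ℕ) = 0 then [(j : ℕ)]
          else [((Fin.natAdd (1 + c.1.1) i : Fin (1 + c.1.1 + m)) : ℕ), (j : ℕ), 0]) *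
          (x (Fin.natAdd (1 + c.1.1) i) * y j) = 0 := by
      intro i
      refine Finset.sum_eq_zero fun j _ => ?_
      rw [if_neg (by simp), cf_eq_zero hs, zero_mul]
      · intro i hi h
        simp at h
      · intro i hi j hj h
        simp at h
        omega
    rw [e0, Finset.sum_congr rfl fun i _ => e1 i, Finset.sum_congr rfl fun i _ => e2 i,
      Finset.sum_const_zero, add_zero]
    rfl

end Pool.Agent.TH477.NA
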