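import Pool.Agent.TH477.NA.FD2

/-! Finite-dimensional algebras as finitely presented algebras. -/

set_option autoImplicit false

namespace Pool.Agent.TH477.NA

lemma nd_of_core {c : PCode} (hc : CoreForm c) {m : ℕ} (hm : c.2.length ≤ m) :
    ND (fun k : Fin m => quad c.1.1 (c.2.getD k [])) := by
  intro f hf
  apply hc.2.2
  intro r hr
  obtain ⟨k, hk, rfl⟩ := List.getElem_of_mem hr
  have h1 := hf ⟨k, by omega⟩
  simp only [List.getD_eq_getElem _ _ hk] at h1
  exact h1

lemma span_rel (c : PCode) {m : ℕ} (hm : c.2.length ≤ m) :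
    Submodule.span ℚ (Set.range fun k : Fin m =>
      (quad c.1.1 (c.2.getD k []), line c.1.1 (c.2.getD k []))) = relSpan c := by
  apply le_antisymm
  · rw [Submodule.span_le]
    rintro _ ⟨k, rfl⟩
    by_cases hk : (k : ℕ) < c.2.length
    · refine Submodule.subset_span ⟨c.2[(k : ℕ)], List.getElem_mem hk, ?_⟩
      simp only [List.getD_eq_getElem _ _ hk]
    · simp only [List.getD_eq_default _ _ (not_lt.1 hk), quad_nil, line_nil]
      exact zero_mem _
  · rw [relSpan, Submodule.span_le]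
    rintro _ ⟨r, hr, rfl⟩
    obtain ⟨k, hk, rfl⟩ := List.getElem_of_mem hr
    refine Submodule.subset_span ⟨⟨k, by omega⟩, ?_⟩
    simp only [List.getD_eq_getElem _ _ hk]

theorem fdIso_ecode_iff {c c' : PCode} (hc : CoreForm c) (hc' : CoreForm c') {m : ℕ}
    (hm : c.2.length ≤ m) (hm' : c'.2.length ≤ m) :
    FDIso (ecode c m) (ecode c' m) ↔
      ∃ (g : Matrix (Fin c'.1.1) (Fin c.1.1) ℚ) (g' : Matrix (Fin c.1.1) (Fin c'.1.1) ℚ),
        g * g' = 1 ∧ g' * g = 1 ∧
        ∀ M v, (M, v) ∈ relSpan c ↔ (g * M * g.transpose, g.mulVec v) ∈ relSpan c' := by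
  rw [← span_rel c hm, ← span_rel c' hm', ← emul_iso_iff (nd_of_core hc hm) (nd_of_core hc' hm')]
  constructor
  · rintro ⟨g, hg⟩
    let g0 : (Fin (1 + c.1.1 + m) → ℚ) ≃ₗ[ℚ] (Fin (1 + c'.1.1 + m) → ℚ) := g
    have hg0 : ∀ x y, g0 (fmul (ecode c m) x y) = fmul (ecode c' m) (g0 x) (g0 y) := hg
    refine ⟨(theta c.1.1 m).symm ≪≫ₗ g0 ≪≫ₗ (theta c'.1.1 m), fun x y => ?_⟩
    obtain ⟨x, rfl⟩ := (theta c.1.1 m).surjective x
    obtain ⟨y, rfl⟩ := (theta c.1.1 m).surjective y
    rw [← theta_mul hc.1 m]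
    have h1 : ∀ z, ((theta c.1.1 m).symm ≪≫ₗ g0 ≪≫ₗ (theta c'.1.1 m)) (theta c.1.1 m z) =
        theta c'.1.1 m (g0 z) := fun z => by
      simp only [LinearEquiv.trans_apply, LinearEquiv.symm_apply_apply]
    exact (h1 (fmul (ecode c m) x y)).trans
      ((congrArg (theta c'.1.1 m) (hg0 x y)).trans ((theta_mul hc'.1 m _ _).trans
        (congrArg₂ (emul (fun k : Fin m => quad c'.1.1 (c'.2.getD k []))
          (fun k => line c'.1.1 (c'.2.getD k []))) (h1 x).symm (h1 y).symm)))
  · rintro ⟨Φ, hΦ⟩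
    let g0 : (Fin (1 + c.1.1 + m) → ℚ) ≃ₗ[ℚ] (Fin (1 + c'.1.1 + m) → ℚ) :=
      theta c.1.1 m ≪≫ₗ Φ ≪≫ₗ (theta c'.1.1 m).symm
    have hg0 : ∀ x y, g0 (fmul (ecode c m) x y) = fmul (ecode c' m) (g0 x) (g0 y) := by
      intro x y
      apply (theta c'.1.1 m).injective
      have h1 : ∀ z, theta c'.1.1 m (g0 z) = Φ (theta c.1.1 m z) := fun z => by
        simp only [g0, LinearEquiv.trans_apply, LinearEquiv.apply_symm_apply]
      have h2 := (h1 (fmul (ecode c m) x y)).trans
        ((congrArg Φ (theta_mul hc.1 m x y)).trans (hΦ _ _))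
      exact h2.trans ((congrArg₂ (emul (fun k : Fin m => quad c'.1.1 (c'.2.getD k []))
        (fun k => line c'.1.1 (c'.2.getD k []))) (h1 x).symm (h1 y).symm).trans
        (theta_mul hc'.1 m _ _).symm)
    exact ⟨g0, hg0⟩

/-! ### the algebra of structure constants -/

/-- the algebra with structure constants `a` -/
def FA (a : FCode) : Type := Fin a.1 → ℚ

noncomputable instance (a : FCode) : AddCommGroup (FA a) :=
  inferInstanceAs (AddCommGroup (Fin a.1 → ℚ))
noncomputable instance (a : FCode) : Module ℚ (FA a) :=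
  inferInstanceAs (Module ℚ (Fin a.1 → ℚ))
instance (a : FCode) : Mul (FA a) := ⟨fun x y => fmul a x y⟩

lemma fmul_add_left (a : FCode) (x x' y : Fin a.1 → ℚ) :
    fmul a (x + x') y = fmul a x y + fmul a x' y := by
  funext k
  simp only [fmul, Pi.add_apply]
  rw [← Finset.sum_add_distrib]
  refine Finset.sum_congr rfl fun i _ => ?_
  rw [← Finset.sum_add_distrib]
  refine Finset.sum_congr rfl fun j _ => ?_
  ring

lemma fmul_add_right (a : FCode) (x y y' : Fin a.1 → ℚ) :
    fmul a x (y + y') = fmul a x y + fmul a x y' := by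
  funext k
  simp only [fmul, Pi.add_apply]
  rw [← Finset.sum_add_distrib]
  refine Finset.sum_congr rfl fun i _ => ?_
  rw [← Finset.sum_add_distrib]
  refine Finset.sum_congr rfl fun j _ => ?_
  ring

lemma fmul_smul_left (a : FCode) (c : ℚ) (x y : Fin a.1 → ℚ) :
    fmul a (c • x) y = c • fmul a x y := by
  funext k
  simp only [fmul, Pi.smul_apply, smul_eq_mul]
  rw [Finset.mul_sum]
  refine Finset.sum_congr rfl fun i _ => ?_
  rw [Finset.mul_sum]
  refine Finset.sum_congr rfl fun j _ => ?_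
  ring

lemma fmul_smul_right (a : FCode) (c : ℚ) (x y : Fin a.1 → ℚ) :
    fmul a x (c • y) = c • fmul a x y := by
  funext k
  simp only [fmul, Pi.smul_apply, smul_eq_mul]
  rw [Finset.mul_sum]
  refine Finset.sum_congr rfl fun i _ => ?_
  rw [Finset.mul_sum]
  refine Finset.sum_congr rfl fun j _ => ?_
  ring

noncomputable instance (a : FCode) : NonUnitalNonAssocRing (FA a) where
  left_distrib x y z := fmul_add_right a x y z
  right_distrib x y z := fmul_add_left a x y z
  zero_mul x := by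
    have := fmul_smul_left a 0 0 x
    rw [zero_smul, zero_smul] at this
    exact this
  mul_zero x := by
    have := fmul_smul_right a 0 x 0
    rw [zero_smul, zero_smul] at this
    exact this

instance (a : FCode) : IsScalarTower ℚ (FA a) (FA a) where
  smul_assoc c x y := fmul_smul_left a c x y

instance (a : FCode) : SMulCommClass ℚ (FA a) (FA a) where
  smul_comm c x y := (fmul_smul_right a c x y).symm

lemma fmul_single (a : FCode) (i j k : Fin a.1) :
    fmul a (Pi.single i 1) (Pi.single j 1) k = sc a i j k := by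
  rw [fmul, Finset.sum_eq_single i, Finset.sum_eq_single j]
  · simp
  · intro b _ hb
    simp [hb]
  · simp
  · intro b _ hb
    simp [hb]
  · simp

/-- relation `e_i e_j = ∑ c_ijk e_k` -/
def frel (a : FCode) (i j : ℕ) : List ((ℕ × ℕ) × List ℕ) :=
  ((a.2.1 + 1, 0), [i + 1, j + 1, 0]) ::
    (List.range a.1).map fun k => (((tent a i j k).2, (tent a i j k).1), [k + 1])

/-- presentation of the algebra with structure constants `a` -/
def fpres (a : FCode) : Pres :=
  (a.1, (List.range a.1).flatMap fun i => (List.range a.1).map fun j => frel a i j)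

lemma range_sum {M : Type*} [AddCommMonoid M] (n : ℕ) (f : ℕ → M) :
    ((List.range n).map f).sum = ∑ k : Fin n, f k := by
  induction n with
  | zero => simp
  | succ n ih =>
    rw [List.range_succ, List.map_append, List.sum_append, ih, Fin.sum_univ_castSucc]
    simp

lemma val_frel (a : FCode) (i j : Fin a.1) :
    val a.1 (toPo (frel a i j)) = ((a.2.1 : ℚ) + 1) •
      (mb ℚ (Fin a.1) (FreeMagma.of i) * mb ℚ (Fin a.1) (FreeMagma.of j) -
        ∑ k : Fin a.1, sc a i j k • mb ℚ (Fin a.1) (FreeMagma.of k)) := by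
  have h1 : toPo (frel a i j) = (((a.2.1 + 1, 0), 0), [(i : ℕ) + 1, (j : ℕ) + 1, 0]) ::
      (List.range a.1).map fun k =>
        ((((tent a i j k).2, (tent a i j k).1), 0), [k + 1]) := by
    simp [toPo, frel]
  have h2 : mon a.1 [(i : ℕ) + 1, (j : ℕ) + 1, 0] =
      mb ℚ (Fin a.1) (FreeMagma.of i) * mb ℚ (Fin a.1) (FreeMagma.of j) := by
    rw [mb_mul, ← mon_enc]
    rfl
  have h3 : ∀ k : Fin a.1, mon a.1 [(k : ℕ) + 1] = mb ℚ (Fin a.1) (FreeMagma.of k) := by
    intro k
    rw [← mon_enc]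
    rfl
  rw [h1, val_cons, val, List.map_map, range_sum, smul_sub, Finset.smul_sum, h2, sub_eq_add_neg,
    ← Finset.sum_neg_distrib]
  have hd : ((a.2.1 : ℚ) + 1) ≠ 0 := by positivity
  congr 1
  · simp [cv]
  · refine Finset.sum_congr rfl fun k _ => ?_
    rw [Function.comp_apply]
    simp only
    rw [h3, smul_smul, ← neg_smul]
    congr 1
    rw [sc, cv]
    field_simp
    simp

lemma mem_rvals (a : FCode) (r : MonoidAlgebra ℚ (FreeMagma (Fin a.1))) :
    r ∈ rvals (fpres a) ↔ ∃ i j : Fin a.1, r = val a.1 (toPo (frel a i j)) := by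
  constructor
  · rintro ⟨R, hR, rfl⟩
    obtain ⟨i, hi, hR⟩ := List.mem_flatMap.1 hR
    obtain ⟨j, hj, rfl⟩ := List.mem_map.1 hR
    exact ⟨⟨i, List.mem_range.1 hi⟩, ⟨j, List.mem_range.1 hj⟩, rfl⟩
  · rintro ⟨i, j, rfl⟩
    exact ⟨frel a i j, List.mem_flatMap.2 ⟨i, List.mem_range.2 i.2,
      List.mem_map.2 ⟨j, List.mem_range.2 j.2, rfl⟩⟩, rfl⟩

lemma exists_fpres_iso_aux (a : FCode) (R : Set (MonoidAlgebra ℚ (FreeMagma (Fin a.1))))
    (hR : ∀ r, r ∈ R ↔ ∃ i j : Fin a.1, r = val a.1 (toPo (frel a i j))) :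
    ∃ u : FA a ≃ₗ[ℚ] QA R, ∀ x y, u (x * y) = u x * u y := by
  let X : Fin a.1 → QA R := fun i => qpr R (mb ℚ (Fin a.1) (FreeMagma.of i))
  have hX : ∀ i j : Fin a.1, X i * X j = ∑ k : Fin a.1, sc a i j k • X k := by
    intro i j
    have h1 : qpr R (val a.1 (toPo (frel a i j))) = 0 :=
      (qpr_eq_zero R).2 (subset_idealOf _ ((hR _).2 ⟨i, j, rfl⟩))
    have hd : ((a.2.1 : ℚ) + 1) ≠ 0 := by positivity
    rw [val_frel, map_smul, smul_eq_zero, or_iff_right hd, map_sub, sub_eq_zero, map_sum] at h1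
    have h2 : X i * X j = qpr R
        (mb ℚ (Fin a.1) (FreeMagma.of i) * mb ℚ (Fin a.1) (FreeMagma.of j)) :=
      (qpr_mul R _ _).symm
    rw [h2, h1]
    refine Finset.sum_congr rfl fun k _ => ?_
    rw [map_smul]
  let u : FA a →ₗ[ℚ] QA R :=
    { toFun := fun x => ∑ i : Fin a.1, (show Fin a.1 → ℚ from x) i • X i
      map_add' := fun x y => by
        rw [← Finset.sum_add_distrib]
        refine Finset.sum_congr rfl fun i _ => ?_
        exact add_smul _ _ _
      map_smul' := fun c x => by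
        rw [Finset.smul_sum]
        refine Finset.sum_congr rfl fun i _ => ?_
        exact mul_smul _ _ _ }
  have hu : ∀ x : Fin a.1 → ℚ, u x = ∑ i : Fin a.1, x i • X i := fun x => rfl
  have humul : ∀ x y : FA a, u (x * y) = u x * u y := by
    intro x y
    have h1 : u (x * y) = ∑ k : Fin a.1, (fmul a x y) k • X k := rfl
    have h2 : u x = ∑ i : Fin a.1, (show Fin a.1 → ℚ from x) i • X i := rfl
    have h3 : u y = ∑ i : Fin a.1, (show Fin a.1 → ℚ from y) i • X i := rfl
    rw [h1, h2, h3, Finset.sum_mul]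
    simp only [Finset.mul_sum, smul_mul_assoc, mul_smul_comm, hX, Finset.smul_sum, smul_smul, fmul,
      Finset.sum_smul]
    rw [Finset.sum_comm]
    refine Finset.sum_congr rfl fun i _ => ?_
    rw [Finset.sum_comm]
    refine Finset.sum_congr rfl fun j _ => ?_
    refine Finset.sum_congr rfl fun k _ => ?_
    congr 1
    ring
  let f : Fin a.1 → FA a := fun i => (Pi.single i 1 : Fin a.1 → ℚ)
  have hf : ∀ i j : Fin a.1, f i * f j = ∑ k : Fin a.1, sc a i j k • f k := by
    intro i j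
    have h1 : (∑ k : Fin a.1, sc a i j k • f k : FA a) =
        (∑ k : Fin a.1, sc a i j k • (Pi.single k 1 : Fin a.1 → ℚ) : Fin a.1 → ℚ) := rfl
    rw [h1]
    change fmul a (Pi.single i 1) (Pi.single j 1) = _
    funext l
    rw [fmul_single, Finset.sum_apply, Finset.sum_eq_single l]
    · simp
    · intro b _ hb
      simp [Ne.symm hb]
    · simp
  obtain ⟨Φ, h1, h2⟩ := exists_lift R f (by
    intro r hr
    obtain ⟨i, j, rfl⟩ := (hR r).1 hr
    rw [val_frel, map_smul, map_sub, map_mul, map_sum]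
    have hl : ∀ k, FreeNonUnitalNonAssocAlgebra.lift ℚ f (mb ℚ (Fin a.1) (FreeMagma.of k)) =
        f k := fun k => by
      rw [mb_apply]
      exact FreeNonUnitalNonAssocAlgebra.lift_of_apply ℚ f k
    rw [hl, hl, hf]
    simp only [map_smul, hl, sub_self, smul_zero])
  have hl : ∀ k, Φ (X k) = f k := fun k => by
    rw [h2, mb_apply]
    exact FreeNonUnitalNonAssocAlgebra.lift_of_apply ℚ f k
  have huf : ∀ k, u (f k) = X k := by
    intro k
    change ∑ i : Fin a.1, (Pi.single k 1 : Fin a.1 → ℚ) i • X i = X k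
    rw [Finset.sum_eq_single k]
    · simp
    · intro b _ hb
      simp [hb]
    · simp
  have hΦu : Φ ∘ₗ u = LinearMap.id := by
    apply LinearMap.ext
    intro x
    have h3 : u x = ∑ i : Fin a.1, (show Fin a.1 → ℚ from x) i • X i := rfl
    rw [LinearMap.comp_apply, h3, map_sum]
    simp only [map_smul, hl]
    have h4 : (∑ i, (show Fin a.1 → ℚ from x) i • f i : FA a) =
        (∑ i, (show Fin a.1 → ℚ from x) i • (Pi.single i 1 : Fin a.1 → ℚ) : Fin a.1 → ℚ) := rfl
    rw [h4]
    change (_ : Fin a.1 → ℚ) = x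
    funext l
    rw [Finset.sum_apply, Finset.sum_eq_single l]
    · simp
    · intro b _ hb
      simp [Ne.symm hb]
    · simp
  have huΦ : u ∘ₗ Φ = LinearMap.id := by
    have h3 : (u ∘ₗ Φ) ∘ₗ qpr R = qpr R := by
      apply free_induct
      · intro x y
        simp only [LinearMap.comp_apply, qpr_mul, h1, humul]
      · intro x y
        exact qpr_mul _ x y
      · intro i
        change u (Φ (X i)) = X i
        rw [hl, huf]
    apply LinearMap.ext
    intro y
    obtain ⟨x, rfl⟩ := qpr_surjective R y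
    exact congrArg (fun g => g x) h3
  exact ⟨LinearEquiv.ofLinearMap u Φ huΦ hΦu, humul⟩

/-- the presented algebra is the algebra of structure constants -/
theorem exists_fpres_iso (a : FCode) :
    ∃ u : FA a ≃ₗ[ℚ] PA (fpres a), ∀ x y, u (x * y) = u x * u y :=
  exists_fpres_iso_aux a (rvals (fpres a)) (mem_rvals a)

/-- isomorphism of structure constants is isomorphism of the presented algebras -/
theorem fdIso_iff_iso (a b : FCode) : FDIso a b ↔ Iso (fpres a) (fpres b) := by
  obtain ⟨u, hu⟩ := exists_fpres_iso a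
  obtain ⟨w, hw⟩ := exists_fpres_iso b
  constructor
  · rintro ⟨g, hg⟩
    let g0 : FA a ≃ₗ[ℚ] FA b := g
    have hg0 : ∀ x y : FA a, g0 (x * y) = g0 x * g0 y := hg
    refine ⟨(u.symm ≪≫ₗ g0) ≪≫ₗ w, fun x y => ?_⟩
    obtain ⟨x, rfl⟩ := u.surjective x
    obtain ⟨y, rfl⟩ := u.surjective y
    rw [← hu]
    simp only [LinearEquiv.trans_apply, LinearEquiv.symm_apply_apply]
    rw [hg0, hw]
  · rintro ⟨e, he⟩
    let g0 : FA a ≃ₗ[ℚ] FA b := (u ≪≫ₗ e) ≪≫ₗ w.symm
    have hg0 : ∀ x y : FA a, g0 (x * y) = g0 x * g0 y := by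
      intro x y
      apply w.injective
      simp only [g0, LinearEquiv.trans_apply, LinearEquiv.apply_symm_apply]
      rw [hu, he, hw, LinearEquiv.apply_symm_apply, LinearEquiv.apply_symm_apply]
    exact ⟨g0, hg0⟩

end Pool.Agent.TH477.NA
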