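import Pool.Agent.TH477.NA.FD3

/-! The isomorphism problem is equivalent to the one for finite-dimensional algebras. -/

set_option autoImplicit false

namespace Pool.Agent.TH477.NA

open Primrec

/-- shortcut instances -/
instance iNN : Primcodable (ℕ × ℕ) := inferInstance
/-- shortcut -/
instance iT1 : Primcodable (List (ℕ × ℕ)) := inferInstance
/-- shortcut -/
instance iT2 : Primcodable (List (List (ℕ × ℕ))) := inferInstance
/-- shortcut -/
instance iT3 : Primcodable (List (List (List (ℕ × ℕ)))) := inferInstance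
/-- shortcut -/
instance iFCode : Primcodable FCode := inferInstance
/-- shortcut -/
instance iFF : Primcodable (FCode × FCode) := inferInstance

lemma pr_cfN : Primrec₂ cfN := by
  have h : Primrec₂ fun (x : List ((ℕ × ℕ) × List ℕ) × List ℕ)
      (q : (ℕ × ℕ) × ((ℕ × ℕ) × List ℕ)) =>
      (if q.2.2 = x.2 then (q.1.1 + q.2.1.1, q.1.2 + q.2.1.2) else q.1) := by
    refine Primrec.ite (Primrec.eq.comp (snd.comp (snd.comp snd)) (snd.comp fst)) ?_
      (fst.comp snd)
    exact (nat_add.comp (fst.comp (fst.comp snd)) (fst.comp (fst.comp (snd.comp snd)))).pair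
      (nat_add.comp (snd.comp (fst.comp snd)) (snd.comp (fst.comp (snd.comp snd))))
  exact (list_foldl fst (const (0, 0)) h).of_eq fun x => rfl

lemma pr_ent : Primrec fun x : PCode × (ℕ × (ℕ × ℕ)) => ent x.1 x.2.1 x.2.2.1 x.2.2.2 := by
  have hi : Primrec fun x : PCode × (ℕ × (ℕ × ℕ)) => x.2.1 := fst.comp snd
  have hj : Primrec fun x : PCode × (ℕ × (ℕ × ℕ)) => x.2.2.1 := fst.comp (snd.comp snd)
  have hk : Primrec fun x : PCode × (ℕ × (ℕ × ℕ)) => x.2.2.2 := snd.comp (snd.comp snd)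
  have ht : Primrec fun x : PCode × (ℕ × (ℕ × ℕ)) => x.1.1.1 := fst.comp (fst.comp fst)
  have hR : Primrec fun x : PCode × (ℕ × (ℕ × ℕ)) => x.1.2 := snd.comp fst
  have hw : Primrec fun x : PCode × (ℕ × (ℕ × ℕ)) =>
      (if x.2.1 = 0 then [x.2.2.1] else [x.2.1, x.2.2.1, 0]) :=
    Primrec.ite (Primrec.eq.comp hi (const 0)) (list_cons.comp hj (const []))
      (list_cons.comp hi (list_cons.comp hj (const [0])))
  have h1 : Primrec fun x : PCode × (ℕ × (ℕ × ℕ)) =>
      (if x.2.2.2 = 0 then (if x.2.1 = 0 ∧ x.2.2.1 = 0 then ((1, 0) : ℕ × ℕ) else (0, 0))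
      else if x.2.2.2 ≤ x.1.1.1 then (0, 0)
      else cfN (x.1.2.getD (x.2.2.2 - (1 + x.1.1.1)) [])
        (if x.2.1 = 0 then [x.2.2.1] else [x.2.1, x.2.2.1, 0])) := by
    refine Primrec.ite (Primrec.eq.comp hk (const 0)) ?_ ?_
    · exact Primrec.ite (PrimrecPred.and (Primrec.eq.comp hi (const 0))
        (Primrec.eq.comp hj (const 0))) (const (1, 0)) (const (0, 0))
    · refine Primrec.ite (nat_le.comp hk ht) (const (0, 0)) ?_
      exact pr_cfN.comp ((list_getD ([] : List ((ℕ × ℕ) × List ℕ))).comp hR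
        (nat_sub.comp hk (nat_add.comp (const 1) ht))) hw
  exact h1.of_eq fun x => rfl

/-- a row of the table -/
def erow (x : (PCode × ℕ) × (ℕ × ℕ)) : List (ℕ × ℕ) :=
  (List.range x.1.2).map fun k => ent x.1.1 x.2.1 x.2.2 k

lemma pr_erow : Primrec erow := by
  have hg : Primrec fun y : ((PCode × ℕ) × (ℕ × ℕ)) × ℕ =>
      ((y.1.1.1, (y.1.2.1, (y.1.2.2, y.2))) : PCode × (ℕ × (ℕ × ℕ))) :=
    (fst.comp (fst.comp fst)).pair ((fst.comp (snd.comp fst)).pair
      ((snd.comp (snd.comp fst)).pair snd))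
  have h : Primrec₂ fun (x : (PCode × ℕ) × (ℕ × ℕ)) (k : ℕ) => ent x.1.1 x.2.1 x.2.2 k := by
    have h0 := pr_ent.comp hg
    exact h0
  exact list_map (list_range.comp (snd.comp fst)) h

/-- a matrix of the table -/
def emat (x : (PCode × ℕ) × ℕ) : List (List (ℕ × ℕ)) :=
  (List.range x.1.2).map fun j => erow (x.1, (x.2, j))

lemma pr_emat : Primrec emat := by
  have hg : Primrec fun y : ((PCode × ℕ) × ℕ) × ℕ =>
      ((y.1.1, (y.1.2, y.2)) : (PCode × ℕ) × (ℕ × ℕ)) :=
    (fst.comp fst).pair ((snd.comp fst).pair snd)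
  have h : Primrec₂ fun (x : (PCode × ℕ) × ℕ) (j : ℕ) => erow (x.1, (x.2, j)) :=
    pr_erow.comp hg
  exact list_map (list_range.comp (snd.comp fst)) h

/-- the table -/
def eten (x : PCode × ℕ) : List (List (List (ℕ × ℕ))) :=
  (List.range x.2).map fun i => emat (x, i)

lemma pr_eten : Primrec eten := by
  have h : Primrec₂ fun (x : PCode × ℕ) (i : ℕ) => emat (x, i) := pr_emat.comp Primrec.id
  exact list_map (list_range.comp snd) h

lemma ecode_eq (c : PCode) (m : ℕ) :
    ecode c m = (1 + c.1.1 + m, (0, eten (c, 1 + c.1.1 + m))) := rfl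

lemma pr_ecode : Primrec fun x : PCode × ℕ => ecode x.1 x.2 := by
  have hn : Primrec fun x : PCode × ℕ => 1 + x.1.1.1 + x.2 :=
    nat_add.comp (nat_add.comp (const 1) (fst.comp (fst.comp fst))) snd
  have h1 : Primrec fun x : PCode × ℕ => eten (x.1, 1 + x.1.1.1 + x.2) :=
    pr_eten.comp (fst.pair hn)
  have h2 : Primrec fun x : PCode × ℕ =>
      ((0, eten (x.1, 1 + x.1.1.1 + x.2)) : ℕ × List (List (List (ℕ × ℕ)))) :=
    (const 0).pair h1
  exact hn.pair h2

lemma pr_tent1 : Primrec fun x : FCode × (ℕ × (ℕ × ℕ)) => x.1.2.2.getD x.2.1 [] := by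
  have h1 : Primrec fun x : FCode × (ℕ × (ℕ × ℕ)) => x.1.2.2 := snd.comp (snd.comp fst)
  have h2 : Primrec fun x : FCode × (ℕ × (ℕ × ℕ)) => x.2.1 := fst.comp snd
  exact (list_getD ([] : List (List (ℕ × ℕ)))).comp h1 h2

lemma pr_tent2 : Primrec fun x : FCode × (ℕ × (ℕ × ℕ)) =>
    (x.1.2.2.getD x.2.1 []).getD x.2.2.1 [] := by
  have h2 : Primrec fun x : FCode × (ℕ × (ℕ × ℕ)) => x.2.2.1 := fst.comp (snd.comp snd)
  exact (list_getD ([] : List (ℕ × ℕ))).comp pr_tent1 h2

lemma pr_tent : Primrec fun x : FCode × (ℕ × (ℕ × ℕ)) => tent x.1 x.2.1 x.2.2.1 x.2.2.2 := by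
  have h2 : Primrec fun x : FCode × (ℕ × (ℕ × ℕ)) => x.2.2.2 := snd.comp (snd.comp snd)
  exact (list_getD ((0, 0) : ℕ × ℕ)).comp pr_tent2 h2

lemma pr_frel : Primrec fun x : FCode × (ℕ × ℕ) => frel x.1 x.2.1 x.2.2 := by
  have hg : Primrec fun y : (FCode × (ℕ × ℕ)) × ℕ =>
      ((y.1.1, (y.1.2.1, (y.1.2.2, y.2))) : FCode × (ℕ × (ℕ × ℕ))) :=
    (fst.comp fst).pair ((fst.comp (snd.comp fst)).pair ((snd.comp (snd.comp fst)).pair snd))
  have ht : Primrec fun y : (FCode × (ℕ × ℕ)) × ℕ => tent y.1.1 y.1.2.1 y.1.2.2 y.2 := by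
    have h0 := pr_tent.comp hg
    exact h0
  have hw : Primrec fun y : (FCode × (ℕ × ℕ)) × ℕ => [y.2 + 1] :=
    list_cons.comp (succ.comp snd) (const [])
  have h1 : Primrec₂ fun (x : FCode × (ℕ × ℕ)) (k : ℕ) =>
      ((((tent x.1 x.2.1 x.2.2 k).2, (tent x.1 x.2.1 x.2.2 k).1), [k + 1]) :
        (ℕ × ℕ) × List ℕ) :=
    ((snd.comp ht).pair (fst.comp ht)).pair hw
  have hd : Primrec fun x : FCode × (ℕ × ℕ) => ((x.1.2.1 + 1, 0) : ℕ × ℕ) :=
    (succ.comp (fst.comp (snd.comp fst))).pair (const 0)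
  have hw2 : Primrec fun x : FCode × (ℕ × ℕ) => [x.2.1 + 1, x.2.2 + 1, 0] :=
    list_cons.comp (succ.comp (fst.comp snd)) (list_cons.comp (succ.comp (snd.comp snd))
        (const [0]))
  have h2 : Primrec fun x : FCode × (ℕ × ℕ) =>
      (((x.1.2.1 + 1, 0), [x.2.1 + 1, x.2.2 + 1, 0]) : (ℕ × ℕ) × List ℕ) := hd.pair hw2
  have hr : Primrec fun x : FCode × (ℕ × ℕ) => List.range x.1.1 :=
    list_range.comp (fst.comp fst)
  exact list_cons.comp h2 (list_map hr h1)

lemma pr_fpres : Primrec fpres := by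
  have hg : Primrec fun y : (FCode × ℕ) × ℕ => ((y.1.1, (y.1.2, y.2)) : FCode × (ℕ × ℕ)) :=
    (fst.comp fst).pair ((snd.comp fst).pair snd)
  have h2 : Primrec₂ fun (y : FCode × ℕ) (j : ℕ) => frel y.1 y.2 j := by
    have h0 := pr_frel.comp hg
    exact h0
  have h1 : Primrec₂ fun (a : FCode) (i : ℕ) => (List.range a.1).map fun j => frel a i j := by
    have h0 := list_map (list_range.comp ((fst (α := ℕ) (β := ℕ × List (List (List (ℕ × ℕ))))).comp
      (fst (α := FCode) (β := ℕ)))) h2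
    exact h0
  have h3 : Primrec fun a : FCode =>
      (List.range a.1).flatMap fun i => (List.range a.1).map fun j => frel a i j := by
    have h0 := list_flatMap (list_range.comp
      (fst (α := ℕ) (β := ℕ × List (List (List (ℕ × ℕ)))))) h1
    exact h0
  exact (fst.pair h3)

/-- The isomorphism problem for finitely presented algebras is decidable iff the one for
finite-dimensional algebras given by structure constants is. -/
theorem isoProblem_iff_fd :
    IsoProblem ↔ ComputablePred fun ab : FCode × FCode => FDIso ab.1 ab.2 := by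
  rw [isoProblem_iff]
  constructor
  · intro h
    obtain ⟨f, hf, hF⟩ := ComputablePred.computable_iff.1 h
    refine ComputablePred.computable_iff.2 ⟨fun x => f (fpres x.1, fpres x.2), ?_, ?_⟩
    · exact hf.comp ((pr_fpres.comp fst).pair (pr_fpres.comp snd)).to_comp
    · funext x
      have h2 : Iso (fpres x.1) (fpres x.2) = (f (fpres x.1, fpres x.2) = true) :=
        congrFun hF (fpres x.1, fpres x.2)
      rw [← h2]
      exact propext (fdIso_iff_iso x.1 x.2)
  · intro h
    obtain ⟨F, hF, hFF⟩ := ComputablePred.computable_iff.1 h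
    have hFF' : ∀ a b, FDIso a b ↔ F (a, b) = true := fun a b =>
      Iff.of_eq (congrFun hFF (a, b))
    rw [computable_iso_iff]
    refine ⟨fun x => decide (x.1.1.2 = x.2.1.2) && F (ecode x.1 (x.1.2.length + x.2.2.length),
      ecode x.2 (x.1.2.length + x.2.2.length)), ?_, ?_⟩
    · have h1 : Primrec fun x : PCode × PCode => decide (x.1.1.2 = x.2.1.2) :=
        (Primrec.eq.comp (snd.comp (fst.comp fst)) (snd.comp (fst.comp snd))).decide
      have hm : Primrec fun x : PCode × PCode => x.1.2.length + x.2.2.length :=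
        nat_add.comp (list_length.comp (snd.comp fst)) (list_length.comp (snd.comp snd))
      have h3 : Primrec fun x : PCode × PCode => ecode x.1 (x.1.2.length + x.2.2.length) := by
        have h0 := pr_ecode.comp ((fst (α := PCode) (β := PCode)).pair hm)
        exact h0
      have h4 : Primrec fun x : PCode × PCode => ecode x.2 (x.1.2.length + x.2.2.length) := by
        have h0 := pr_ecode.comp ((snd (α := PCode) (β := PCode)).pair hm)
        exact h0
      have h2 : Primrec fun x : PCode × PCode => (ecode x.1 (x.1.2.length + x.2.2.length),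
          ecode x.2 (x.1.2.length + x.2.2.length)) := h3.pair h4
      exact (Primrec.and.to_comp).comp h1.to_comp (hF.comp h2.to_comp)
    · intro c c' hc hc'
      rw [Bool.and_eq_true, decide_eq_true_eq, ← hFF',
        fdIso_ecode_iff hc hc' (Nat.le_add_right _ _) (Nat.le_add_left _ _)]
      rfl

end Pool.Agent.TH477.NA
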