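import Pool.Agent.TH477.NA.Classify

/-! Finitely presented nonassociative algebras have presenting subspaces. -/

set_option autoImplicit false

open TensorProduct

namespace Pool.Agent.TH477.NA

/-- The two-sided ideal of the free nonassociative algebra generated by `R`: the least subspace
containing `R` and stable under left and right multiplication. -/
noncomputable def idealOf {F : Type*} [Field F] {X : Type*} (R : Set (MonoidAlgebra F (FreeMagma X))) :
    Submodule F (MonoidAlgebra F (FreeMagma X)) :=
  sInf {S | R ⊆ S ∧ ∀ a x : MonoidAlgebra F (FreeMagma X), x ∈ S → a * x ∈ S ∧ x * a ∈ S}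

/-- `A` is finitely presented: it is the quotient of the free nonassociative algebra on finitely
many generators by the ideal generated by finitely many elements. -/
def FinPres (F : Type*) [Field F] (A : Type*) [NonUnitalNonAssocRing A] [Module F A] : Prop :=
  ∃ (n : ℕ) (R : Finset (MonoidAlgebra F (FreeMagma (Fin n))))
    (π : MonoidAlgebra F (FreeMagma (Fin n)) →ₗ[F] A),
    Function.Surjective π ∧ (∀ a b, π (a * b) = π a * π b) ∧
      LinearMap.ker π = idealOf (F := F) (X := Fin n) R

section Free

variable {F : Type*} [Field F] {X : Type*}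


/-- the monomial basis -/
noncomputable def mb (F : Type*) [Field F] (X : Type*) :
    Module.Basis (FreeMagma X) F (MonoidAlgebra F (FreeMagma X)) :=
  MonoidAlgebra.basis (FreeMagma X) F

lemma mb_apply (w : FreeMagma X) : mb F X w = MonoidAlgebra.single w 1 :=
  MonoidAlgebra.basis_apply F w

lemma mb_mul (a b : FreeMagma X) : mb F X a * mb F X b = mb F X (a * b) := by
  rw [mb_apply, mb_apply, mb_apply, MonoidAlgebra.single_mul_single, one_mul]

lemma magma_mul_inj {a b c d : FreeMagma X} (h : a * b = c * d) : a = c ∧ b = d := by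
  have : FreeMagma.mul a b = FreeMagma.mul c d := h
  injection this with h1 h2
  exact ⟨h1, h2⟩

lemma coord_mu (t : (MonoidAlgebra F (FreeMagma X)) ⊗[F] (MonoidAlgebra F (FreeMagma X))) (a c : FreeMagma X) :
    (mb F X).repr (mu F (MonoidAlgebra F (FreeMagma X)) t) (a * c) = ((mb F X).tensorProduct (mb F X)).repr t (a, c) := by
  classical
  have : (Finsupp.lapply (a * c)) ∘ₗ ((mb F X).repr.toLinearMap) ∘ₗ (mu F (MonoidAlgebra F (FreeMagma X)))
      = (Finsupp.lapply (a, c)) ∘ₗ ((mb F X).tensorProduct (mb F X)).repr.toLinearMap := by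
    apply ((mb F X).tensorProduct (mb F X)).ext
    rintro ⟨a', c'⟩
    simp only [LinearMap.comp_apply, LinearEquiv.coe_coe, Module.Basis.repr_self,
      Finsupp.lapply_apply]
    rw [Module.Basis.tensorProduct_apply, mu_tmul, mb_mul, Module.Basis.repr_self,
      Finsupp.single_apply, Finsupp.single_apply]
    by_cases h : (a', c') = (a, c)
    · obtain ⟨h1, h2⟩ := Prod.mk.inj h
      rw [if_pos h, if_pos (by rw [h1, h2])]
    · rw [if_neg h, if_neg]
      intro h'
      obtain ⟨h1, h2⟩ := magma_mul_inj h'
      exact h (by rw [h1, h2])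
  exact congrArg (fun f => f t) this

/-- span of the monomials in a finite set -/
noncomputable def PS (F : Type*) [Field F] {X : Type*} (S : Set (FreeMagma X)) :
    Submodule F (MonoidAlgebra F (FreeMagma X)) :=
  Submodule.span F (mb F X '' S)

lemma mb_mem_PS {S : Set (FreeMagma X)} {w : FreeMagma X} (hw : w ∈ S) : mb F X w ∈ PS F S :=
  Submodule.subset_span ⟨w, hw, rfl⟩

lemma mem_PS_iff {S : Set (FreeMagma X)} {x : (MonoidAlgebra F (FreeMagma X))} :
    x ∈ PS F S ↔ ∀ w, (mb F X).repr x w ≠ 0 → w ∈ S := by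
  rw [PS, Module.Basis.mem_span_image]
  constructor
  · intro h w hw
    exact h (Finset.mem_coe.2 (Finsupp.mem_support_iff.2 hw))
  · intro h w hw
    exact h w (Finsupp.mem_support_iff.1 (Finset.mem_coe.1 hw))

lemma pre_PS_le {S T : Set (FreeMagma X)} (hS : ∀ a c : FreeMagma X, a * c ∈ S → a ∈ T ∧ c ∈ T) :
    pre (PS F S) ≤ sq (PS F T) := by
  intro t ht
  rw [mem_pre, mem_PS_iff] at ht
  rw [← ((mb F X).tensorProduct (mb F X)).linearCombination_repr t,
    Finsupp.linearCombination_apply, Finsupp.sum]
  apply Submodule.sum_mem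
  rintro ⟨a, c⟩ hac
  apply Submodule.smul_mem
  rw [Module.Basis.tensorProduct_apply]
  have h1 := ht (a * c) (by
    rw [coord_mu]
    exact Finsupp.mem_support_iff.1 hac)
  obtain ⟨h2, h3⟩ := hS a c h1
  exact tmul_mem_sq (mb_mem_PS h2) (mb_mem_PS h3)

lemma idealOf_mul {R : Set (MonoidAlgebra F (FreeMagma X))} {x : (MonoidAlgebra F (FreeMagma X))} (hx : x ∈ idealOf R) (a : (MonoidAlgebra F (FreeMagma X))) :
    a * x ∈ idealOf R ∧ x * a ∈ idealOf R := by
  constructor
  · rw [idealOf, Submodule.mem_sInf]
    intro S hS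
    exact (hS.2 a x ((Submodule.mem_sInf.1 hx) S hS)).1
  · rw [idealOf, Submodule.mem_sInf]
    intro S hS
    exact (hS.2 a x ((Submodule.mem_sInf.1 hx) S hS)).2

lemma subset_idealOf (R : Set (MonoidAlgebra F (FreeMagma X))) : R ⊆ idealOf R := by
  intro x hx
  rw [SetLike.mem_coe, idealOf, Submodule.mem_sInf]
  intro S hS
  exact hS.1 hx

/-- tensors with one factor in the ideal -/
noncomputable def nT (I : Submodule F (MonoidAlgebra F (FreeMagma X))) : Submodule F ((MonoidAlgebra F (FreeMagma X)) ⊗[F] (MonoidAlgebra F (FreeMagma X))) :=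
  Submodule.span F {t | ∃ a : (MonoidAlgebra F (FreeMagma X)), ∃ x ∈ I, t = a ⊗ₜ[F] x ∨ t = x ⊗ₜ[F] a}

lemma idealOf_le (R : Set (MonoidAlgebra F (FreeMagma X))) :
    idealOf R ≤ Submodule.span F R ⊔ (nT (idealOf R)).map (mu F (MonoidAlgebra F (FreeMagma X))) := by
  have hle : Submodule.span F R ⊔ (nT (idealOf R)).map (mu F (MonoidAlgebra F (FreeMagma X))) ≤ idealOf R := by
    apply sup_le
    · exact Submodule.span_le.2 (subset_idealOf R)
    · rw [Submodule.map_le_iff_le_comap]
      apply Submodule.span_le.2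
      rintro t ⟨a, x, hx, rfl | rfl⟩
      · rw [SetLike.mem_coe, Submodule.mem_comap, mu_tmul]
        exact (idealOf_mul hx a).1
      · rw [SetLike.mem_coe, Submodule.mem_comap, mu_tmul]
        exact (idealOf_mul hx a).2
  apply sInf_le
  refine ⟨fun x hx => Submodule.mem_sup_left (Submodule.subset_span hx), ?_⟩
  intro a x hx
  have hx' := hle hx
  exact ⟨Submodule.mem_sup_right ⟨a ⊗ₜ[F] x, Submodule.subset_span ⟨a, x, hx', Or.inl rfl⟩,
      by simp⟩,
    Submodule.mem_sup_right ⟨x ⊗ₜ[F] a, Submodule.subset_span ⟨a, x, hx', Or.inr rfl⟩, by simp⟩⟩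

end Free

section Quot

variable {F : Type*} [Field F] {X : Type*} [Finite X]
variable {A : Type*} [NonUnitalNonAssocRing A] [Module F A] [IsScalarTower F A A]
  [SMulCommClass F A A]


omit [Finite X] [IsScalarTower F A A] [SMulCommClass F A A] in
lemma nT_le_ker (π : (MonoidAlgebra F (FreeMagma X)) →ₗ[F] A) : nT (LinearMap.ker π) ≤ LinearMap.ker (TensorProduct.map π π) := by
  apply Submodule.span_le.2
  rintro t ⟨a, x, hx, rfl | rfl⟩
  · rw [SetLike.mem_coe, LinearMap.mem_ker, TensorProduct.map_tmul,
      LinearMap.mem_ker.1 hx, TensorProduct.tmul_zero]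
  · rw [SetLike.mem_coe, LinearMap.mem_ker, TensorProduct.map_tmul,
      LinearMap.mem_ker.1 hx, TensorProduct.zero_tmul]

/-- A finite set of monomials closed under subtrees, containing the generators and the monomials
of the relations, gives a presenting subspace. -/
theorem presenting_map (R : Set (MonoidAlgebra F (FreeMagma X))) (π : (MonoidAlgebra F (FreeMagma X)) →ₗ[F] A) (hsurj : Function.Surjective π)
    (hmul : ∀ a b, π (a * b) = π a * π b) (hker : LinearMap.ker π = idealOf R)
    (S : Set (FreeMagma X)) (hfin : S.Finite) (hgen : ∀ x, FreeMagma.of x ∈ S)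
    (hsub : ∀ a c : FreeMagma X, a * c ∈ S → a ∈ S ∧ c ∈ S) (hR : R ⊆ PS F S) :
    Presenting ((PS F S).map π) := by
  refine ⟨?_, ?_, ?_⟩
  · have : FiniteDimensional F (PS F S) := FiniteDimensional.span_of_finite F (hfin.image _)
    infer_instance
  · intro t ht
    obtain ⟨t', rfl⟩ := TensorProduct.map_surjective hsurj hsurj t
    rw [mem_pre, ← mu_natural π hmul] at ht
    obtain ⟨p, hp, hpt⟩ := ht
    have h1 : mu F (MonoidAlgebra F (FreeMagma X)) t' - p ∈ idealOf R := by
      rw [← hker, LinearMap.mem_ker, map_sub, hpt, sub_self]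
    obtain ⟨r, hr, _, ⟨n, hn, rfl⟩, hrn⟩ := Submodule.mem_sup.1 (idealOf_le R h1)
    have h2 : t' - n ∈ pre (PS F S) := by
      rw [mem_pre, map_sub]
      have : mu F (MonoidAlgebra F (FreeMagma X)) t' - mu F (MonoidAlgebra F (FreeMagma X)) n = p + r := by
        have := hrn
        rw [eq_sub_iff_add_eq] at this
        rw [← this]; abel
      rw [this]
      exact (PS F S).add_mem hp (Submodule.span_le.2 hR hr)
    have h3 := map_mem_sq π (pre_PS_le hsub h2)
    rw [map_sub] at h3
    have h4 : TensorProduct.map π π n = 0 := by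
      rw [← hker] at hn
      exact nT_le_ker π hn
    rwa [h4, sub_zero] at h3
  · intro T hT hTmul
    rw [eq_top_iff]
    have key : ∀ w : FreeMagma X, mb F X w ∈ T.comap π := by
      intro w
      induction w using FreeMagma.rec with
      | of x => exact hT ⟨_, mb_mem_PS (hgen x), rfl⟩
      | mul a b iha ihb =>
        change mb F X (a * b) ∈ T.comap π
        rw [← mb_mul, Submodule.mem_comap, hmul]
        exact hTmul _ iha _ ihb
    have h1 : (⊤ : Submodule F (MonoidAlgebra F (FreeMagma X))) ≤ T.comap π := by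
      rw [← (mb F X).span_eq]
      apply Submodule.span_le.2
      rintro _ ⟨w, rfl⟩
      exact key w
    intro a _
    obtain ⟨x, rfl⟩ := hsurj a
    exact h1 (Submodule.mem_top (x := x))

/-- subtrees -/
def subtrees {X : Type*} : FreeMagma X → Set (FreeMagma X)
  | .of x => {FreeMagma.of x}
  | .mul a b => {a * b} ∪ (subtrees a ∪ subtrees b)

lemma self_mem_subtrees {X : Type*} (w : FreeMagma X) : w ∈ subtrees w := by
  cases w with
  | of x => exact rfl
  | mul a b => exact Or.inl rfl

lemma subtrees_finite {X : Type*} (w : FreeMagma X) : (subtrees w).Finite := by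
  induction w using FreeMagma.rec with
  | of x => exact Set.finite_singleton _
  | mul a b iha ihb => exact (Set.finite_singleton _).union (iha.union ihb)

lemma subtrees_closed {X : Type*} (w : FreeMagma X) (a c : FreeMagma X) (h : a * c ∈ subtrees w) :
    a ∈ subtrees w ∧ c ∈ subtrees w := by
  induction w using FreeMagma.rec with
  | of x =>
    exfalso
    have h' : FreeMagma.mul a c = FreeMagma.of x := h
    cases h'
  | mul u v ihu ihv =>
    rcases h with h | h | h
    · obtain ⟨rfl, rfl⟩ := magma_mul_inj (show a * c = u * v from h)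
      exact ⟨Or.inr (Or.inl (self_mem_subtrees _)), Or.inr (Or.inr (self_mem_subtrees _))⟩
    · exact ⟨Or.inr (Or.inl (ihu h).1), Or.inr (Or.inl (ihu h).2)⟩
    · exact ⟨Or.inr (Or.inr (ihv h).1), Or.inr (Or.inr (ihv h).2)⟩

end Quot

section Main

variable {F : Type*} [Field F]
variable {A : Type*} [NonUnitalNonAssocRing A] [Module F A] [IsScalarTower F A A]
  [SMulCommClass F A A]
variable {B : Type*} [NonUnitalNonAssocRing B] [Module F B] [IsScalarTower F B B]
  [SMulCommClass F B B]

theorem FinPres.exists_presenting (h : FinPres F A) : ∃ V : Submodule F A, Presenting V := by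
  obtain ⟨n, R, π, hsurj, hmul, hker⟩ := h
  let S : Set (FreeMagma (Fin n)) := (Set.range FreeMagma.of) ∪
    ⋃ r ∈ R, ⋃ w ∈ ((mb F (Fin n)).repr r).support, subtrees w
  refine ⟨(PS F S).map π, presenting_map (R : Set _) π hsurj hmul hker S ?_ ?_ ?_ ?_⟩
  · refine (Set.finite_range _).union ?_
    refine Set.Finite.biUnion R.finite_toSet fun r _ => ?_
    exact Set.Finite.biUnion (Finset.finite_toSet _) fun w _ => subtrees_finite w
  · intro x
    exact Or.inl ⟨x, rfl⟩
  · rintro a c (⟨x, hx⟩ | h)
    · exfalso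
      have h' : FreeMagma.of x = FreeMagma.mul a c := hx
      cases h'
    · simp only [Set.mem_iUnion] at h
      obtain ⟨r, hr, w, hw, hac⟩ := h
      obtain ⟨h1, h2⟩ := subtrees_closed w a c hac
      constructor
      · refine Or.inr ?_
        simp only [Set.mem_iUnion]
        exact ⟨r, hr, w, hw, h1⟩
      · refine Or.inr ?_
        simp only [Set.mem_iUnion]
        exact ⟨r, hr, w, hw, h2⟩
  · intro r hr
    rw [SetLike.mem_coe, mem_PS_iff]
    intro w hw
    refine Or.inr ?_
    simp only [Set.mem_iUnion]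
    exact ⟨r, hr, w, Finsupp.mem_support_iff.2 hw, self_mem_subtrees w⟩

theorem FinPres.core_finite (h : FinPres F A) : FiniteDimensional F (core F A) := by
  obtain ⟨V, hV⟩ := h.exists_presenting
  have := hV.fin
  exact Submodule.finiteDimensional_of_le hV.core_le

theorem FinPres.iso_iff (hA : FinPres F A) (hB : FinPres F B) :
    (∃ e : A ≃ₗ[F] B, ∀ a b, e (a * b) = e a * e b) ↔
      rk F A = rk F B ∧ ∃ ε : core F A ≃ₗ[F] core F B, CoreIso ε :=
  NA.iso_iff hA.exists_presenting hB.exists_presenting

end Main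

end Pool.Agent.TH477.NA
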