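import Pool.Agent.TH477.NA.Comp
import Pool.Agent.TH477.NA.CFc

/-! The isomorphism problem is equivalent to its finite-dimensional version. -/

set_option autoImplicit false

namespace Pool.Agent.TH477.NA

open Primrec

/-- shortcut instances -/
instance iRel1 : Primcodable ((ℕ × ℕ) × List ℕ) := inferInstance
/-- shortcut -/
instance iRel : Primcodable (List ((ℕ × ℕ) × List ℕ)) := inferInstance
/-- shortcut -/
instance iRels : Primcodable (List (List ((ℕ × ℕ) × List ℕ))) := inferInstance
/-- shortcut -/
instance iPCode : Primcodable PCode := inferInstance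
/-- shortcut -/
instance iPCPC : Primcodable (PCode × PCode) := inferInstance
/-- shortcut -/
instance iSC1 : Primcodable (Co × (Bool × (ℕ × ℕ))) := inferInstance
/-- shortcut -/
instance iSCert : Primcodable SCert := inferInstance
/-- shortcut -/
instance iTab : Primcodable (List (List Po)) := inferInstance
/-- shortcut -/
instance iLS : Primcodable (List SCert) := inferInstance
/-- shortcut -/
instance iCC : Primcodable (List (List Po) × List SCert) := inferInstance

lemma pr_shapeW : Primrec₂ shapeW := by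
  have w0 : Primrec fun x : ℕ × List ℕ => x.2.getD 0 0 := (list_getD 0).comp snd (const 0)
  have w1 : Primrec fun x : ℕ × List ℕ => x.2.getD 1 0 := (list_getD 0).comp snd (const 1)
  have e1 : Primrec fun x : ℕ × List ℕ => decide (x.2 = [x.2.getD 0 0]) :=
    (Primrec.eq.comp snd (list_cons.comp w0 (const []))).decide
  have e2 : Primrec fun x : ℕ × List ℕ => decide (x.2 = [x.2.getD 0 0, x.2.getD 1 0, 0]) :=
    (Primrec.eq.comp snd (list_cons.comp w0 (list_cons.comp w1 (const [0])))).decide
  have p0 : Primrec fun x : ℕ × List ℕ => decide (0 < x.2.getD 0 0) :=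
    (nat_lt.comp (const 0) w0).decide
  have p1 : Primrec fun x : ℕ × List ℕ => decide (0 < x.2.getD 1 0) :=
    (nat_lt.comp (const 0) w1).decide
  have q0 : Primrec fun x : ℕ × List ℕ => decide (x.2.getD 0 0 ≤ x.1) :=
    (nat_le.comp w0 fst).decide
  have q1 : Primrec fun x : ℕ × List ℕ => decide (x.2.getD 1 0 ≤ x.1) :=
    (nat_le.comp w1 fst).decide
  exact (Primrec.or.comp (Primrec.and.comp e1 (Primrec.and.comp p0 q0))
    (Primrec.and.comp e2 (Primrec.and.comp (Primrec.and.comp p0 q0)
      (Primrec.and.comp p1 q1)))).of_eq fun x => rfl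

lemma pr_shapeR : Primrec₂ shapeR := by
  have h : Primrec₂ fun (x : ℕ × List ((ℕ × ℕ) × List ℕ)) (u : (ℕ × ℕ) × List ℕ) =>
      shapeW x.1 u.2 := pr_shapeW.comp (fst.comp fst) (snd.comp snd)
  exact (pr_all snd h).of_eq fun x => rfl

lemma pr_tab : Primrec fun x : List (List Po) × (ℕ × ℕ) => tab x.1 x.2.1 x.2.2 :=
  ((list_getD ([] : Po)).comp ((list_getD ([] : List Po)).comp fst (fst.comp snd))
    (snd.comp snd)).of_eq fun x => rfl

lemma pr_subN : Primrec₂ subN := by
  have hl : Primrec fun y : (List (List Po) × Po) × (Co × List ℕ) => y.2.2.length :=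
    list_length.comp (snd.comp snd)
  have w0 : Primrec fun y : (List (List Po) × Po) × (Co × List ℕ) => y.2.2.getD 0 0 - 1 :=
    nat_sub.comp ((list_getD 0).comp (snd.comp snd) (const 0)) (const 1)
  have w1 : Primrec fun y : (List (List Po) × Po) × (Co × List ℕ) => y.2.2.getD 1 0 - 1 :=
    nat_sub.comp ((list_getD 0).comp (snd.comp snd) (const 1)) (const 1)
  have h : Primrec₂ fun (x : List (List Po) × Po) (u : Co × List ℕ) =>
      (if u.2.length = 3 then pscal u.1 (tab x.1 (u.2.getD 0 0 - 1) (u.2.getD 1 0 - 1))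
        else [u]) := by
    refine Primrec.ite (Primrec.eq.comp hl (const 3)) ?_ ?_
    · exact pr_pscal.comp (fst.comp snd) (pr_tab.comp ((fst.comp fst).pair (w0.pair w1)))
    · exact list_cons.comp snd (const [])
  exact (list_flatMap snd h).of_eq fun x => rfl

lemma pr_sl : Primrec fun x : (Bool × ℕ) × Po => sl x.1.1 x.1.2 x.2 := by
  have hb : Primrec fun y : ((Bool × ℕ) × Po) × (Co × List ℕ) => y.1.1.1 :=
    fst.comp (fst.comp fst)
  have hi : Primrec fun y : ((Bool × ℕ) × Po) × (Co × List ℕ) => y.1.1.2 :=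
    snd.comp (fst.comp fst)
  have hl : Primrec fun y : ((Bool × ℕ) × Po) × (Co × List ℕ) => y.2.2.length :=
    list_length.comp (snd.comp snd)
  have w0 : Primrec fun y : ((Bool × ℕ) × Po) × (Co × List ℕ) => y.2.2.getD 0 0 :=
    (list_getD 0).comp (snd.comp snd) (const 0)
  have w1 : Primrec fun y : ((Bool × ℕ) × Po) × (Co × List ℕ) => y.2.2.getD 1 0 :=
    (list_getD 0).comp (snd.comp snd) (const 1)
  have h : Primrec₂ fun (x : (Bool × ℕ) × Po) (u : Co × List ℕ) =>
      (if u.2.length = 3 ∧ (bif x.1.1 then u.2.getD 0 0 else u.2.getD 1 0) = x.1.2 + 1 then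
        ([(u.1, [bif x.1.1 then u.2.getD 1 0 else u.2.getD 0 0])] : Po) else []) := by
    refine Primrec.ite (PrimrecPred.and (Primrec.eq.comp hl (const 3))
      (Primrec.eq.comp (Primrec.cond hb w0 w1) (succ.comp hi))) ?_ (const [])
    exact list_cons.comp ((fst.comp snd).pair
      (list_cons.comp (Primrec.cond hb w1 w0) (const []))) (const [])
  exact (list_flatMap snd h).of_eq fun x => rfl

lemma pr_slices : Primrec₂ slices := by
  have h : Primrec₂ fun (x : PCode × SCert) (e : Co × (Bool × (ℕ × ℕ))) =>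
      pscal e.1 (sl e.2.1 e.2.2.1 (toPo (x.1.2.getD e.2.2.2 []))) := by
    refine pr_pscal.comp (fst.comp snd) (pr_sl.comp
      (((fst.comp (snd.comp snd)).pair (fst.comp (snd.comp (snd.comp snd)))).pair
        (pr_toPo.comp ((list_getD ([] : List ((ℕ × ℕ) × List ℕ))).comp
          (snd.comp (fst.comp fst)) (snd.comp (snd.comp (snd.comp snd)))))))
  exact (list_flatMap snd h).of_eq fun x => rfl

lemma pr_coreB : Primrec₂ coreB := by
  have hc : Primrec fun x : PCode × (List (List Po) × List SCert) => x.1.2 := snd.comp fst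
  have ht : Primrec fun x : PCode × (List (List Po) × List SCert) => x.1.1.1 :=
    fst.comp (fst.comp fst)
  have h1 : Primrec₂ fun (x : PCode × (List (List Po) × List SCert))
      (R : List ((ℕ × ℕ) × List ℕ)) => shapeR x.1.1.1 R :=
    pr_shapeR.comp (ht.comp fst) snd
  have h2 : Primrec₂ fun (x : PCode × (List (List Po) × List SCert))
      (R : List ((ℕ × ℕ) × List ℕ)) => feq (subN x.2.1 (toPo R)) [] :=
    pr_feq.comp (pr_subN.comp (fst.comp (snd.comp fst)) (pr_toPo.comp snd)) (const [])
  have h3 : Primrec₂ fun (x : PCode × (List (List Po) × List SCert)) (j : ℕ) =>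
      feq (slices x.1 (x.2.2.getD j [])) [(cone, [j + 1])] := by
    refine pr_feq.comp (pr_slices.comp (fst.comp fst) ((list_getD ([] : SCert)).comp
      (snd.comp (snd.comp fst)) snd)) ?_
    exact list_cons.comp ((const cone).pair (list_cons.comp (succ.comp snd) (const [])))
      (const [])
  exact (Primrec.and.comp (pr_all hc h1) (Primrec.and.comp (pr_all hc h2)
    (pr_all (list_range.comp ht) h3))).of_eq fun x => rfl

lemma pr_toPres : Primrec toPres := by
  have h : Primrec fun c : PCode => ((c.1.1 + c.1.2, c.2) : Pres) :=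
    (nat_add.comp (fst.comp fst) (snd.comp fst)).pair snd
  exact h.of_eq fun c => rfl

/-- certificates of core forms -/
abbrev CCert := List (List Po) × List SCert

/-- shortcut -/
instance iCC2 : Primcodable (CCert × CCert) := inferInstance
/-- shortcut -/
instance iII : Primcodable (ICert × ICert) := inferInstance
/-- shortcut -/
instance iNon : Primcodable ((PCode × PCode) × ((CCert × CCert) × (ICert × ICert))) :=
  inferInstance

lemma Iso.symm {p q : Pres} (h : Iso p q) : Iso q p := by
  obtain ⟨e, he⟩ := h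
  refine ⟨e.symm, fun a b => ?_⟩
  apply e.injective
  rw [he, e.apply_symm_apply, e.apply_symm_apply, e.apply_symm_apply]

lemma Iso.trans {p q r : Pres} (h : Iso p q) (h' : Iso q r) : Iso p r := by
  obtain ⟨e, he⟩ := h
  obtain ⟨e', he'⟩ := h'
  refine ⟨e.trans e', fun a b => ?_⟩
  simp only [LinearEquiv.trans_apply, he, he']

/-- isomorphism of presented algebras is recursively enumerable -/
theorem re_iso : REPred fun pq : Pres × Pres => Iso pq.1 pq.2 :=
  (re_of_exists (f := fun x : (Pres × Pres) × ICert => isoc x.1.1 x.1.2 x.2)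
    pr_isoc.to_comp).of_eq fun a => (iso_iff_cert a.1 a.2).symm

/-- If core forms can be told apart by a computable function, so can presented algebras. -/
theorem computable_iso_of {f : PCode × PCode → Bool} (hf : Computable f)
    (hF : ∀ c c', CoreForm c → CoreForm c' → (f (c, c') = true ↔ Iso (toPres c) (toPres c'))) :
    ComputablePred fun pq : Pres × Pres => Iso pq.1 pq.2 := by
  rw [ComputablePred.computable_iff_re_compl_re']
  refine ⟨re_iso, ?_⟩
  have h1 : Primrec fun x : (Pres × Pres) × ((PCode × PCode) × ((CCert × CCert) ×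
      (ICert × ICert))) => (coreB x.2.1.1 x.2.2.1.1 && coreB x.2.1.2 x.2.2.1.2) &&
        (isoc x.1.1 (toPres x.2.1.1) x.2.2.2.1 && isoc x.1.2 (toPres x.2.1.2) x.2.2.2.2) := by
    have hc : Primrec fun x : (Pres × Pres) × ((PCode × PCode) × ((CCert × CCert) ×
      (ICert × ICert))) => x.2.1.1 := fst.comp (fst.comp snd)
    have hc' : Primrec fun x : (Pres × Pres) × ((PCode × PCode) × ((CCert × CCert) ×
      (ICert × ICert))) => x.2.1.2 := snd.comp (fst.comp snd)
    have hz : Primrec fun x : (Pres × Pres) × ((PCode × PCode) × ((CCert × CCert) ×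
      (ICert × ICert))) => x.2.2.1.1 := fst.comp (fst.comp (snd.comp snd))
    have hz' : Primrec fun x : (Pres × Pres) × ((PCode × PCode) × ((CCert × CCert) ×
      (ICert × ICert))) => x.2.2.1.2 := snd.comp (fst.comp (snd.comp snd))
    have hy : Primrec fun x : (Pres × Pres) × ((PCode × PCode) × ((CCert × CCert) ×
      (ICert × ICert))) => x.2.2.2.1 := fst.comp (snd.comp (snd.comp snd))
    have hy' : Primrec fun x : (Pres × Pres) × ((PCode × PCode) × ((CCert × CCert) ×
      (ICert × ICert))) => x.2.2.2.2 := snd.comp (snd.comp (snd.comp snd))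
    have hp : Primrec fun x : (Pres × Pres) × ((PCode × PCode) × ((CCert × CCert) ×
      (ICert × ICert))) => x.1.1 := fst.comp fst
    have hq : Primrec fun x : (Pres × Pres) × ((PCode × PCode) × ((CCert × CCert) ×
      (ICert × ICert))) => x.1.2 := snd.comp fst
    exact Primrec.and.comp (Primrec.and.comp (pr_coreB.comp hc hz) (pr_coreB.comp hc' hz'))
      (Primrec.and.comp (pr_isoc.comp ((hp.pair (pr_toPres.comp hc)).pair hy))
        (pr_isoc.comp ((hq.pair (pr_toPres.comp hc')).pair hy')))
  have h2 : Computable fun x : (Pres × Pres) × ((PCode × PCode) × ((CCert × CCert) ×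
      (ICert × ICert))) => !(f x.2.1) :=
    (Primrec.not.to_comp).comp (hf.comp (Computable.fst.comp Computable.snd))
  have h3 := re_of_exists (f := fun x : (Pres × Pres) × ((PCode × PCode) × ((CCert × CCert) ×
      (ICert × ICert))) => ((coreB x.2.1.1 x.2.2.1.1 && coreB x.2.1.2 x.2.2.1.2) &&
        (isoc x.1.1 (toPres x.2.1.1) x.2.2.2.1 && isoc x.1.2 (toPres x.2.1.2) x.2.2.2.2)) &&
        !(f x.2.1)) ((Primrec.and.to_comp).comp h1.to_comp h2)
  refine h3.of_eq ?_
  rintro ⟨p, q⟩
  constructor
  · rintro ⟨⟨⟨c, c'⟩, ⟨⟨z, z'⟩, ⟨y, y'⟩⟩⟩, h⟩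
    simp only [Bool.and_eq_true, Bool.not_eq_true'] at h
    obtain ⟨⟨⟨hz, hz'⟩, hy, hy'⟩, hn⟩ := h
    intro hiso
    have hc := coreForm_of_cert hz
    have hc' := coreForm_of_cert hz'
    have h4 : Iso (toPres c) (toPres c') :=
      (iso_of_cert hy).symm.trans (Iso.trans hiso (iso_of_cert hy'))
    rw [(hF c c' hc hc').2 h4] at hn
    exact Bool.noConfusion hn
  · intro hn
    obtain ⟨c, hc, hpc⟩ := exists_coreForm p
    obtain ⟨c', hc', hpc'⟩ := exists_coreForm q
    obtain ⟨z, hz⟩ := exists_core_cert hc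
    obtain ⟨z', hz'⟩ := exists_core_cert hc'
    obtain ⟨y, hy⟩ := (iso_iff_cert _ _).1 hpc
    obtain ⟨y', hy'⟩ := (iso_iff_cert _ _).1 hpc'
    refine ⟨((c, c'), ((z, z'), (y, y'))), ?_⟩
    simp only [Bool.and_eq_true, Bool.not_eq_true']
    refine ⟨⟨⟨hz, hz'⟩, hy, hy'⟩, ?_⟩
    rw [← Bool.not_eq_true, hF c c' hc hc']
    intro h
    exact hn (hpc.trans (h.trans hpc'.symm))

/-- The isomorphism problem is decidable iff equivalence of core forms is. -/
theorem computable_iso_iff : ComputablePred (fun pq : Pres × Pres => Iso pq.1 pq.2) ↔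
    ∃ f : PCode × PCode → Bool, Computable f ∧
      ∀ c c', CoreForm c → CoreForm c' → (f (c, c') = true ↔ LinEq c c') := by
  constructor
  · intro h
    obtain ⟨f, hf, hF⟩ := ComputablePred.computable_iff.1 h
    refine ⟨fun x => f (toPres x.1, toPres x.2), ?_, ?_⟩
    · have h1 : Computable fun x : PCode × PCode => (toPres x.1, toPres x.2) :=
        ((pr_toPres.comp fst).pair (pr_toPres.comp snd)).to_comp
      exact hf.comp h1
    · intro c c' hc hc'
      have h2 : Iso (toPres c) (toPres c') = (f (toPres c, toPres c') = true) :=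
        congrFun hF (toPres c, toPres c')
      rw [← iso_iff_linEq hc hc', h2]
  · rintro ⟨f, hf, hF⟩
    exact computable_iso_of hf fun c c' hc hc' => by
      rw [hF c c' hc hc', iso_iff_linEq hc hc']

end Pool.Agent.TH477.NA
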