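import Pool.Agent.TH477.NA.Fin

/-! The link with the frozen statement. -/

set_option autoImplicit false

namespace Pool.Agent.TH477.NA

/-- the text of the frozen statement S02449 -/
def IsoProblem : Prop :=
  ∀ (mon : ∀ n : ℕ, List ℕ → MonoidAlgebra ℚ (FreeMagma (Fin n))),
    mon = (fun (n : ℕ) (w : List ℕ) =>
      (List.foldl (fun (s : List (MonoidAlgebra ℚ (FreeMagma (Fin n)))) (t : ℕ) =>
        if t = 0 then (s.tail.headD 0 * s.headD 0) :: s.tail.tail
        else (if h : t - 1 < n then MonoidAlgebra.single (FreeMagma.of (⟨t - 1, h⟩ : Fin n)) (1 : ℚ) else 0) :: s)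
        ([] : List (MonoidAlgebra ℚ (FreeMagma (Fin n)))) w).headD 0) →
  ∀ (I : ∀ p : ℕ × List (List ((ℕ × ℕ) × List ℕ)), Submodule ℚ (MonoidAlgebra ℚ (FreeMagma (Fin p.1)))),
    I = (fun (p : ℕ × List (List ((ℕ × ℕ) × List ℕ))) =>
      sInf {S : Submodule ℚ (MonoidAlgebra ℚ (FreeMagma (Fin p.1))) |
        (∀ r ∈ p.2, (List.map (fun (c : (ℕ × ℕ) × List ℕ) =>
            (((c.1.1 : ℚ) - (c.1.2 : ℚ)) • mon p.1 c.2)) r).sum ∈ S) ∧
        ∀ a x : MonoidAlgebra ℚ (FreeMagma (Fin p.1)), x ∈ S → a * x ∈ S ∧ x * a ∈ S}) →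
  ComputablePred (fun (pq : (ℕ × List (List ((ℕ × ℕ) × List ℕ))) × (ℕ × List (List ((ℕ × ℕ) × List ℕ)))) =>
    ∃ e : (MonoidAlgebra ℚ (FreeMagma (Fin pq.1.1)) ⧸ I pq.1) ≃ₗ[ℚ] (MonoidAlgebra ℚ (FreeMagma (Fin pq.2.1)) ⧸ I pq.2),
      ∀ (x y : MonoidAlgebra ℚ (FreeMagma (Fin pq.1.1))) (u v : MonoidAlgebra ℚ (FreeMagma (Fin pq.2.1))),
        e (Submodule.Quotient.mk x) = Submodule.Quotient.mk u →
        e (Submodule.Quotient.mk y) = Submodule.Quotient.mk v →
        e (Submodule.Quotient.mk (x * y)) = Submodule.Quotient.mk (u * v))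

lemma ideal_eq (p : Pres) :
    sInf {S : Submodule ℚ (MonoidAlgebra ℚ (FreeMagma (Fin p.1))) |
        (∀ r ∈ p.2, (List.map (fun (c : (ℕ × ℕ) × List ℕ) =>
            (((c.1.1 : ℚ) - (c.1.2 : ℚ)) • mon p.1 c.2)) r).sum ∈ S) ∧
        ∀ a x : MonoidAlgebra ℚ (FreeMagma (Fin p.1)), x ∈ S → a * x ∈ S ∧ x * a ∈ S} =
      idealOf (rvals p) := by
  have hv : ∀ r : List ((ℕ × ℕ) × List ℕ), (List.map (fun (c : (ℕ × ℕ) × List ℕ) =>
      (((c.1.1 : ℚ) - (c.1.2 : ℚ)) • mon p.1 c.2)) r).sum = val p.1 (toPo r) := by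
    intro r
    rw [val, toPo, List.map_map]
    congr 2
    funext c
    simp [cv]
  rw [idealOf]
  congr 1
  ext S
  constructor
  · rintro ⟨h1, h2⟩
    refine ⟨?_, h2⟩
    rintro _ ⟨r, hr, rfl⟩
    rw [← hv]
    exact h1 r hr
  · rintro ⟨h1, h2⟩
    refine ⟨fun r hr => ?_, h2⟩
    rw [hv]
    exact h1 ⟨r, hr, rfl⟩

lemma iso_iff_quot (p q : Pres) : Iso p q ↔
    ∃ e : (MonoidAlgebra ℚ (FreeMagma (Fin p.1)) ⧸ idealOf (rvals p)) ≃ₗ[ℚ]
      (MonoidAlgebra ℚ (FreeMagma (Fin q.1)) ⧸ idealOf (rvals q)),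
      ∀ (x y : MonoidAlgebra ℚ (FreeMagma (Fin p.1))) (u v : MonoidAlgebra ℚ (FreeMagma (Fin q.1))),
        e (Submodule.Quotient.mk x) = Submodule.Quotient.mk u →
        e (Submodule.Quotient.mk y) = Submodule.Quotient.mk v →
        e (Submodule.Quotient.mk (x * y)) = Submodule.Quotient.mk (u * v) := by
  constructor
  · rintro ⟨e, he⟩
    refine ⟨{ toFun := e, invFun := e.symm, left_inv := e.left_inv, right_inv := e.right_inv,
              map_add' := e.map_add, map_smul' := e.map_smul }, ?_⟩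
    intro x y u v hx hy
    have hx' : e (qpr (rvals p) x) = qpr (rvals q) u := hx
    have hy' : e (qpr (rvals p) y) = qpr (rvals q) v := hy
    change e (qpr (rvals p) (x * y)) = qpr (rvals q) (u * v)
    rw [qpr_mul, he, hx', hy', qpr_mul]
  · rintro ⟨e, he⟩
    let e' : PA p ≃ₗ[ℚ] PA q :=
      { toFun := e, invFun := e.symm, left_inv := e.left_inv, right_inv := e.right_inv,
        map_add' := e.map_add, map_smul' := e.map_smul }
    refine ⟨e', ?_⟩
    intro a b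
    obtain ⟨x, rfl⟩ := qpr_surjective (rvals p) a
    obtain ⟨y, rfl⟩ := qpr_surjective (rvals p) b
    obtain ⟨u, hu⟩ := qpr_surjective (rvals q) (e' (qpr (rvals p) x))
    obtain ⟨v, hv⟩ := qpr_surjective (rvals q) (e' (qpr (rvals p) y))
    rw [← hu, ← hv, ← qpr_mul, ← qpr_mul]
    exact he x y u v hu.symm hv.symm

theorem isoProblem_iff :
    IsoProblem ↔ ComputablePred (fun pq : Pres × Pres => Iso pq.1 pq.2) := by
  have hmon : (fun (n : ℕ) (w : List ℕ) =>
      (List.foldl (fun (s : List (MonoidAlgebra ℚ (FreeMagma (Fin n)))) (t : ℕ) =>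
        if t = 0 then (s.tail.headD 0 * s.headD 0) :: s.tail.tail
        else (if h : t - 1 < n then MonoidAlgebra.single (FreeMagma.of (⟨t - 1, h⟩ : Fin n)) (1 : ℚ) else 0) :: s)
        ([] : List (MonoidAlgebra ℚ (FreeMagma (Fin n)))) w).headD 0) = mon := rfl
  constructor
  · intro h
    have h1 := h mon hmon.symm (fun p => idealOf (rvals p)) (funext fun p => (ideal_eq p).symm)
    exact h1.of_eq fun pq => (iso_iff_quot pq.1 pq.2).symm
  · intro h m hm I hI
    have hm' : m = mon := hm.trans hmon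
    subst hm'
    have hI' : I = fun p => idealOf (rvals p) := hI.trans (funext fun p => ideal_eq p)
    subst hI'
    exact h.of_eq fun pq => iso_iff_quot pq.1 pq.2

end Pool.Agent.TH477.NA
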