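import Pool.Agent.TH477.NA.FD1

/-! Isomorphisms of the algebras of spaces of pairs, the general case. -/

set_option autoImplicit false

namespace Pool.Agent.TH477.NA.G

open Pool.Agent.TH477.NA

section

variable {t t' m m' : ℕ} {M : Fin m → Matrix (Fin t) (Fin t) ℚ} {v : Fin m → Fin t → ℚ}
variable {M' : Fin m' → Matrix (Fin t') (Fin t') ℚ} {v' : Fin m' → Fin t' → ℚ}

/-- the induced map -/
def gam (Φ : (ℚ × (Fin t → ℚ) × (Fin m → ℚ)) ≃ₗ[ℚ] (ℚ × (Fin t' → ℚ) × (Fin m' → ℚ))) :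
    (Fin t → ℚ) →ₗ[ℚ] (Fin t' → ℚ) where
  toFun w := (Φ (0, w, 0)).2.1
  map_add' x y := by
    have : ((0, x + y, 0) : ℚ × (Fin t → ℚ) × (Fin m → ℚ)) = (0, x, 0) + (0, y, 0) := by
      simp
    rw [this, map_add]
    rfl
  map_smul' c x := by
    have : ((0, c • x, 0) : ℚ × (Fin t → ℚ) × (Fin m → ℚ)) = c • (0, x, 0) := by
      simp
    rw [this, map_smul]
    rfl

variable (Φ : (ℚ × (Fin t → ℚ) × (Fin m → ℚ)) ≃ₗ[ℚ] (ℚ × (Fin t' → ℚ) × (Fin m' → ℚ)))
  (hΦ : ∀ x y, Φ (emul M v x y) = emul M' v' (Φ x) (Φ y))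

include hΦ

lemma symm_mul (x y : ℚ × (Fin t' → ℚ) × (Fin m' → ℚ)) :
    Φ.symm (emul M' v' x y) = emul M v (Φ.symm x) (Φ.symm y) := by
  apply Φ.injective
  rw [hΦ, Φ.apply_symm_apply, Φ.apply_symm_apply, Φ.apply_symm_apply]

lemma map_N (w : Fin t → ℚ) (y : Fin m → ℚ) : (Φ (0, w, y)).1 = 0 := by
  have h1 : emul M v (emul M v (0, w, y) (0, w, y)) (emul M v (0, w, y) (0, w, y)) = 0 := by
    simp only [emul, zero_mul, zero_dotProduct, add_zero]
    rfl
  have h2 := congrArg Φ h1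
  rw [hΦ, hΦ, map_zero] at h2
  have h3 := congrArg Prod.fst h2
  simp only [emul, Prod.fst_zero] at h3
  simpa using h3

lemma map_e : Φ (1, 0, 0) = (1, 0, 0) := by
  have h1 : emul M v (1, 0, 0) (1, 0, 0) = (1, 0, 0) := by
    simp only [emul, mul_one, dotProduct_zero, zero_dotProduct, add_zero, mul_zero]
    rfl
  have h2 := congrArg Φ h1
  rw [hΦ] at h2
  have h3 := congrArg Prod.fst h2
  have h4 := congrArg (fun z => z.2.1) h2
  have h5 := congrArg (fun z => z.2.2) h2
  simp only [emul] at h3 h4 h5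
  rw [← h4] at h5
  simp only [dotProduct_zero, zero_dotProduct, add_zero, mul_zero] at h5
  have h6 : (Φ (1, 0, 0)).1 ≠ 0 := by
    intro h0
    have h7 : Φ (1, 0, 0) = 0 := Prod.ext h0 (Prod.ext h4.symm h5.symm)
    have h8 : ((1, 0, 0) : ℚ × (Fin t → ℚ) × (Fin m → ℚ)) = 0 := Φ.map_eq_zero_iff.1 h7
    exact one_ne_zero (congrArg Prod.fst h8)
  have h9 : (Φ (1, 0, 0)).1 = 1 := mul_right_cancel₀ h6 (by rw [h3, one_mul])
  exact Prod.ext h9 (Prod.ext h4.symm h5.symm)

lemma map_Y (hnd : ND M') (y : Fin m → ℚ) : (Φ (0, 0, y)).2.1 = 0 := by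
  have key : ∀ w : Fin t' → ℚ, emul M' v' (Φ (0, 0, y)) (0, w, 0) = 0 ∧
      emul M' v' (0, w, 0) (Φ (0, 0, y)) = 0 := by
    intro w
    have h0 : (Φ.symm (0, w, 0)).1 = 0 := map_N Φ.symm (symm_mul Φ hΦ) w 0
    have h1 : Φ.symm (0, w, 0) = (0, (Φ.symm (0, w, 0)).2.1, (Φ.symm (0, w, 0)).2.2) :=
      Prod.ext h0 rfl
    have h2 : Φ (0, (Φ.symm (0, w, 0)).2.1, (Φ.symm (0, w, 0)).2.2) = (0, w, 0) := by
      rw [← h1, Φ.apply_symm_apply]
    constructor
    · rw [← h2, ← hΦ]
      have : emul M v (0, 0, y) (0, (Φ.symm (0, w, 0)).2.1, (Φ.symm (0, w, 0)).2.2) = 0 := by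
        simp only [emul, zero_mul, zero_dotProduct, add_zero]
        rfl
      rw [this, map_zero]
    · rw [← h2, ← hΦ]
      have : emul M v (0, (Φ.symm (0, w, 0)).2.1, (Φ.symm (0, w, 0)).2.2) (0, 0, y) = 0 := by
        simp only [emul, zero_mul, Matrix.mulVec_zero, dotProduct_zero, add_zero]
        rfl
      rw [this, map_zero]
  have h0 : (Φ (0, 0, y)).1 = 0 := map_N Φ hΦ 0 y
  apply hnd
  intro k
  constructor
  · funext j
    have h1 := congrFun (congrArg (fun z => z.2.2) (key (Pi.single j 1)).1) k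
    simp only [emul, h0, zero_mul, zero_add] at h1
    rw [Matrix.dotProduct_mulVec, dotProduct_single, mul_one] at h1
    exact h1
  · funext j
    have h1 := congrFun (congrArg (fun z => z.2.2) (key (Pi.single j 1)).2) k
    simp only [emul, zero_mul, zero_add] at h1
    rw [single_dotProduct, one_mul] at h1
    exact h1

lemma gam_spec (w : Fin t → ℚ) : Φ (0, w, 0) = (0, gam Φ w, (Φ (0, w, 0)).2.2) :=
  Prod.ext (map_N Φ hΦ w 0) rfl

lemma eta_spec (hnd : ND M') (y : Fin m → ℚ) : Φ (0, 0, y) = (0, 0, (Φ (0, 0, y)).2.2) :=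
  Prod.ext (map_N Φ hΦ 0 y) (Prod.ext (map_Y Φ hΦ hnd y) rfl)

lemma gam_symm (hnd : ND M) (w : Fin t → ℚ) : gam Φ.symm (gam Φ w) = w := by
  have h1 : ((0, gam Φ w, 0) : ℚ × (Fin t' → ℚ) × (Fin m' → ℚ)) =
      Φ (0, w, 0) - (0, 0, (Φ (0, w, 0)).2.2) := by
    conv_rhs => rw [gam_spec Φ hΦ w]
    simp
  have h2 : gam Φ.symm (gam Φ w) = (Φ.symm (0, gam Φ w, 0)).2.1 := rfl
  rw [h2, h1, map_sub, Φ.symm_apply_apply]
  have h3 := map_Y Φ.symm (symm_mul Φ hΦ) hnd (Φ (0, w, 0)).2.2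
  rw [Prod.snd_sub, Prod.fst_sub, h3, sub_zero]

lemma eta_sum (y : Fin m → ℚ) (k' : Fin m') :
    (Φ (0, 0, y)).2.2 k' = ∑ k, (Φ (0, 0, Pi.single k 1)).2.2 k' * y k := by
  let f : (Fin m → ℚ) →ₗ[ℚ] ℚ :=
    { toFun := fun y => (Φ (0, 0, y)).2.2 k'
      map_add' := fun x y => by
        have : ((0, 0, x + y) : ℚ × (Fin t → ℚ) × (Fin m → ℚ)) = (0, 0, x) + (0, 0, y) := by
          simp
        rw [this, map_add]
        rfl
      map_smul' := fun c x => by
        have : ((0, 0, c • x) : ℚ × (Fin t → ℚ) × (Fin m → ℚ)) = c • (0, 0, x) := by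
          simp
        rw [this, map_smul]
        rfl }
  have hy : y = ∑ k, y k • (Pi.single k 1 : Fin m → ℚ) := by
    ext j; simp [Finset.sum_apply, Pi.single_apply]
  change f y = ∑ k, f (Pi.single k 1) * y k
  conv_lhs => rw [hy]
  simp only [map_sum, map_smul, smul_eq_mul]
  exact Finset.sum_congr rfl fun k _ => mul_comm _ _

/-- relations are carried to relations -/
lemma rel_back (hnd : ND M') (N : Matrix (Fin t') (Fin t') ℚ) (u : Fin t' → ℚ)
    (h : (N, u) ∈ Submodule.span ℚ (Set.range fun k => (M' k, v' k))) :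
    ((LinearMap.toMatrix' (gam Φ)).transpose * N * LinearMap.toMatrix' (gam Φ),
      (LinearMap.toMatrix' (gam Φ)).transpose.mulVec u) ∈
      Submodule.span ℚ (Set.range fun k => (M k, v k)) := by
  set Γ := LinearMap.toMatrix' (gam Φ) with hΓ
  have hΓv : ∀ w, gam Φ w = Γ.mulVec w := fun w => by rw [hΓ, LinearMap.toMatrix'_mulVec]
  let T : Matrix (Fin t') (Fin t') ℚ × (Fin t' → ℚ) →ₗ[ℚ]
      Matrix (Fin t) (Fin t) ℚ × (Fin t → ℚ) :=
    { toFun := fun z => (Γ.transpose * z.1 * Γ, Γ.transpose.mulVec z.2)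
      map_add' := fun x y => by
        simp [Matrix.mul_add, Matrix.add_mul, Matrix.mulVec_add]
      map_smul' := fun c x => by
        simp [Matrix.mulVec_smul] }
  have hT : Submodule.span ℚ (Set.range fun k => (M' k, v' k)) ≤
      (Submodule.span ℚ (Set.range fun k => (M k, v k))).comap T := by
    rw [Submodule.span_le]
    rintro _ ⟨k', rfl⟩
    rw [SetLike.mem_coe, Submodule.mem_comap]
    have h1 : T (M' k', v' k') = ∑ k, (Φ (0, 0, Pi.single k 1)).2.2 k' • (M k, v k) := by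
      apply Prod.ext
      · rw [Prod.fst_sum]
        ext i j
        change (Γ.transpose * M' k' * Γ) i j = _
        have h2 := hΦ (0, Pi.single i 1, 0) (0, Pi.single j 1, 0)
        rw [gam_spec Φ hΦ (Pi.single i 1), gam_spec Φ hΦ (Pi.single j 1)] at h2
        have h3 := congrFun (congrArg (fun z => z.2.2) h2) k'
        simp only [emul, zero_mul, zero_add] at h3
        rw [eta_sum Φ hΦ, hΓv, hΓv] at h3
        rw [Matrix.sum_apply]
        have h4 : (Γ.transpose * M' k' * Γ) i j =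
            dotProduct (Γ.mulVec (Pi.single i 1)) ((M' k').mulVec (Γ.mulVec (Pi.single j 1))) := by
          rw [Matrix.mulVec_mulVec, Matrix.dotProduct_mulVec, ← Matrix.dotProduct_mulVec,
            Matrix.mulVec_single_one, Matrix.mulVec_single_one, Matrix.mul_assoc, Matrix.mul_apply]
          rfl
        rw [h4, ← h3]
        refine Finset.sum_congr rfl fun k _ => ?_
        rw [Prod.smul_fst, Matrix.smul_apply, smul_eq_mul, single_dotProduct, one_mul,
          Matrix.mulVec_single_one]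
        rfl
      · rw [Prod.snd_sum]
        ext j
        change (Γ.transpose.mulVec (v' k')) j = _
        have h2 := hΦ (1, 0, 0) (0, Pi.single j 1, 0)
        rw [gam_spec Φ hΦ (Pi.single j 1), map_e Φ hΦ] at h2
        have h3 := congrFun (congrArg (fun z => z.2.2) h2) k'
        simp only [emul, mul_zero, one_mul, zero_dotProduct, add_zero] at h3
        rw [eta_sum Φ hΦ, hΓv] at h3
        rw [Finset.sum_apply]
        have h4 : (Γ.transpose.mulVec (v' k')) j =
            dotProduct (v' k') (Γ.mulVec (Pi.single j 1)) := by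
          rw [Matrix.mulVec_single_one, dotProduct_comm]
          rfl
        rw [h4, ← h3]
        refine Finset.sum_congr rfl fun k _ => ?_
        rw [Prod.smul_snd, Pi.smul_apply, smul_eq_mul, dotProduct_single, mul_one]
    rw [h1]
    exact Submodule.sum_mem _ fun k _ => Submodule.smul_mem _ _ (Submodule.subset_span ⟨k, rfl⟩)
  exact hT h

end


theorem corr_of_iso {t t' m m' : ℕ} {M : Fin m → Matrix (Fin t) (Fin t) ℚ} {v : Fin m → Fin t → ℚ}
    {M' : Fin m' → Matrix (Fin t') (Fin t') ℚ} {v' : Fin m' → Fin t' → ℚ}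
    (hnd : ND M) (hnd' : ND M')
    (Φ : (ℚ × (Fin t → ℚ) × (Fin m → ℚ)) ≃ₗ[ℚ] (ℚ × (Fin t' → ℚ) × (Fin m' → ℚ)))
    (hΦ : ∀ x y, Φ (emul M v x y) = emul M' v' (Φ x) (Φ y)) :
    ∃ (g : Matrix (Fin t') (Fin t) ℚ) (g' : Matrix (Fin t) (Fin t') ℚ),
      g * g' = 1 ∧ g' * g = 1 ∧ ∀ N u,
        (N, u) ∈ Submodule.span ℚ (Set.range fun k => (M k, v k)) ↔
        (g * N * g.transpose, g.mulVec u) ∈ Submodule.span ℚ (Set.range fun k => (M' k, v' k)) := by
  have h1 : LinearMap.toMatrix' (gam Φ.symm) * LinearMap.toMatrix' (gam Φ) = 1 := by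
    rw [← LinearMap.toMatrix'_comp, ← LinearMap.toMatrix'_id]
    congr 1
    apply LinearMap.ext
    intro w
    exact gam_symm Φ hΦ hnd w
  have h2 : LinearMap.toMatrix' (gam Φ) * LinearMap.toMatrix' (gam Φ.symm) = 1 := by
    rw [← LinearMap.toMatrix'_comp, ← LinearMap.toMatrix'_id]
    congr 1
    apply LinearMap.ext
    intro w
    exact gam_symm Φ.symm (symm_mul Φ hΦ) hnd' w
  refine ⟨(LinearMap.toMatrix' (gam Φ.symm)).transpose,
    (LinearMap.toMatrix' (gam Φ)).transpose, ?_, ?_, ?_⟩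
  · rw [← Matrix.transpose_mul, h2, Matrix.transpose_one]
  · rw [← Matrix.transpose_mul, h1, Matrix.transpose_one]
  · intro N u
    rw [Matrix.transpose_transpose]
    constructor
    · intro h
      exact rel_back Φ.symm (symm_mul Φ hΦ) hnd N u h
    · intro h
      have h3 := rel_back Φ hΦ hnd' _ _ h
      have h4 : (LinearMap.toMatrix' (gam Φ)).transpose *
          (LinearMap.toMatrix' (gam Φ.symm)).transpose = 1 := by
        rw [← Matrix.transpose_mul, h1, Matrix.transpose_one]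
      have h5 : (LinearMap.toMatrix' (gam Φ)).transpose *
          ((LinearMap.toMatrix' (gam Φ.symm)).transpose * N *
            LinearMap.toMatrix' (gam Φ.symm)) * LinearMap.toMatrix' (gam Φ) = N := by
        rw [Matrix.mul_assoc, Matrix.mul_assoc, Matrix.mul_assoc, h1, Matrix.mul_one,
          ← Matrix.mul_assoc, h4, Matrix.one_mul]
      rw [h5, Matrix.mulVec_mulVec, h4, Matrix.one_mulVec] at h3
      exact h3

/-- corresponding relation spaces have the same dimension -/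
lemma finrank_eq {t t' : ℕ} {g : Matrix (Fin t') (Fin t) ℚ} {g' : Matrix (Fin t) (Fin t') ℚ}
    (h1 : g * g' = 1) (h2 : g' * g = 1)
    {A : Submodule ℚ (Matrix (Fin t) (Fin t) ℚ × (Fin t → ℚ))}
    {B : Submodule ℚ (Matrix (Fin t') (Fin t') ℚ × (Fin t' → ℚ))}
    (h3 : ∀ N u, (N, u) ∈ A ↔ (g * N * g.transpose, g.mulVec u) ∈ B) :
    Module.finrank ℚ A = Module.finrank ℚ B := by
  have key : ∀ {a b : ℕ} {x : Matrix (Fin a) (Fin b) ℚ} {y : Matrix (Fin b) (Fin a) ℚ},
      y * x = 1 → ∀ N : Matrix (Fin b) (Fin b) ℚ,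
      y * (x * N * x.transpose) * y.transpose = N := by
    intro a b x y hxy N
    rw [Matrix.mul_assoc, Matrix.mul_assoc, ← Matrix.transpose_mul, hxy, Matrix.transpose_one,
      Matrix.mul_one, ← Matrix.mul_assoc, hxy, Matrix.one_mul]
  let T : (Matrix (Fin t) (Fin t) ℚ × (Fin t → ℚ)) ≃ₗ[ℚ]
      (Matrix (Fin t') (Fin t') ℚ × (Fin t' → ℚ)) :=
    { toFun := fun z => (g * z.1 * g.transpose, g.mulVec z.2)
      invFun := fun z => (g' * z.1 * g'.transpose, g'.mulVec z.2)
      map_add' := fun x y => by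
        simp [Matrix.mul_add, Matrix.add_mul, Matrix.mulVec_add]
      map_smul' := fun c x => by
        simp [Matrix.mulVec_smul]
      left_inv := fun z => by
        refine Prod.ext (key h2 z.1) ?_
        change g'.mulVec (g.mulVec z.2) = z.2
        rw [Matrix.mulVec_mulVec, h2, Matrix.one_mulVec]
      right_inv := fun z => by
        refine Prod.ext (key h1 z.1) ?_
        change g.mulVec (g'.mulVec z.2) = z.2
        rw [Matrix.mulVec_mulVec, h1, Matrix.one_mulVec] }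
  have hT : A.map T.toLinearMap = B := by
    ext z
    constructor
    · rintro ⟨x, hx, rfl⟩
      exact (h3 x.1 x.2).1 hx
    · intro hz
      refine ⟨T.symm z, ?_, T.apply_symm_apply z⟩
      have h4 : (g * (T.symm z).1 * g.transpose, g.mulVec (T.symm z).2) = z :=
        T.apply_symm_apply z
      have h5 := (h3 (T.symm z).1 (T.symm z).2).2 (by rw [h4]; exact hz)
      exact h5
  rw [← hT]
  exact (LinearEquiv.finrank_map_eq T A).symm

lemma dim_eq {t t' : ℕ} {g : Matrix (Fin t') (Fin t) ℚ} {g' : Matrix (Fin t) (Fin t') ℚ}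
    (h1 : g * g' = 1) (h2 : g' * g = 1) : t = t' := by
  have h := (Matrix.toLin'OfInv h1 h2).finrank_eq
  simpa using h.symm

end Pool.Agent.TH477.NA.G
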