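import Pool.Agent.TH477.NA.FD4
import Pool.Agent.TH477.NA.GD1

/-! Independent core forms and their algebras. -/

set_option autoImplicit false

namespace Pool.Agent.TH477.NA

/-- the relations are linearly independent -/
def Indep (c : PCode) : Prop :=
  LinearIndependent ℚ (fun k : Fin c.2.length =>
    (quad c.1.1 (c.2.getD k []), line c.1.1 (c.2.getD k [])))

lemma finrank_relSpan {c : PCode} (h : Indep c) : Module.finrank ℚ (relSpan c) = c.2.length := by
  rw [← span_rel c le_rfl, finrank_span_eq_card h, Fintype.card_fin]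

theorem corr_of_fdIso {c c' : PCode} (hc : CoreForm c) (hc' : CoreForm c') {m m' : ℕ}
    (hm : c.2.length ≤ m) (hm' : c'.2.length ≤ m') (h : FDIso (ecode c m) (ecode c' m')) :
    1 + c.1.1 + m = 1 + c'.1.1 + m' ∧
      ∃ (g : Matrix (Fin c'.1.1) (Fin c.1.1) ℚ) (g' : Matrix (Fin c.1.1) (Fin c'.1.1) ℚ),
        g * g' = 1 ∧ g' * g = 1 ∧
        ∀ M v, (M, v) ∈ relSpan c ↔ (g * M * g.transpose, g.mulVec v) ∈ relSpan c' := by
  obtain ⟨g, hg⟩ := h
  let g0 : (Fin (1 + c.1.1 + m) → ℚ) ≃ₗ[ℚ] (Fin (1 + c'.1.1 + m') → ℚ) := g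
  have hg0 : ∀ x y, g0 (fmul (ecode c m) x y) = fmul (ecode c' m') (g0 x) (g0 y) := hg
  refine ⟨by simpa using g0.finrank_eq, ?_⟩
  rw [← span_rel c hm, ← span_rel c' hm']
  refine G.corr_of_iso (nd_of_core hc hm) (nd_of_core hc' hm')
    ((theta c.1.1 m).symm ≪≫ₗ g0 ≪≫ₗ (theta c'.1.1 m')) (fun x y => ?_)
  obtain ⟨x, rfl⟩ := (theta c.1.1 m).surjective x
  obtain ⟨y, rfl⟩ := (theta c.1.1 m).surjective y
  rw [← theta_mul hc.1 m]
  have h1 : ∀ z, ((theta c.1.1 m).symm ≪≫ₗ g0 ≪≫ₗ (theta c'.1.1 m')) (theta c.1.1 m z) =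
      theta c'.1.1 m' (g0 z) := fun z => by
    simp only [LinearEquiv.trans_apply, LinearEquiv.symm_apply_apply]
  exact (h1 (fmul (ecode c m) x y)).trans
    ((congrArg (theta c'.1.1 m') (hg0 x y)).trans ((theta_mul hc'.1 m' _ _).trans
      (congrArg₂ (emul (fun k : Fin m' => quad c'.1.1 (c'.2.getD k []))
        (fun k => line c'.1.1 (c'.2.getD k []))) (h1 x).symm (h1 y).symm)))

/-- the algebra of an independent core form is a complete invariant -/
theorem inv_iff {c c' : PCode} (hc : CoreForm c) (hc' : CoreForm c') (hi : Indep c)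
    (hi' : Indep c') :
    FDIso (ecode c (c.2.length + c.1.2)) (ecode c' (c'.2.length + c'.1.2)) ↔ LinEq c c' := by
  constructor
  · intro h
    obtain ⟨hd, g, g', h1, h2, h3⟩ := corr_of_fdIso hc hc' (Nat.le_add_right _ _)
      (Nat.le_add_right _ _) h
    have ht := G.dim_eq h1 h2
    have hf := G.finrank_eq h1 h2 h3
    rw [finrank_relSpan hi, finrank_relSpan hi'] at hf
    exact ⟨by omega, g, g', h1, h2, h3⟩
  · rintro ⟨hr, g, g', h1, h2, h3⟩
    have hf := G.finrank_eq h1 h2 h3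
    rw [finrank_relSpan hi, finrank_relSpan hi'] at hf
    rw [← hf, ← hr]
    exact (fdIso_ecode_iff hc hc' (Nat.le_add_right _ _)
      (by rw [← hf]; exact Nat.le_add_right _ _)).2 ⟨g, g', h1, h2, h3⟩

theorem exists_indep_coreForm (p : Pres) : ∃ c : PCode, CoreForm c ∧ Indep c ∧
    Iso p (toPres c) := by
  obtain ⟨c, hc, hp⟩ := exists_coreForm p
  let S : Set (Matrix (Fin c.1.1) (Fin c.1.1) ℚ × (Fin c.1.1 → ℚ)) :=
    {x | ∃ r ∈ c.2, x = (quad c.1.1 r, line c.1.1 r)}
  have hSfin : S.Finite := by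
    have : S = (fun r => (quad c.1.1 r, line c.1.1 r)) '' {r | r ∈ c.2} := by
      ext x
      constructor
      · rintro ⟨r, hr, rfl⟩
        exact ⟨r, hr, rfl⟩
      · rintro ⟨r, hr, rfl⟩
        exact ⟨r, hr, rfl⟩
    rw [this]
    exact (List.finite_toSet c.2).image _
  obtain ⟨b, hb, hspan, hli⟩ := exists_linearIndependent ℚ S
  have hbfin : b.Finite := hSfin.subset hb
  have hch : ∀ x : Matrix (Fin c.1.1) (Fin c.1.1) ℚ × (Fin c.1.1 → ℚ),
      ∃ r : List ((ℕ × ℕ) × List ℕ), x ∈ b → r ∈ c.2 ∧ x = (quad c.1.1 r, line c.1.1 r) := by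
    intro x
    by_cases hx : x ∈ b
    · obtain ⟨r, hr, hxr⟩ := hb hx
      exact ⟨r, fun _ => ⟨hr, hxr⟩⟩
    · exact ⟨[], fun h => absurd h hx⟩
  choose ρ hρ using hch
  let l := hbfin.toFinset.toList
  have hl : ∀ x, x ∈ l ↔ x ∈ b := fun x => by
    simp only [l, Finset.mem_toList, Set.Finite.mem_toFinset]
  have hln : l.Nodup := Finset.nodup_toList _
  let c₁ : PCode := (c.1, l.map ρ)
  have hspan1 : relSpan c₁ = relSpan c := by
    change Submodule.span ℚ {x | ∃ r ∈ l.map ρ, x = (quad c.1.1 r, line c.1.1 r)} =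
      Submodule.span ℚ S
    rw [← hspan]
    congr 1
    ext x
    constructor
    · rintro ⟨r, hr, rfl⟩
      obtain ⟨y, hy, rfl⟩ := List.mem_map.1 hr
      rw [← (hρ y ((hl y).1 hy)).2]
      exact (hl y).1 hy
    · intro hx
      exact ⟨ρ x, List.mem_map.2 ⟨x, (hl x).2 hx, rfl⟩, (hρ x hx).2⟩
  have hsub : ∀ r ∈ c₁.2, r ∈ c.2 := by
    intro r hr
    obtain ⟨y, hy, rfl⟩ := List.mem_map.1 hr
    exact (hρ y ((hl y).1 hy)).1
  have hc₁ : CoreForm c₁ := by
    refine ⟨fun r hr => hc.1 r (hsub r hr), ?_, ?_⟩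
    · intro v hv
      rw [hspan1] at hv
      exact hc.2.1 v hv
    · intro f hf
      apply hc.2.2 f
      have key : ∀ x ∈ relSpan c₁, Matrix.vecMul f x.1 = 0 ∧ x.1.mulVec f = 0 := by
        intro x hx
        induction hx using Submodule.span_induction with
        | mem x hx =>
          obtain ⟨r, hr, rfl⟩ := hx
          exact hf r hr
        | zero => simp
        | add x y _ _ hx hy =>
          rw [Prod.fst_add, Matrix.vecMul_add, Matrix.add_mulVec, hx.1, hx.2, hy.1, hy.2]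
          simp
        | smul a x _ hx =>
          rw [Prod.smul_fst, Matrix.vecMul_smul, Matrix.smul_mulVec, hx.1, hx.2]
          simp
      intro r hr
      have hmem : (quad c.1.1 r, line c.1.1 r) ∈ relSpan c₁ := by
        rw [hspan1]
        exact Submodule.subset_span ⟨r, hr, rfl⟩
      exact key _ hmem
  have hi : Indep c₁ := by
    have hlen : c₁.2.length = l.length := List.length_map ρ
    let e : Fin c₁.2.length → b := fun k =>
      ⟨l[(k : ℕ)]'(by rw [← hlen]; exact k.2), (hl _).1 (List.getElem_mem _)⟩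
    have he : Function.Injective e := by
      intro k k' h
      have h1 := congrArg Subtype.val h
      exact Fin.ext ((List.Nodup.getElem_inj_iff hln).1 h1)
    have h2 := hli.comp e he
    have h3 : (fun k : Fin c₁.2.length =>
        (quad c₁.1.1 (c₁.2.getD k []), line c₁.1.1 (c₁.2.getD k []))) =
        (fun x : b => (x : Matrix (Fin c.1.1) (Fin c.1.1) ℚ × (Fin c.1.1 → ℚ))) ∘ e := by
      funext k
      have h4 : c₁.2.getD k [] = ρ (l[(k : ℕ)]'(by rw [← hlen]; exact k.2)) := by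
        rw [List.getD_eq_getElem _ _ k.2]
        exact List.getElem_map ρ
      rw [h4]
      exact (hρ _ ((hl _).1 (List.getElem_mem _))).2.symm
    rw [Indep, h3]
    exact h2
  refine ⟨c₁, hc₁, hi, hp.trans ((iso_iff_linEq hc hc₁).2 ⟨rfl, 1, 1, ?_, ?_, ?_⟩)⟩
  · exact Matrix.one_mul _
  · exact Matrix.one_mul _
  · intro M v
    rw [hspan1]
    have h5 : ((1 : Matrix (Fin c.1.1) (Fin c.1.1) ℚ) * M *
        (1 : Matrix (Fin c.1.1) (Fin c.1.1) ℚ).transpose,
        (1 : Matrix (Fin c.1.1) (Fin c.1.1) ℚ).mulVec v) = (M, v) := by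
      rw [Matrix.transpose_one, Matrix.one_mul, Matrix.mul_one, Matrix.one_mulVec]
    exact Iff.of_eq (congrArg (· ∈ relSpan c) h5.symm)

end Pool.Agent.TH477.NA
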