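import Pool.Agent.TH477.NA.GD2

/-! Certificates of independence and the computable invariant. -/

set_option autoImplicit false

namespace Pool.Agent.TH477.NA

/-- pairing of a functional with a relation -/
def prg (D : Po) (R : List ((ℕ × ℕ) × List ℕ)) : Co :=
  D.foldl (fun acc u => cadd acc (cmul u.1 (coef (toPo R) u.2))) czero

lemma cv_coef_toPo (R : List ((ℕ × ℕ) × List ℕ)) (w : List ℕ) :
    cv (coef (toPo R) w) = cf R w := by
  rw [cv_coef, cf, toPo, List.map_map]
  congr 2
  funext u
  simp [cv]

lemma prg_aux (D : Po) (R : List ((ℕ × ℕ) × List ℕ)) : ∀ acc : Co,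
    cv (D.foldl (fun acc u => cadd acc (cmul u.1 (coef (toPo R) u.2))) acc) =
      cv acc + (D.map fun u => cv u.1 * cf R u.2).sum := by
  induction D with
  | nil => intro acc; simp
  | cons u D ih =>
    intro acc
    rw [List.foldl_cons, ih, cv_add, cv_mul, cv_coef_toPo, List.map_cons, List.sum_cons]
    ring

lemma cv_prg (D : Po) (R : List ((ℕ × ℕ) × List ℕ)) :
    cv (prg D R) = (D.map fun u => cv u.1 * cf R u.2).sum := by
  rw [prg, prg_aux, cv_zero, zero_add]

/-- certificate check for independence -/
def indB (c : PCode) (z : List Po) : Bool :=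
  (List.range c.2.length).all fun k => (List.range c.2.length).all fun l =>
    ceq (prg (z.getD k []) (c.2.getD l [])) (if k = l then cone else czero)

lemma cv_delta (k l : ℕ) : cv (if k = l then cone else czero) = if k = l then 1 else 0 := by
  split_ifs
  · exact cv_one
  · exact cv_zero

theorem indep_of_cert {c : PCode} (hs : ∀ R ∈ c.2, Shape c.1.1 R) {z : List Po}
    (h : indB c z = true) : Indep c := by
  have hz : ∀ k l : Fin c.2.length, cv (prg (z.getD k []) (c.2.getD l [])) =
      if (k : ℕ) = l then 1 else 0 := by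
    intro k l
    have h1 := List.all_eq_true.1 (List.all_eq_true.1 h k (List.mem_range.2 k.2)) l
      (List.mem_range.2 l.2)
    rw [ceq_iff, cv_delta] at h1
    exact h1
  rw [Indep, Fintype.linearIndependent_iff]
  intro a ha k
  have hq : ∑ l, a l • quad c.1.1 (c.2.getD l []) = 0 := by
    have := congrArg Prod.fst ha
    rw [Prod.fst_sum] at this
    exact this
  have hv : ∑ l, a l • line c.1.1 (c.2.getD l []) = 0 := by
    have := congrArg Prod.snd ha
    rw [Prod.snd_sum] at this
    exact this
  have hw : ∀ w : List ℕ, ∑ l : Fin c.2.length, a l * cf (c.2.getD l []) w = 0 := by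
    intro w
    by_cases h1 : ∃ i < c.1.1, w = [i + 1]
    · obtain ⟨i, hi, rfl⟩ := h1
      have := congrFun hv ⟨i, hi⟩
      rw [Finset.sum_apply] at this
      exact this
    · by_cases h2 : ∃ i < c.1.1, ∃ j < c.1.1, w = [i + 1, j + 1, 0]
      · obtain ⟨i, hi, j, hj, rfl⟩ := h2
        have := congrFun (congrFun hq ⟨i, hi⟩) ⟨j, hj⟩
        rw [Matrix.sum_apply] at this
        exact this
      · push Not at h1 h2
        refine Finset.sum_eq_zero fun l _ => ?_
        rw [cf_eq_zero (shape_getD hs l) h1 h2, mul_zero]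
  have hD : ∀ D : Po, ∑ l : Fin c.2.length, a l * (D.map fun u => cv u.1 *
      cf (c.2.getD l []) u.2).sum = 0 := by
    intro D
    induction D with
    | nil => simp
    | cons u D ih =>
      simp only [List.map_cons, List.sum_cons, mul_add]
      rw [Finset.sum_add_distrib, ih, add_zero]
      have h3 : ∑ l : Fin c.2.length, a l * (cv u.1 * cf (c.2.getD l []) u.2) =
          cv u.1 * ∑ l : Fin c.2.length, a l * cf (c.2.getD l []) u.2 := by
        rw [Finset.mul_sum]
        exact Finset.sum_congr rfl fun l _ => by ring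
      rw [h3, hw, mul_zero]
  have h4 := hD (z.getD k [])
  rw [Finset.sum_eq_single k] at h4
  · rw [← cv_prg, hz, if_pos rfl, mul_one] at h4
    exact h4
  · intro l _ hl
    have : (k : ℕ) ≠ l := fun h => hl (Fin.ext h.symm)
    rw [← cv_prg, hz, if_neg this, mul_zero]
  · simp

theorem exists_indB {c : PCode} (hi : Indep c) : ∃ z : List Po, indB c z = true := by
  let P := Fintype.linearCombination ℚ (fun k : Fin c.2.length =>
    (quad c.1.1 (c.2.getD k []), line c.1.1 (c.2.getD k [])))
  have hP : LinearMap.ker P = ⊥ := by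
    rw [LinearMap.ker_eq_bot']
    intro a ha
    funext k
    have h1 : ∑ l, a l • (quad c.1.1 (c.2.getD l []), line c.1.1 (c.2.getD l [])) = 0 := by
      rw [← ha]
      exact (Fintype.linearCombination_apply _ _ _).symm
    exact (Fintype.linearIndependent_iff.1 hi) a h1 k
  obtain ⟨Q, hQ⟩ := P.exists_leftInverse_of_injective hP
  have hQ' : ∀ k l : Fin c.2.length, Q (quad c.1.1 (c.2.getD l []), line c.1.1 (c.2.getD l [])) k =
      if (k : ℕ) = l then 1 else 0 := by
    intro k l
    have h1 : P (Pi.single l 1) = (quad c.1.1 (c.2.getD l []), line c.1.1 (c.2.getD l [])) := by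
      change Fintype.linearCombination ℚ _ (Pi.single l 1) = _
      rw [Fintype.linearCombination_apply_single, one_smul]
    rw [← h1]
    have h2 : Q (P (Pi.single l 1)) = Pi.single l 1 := LinearMap.congr_fun hQ _
    rw [h2, Pi.single_apply]
    by_cases h : k = l
    · rw [if_pos h, if_pos (congrArg _ h)]
    · rw [if_neg h, if_neg fun h' => h (Fin.ext h')]
  obtain ⟨z, hz⟩ := exists_list_getD ([] : Po) c.2.length
    (fun k D => ∀ hk : k < c.2.length, ∀ R : List ((ℕ × ℕ) × List ℕ),
      (D.map fun u => cv u.1 * cf R u.2).sum = Q (quad c.1.1 R, line c.1.1 R) ⟨k, hk⟩) (by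
    intro k hk
    choose γ hγ using fun q : ℚ => exists_cv q
    let D1 : Po := (List.finRange c.1.1).flatMap fun i => (List.finRange c.1.1).map fun j =>
      (γ (Q (Matrix.vecMulVec (Pi.single i 1) (Pi.single j 1), 0) ⟨k, hk⟩),
        [(i : ℕ) + 1, (j : ℕ) + 1, 0])
    let D2 : Po := (List.finRange c.1.1).map fun i =>
      (γ (Q (0, Pi.single i 1) ⟨k, hk⟩), [(i : ℕ) + 1])
    refine ⟨D1 ++ D2, fun _ R => ?_⟩
    have e1 : (D1.map fun u => cv u.1 * cf R u.2).sum = ∑ i, ∑ j,
        Q (Matrix.vecMulVec (Pi.single i 1) (Pi.single j 1), 0) ⟨k, hk⟩ * quad c.1.1 R i j := by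
      simp only [D1, List.map_flatMap, List.map_map, Function.comp_def, hγ]
      rw [List.flatMap_def, List.sum_flatten, List.map_map, ← List.ofFn_eq_map, List.sum_ofFn]
      refine Finset.sum_congr rfl fun i _ => ?_
      rw [Function.comp_apply, ← List.ofFn_eq_map, List.sum_ofFn]
      rfl
    have e2 : (D2.map fun u => cv u.1 * cf R u.2).sum = ∑ i,
        Q (0, Pi.single i 1) ⟨k, hk⟩ * line c.1.1 R i := by
      simp only [D2, List.map_map, Function.comp_def, hγ]
      rw [← List.ofFn_eq_map, List.sum_ofFn]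
      rfl
    rw [List.map_append, List.sum_append, e1, e2]
    have hdec : ∀ (N : Matrix (Fin c.1.1) (Fin c.1.1) ℚ) (v : Fin c.1.1 → ℚ), (N, v) =
        ∑ i, ∑ j, N i j • ((Matrix.vecMulVec (Pi.single i 1) (Pi.single j 1), 0) :
          Matrix (Fin c.1.1) (Fin c.1.1) ℚ × (Fin c.1.1 → ℚ)) +
        ∑ i, v i • ((0, Pi.single i 1) :
          Matrix (Fin c.1.1) (Fin c.1.1) ℚ × (Fin c.1.1 → ℚ)) := by
      intro N v
      apply Prod.ext
      · simp only [Prod.fst_add, Prod.fst_sum, Prod.smul_fst, smul_zero, Finset.sum_const_zero,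
          add_zero]
        ext a b
        simp only [Matrix.sum_apply, Matrix.smul_apply, Matrix.vecMulVec_apply, smul_eq_mul]
        rw [Finset.sum_eq_single a, Finset.sum_eq_single b]
        · simp
        · intro d _ hd
          simp [hd.symm]
        · simp
        · intro d _ hd
          simp [hd.symm]
        · simp
      · simp only [Prod.snd_add, Prod.snd_sum, Prod.smul_snd, smul_zero, Finset.sum_const_zero,
          zero_add]
        ext a
        simp [Finset.sum_apply, Pi.single_apply]
    rw [hdec (quad c.1.1 R) (line c.1.1 R)]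
    simp only [map_add, map_sum, map_smul, Pi.add_apply, Finset.sum_apply, Pi.smul_apply,
      smul_eq_mul]
    congr 1
    · exact Finset.sum_congr rfl fun i _ => Finset.sum_congr rfl fun j _ => mul_comm _ _
    · exact Finset.sum_congr rfl fun i _ => mul_comm _ _)
  refine ⟨z, List.all_eq_true.2 fun k hk => List.all_eq_true.2 fun l hl => ?_⟩
  have hk' := List.mem_range.1 hk
  have hl' := List.mem_range.1 hl
  rw [ceq_iff, cv_delta, cv_prg, hz k hk' hk']
  exact hQ' ⟨k, hk'⟩ ⟨l, hl'⟩

end Pool.Agent.TH477.NA
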