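import Pool.Agent.TH477.NA.FP

/-! Quotients of the free nonassociative algebra, total algebras, linear-quadratic presentations. -/

set_option autoImplicit false

open TensorProduct

namespace Pool.Agent.TH477.NA

section QA

variable {F : Type*} [Field F] {X : Type*}


/-- the algebra presented by `R` -/
def QA (R : Set (MonoidAlgebra F (FreeMagma X))) : Type _ :=
  MonoidAlgebra F (FreeMagma X) ⧸ idealOf R

variable (R : Set (MonoidAlgebra F (FreeMagma X)))

noncomputable instance : AddCommGroup (QA R) :=
  inferInstanceAs (AddCommGroup (MonoidAlgebra F (FreeMagma X) ⧸ idealOf R))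

noncomputable instance : Module F (QA R) :=
  inferInstanceAs (Module F (MonoidAlgebra F (FreeMagma X) ⧸ idealOf R))

/-- the projection -/
noncomputable def qpr : MonoidAlgebra F (FreeMagma X) →ₗ[F] QA R := (idealOf R).mkQ

lemma qpr_surjective : Function.Surjective (qpr R) := Submodule.mkQ_surjective _

lemma qpr_ker : LinearMap.ker (qpr R) = idealOf R := Submodule.ker_mkQ _

lemma qpr_eq_zero {x : (MonoidAlgebra F (FreeMagma X))} : qpr R x = 0 ↔ x ∈ idealOf R := by
  rw [← qpr_ker R, LinearMap.mem_ker]

/-- multiplication of the quotient as a bilinear map -/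
noncomputable def qmulL : QA R →ₗ[F] QA R →ₗ[F] QA R :=
  Submodule.liftQ (idealOf R)
    { toFun := fun a => Submodule.liftQ (idealOf R) (qpr R ∘ₗ LinearMap.mulLeft F a) (by
        intro x hx
        rw [LinearMap.mem_ker, LinearMap.comp_apply, LinearMap.mulLeft_apply, qpr_eq_zero]
        exact (idealOf_mul hx a).1)
      map_add' := by
        intro a b
        apply Submodule.linearMap_qext
        apply LinearMap.ext
        intro x
        change qpr R ((a + b) * x) = qpr R (a * x) + qpr R (b * x)
        rw [add_mul, map_add]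
      map_smul' := by
        intro c a
        apply Submodule.linearMap_qext
        apply LinearMap.ext
        intro x
        change qpr R ((c • a) * x) = c • qpr R (a * x)
        rw [smul_mul_assoc, map_smul] }
    (by
      intro a ha
      rw [LinearMap.mem_ker]
      apply Submodule.linearMap_qext
      apply LinearMap.ext
      intro x
      change qpr R (a * x) = 0
      rw [qpr_eq_zero]
      exact (idealOf_mul ha x).2)

noncomputable instance : Mul (QA R) := ⟨fun a b => qmulL R a b⟩

lemma qpr_mul (a b : (MonoidAlgebra F (FreeMagma X))) : qpr R (a * b) = qpr R a * qpr R b := rfl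

noncomputable instance : NonUnitalNonAssocRing (QA R) where
  left_distrib a b c := by
    change qmulL R a (b + c) = qmulL R a b + qmulL R a c
    rw [map_add]
  right_distrib a b c := by
    change qmulL R (a + b) c = qmulL R a c + qmulL R b c
    rw [map_add, LinearMap.add_apply]
  zero_mul a := by
    change qmulL R 0 a = 0
    rw [map_zero, LinearMap.zero_apply]
  mul_zero a := by
    change qmulL R a 0 = 0
    rw [map_zero]

instance : IsScalarTower F (QA R) (QA R) where
  smul_assoc c a b := by
    change qmulL R (c • a) b = c • qmulL R a b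
    rw [map_smul, LinearMap.smul_apply]

instance : SMulCommClass F (QA R) (QA R) where
  smul_comm c a b := by
    change c • qmulL R a b = qmulL R a (c • b)
    rw [map_smul]

/-- homomorphisms out of the presented algebra -/
lemma exists_lift {A : Type*} [NonUnitalNonAssocRing A] [Module F A] [IsScalarTower F A A]
    [SMulCommClass F A A] (f : X → A)
    (hf : ∀ r ∈ R, FreeNonUnitalNonAssocAlgebra.lift F f r = 0) :
    ∃ Φ : QA R →ₗ[F] A, (∀ a b, Φ (a * b) = Φ a * Φ b) ∧
      ∀ p : (MonoidAlgebra F (FreeMagma X)), Φ (qpr R p) = FreeNonUnitalNonAssocAlgebra.lift F f p := by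
  let L := FreeNonUnitalNonAssocAlgebra.lift F f
  let Ll : (MonoidAlgebra F (FreeMagma X)) →ₗ[F] A := { toFun := L, map_add' := map_add L, map_smul' := map_smul L }
  have hker : idealOf R ≤ LinearMap.ker Ll := by
    apply sInf_le
    refine ⟨fun r hr => hf r hr, ?_⟩
    intro a x hx
    have hx' : L x = 0 := hx
    constructor
    · change L (a * x) = 0
      rw [map_mul, hx', mul_zero]
    · change L (x * a) = 0
      rw [map_mul, hx', zero_mul]
  let Φ : QA R →ₗ[F] A := Submodule.liftQ (idealOf R) Ll hker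
  have hΦ : ∀ p : (MonoidAlgebra F (FreeMagma X)), Φ (qpr R p) = L p := fun p => Submodule.liftQ_apply _ Ll p
  refine ⟨Φ, ?_, hΦ⟩
  intro a b
  obtain ⟨x, rfl⟩ := qpr_surjective R a
  obtain ⟨y, rfl⟩ := qpr_surjective R b
  rw [← qpr_mul, hΦ, hΦ, hΦ, map_mul]

end QA

section Tot

variable {F : Type*} [Field F] {V : Type*} [AddCommGroup V] [Module F V]

/-- the algebra on `V` with multiplication `ν` -/
def TotAlg (_ν : V ⊗[F] V →ₗ[F] V) : Type _ := V

variable (ν : V ⊗[F] V →ₗ[F] V)

instance : AddCommGroup (TotAlg ν) := inferInstanceAs (AddCommGroup V)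

instance : Module F (TotAlg ν) := inferInstanceAs (Module F V)

noncomputable instance : Mul (TotAlg ν) := ⟨fun a b => ν ((a : V) ⊗ₜ[F] (b : V))⟩

lemma tot_mul (a b : TotAlg ν) : a * b = (ν ((a : V) ⊗ₜ[F] (b : V)) : V) := rfl

noncomputable instance : NonUnitalNonAssocRing (TotAlg ν) where
  left_distrib a b c :=
    (congrArg ν (TensorProduct.tmul_add (R := F) (M := V) (N := V) a b c)).trans
      (ν.map_add _ _)
  right_distrib a b c :=
    (congrArg ν (TensorProduct.add_tmul (R := F) (M := V) (N := V) a b c)).trans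
      (ν.map_add _ _)
  zero_mul a :=
    (congrArg ν (TensorProduct.zero_tmul (R := F) V (a : V))).trans ν.map_zero
  mul_zero a :=
    (congrArg ν (TensorProduct.tmul_zero (R := F) V (a : V))).trans ν.map_zero

instance : IsScalarTower F (TotAlg ν) (TotAlg ν) where
  smul_assoc c a b :=
    (congrArg ν (TensorProduct.smul_tmul' (R := F) (M := V) (N := V) c a b).symm).trans
      (ν.map_smul _ _)

instance : SMulCommClass F (TotAlg ν) (TotAlg ν) where
  smul_comm c a b :=
    ((congrArg ν (TensorProduct.tmul_smul (R := F) (M := V) (N := V) c a b)).trans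
      (ν.map_smul _ _)).symm

/-- the identity as a linear map -/
def toTot : V →ₗ[F] TotAlg ν := LinearMap.id

lemma mu_tot (s : V ⊗[F] V) :
    mu F (TotAlg ν) (TensorProduct.map (toTot ν) (toTot ν) s) = toTot ν (ν s) := by
  induction s using TensorProduct.induction_on with
  | zero => simp
  | tmul a b => simp [toTot]; rfl
  | add x y hx hy => simp only [map_add, hx, hy]

end Tot

section LQ

variable {F : Type*} [Field F] {X : Type*} [Fintype X]


/-- linear forms -/
noncomputable def lin (F : Type*) [Field F] (X : Type*) [Fintype X] :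
    (X → F) →ₗ[F] MonoidAlgebra F (FreeMagma X) :=
  Fintype.linearCombination F (fun x => mb F X (FreeMagma.of x))

lemma lin_apply (v : X → F) : lin F X v = ∑ x, v x • mb F X (FreeMagma.of x) := by
  rw [lin, Fintype.linearCombination_apply]

/-- the linear-quadratic relation attached to `s` -/
noncomputable def lqr (ν : (X → F) ⊗[F] (X → F) →ₗ[F] (X → F)) :
    (X → F) ⊗[F] (X → F) →ₗ[F] MonoidAlgebra F (FreeMagma X) :=
  (mu F (MonoidAlgebra F (FreeMagma X))) ∘ₗ (TensorProduct.map (lin F X) (lin F X)) -
    (lin F X) ∘ₗ ν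

lemma lin_mem_PS (v : X → F) : lin F X v ∈ PS F (Set.range (FreeMagma.of (α := X))) := by
  rw [lin_apply]
  exact Submodule.sum_mem _ fun x _ => Submodule.smul_mem _ _ (mb_mem_PS ⟨x, rfl⟩)

/-- a product which is a linear form vanishes -/
lemma eq_zero_of_mu_lin {z : (MonoidAlgebra F (FreeMagma X)) ⊗[F] (MonoidAlgebra F (FreeMagma X))} {u : X → F} (h : mu F (MonoidAlgebra F (FreeMagma X)) z = lin F X u) : z = 0 := by
  have h1 : z ∈ pre (PS F (Set.range (FreeMagma.of (α := X)))) := by
    rw [mem_pre, h]; exact lin_mem_PS u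
  have h2 := pre_PS_le (T := ∅) (by
    rintro a c ⟨x, hx⟩
    exfalso
    have h' : FreeMagma.of x = FreeMagma.mul a c := hx
    cases h') h1
  have h3 : sq (PS F (∅ : Set (FreeMagma X))) = ⊥ := by
    rw [eq_bot_iff, sq_le_iff]
    intro a ha b _
    have : a = 0 := by simpa [PS] using ha
    rw [this]; simp
  rw [h3] at h2
  exact h2

variable (ν : (X → F) ⊗[F] (X → F) →ₗ[F] (X → F)) (D : Submodule F ((X → F) ⊗[F] (X → F)))

/-- the algebra homomorphism onto the total algebra -/
lemma exists_tot {R : Set (MonoidAlgebra F (FreeMagma X))} (hR : R ⊆ D.map (lqr ν)) :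
    ∃ Ψ : QA R →ₗ[F] TotAlg ν, (∀ a b, Ψ (a * b) = Ψ a * Ψ b) ∧
      ∀ v : X → F, Ψ (qpr R (lin F X v)) = toTot ν v := by
  classical
  let f : X → TotAlg ν := fun x => toTot ν (Pi.single x 1)
  have hlin : ∀ v : X → F, FreeNonUnitalNonAssocAlgebra.lift F f (lin F X v) = toTot ν v := by
    intro v
    rw [lin_apply, map_sum]
    have h1 : ∀ x, FreeNonUnitalNonAssocAlgebra.lift F f (v x • mb F X (FreeMagma.of x))
        = toTot ν (v x • Pi.single x 1) := by
      intro x
      rw [map_smul, mb_apply, map_smul]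
      congr 1
      exact FreeNonUnitalNonAssocAlgebra.lift_of_apply F f x
    rw [Finset.sum_congr rfl (fun x _ => h1 x), ← map_sum]
    congr 1
    ext y
    simp [Pi.single_apply]
  have hker : ∀ r ∈ R, FreeNonUnitalNonAssocAlgebra.lift F f r = 0 := by
    intro r hr
    obtain ⟨d, _, rfl⟩ := hR hr
    let L := FreeNonUnitalNonAssocAlgebra.lift F f
    let Ll : (MonoidAlgebra F (FreeMagma X)) →ₗ[F] TotAlg ν := { toFun := L, map_add' := map_add L, map_smul' := map_smul L }
    change Ll (lqr ν d) = 0
    rw [lqr, LinearMap.sub_apply, map_sub, LinearMap.comp_apply, LinearMap.comp_apply,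
      mu_natural Ll (fun a b => map_mul L a b),
      ← LinearMap.comp_apply (TensorProduct.map Ll Ll), ← TensorProduct.map_comp]
    have h2 : Ll ∘ₗ lin F X = toTot ν := LinearMap.ext hlin
    rw [h2, mu_tot]
    have h3 : Ll (lin F X (ν d)) = toTot ν (ν d) := hlin _
    rw [h3, sub_self]
  obtain ⟨Ψ, h1, h2⟩ := exists_lift R f hker
  exact ⟨Ψ, h1, fun v => by rw [h2, hlin]⟩

/-- generators of the presented algebra -/
noncomputable def gen (R : Set (MonoidAlgebra F (FreeMagma X))) : (X → F) →ₗ[F] QA R :=
  qpr R ∘ₗ lin F X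

lemma gen_injective {R : Set (MonoidAlgebra F (FreeMagma X))} (hR : R ⊆ D.map (lqr ν)) : Function.Injective (gen R) := by
  obtain ⟨Ψ, -, h⟩ := exists_tot ν D hR
  intro v w hvw
  have h1 := h v
  have h2 := h w
  have h3 : qpr R (lin F X v) = qpr R (lin F X w) := hvw
  rw [h3, h2] at h1
  exact h1.symm

lemma mu_gen {R : Set (MonoidAlgebra F (FreeMagma X))} (hR' : ∀ d ∈ D, lqr ν d ∈ idealOf R) {d : (X → F) ⊗[F] (X → F)}
    (hd : d ∈ D) : mu F (QA R) (TensorProduct.map (gen R) (gen R) d) = gen R (ν d) := by
  have h1 := hR' d hd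
  rw [← qpr_eq_zero, lqr, LinearMap.sub_apply, map_sub, sub_eq_zero, LinearMap.comp_apply,
    LinearMap.comp_apply, mu_natural (qpr R) (qpr_mul R),
    ← LinearMap.comp_apply (TensorProduct.map (qpr R) (qpr R)),
    ← TensorProduct.map_comp] at h1
  exact h1

lemma pre_gen {R : Set (MonoidAlgebra F (FreeMagma X))} (hR : R ⊆ D.map (lqr ν)) {t : QA R ⊗[F] QA R}
    (ht : t ∈ pre (LinearMap.range (gen R))) :
    ∃ d ∈ D, t = TensorProduct.map (gen R) (gen R) d := by
  obtain ⟨t', rfl⟩ := TensorProduct.map_surjective (qpr_surjective R) (qpr_surjective R) t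
  rw [mem_pre, ← mu_natural (qpr R) (qpr_mul R)] at ht
  obtain ⟨v, hv⟩ := ht
  have h1 : mu F (MonoidAlgebra F (FreeMagma X)) t' - lin F X v ∈ idealOf R := by
    rw [← qpr_eq_zero, map_sub, ← hv]
    exact sub_self _
  obtain ⟨r, hr, _, ⟨n, hn, rfl⟩, hrn⟩ := Submodule.mem_sup.1 (idealOf_le R h1)
  obtain ⟨d, hd, rfl⟩ := Submodule.span_le.2 hR hr
  refine ⟨d, hd, ?_⟩
  have h2 : mu F (MonoidAlgebra F (FreeMagma X)) (t' - n - TensorProduct.map (lin F X) (lin F X) d) = lin F X (v - ν d) := by
    rw [map_sub, map_sub, map_sub]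
    rw [lqr, LinearMap.sub_apply, LinearMap.comp_apply, LinearMap.comp_apply] at hrn
    rw [eq_sub_iff_add_eq] at hrn
    rw [← hrn]
    abel
  have h3 := eq_zero_of_mu_lin h2
  have h4 : t' = n + TensorProduct.map (lin F X) (lin F X) d := by
    rw [sub_sub, sub_eq_zero] at h3
    exact h3
  have h5 : TensorProduct.map (qpr R) (qpr R) n = 0 := by
    rw [← qpr_ker R] at hn
    exact nT_le_ker (qpr R) hn
  rw [h4, map_add, h5, zero_add, ← LinearMap.comp_apply, ← TensorProduct.map_comp]
  rfl

lemma presenting_gen {R : Set (MonoidAlgebra F (FreeMagma X))} (hR : R ⊆ D.map (lqr ν)) :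
    Presenting (LinearMap.range (gen R)) := by
  refine ⟨inferInstance, ?_, ?_⟩
  · intro t ht
    obtain ⟨d, -, rfl⟩ := pre_gen ν D hR ht
    refine ⟨TensorProduct.map (gen R).rangeRestrict (gen R).rangeRestrict d, ?_⟩
    rw [← LinearMap.comp_apply, ← TensorProduct.map_comp]
    rfl
  · intro T hT hTmul
    rw [eq_top_iff]
    have hof : ∀ x : X, mb F X (FreeMagma.of x) ∈ LinearMap.range (lin F X) := by
      classical
      intro x
      refine ⟨Pi.single x 1, ?_⟩
      rw [lin_apply, Finset.sum_eq_single x]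
      · simp
      · intro y _ hy
        rw [Pi.single_eq_of_ne hy, zero_smul]
      · simp
    have key : ∀ w : FreeMagma X, mb F X w ∈ T.comap (qpr R) := by
      intro w
      induction w using FreeMagma.rec with
      | of x =>
        obtain ⟨v, hv⟩ := hof x
        rw [← hv]
        exact hT ⟨v, rfl⟩
      | mul a b iha ihb =>
        change mb F X (a * b) ∈ T.comap (qpr R)
        rw [← mb_mul, Submodule.mem_comap, qpr_mul]
        exact hTmul _ iha _ ihb
    have h1 : (⊤ : Submodule F (MonoidAlgebra F (FreeMagma X))) ≤ T.comap (qpr R) := by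
      rw [← (mb F X).span_eq]
      apply Submodule.span_le.2
      rintro _ ⟨w, rfl⟩
      exact key w
    intro a _
    obtain ⟨x, rfl⟩ := qpr_surjective R a
    exact h1 (Submodule.mem_top (x := x))

end LQ

end Pool.Agent.TH477.NA
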