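import Pool.Agent.TH477.NA.Quot

/-! The core computed by a descending iteration; realisation of reduced partial algebras. -/

set_option autoImplicit false

open TensorProduct

namespace Pool.Agent.TH477.NA

section Desc

variable {F : Type*} [Field F]
variable {A : Type*} [NonUnitalNonAssocRing A] [Module F A] [IsScalarTower F A A]
  [SMulCommClass F A A]

/-- `W₀ = V`, `W_{k+1} = W_k ∩ supp (m⁻¹ W_k)` -/
noncomputable def desc (V : Submodule F A) : ℕ → Submodule F A
  | 0 => V
  | k + 1 => desc V k ⊓ supp (pre (desc V k))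

lemma desc_le (V : Submodule F A) (k : ℕ) : desc V k ≤ V := by
  induction k with
  | zero => exact le_rfl
  | succ k ih => exact inf_le_left.trans ih

lemma Presenting.core_selfSupp {V : Submodule F A} (hV : Presenting V) :
    SelfSupp (core F A) := by
  obtain ⟨W, -, hW, -⟩ := hV.exists_terminal
  have := hW.1.fin
  refine ⟨Submodule.finiteDimensional_of_le hW.1.core_le, ?_⟩
  rw [hW.pre_core]
  exact hW.core_eq.le

lemma Presenting.core_le_desc {V : Submodule F A} (hV : Presenting V) (k : ℕ) :
    core F A ≤ desc V k := by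
  induction k with
  | zero => exact hV.core_le
  | succ k ih => exact le_inf ih (hV.core_selfSupp.2.trans (supp_mono (pre_mono ih)))

lemma Presenting.desc_alt {V : Submodule F A} (hV : Presenting V) (k : ℕ) :
    Module.finrank F (desc V k) + k ≤ Module.finrank F V ∨ desc V k = core F A := by
  have hfd := hV.fin
  induction k with
  | zero => exact Or.inl le_rfl
  | succ k ih =>
    rcases ih with h | h
    · by_cases he : desc V (k + 1) = desc V k
      · right
        apply le_antisymm _ (hV.core_le_desc _)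
        rw [he]
        apply le_sSup
        have : FiniteDimensional F (desc V k) := Submodule.finiteDimensional_of_le (desc_le V k)
        refine ⟨this, ?_⟩
        calc desc V k = desc V (k + 1) := he.symm
          _ ≤ supp (pre (desc V k)) := inf_le_right
      · left
        have : FiniteDimensional F (desc V k) := Submodule.finiteDimensional_of_le (desc_le V k)
        have hlt : desc V (k + 1) < desc V k := lt_of_le_of_ne inf_le_left he
        have := Submodule.finrank_lt_finrank_of_lt hlt
        omega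
    · right
      apply le_antisymm _ (hV.core_le_desc _)
      exact inf_le_left.trans h.le

theorem Presenting.core_eq_desc {V : Submodule F A} (hV : Presenting V) :
    core F A = desc V (Module.finrank F V) := by
  rcases hV.desc_alt (Module.finrank F V) with h | h
  · have hfd := hV.fin
    have hfd' : FiniteDimensional F (desc V (Module.finrank F V)) :=
      Submodule.finiteDimensional_of_le (desc_le V _)
    have h0 : Module.finrank F (desc V (Module.finrank F V)) = 0 := by omega
    have h1 : desc V (Module.finrank F V) = ⊥ := Submodule.finrank_eq_zero.1 h0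
    apply le_antisymm (hV.core_le_desc _)
    rw [h1]
    exact bot_le
  · exact h.symm

theorem Presenting.quot_finite {V : Submodule F A} (hV : Presenting V) :
    FiniteDimensional F (A ⧸ (core F A ⊔ LinearMap.range (mu F A))) := by
  have hfd := hV.fin
  let q : V →ₗ[F] A ⧸ (core F A ⊔ LinearMap.range (mu F A)) :=
    (Submodule.mkQ _) ∘ₗ V.subtype
  have hsurj : Function.Surjective q := by
    intro x
    obtain ⟨a, rfl⟩ := Submodule.mkQ_surjective _ x
    have ha : a ∈ V ⊔ LinearMap.range (mu F A) := by rw [hV.sup_range]; trivial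
    obtain ⟨v, hv, w, hw, rfl⟩ := Submodule.mem_sup.1 ha
    refine ⟨⟨v, hv⟩, ?_⟩
    change Submodule.mkQ _ v = Submodule.mkQ _ (v + w)
    rw [map_add]
    have : Submodule.mkQ (core F A ⊔ LinearMap.range (mu F A)) w = 0 := by
      rw [Submodule.mkQ_apply, Submodule.Quotient.mk_eq_zero]
      exact Submodule.mem_sup_right hw
    rw [this, add_zero]
  exact Module.Finite.of_surjective q hsurj

theorem Presenting.rk_eq {V : Submodule F A} (hV : Presenting V) :
    rk F A + Module.finrank F (core F A ⊔ (pre V).map (mu F A) : Submodule F A)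
      = Module.finrank F V := by
  have hfd := hV.fin
  let q : V →ₗ[F] A ⧸ (core F A ⊔ LinearMap.range (mu F A)) :=
    (Submodule.mkQ _) ∘ₗ V.subtype
  have hsurj : Function.Surjective q := by
    intro x
    obtain ⟨a, rfl⟩ := Submodule.mkQ_surjective _ x
    have ha : a ∈ V ⊔ LinearMap.range (mu F A) := by rw [hV.sup_range]; trivial
    obtain ⟨v, hv, w, hw, rfl⟩ := Submodule.mem_sup.1 ha
    refine ⟨⟨v, hv⟩, ?_⟩
    change Submodule.mkQ _ v = Submodule.mkQ _ (v + w)
    rw [map_add]
    have : Submodule.mkQ (core F A ⊔ LinearMap.range (mu F A)) w = 0 := by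
      rw [Submodule.mkQ_apply, Submodule.Quotient.mk_eq_zero]
      exact Submodule.mem_sup_right hw
    rw [this, add_zero]
  have hle : core F A ⊔ (pre V).map (mu F A) ≤ V := by
    apply sup_le hV.core_le
    rintro _ ⟨t, ht, rfl⟩
    exact ht
  have hker : LinearMap.ker q = (core F A ⊔ (pre V).map (mu F A)).comap V.subtype := by
    ext v
    rw [LinearMap.mem_ker, Submodule.mem_comap]
    change Submodule.mkQ _ (v : A) = 0 ↔ (v : A) ∈ _
    rw [Submodule.mkQ_apply, Submodule.Quotient.mk_eq_zero]
    constructor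
    · intro h
      obtain ⟨c, hc', w, ⟨t, rfl⟩, hcw⟩ := Submodule.mem_sup.1 h
      have hcV : c ∈ V := hV.core_le hc'
      have hwV : mu F A t ∈ V := by
        have : mu F A t = (v : A) - c := by rw [← hcw]; abel
        rw [this]; exact V.sub_mem v.2 hcV
      rw [← hcw]
      exact Submodule.add_mem _ (Submodule.mem_sup_left hc')
        (Submodule.mem_sup_right ⟨t, hwV, rfl⟩)
    · intro h
      obtain ⟨c, hc', w, ⟨t, ht, rfl⟩, hcw⟩ := Submodule.mem_sup.1 h
      rw [← hcw]
      exact Submodule.add_mem _ (Submodule.mem_sup_left hc')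
        (Submodule.mem_sup_right ⟨t, rfl⟩)
  have h1 := q.finrank_range_add_finrank_ker
  rw [LinearMap.range_eq_top.2 hsurj, finrank_top, hker,
    (Submodule.comapSubtypeEquivOfLe hle).finrank_eq] at h1
  exact h1

end Desc

section Supp

variable {F : Type*} [Field F] {C : Type*} [AddCommGroup C] [Module F C]
variable {A : Type*} [AddCommGroup A] [Module F A]

lemma supp_map (f : C →ₗ[F] A) (hf : Function.Injective f) (K : Submodule F (C ⊗[F] C)) :
    supp (K.map (TensorProduct.map f f)) = (supp K).map f := by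
  apply le_antisymm
  · rw [supp_le_iff]
    rintro _ ⟨k, hk, rfl⟩
    exact map_mem_sq f (le_sq_supp K hk)
  · rw [Submodule.map_le_iff_le_comap]
    apply Submodule.span_le.2
    obtain ⟨ρ, hρ⟩ := LinearMap.exists_leftInverse_of_injective f (LinearMap.ker_eq_bot.2 hf)
    have hρ' : ∀ c, ρ (f c) = c := fun c => congrArg (fun g => g c) hρ
    have hls : ∀ (g : Module.Dual F C) (k : C ⊗[F] C),
        f (ls g k) = ls (g ∘ₗ ρ) (TensorProduct.map f f k) := by
      intro g k
      induction k using TensorProduct.induction_on with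
      | zero => simp
      | tmul a b => simp [hρ']
      | add x y hx hy => simp only [map_add, hx, hy]
    have hrs : ∀ (g : Module.Dual F C) (k : C ⊗[F] C),
        f (rs g k) = rs (g ∘ₗ ρ) (TensorProduct.map f f k) := by
      intro g k
      induction k using TensorProduct.induction_on with
      | zero => simp
      | tmul a b => simp [hρ']
      | add x y hx hy => simp only [map_add, hx, hy]
    rintro _ ⟨k, hk, g, rfl | rfl⟩
    · rw [SetLike.mem_coe, Submodule.mem_comap, hls]
      exact Submodule.subset_span ⟨_, ⟨k, hk, rfl⟩, _, Or.inl rfl⟩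
    · rw [SetLike.mem_coe, Submodule.mem_comap, hrs]
      exact Submodule.subset_span ⟨_, ⟨k, hk, rfl⟩, _, Or.inr rfl⟩

end Supp

section LQ2

variable {F : Type*} [Field F] {X : Type*} [Fintype X]
variable (ν : (X → F) ⊗[F] (X → F) →ₗ[F] (X → F)) (D : Submodule F ((X → F) ⊗[F] (X → F)))


lemma pre_gen_eq {R : Set (MonoidAlgebra F (FreeMagma X))} (hR : R ⊆ D.map (lqr ν)) (hR' : ∀ d ∈ D, lqr ν d ∈ idealOf R) :
    pre (LinearMap.range (gen R)) = D.map (TensorProduct.map (gen R) (gen R)) := by
  apply le_antisymm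
  · intro t ht
    obtain ⟨d, hd, rfl⟩ := pre_gen ν D hR ht
    exact ⟨d, hd, rfl⟩
  · rintro _ ⟨d, hd, rfl⟩
    rw [mem_pre, mu_gen ν D hR' hd]
    exact ⟨_, rfl⟩

lemma terminal_gen {R : Set (MonoidAlgebra F (FreeMagma X))} (hR : R ⊆ D.map (lqr ν)) (hR' : ∀ d ∈ D, lqr ν d ∈ idealOf R)
    (hsupp : ∀ d ∈ D, ν d ∈ supp D) : Terminal (LinearMap.range (gen R)) := by
  refine ⟨presenting_gen ν D hR, ?_⟩
  rw [pre_gen_eq ν D hR hR', supp_map _ (gen_injective ν D hR)]
  rintro _ ⟨hv, ⟨t, rfl⟩⟩
  obtain ⟨d, hd, rfl⟩ := pre_gen ν D hR (t := t) hv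
  rw [mu_gen ν D hR' hd]
  exact ⟨_, hsupp d hd, rfl⟩

lemma core_gen {R : Set (MonoidAlgebra F (FreeMagma X))} (hR : R ⊆ D.map (lqr ν)) (hR' : ∀ d ∈ D, lqr ν d ∈ idealOf R)
    (hsupp : ∀ d ∈ D, ν d ∈ supp D) : core F (QA R) = (supp D).map (gen R) := by
  rw [(terminal_gen ν D hR hR' hsupp).core_eq, pre_gen_eq ν D hR hR',
    supp_map _ (gen_injective ν D hR)]

lemma mu_gen_iff {R : Set (MonoidAlgebra F (FreeMagma X))} (hR : R ⊆ D.map (lqr ν)) (hR' : ∀ d ∈ D, lqr ν d ∈ idealOf R)
    (s : (X → F) ⊗[F] (X → F)) (c : X → F) :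
    mu F (QA R) (TensorProduct.map (gen R) (gen R) s) = gen R c ↔ s ∈ D ∧ ν s = c := by
  have hinj := gen_injective ν D hR
  constructor
  · intro h
    have h1 : TensorProduct.map (gen R) (gen R) s ∈ pre (LinearMap.range (gen R)) := by
      rw [mem_pre, h]; exact ⟨c, rfl⟩
    obtain ⟨d, hd, hds⟩ := pre_gen ν D hR h1
    obtain ⟨ρ, hρ⟩ := LinearMap.exists_leftInverse_of_injective (gen R)
      (LinearMap.ker_eq_bot.2 hinj)
    have h2 : s = d := by
      have := congrArg (TensorProduct.map ρ ρ) hds
      rw [← LinearMap.comp_apply, ← LinearMap.comp_apply, ← TensorProduct.map_comp, hρ] at this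
      simpa using this
    subst h2
    refine ⟨hd, ?_⟩
    rw [mu_gen ν D hR' hd] at h
    exact hinj h
  · rintro ⟨h, rfl⟩
    exact mu_gen ν D hR' h

lemma rk_gen {R : Set (MonoidAlgebra F (FreeMagma X))} (hR : R ⊆ D.map (lqr ν)) (hR' : ∀ d ∈ D, lqr ν d ∈ idealOf R)
    (hsupp : ∀ d ∈ D, ν d ∈ supp D) :
    rk F (QA R) + Module.finrank F (supp D) = Fintype.card X := by
  have hT := terminal_gen ν D hR hR' hsupp
  have hinj := gen_injective ν D hR
  have h1 := hT.1.rk_eq
  have h2 : core F (QA R) ⊔ (pre (LinearMap.range (gen R))).map (mu F (QA R)) = core F (QA R) := by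
    apply sup_eq_left.2
    rintro _ ⟨t, ht, rfl⟩
    rw [SetLike.mem_coe, ← hT.pre_core] at ht
    exact ht
  rw [h2, core_gen ν D hR hR' hsupp, LinearMap.finrank_range_of_inj hinj,
    Module.finrank_fintype_fun_eq_card] at h1
  rw [← h1]
  congr 1
  exact (LinearEquiv.finrank_eq (Submodule.equivMapOfInjective (gen R) hinj (supp D)))

end LQ2

end Pool.Agent.TH477.NA
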