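import Pool.Agent.TH477.NA.Real

/-! Realisation of reduced partial algebras. -/

set_option autoImplicit false

open TensorProduct

namespace Pool.Agent.TH477.NA

section

variable {F : Type*} [Field F]

/-- inclusion of the first `t` coordinates -/
noncomputable def inc (F : Type*) [Field F] (t r : ℕ) : (Fin t → F) →ₗ[F] (Fin (t + r) → F) where
  toFun v := Fin.append v 0
  map_add' v w := by
    ext i
    refine Fin.addCases (fun j => ?_) (fun j => ?_) i
    · simp
    · simp
  map_smul' c v := by
    ext i
    refine Fin.addCases (fun j => ?_) (fun j => ?_) i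
    · simp
    · simp

/-- restriction to the first `t` coordinates -/
def res (F : Type*) [Field F] (t r : ℕ) : (Fin (t + r) → F) →ₗ[F] (Fin t → F) where
  toFun v i := v (Fin.castAdd r i)
  map_add' _ _ := rfl
  map_smul' _ _ := rfl

lemma res_inc (t r : ℕ) : (res F t r) ∘ₗ (inc F t r) = LinearMap.id := by
  ext v i
  simp [res, inc]

lemma inc_injective (t r : ℕ) : Function.Injective (inc F t r) := by
  intro v w h
  have h1 := congrArg (res F t r) h
  rw [← LinearMap.comp_apply, ← LinearMap.comp_apply, res_inc] at h1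
  exact h1

lemma tmap_injective {C : Type*} [AddCommGroup C] [Module F C] {E : Type*} [AddCommGroup E]
    [Module F E] (f : C →ₗ[F] E) (hf : Function.Injective f) :
    Function.Injective (TensorProduct.map f f) := by
  obtain ⟨ρ, hρ⟩ := LinearMap.exists_leftInverse_of_injective f (LinearMap.ker_eq_bot.2 hf)
  intro x y h
  have := congrArg (TensorProduct.map ρ ρ) h
  rw [← LinearMap.comp_apply, ← LinearMap.comp_apply, ← TensorProduct.map_comp, hρ] at this
  simpa using this

variable {t r : ℕ} (D : Submodule F ((Fin t → F) ⊗[F] (Fin t → F)))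
  (ν : (Fin t → F) ⊗[F] (Fin t → F) →ₗ[F] (Fin t → F))

/-- relation space in `t + r` variables -/
noncomputable def exD (r : ℕ) : Submodule F ((Fin (t + r) → F) ⊗[F] (Fin (t + r) → F)) :=
  D.map (TensorProduct.map (inc F t r) (inc F t r))

/-- total multiplication in `t + r` variables -/
noncomputable def exν (r : ℕ) :
    (Fin (t + r) → F) ⊗[F] (Fin (t + r) → F) →ₗ[F] (Fin (t + r) → F) :=
  (inc F t r) ∘ₗ ν ∘ₗ (TensorProduct.map (res F t r) (res F t r))

lemma exν_map (s : (Fin t → F) ⊗[F] (Fin t → F)) :
    exν ν r (TensorProduct.map (inc F t r) (inc F t r) s) = inc F t r (ν s) := by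
  rw [exν, LinearMap.comp_apply, LinearMap.comp_apply,
    ← LinearMap.comp_apply (TensorProduct.map (res F t r) (res F t r)), ← TensorProduct.map_comp,
    res_inc]
  simp

lemma supp_exD (hD : supp D = ⊤) : supp (exD D r) = LinearMap.range (inc F t r) := by
  rw [exD, supp_map _ (inc_injective t r), hD, Submodule.map_top]

lemma exν_supp (hD : supp D = ⊤) : ∀ d ∈ exD D r, exν ν r d ∈ supp (exD D r) := by
  rintro _ ⟨d, hd, rfl⟩
  rw [exν_map, supp_exD D hD]
  exact ⟨_, rfl⟩

/-- The algebra presented by relations spanning `exD D r` has core `(D, ν)` and rank `r`. -/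
theorem realise {R : Set (MonoidAlgebra F (FreeMagma (Fin (t + r))))} (hD : supp D = ⊤)
    (hR : R ⊆ (exD D r).map (lqr (exν ν r)))
    (hR' : ∀ d ∈ exD D r, lqr (exν ν r) d ∈ idealOf R) :
    rk F (QA R) = r ∧ ∃ κ : (Fin t → F) ≃ₗ[F] core F (QA R), ∀ (s : (Fin t → F) ⊗[F] (Fin t → F))
      (c : Fin t → F),
      mu F (QA R) (TensorProduct.map (core F (QA R)).subtype (core F (QA R)).subtype
        (TensorProduct.map κ.toLinearMap κ.toLinearMap s)) = κ c ↔ s ∈ D ∧ ν s = c := by
  have hs := exν_supp (r := r) D ν hD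
  have hfr : Module.finrank F (supp (exD D r)) = t := by
    rw [supp_exD D hD, LinearMap.finrank_range_of_inj (inc_injective t r),
      Module.finrank_fintype_fun_eq_card, Fintype.card_fin]
  constructor
  · have h1 := rk_gen (exν ν r) (exD D r) hR hR' hs
    rw [hfr, Fintype.card_fin] at h1
    omega
  · have hinj : Function.Injective (gen R ∘ₗ inc F t r) := by
      rw [LinearMap.coe_comp]
      exact (gen_injective (exν ν r) (exD D r) hR).comp (inc_injective t r)
    have hrange : LinearMap.range (gen R ∘ₗ inc F t r) = core F (QA R) := by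
      rw [core_gen (exν ν r) (exD D r) hR hR' hs, supp_exD D hD, LinearMap.range_comp]
    let κ : (Fin t → F) ≃ₗ[F] core F (QA R) :=
      (LinearEquiv.ofInjective _ hinj).trans (LinearEquiv.ofEq _ _ hrange)
    have hκ : ∀ c, ((κ c : core F (QA R)) : QA R) = gen R (inc F t r c) := fun c => rfl
    refine ⟨κ, ?_⟩
    intro s c
    have h1 : TensorProduct.map (core F (QA R)).subtype (core F (QA R)).subtype
        (TensorProduct.map κ.toLinearMap κ.toLinearMap s) =
        TensorProduct.map (gen R) (gen R) (TensorProduct.map (inc F t r) (inc F t r) s) := by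
      rw [← LinearMap.comp_apply (TensorProduct.map (core F (QA R)).subtype _),
        ← TensorProduct.map_comp, ← LinearMap.comp_apply (TensorProduct.map (gen R) _),
        ← TensorProduct.map_comp]
      rfl
    rw [h1, hκ, mu_gen_iff (exν ν r) (exD D r) hR hR', exν_map, (inc_injective t r).eq_iff]
    refine and_congr_left fun _ => ?_
    rw [exD]
    exact ⟨fun ⟨d, hd, h⟩ => (tmap_injective _ (inc_injective t r) h) ▸ hd,
      fun h => ⟨s, h, rfl⟩⟩

lemma exists_finset_rel {X : Type*} [Fintype X] (D : Submodule F ((X → F) ⊗[F] (X → F)))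
    (ν : (X → F) ⊗[F] (X → F) →ₗ[F] (X → F)) :
    ∃ R : Finset (MonoidAlgebra F (FreeMagma X)),
      (R : Set (MonoidAlgebra F (FreeMagma X))) ⊆ (D.map (lqr ν) : Set _) ∧
      ∀ d ∈ D, lqr ν d ∈ idealOf (R : Set (MonoidAlgebra F (FreeMagma X))) := by
  classical
  obtain ⟨s, hs⟩ := (Submodule.fg_iff_finiteDimensional D).2 inferInstance
  refine ⟨s.image (lqr ν), ?_, ?_⟩
  · intro x hx
    rw [Finset.coe_image] at hx
    obtain ⟨d, hd, rfl⟩ := hx
    exact ⟨d, by rw [← hs]; exact Submodule.subset_span hd, rfl⟩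
  · have : D ≤ (idealOf ((s.image (lqr ν) : Finset _) :
        Set (MonoidAlgebra F (FreeMagma X)))).comap (lqr ν) := by
      rw [← hs]
      apply Submodule.span_le.2
      intro d hd
      rw [SetLike.mem_coe, Submodule.mem_comap]
      apply subset_idealOf
      rw [Finset.coe_image]
      exact ⟨d, hd, rfl⟩
    exact this

lemma finPres_QA {n : ℕ} (R : Finset (MonoidAlgebra F (FreeMagma (Fin n)))) :
    FinPres F (QA (R : Set (MonoidAlgebra F (FreeMagma (Fin n))))) :=
  ⟨n, R, qpr _, qpr_surjective _, qpr_mul _, qpr_ker _⟩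

end

end Pool.Agent.TH477.NA
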