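import Pool.Agent.TH477.NA.Core

/-! The universal property of a presenting subspace. -/

set_option autoImplicit false

open TensorProduct

namespace Pool.Agent.TH477.NA

variable {F : Type*} [Field F]
variable {A : Type*} [NonUnitalNonAssocRing A] [Module F A] [IsScalarTower F A A]
  [SMulCommClass F A A]
variable {B : Type*} [NonUnitalNonAssocRing B] [Module F B] [IsScalarTower F B B]
  [SMulCommClass F B B]

lemma mu_natural (f : A →ₗ[F] B) (hf : ∀ a b, f (a * b) = f a * f b) (t : A ⊗[F] A) :
    f (mu F A t) = mu F B (TensorProduct.map f f t) := by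
  induction t using TensorProduct.induction_on with
  | zero => simp
  | tmul a b => simp [hf]
  | add x y hx hy => simp only [map_add, hx, hy]

lemma mu_fst (s : (A × B) ⊗[F] (A × B)) :
    (mu F (A × B) s).1 = mu F A (TensorProduct.map (LinearMap.fst F A B) (LinearMap.fst F A B) s) :=
  mu_natural (LinearMap.fst F A B) (fun _ _ => rfl) s

lemma mu_snd (s : (A × B) ⊗[F] (A × B)) :
    (mu F (A × B) s).2 = mu F B (TensorProduct.map (LinearMap.snd F A B) (LinearMap.snd F A B) s) :=
  mu_natural (LinearMap.snd F A B) (fun _ _ => rfl) s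

/-- two linear maps agreeing after a map injective on a subspace -/
lemma map_inj_on_sq {C : Type*} [AddCommGroup C] [Module F C] {D : Type*} [AddCommGroup D]
    [Module F D] (f : C →ₗ[F] D) (G : Submodule F C)
    (hf : ∀ g ∈ G, f g = 0 → g = 0) {s s' : C ⊗[F] C} (hs : s ∈ sq G) (hs' : s' ∈ sq G)
    (h : TensorProduct.map f f s = TensorProduct.map f f s') : s = s' := by
  have hker : LinearMap.ker (f ∘ₗ G.subtype) = ⊥ := by
    rw [LinearMap.ker_eq_bot']
    intro g hg
    exact Subtype.ext (hf g g.2 hg)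
  obtain ⟨ρ, hρ⟩ := LinearMap.exists_leftInverse_of_injective (f ∘ₗ G.subtype) hker
  obtain ⟨x, rfl⟩ := hs
  obtain ⟨y, rfl⟩ := hs'
  have key : ∀ z : G ⊗[F] G, TensorProduct.map ρ ρ (TensorProduct.map f f
      (TensorProduct.map G.subtype G.subtype z)) = z := by
    intro z
    rw [← LinearMap.comp_apply (TensorProduct.map f f), ← TensorProduct.map_comp,
      ← LinearMap.comp_apply, ← TensorProduct.map_comp, hρ]
    simp
  have := congrArg (TensorProduct.map ρ ρ) h
  rw [key, key] at this
  rw [this]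

theorem Presenting.exists_hom {V : Submodule F A} (hV : Presenting V) (φ : V →ₗ[F] B)
    (hφ : ∀ (s : V ⊗[F] V) (hs : mu F A (TensorProduct.map V.subtype V.subtype s) ∈ V),
      φ ⟨_, hs⟩ = mu F B (TensorProduct.map φ φ s)) :
    ∃ Φ : A →ₗ[F] B, (∀ a b, Φ (a * b) = Φ a * Φ b) ∧ ∀ v : V, Φ v = φ v := by
  let γ : V →ₗ[F] A × B := V.subtype.prod φ
  let G0 : Submodule F (A × B) := LinearMap.range γ
  have hG0V : ∀ v : V, ((v : A), φ v) ∈ G0 := fun v => ⟨v, rfl⟩
  have claim : ∀ n : ℕ, ∀ g ∈ fil G0 n, LinearMap.fst F A B g = 0 → g = 0 := by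
    intro n
    induction n with
    | zero =>
      rintro g ⟨v, rfl⟩ hg
      have hv : v = 0 := Subtype.ext hg
      rw [hv, map_zero]
    | succ n ih =>
      intro g hg hg0
      obtain ⟨g0, ⟨v, rfl⟩, w, ⟨s, hs, rfl⟩, rfl⟩ := Submodule.mem_sup.1 hg
      have h1 : (v : A) + mu F A (TensorProduct.map (LinearMap.fst F A B)
          (LinearMap.fst F A B) s) = 0 := by
        rw [← mu_fst]
        exact hg0
      have h2 : mu F A (TensorProduct.map (LinearMap.fst F A B)
          (LinearMap.fst F A B) s) = -(v : A) := by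
        rw [eq_neg_iff_add_eq_zero, add_comm]; exact h1
      have h3 : TensorProduct.map (LinearMap.fst F A B) (LinearMap.fst F A B) s ∈ pre V := by
        rw [mem_pre, h2]
        exact V.neg_mem v.2
      obtain ⟨s', hs'⟩ := hV.pre_le h3
      have hcomp : TensorProduct.map (LinearMap.fst F A B) (LinearMap.fst F A B)
          (TensorProduct.map γ γ s') = TensorProduct.map V.subtype V.subtype s' := by
        rw [← LinearMap.comp_apply, ← TensorProduct.map_comp]
        rfl
      have hs0 : TensorProduct.map γ γ s' ∈ sq (fil G0 n) := by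
        have : TensorProduct.map γ γ s' ∈ sq G0 := by
          refine ⟨TensorProduct.map γ.rangeRestrict γ.rangeRestrict s', ?_⟩
          rw [← LinearMap.comp_apply, ← TensorProduct.map_comp]
          rfl
        exact sq_mono (le_fil G0 n) this
      have hss : s = TensorProduct.map γ γ s' := by
        apply map_inj_on_sq (LinearMap.fst F A B) (fil G0 n) ih hs hs0
        rw [hcomp, hs']
      have hcomp2 : TensorProduct.map (LinearMap.snd F A B) (LinearMap.snd F A B)
          (TensorProduct.map γ γ s') = TensorProduct.map φ φ s' := by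
        rw [← LinearMap.comp_apply, ← TensorProduct.map_comp]
        rfl
      have hmem : mu F A (TensorProduct.map V.subtype V.subtype s') ∈ V := by
        rw [hs', h2]; exact V.neg_mem v.2
      have h4 := hφ s' hmem
      have h5 : (⟨_, hmem⟩ : V) = -v := by
        apply Subtype.ext
        change mu F A (TensorProduct.map V.subtype V.subtype s') = -(v : A)
        rw [hs', h2]
      rw [h5, map_neg] at h4
      apply Prod.ext
      · exact hg0
      · change φ v + (mu F (A × B) s).2 = 0
        rw [mu_snd, hss, hcomp2, ← h4, add_neg_cancel]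
  let G : Submodule F (A × B) := ⨆ n, fil G0 n
  have hmemG : ∀ g, g ∈ G ↔ ∃ n, g ∈ fil G0 n := fun g =>
    Submodule.mem_iSup_of_directed _ (fil_mono G0).directed_le
  have hGmul : ∀ g ∈ G, ∀ h ∈ G, g * h ∈ G := by
    intro g hg h hh
    rw [hmemG] at hg hh ⊢
    obtain ⟨n, hn⟩ := hg
    obtain ⟨k, hk⟩ := hh
    exact ⟨max n k + 1, mul_mem_fil (fil_mono G0 (le_max_left n k) hn)
      (fil_mono G0 (le_max_right n k) hk)⟩
  have hGinj : ∀ g ∈ G, g.1 = 0 → g = 0 := by
    intro g hg h
    obtain ⟨n, hn⟩ := (hmemG g).1 hg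
    exact claim n g hn h
  have hGsurj : G.map (LinearMap.fst F A B) = ⊤ := by
    apply hV.gen
    · intro v hv
      exact ⟨(v, φ ⟨v, hv⟩), (hmemG _).2 ⟨0, hG0V ⟨v, hv⟩⟩, rfl⟩
    · rintro _ ⟨g, hg, rfl⟩ _ ⟨h, hh, rfl⟩
      exact ⟨g * h, hGmul g hg h hh, rfl⟩
  let p : G →ₗ[F] A := (LinearMap.fst F A B) ∘ₗ G.subtype
  have hp : Function.Bijective p := by
    constructor
    · rw [← LinearMap.ker_eq_bot, LinearMap.ker_eq_bot']
      intro g hg
      exact Subtype.ext (hGinj g g.2 hg)
    · intro a
      have : a ∈ G.map (LinearMap.fst F A B) := by rw [hGsurj]; trivial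
      obtain ⟨g, hg, rfl⟩ := this
      exact ⟨⟨g, hg⟩, rfl⟩
  let e := LinearEquiv.ofBijective p hp
  let Φ : A →ₗ[F] B := (LinearMap.snd F A B) ∘ₗ G.subtype ∘ₗ e.symm.toLinearMap
  have hgraph : ∀ a : A, (a, Φ a) ∈ G := by
    intro a
    have h1 : ((e.symm a : G) : A × B).1 = a := by
      have := e.apply_symm_apply a
      exact this
    have h2 : ((e.symm a : G) : A × B) = (a, Φ a) := Prod.ext h1 rfl
    rw [← h2]
    exact (e.symm a).2
  have huniq : ∀ (a : A) (b : B), (a, b) ∈ G → Φ a = b := by
    intro a b hab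
    have h1 := G.sub_mem (hgraph a) hab
    have h2 := hGinj _ h1 (by simp)
    have h3 := congrArg Prod.snd h2
    simpa [sub_eq_zero] using h3
  refine ⟨Φ, ?_, ?_⟩
  · intro a b
    exact huniq _ _ (hGmul _ (hgraph a) _ (hgraph b))
  · intro v
    exact huniq _ _ ((hmemG _).2 ⟨0, hG0V v⟩)

/-- homomorphisms agreeing on a presenting subspace agree -/
lemma Presenting.hom_ext {V : Submodule F A} (hV : Presenting V) {f g : A →ₗ[F] B}
    (hf : ∀ a b, f (a * b) = f a * f b) (hg : ∀ a b, g (a * b) = g a * g b)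
    (h : ∀ v ∈ V, f v = g v) : f = g := by
  have := hV.gen (LinearMap.eqLocus f g) h (by
    intro a ha b hb
    change f (a * b) = g (a * b)
    rw [hf, hg]
    rw [show f a = g a from ha, show f b = g b from hb])
  ext a
  have ha : a ∈ LinearMap.eqLocus f g := by rw [this]; trivial
  exact ha

end Pool.Agent.TH477.NA
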